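import Pool.Agent.Lib.MP_32d917_al.UNIQ

/-!
# The automorphism group of a labelled product
-/

set_option autoImplicit false

namespace LatIso

section AUT

variable {P A B : Type} {X : Dat P A B} {V W : Type} {S : SimpleGraph V} {T : SimpleGraph W}

/-- label preserving pairs of permutations -/
def autSub (L : LP X S T) : Subgroup (Equiv.Perm V × Equiv.Perm W) where
  carrier := {k | (∀ x y, S.Adj (k.1 x) (k.1 y) ↔ S.Adj x y) ∧
    (∀ x y, T.Adj (k.2 x) (k.2 y) ↔ T.Adj x y) ∧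
    (∀ x y, L.p (k.1 x) (k.2 y) = L.p x y) ∧
    (∀ x x' y, S.Adj x x' → L.al (k.1 x) (k.1 x') (k.2 y) = L.al x x' y) ∧
    (∀ x y y', T.Adj y y' → L.be (k.1 x) (k.2 y) (k.2 y') = L.be x y y')}
  one_mem' := ⟨fun _ _ => Iff.rfl, fun _ _ => Iff.rfl, fun _ _ => rfl, fun _ _ _ _ => rfl,
    fun _ _ _ _ => rfl⟩
  mul_mem' := by
    rintro a b ⟨a1, a2, a3, a4, a5⟩ ⟨b1, b2, b3, b4, b5⟩
    refine ⟨fun x y => ?_, fun x y => ?_, fun x y => ?_, fun x x' y h => ?_, fun x y y' h => ?_⟩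
    · exact (a1 _ _).trans (b1 _ _)
    · exact (a2 _ _).trans (b2 _ _)
    · exact (a3 _ _).trans (b3 _ _)
    · exact (a4 _ _ _ ((b1 _ _).2 h)).trans (b4 _ _ _ h)
    · exact (a5 _ _ _ ((b2 _ _).2 h)).trans (b5 _ _ _ h)
  inv_mem' := by
    rintro a ⟨a1, a2, a3, a4, a5⟩
    have i1 : ∀ x, a.1 (a⁻¹.1 x) = x := fun x => by
      show a.1 (a.1⁻¹ x) = x
      exact Equiv.apply_symm_apply _ _
    have i2 : ∀ x, a.2 (a⁻¹.2 x) = x := fun x => by
      show a.2 (a.2⁻¹ x) = x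
      exact Equiv.apply_symm_apply _ _
    refine ⟨fun x y => ?_, fun x y => ?_, fun x y => ?_, fun x x' y h => ?_, fun x y y' h => ?_⟩
    · rw [← a1, i1, i1]
    · rw [← a2, i2, i2]
    · rw [← a3, i1, i2]
    · rw [← a4 _ _ _ ((a1 _ _).1 (by rw [i1, i1]; exact h)), i1, i1, i2]
    · rw [← a5 _ _ _ ((a2 _ _).1 (by rw [i2, i2]; exact h)), i1, i2, i2]

instance autActV (L : LP X S T) : MulAction (autSub L) V where
  smul k v := k.1.1 v
  one_smul _ := rfl
  mul_smul _ _ _ := rfl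

instance autActW (L : LP X S T) : MulAction (autSub L) W where
  smul k v := k.1.2 v
  one_smul _ := rfl
  mul_smul _ _ _ := rfl

theorem lp_aut (hX : Valid X) (hS : S.IsTree) (hT : T.IsTree) (L : LP X S T)
    (hon : ∀ q, ∃ v w, L.p v w = q) :
    ∃ (G : Type) (_ : Group G) (_ : MulAction G V) (_ : MulAction G W), Cov G L := by
  refine ⟨autSub L, inferInstance, autActV L, autActW L, ?_⟩
  refine ⟨?_, ?_, ?_, ?_, ?_, ?_, ?_, hon⟩
  · exact fun g x y h => (g.2.1 x y).2 h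
  · exact fun g x y h => (g.2.2.1 x y).2 h
  · exact fun g v w => g.2.2.2.1 v w
  · exact fun g v v' w h => g.2.2.2.2.1 v v' w h
  · exact fun g v w w' h => g.2.2.2.2.2 v w w' h
  · intro g v w hv hw
    obtain ⟨r1, r2⟩ := lp_rigid hS.connected hT.connected L (fun x => g.1.1 x)
      (fun y => g.1.2 y) (fun x y h => (g.2.1 x y).2 h) (fun x y h => (g.2.2.1 x y).2 h)
      (fun x x' y h => g.2.2.2.2.1 x x' y h) (fun x y y' h => g.2.2.2.2.2 x y y' h) v w hv hw
    apply Subtype.ext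
    apply Prod.ext
    · exact Equiv.ext r1
    · exact Equiv.ext r2
  · intro v w v' w' h
    obtain ⟨f, g, h1, h2, h3, h4, h5, h6, h7⟩ := lp_uniq hX hS hT hS hT L L v w v' w' h
    exact ⟨⟨(f, g), fun x y => (h3 x y).symm, fun x y => (h4 x y).symm, h5, h6, h7⟩, h1, h2⟩

end AUT

end LatIso
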