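import Pool.Agent.Lib.MP_32d917_al.CODE2

/-!
# Codes: surjectivity of the decoding, closed lists, spanning trees
-/

set_option autoImplicit false

namespace LatIso

namespace CB

theorem exists_dig_bd (s : ℕ × ℕ × ℕ) (n m : ℕ) (hn : n ≤ s.1 + s.2.1 + s.2.2)
    (hm : m + 1 ≤ (s.2.1 + 1) * (s.2.2 + 1)) (F : Fin (m + 1) → Fin (n + 1)) :
    ∃ w < bd s, ∀ a : Fin (m + 1), dig n w a = F a := by
  obtain ⟨w, hw, h⟩ := exists_dig n m F
  refine ⟨w, lt_of_lt_of_le hw ?_, h⟩
  unfold bd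
  calc (n + 1) ^ (m + 1) ≤ (s.1 + s.2.1 + s.2.2 + 1) ^ (m + 1) :=
        Nat.pow_le_pow_left (by omega) _
    _ ≤ _ := Nat.pow_le_pow_right (by omega) hm

theorem exists_dig2_bd (s : ℕ × ℕ × ℕ) (n : ℕ) (hn : n ≤ s.1 + s.2.1 + s.2.2)
    (F : Fin (s.2.1 + 1) → Fin (s.2.2 + 1) → Fin (n + 1)) :
    ∃ w < bd s, ∀ (a : Fin (s.2.1 + 1)) (b : Fin (s.2.2 + 1)),
      dig n w (a * (s.2.2 + 1) + b) = F a b := by
  obtain ⟨w, hw, h⟩ := exists_dg n
    (fun t => if ht : t / (s.2.2 + 1) < s.2.1 + 1 then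
      ((F ⟨t / (s.2.2 + 1), ht⟩ ⟨t % (s.2.2 + 1), Nat.mod_lt _ (Nat.succ_pos _)⟩ : Fin (n + 1)) : ℕ)
      else 0)
    (fun t => by
      split_ifs with h
      · exact Fin.isLt _
      · exact Nat.succ_pos n) ((s.2.1 + 1) * (s.2.2 + 1))
  refine ⟨w, lt_of_lt_of_le hw ?_, fun a b => ?_⟩
  · unfold bd
    exact Nat.pow_le_pow_left (by omega) _
  · have h1 : (a : ℕ) * (s.2.2 + 1) + b < (s.2.1 + 1) * (s.2.2 + 1) := by
      have := a.2
      have := b.2
      calc (a : ℕ) * (s.2.2 + 1) + b < (a : ℕ) * (s.2.2 + 1) + (s.2.2 + 1) := by omega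
        _ = ((a : ℕ) + 1) * (s.2.2 + 1) := by ring
        _ ≤ _ := Nat.mul_le_mul_right _ (by omega)
    have h2 : ((a : ℕ) * (s.2.2 + 1) + b) / (s.2.2 + 1) = a := by
      rw [Nat.mul_comm, Nat.mul_add_div (Nat.succ_pos _), Nat.div_eq_of_lt b.2]
      simp
    have h3 : ((a : ℕ) * (s.2.2 + 1) + b) % (s.2.2 + 1) = b := by
      rw [Nat.mul_comm, Nat.mul_add_mod]
      exact Nat.mod_eq_of_lt b.2
    apply Fin.ext
    rw [dig_val, h _ h1, dif_pos (by rw [h2]; exact a.2)]
    congr 2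
    · exact Fin.ext h2
    · exact Fin.ext h3

theorem bd_p : Primrec bd := by
  unfold bd
  (repeat' (with_reducible first | assumption | exact CB.p_id | exact Primrec.const _ | exact CB.pp_const _ | apply CB.p_fst | apply CB.p_snd | apply CB.p_pair | apply CB.p_add | apply CB.p_sub | apply CB.p_mul | apply CB.p_div | apply CB.p_mod | apply CB.p_pow | apply CB.p_oA | apply CB.p_oB | apply CB.p_iA | apply CB.p_iB | apply CB.p_tr | apply CB.p_tl | apply CB.p_dg | apply CB.pp_all | apply CB.pp_ex | apply CB.pp_all_mem | apply CB.pp_ex_mem | apply CB.pp_and | apply CB.pp_or | apply CB.pp_not | apply CB.pp_iff | apply CB.pp_imp | apply CB.pp_eq | apply CB.pp_lt | apply CB.pp_le | apply CB.pp_mem))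

theorem cstep_p' {β : Type} [Primcodable β] {f g : β → Code} (hf : Primrec f) (hg : Primrec g) :
    PrimrecPred (fun x => CStep (f x) (g x)) :=
  cstep_p.comp (p_pair hf hg)

/-- a bounded version of the closure condition -/
def ClosedAt (l : List Code) (x : Code) (s : ℕ × ℕ × ℕ) : Prop :=
  ∀ t1 < bd s, ∀ t2 < bd s, ∀ t3 < bd s, ∀ t4 < bd s, ∀ t5 < bd s, ∀ t6 < bd s,
    CStep x (s, (t1, t2, t3, t4, t5, t6)) → (s, (t1, t2, t3, t4, t5, t6)) ∈ l

theorem closedAt_iff (l : List Code) (x : Code) (s : ℕ × ℕ × ℕ) :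
    ClosedAt l x s ↔ ∀ t, InBox s t → CStep x (s, t) → (s, t) ∈ l := by
  constructor
  · rintro h ⟨t1, t2, t3, t4, t5, t6⟩ ⟨h1, h2, h3, h4, h5, h6⟩ h7
    exact h t1 h1 t2 h2 t3 h3 t4 h4 t5 h5 t6 h6 h7
  · intro h t1 h1 t2 h2 t3 h3 t4 h4 t5 h5 t6 h6 h7
    exact h _ ⟨h1, h2, h3, h4, h5, h6⟩ h7

theorem closedAt_p : PrimrecPred (fun x : List Code × Code × ℕ × ℕ × ℕ =>
    ClosedAt x.1 x.2.1 x.2.2) := by
  unfold ClosedAt
  have hb : ∀ {β : Type} [Primcodable β] {f : β → ℕ × ℕ × ℕ}, Primrec f →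
    Primrec (fun x => bd (f x)) := fun hf => bd_p.comp hf
  apply pp_all
  · apply hb; (repeat' (with_reducible first | assumption | exact CB.p_id | exact Primrec.const _ | exact CB.pp_const _ | apply CB.p_fst | apply CB.p_snd | apply CB.p_pair | apply CB.p_add | apply CB.p_sub | apply CB.p_mul | apply CB.p_div | apply CB.p_mod | apply CB.p_pow | apply CB.p_oA | apply CB.p_oB | apply CB.p_iA | apply CB.p_iB | apply CB.p_tr | apply CB.p_tl | apply CB.p_dg | apply CB.pp_all | apply CB.pp_ex | apply CB.pp_all_mem | apply CB.pp_ex_mem | apply CB.pp_and | apply CB.pp_or | apply CB.pp_not | apply CB.pp_iff | apply CB.pp_imp | apply CB.pp_eq | apply CB.pp_lt | apply CB.pp_le | apply CB.pp_mem))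
  apply pp_all
  · apply hb; (repeat' (with_reducible first | assumption | exact CB.p_id | exact Primrec.const _ | exact CB.pp_const _ | apply CB.p_fst | apply CB.p_snd | apply CB.p_pair | apply CB.p_add | apply CB.p_sub | apply CB.p_mul | apply CB.p_div | apply CB.p_mod | apply CB.p_pow | apply CB.p_oA | apply CB.p_oB | apply CB.p_iA | apply CB.p_iB | apply CB.p_tr | apply CB.p_tl | apply CB.p_dg | apply CB.pp_all | apply CB.pp_ex | apply CB.pp_all_mem | apply CB.pp_ex_mem | apply CB.pp_and | apply CB.pp_or | apply CB.pp_not | apply CB.pp_iff | apply CB.pp_imp | apply CB.pp_eq | apply CB.pp_lt | apply CB.pp_le | apply CB.pp_mem))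
  apply pp_all
  · apply hb; (repeat' (with_reducible first | assumption | exact CB.p_id | exact Primrec.const _ | exact CB.pp_const _ | apply CB.p_fst | apply CB.p_snd | apply CB.p_pair | apply CB.p_add | apply CB.p_sub | apply CB.p_mul | apply CB.p_div | apply CB.p_mod | apply CB.p_pow | apply CB.p_oA | apply CB.p_oB | apply CB.p_iA | apply CB.p_iB | apply CB.p_tr | apply CB.p_tl | apply CB.p_dg | apply CB.pp_all | apply CB.pp_ex | apply CB.pp_all_mem | apply CB.pp_ex_mem | apply CB.pp_and | apply CB.pp_or | apply CB.pp_not | apply CB.pp_iff | apply CB.pp_imp | apply CB.pp_eq | apply CB.pp_lt | apply CB.pp_le | apply CB.pp_mem))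
  apply pp_all
  · apply hb; (repeat' (with_reducible first | assumption | exact CB.p_id | exact Primrec.const _ | exact CB.pp_const _ | apply CB.p_fst | apply CB.p_snd | apply CB.p_pair | apply CB.p_add | apply CB.p_sub | apply CB.p_mul | apply CB.p_div | apply CB.p_mod | apply CB.p_pow | apply CB.p_oA | apply CB.p_oB | apply CB.p_iA | apply CB.p_iB | apply CB.p_tr | apply CB.p_tl | apply CB.p_dg | apply CB.pp_all | apply CB.pp_ex | apply CB.pp_all_mem | apply CB.pp_ex_mem | apply CB.pp_and | apply CB.pp_or | apply CB.pp_not | apply CB.pp_iff | apply CB.pp_imp | apply CB.pp_eq | apply CB.pp_lt | apply CB.pp_le | apply CB.pp_mem))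
  apply pp_all
  · apply hb; (repeat' (with_reducible first | assumption | exact CB.p_id | exact Primrec.const _ | exact CB.pp_const _ | apply CB.p_fst | apply CB.p_snd | apply CB.p_pair | apply CB.p_add | apply CB.p_sub | apply CB.p_mul | apply CB.p_div | apply CB.p_mod | apply CB.p_pow | apply CB.p_oA | apply CB.p_oB | apply CB.p_iA | apply CB.p_iB | apply CB.p_tr | apply CB.p_tl | apply CB.p_dg | apply CB.pp_all | apply CB.pp_ex | apply CB.pp_all_mem | apply CB.pp_ex_mem | apply CB.pp_and | apply CB.pp_or | apply CB.pp_not | apply CB.pp_iff | apply CB.pp_imp | apply CB.pp_eq | apply CB.pp_lt | apply CB.pp_le | apply CB.pp_mem))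
  apply pp_all
  · apply hb; (repeat' (with_reducible first | assumption | exact CB.p_id | exact Primrec.const _ | exact CB.pp_const _ | apply CB.p_fst | apply CB.p_snd | apply CB.p_pair | apply CB.p_add | apply CB.p_sub | apply CB.p_mul | apply CB.p_div | apply CB.p_mod | apply CB.p_pow | apply CB.p_oA | apply CB.p_oB | apply CB.p_iA | apply CB.p_iB | apply CB.p_tr | apply CB.p_tl | apply CB.p_dg | apply CB.pp_all | apply CB.pp_ex | apply CB.pp_all_mem | apply CB.pp_ex_mem | apply CB.pp_and | apply CB.pp_or | apply CB.pp_not | apply CB.pp_iff | apply CB.pp_imp | apply CB.pp_eq | apply CB.pp_lt | apply CB.pp_le | apply CB.pp_mem))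
  apply pp_imp
  · apply cstep_p' <;> (repeat' (with_reducible first | assumption | exact CB.p_id | exact Primrec.const _ | exact CB.pp_const _ | apply CB.p_fst | apply CB.p_snd | apply CB.p_pair | apply CB.p_add | apply CB.p_sub | apply CB.p_mul | apply CB.p_div | apply CB.p_mod | apply CB.p_pow | apply CB.p_oA | apply CB.p_oB | apply CB.p_iA | apply CB.p_iB | apply CB.p_tr | apply CB.p_tl | apply CB.p_dg | apply CB.pp_all | apply CB.pp_ex | apply CB.pp_all_mem | apply CB.pp_ex_mem | apply CB.pp_and | apply CB.pp_or | apply CB.pp_not | apply CB.pp_iff | apply CB.pp_imp | apply CB.pp_eq | apply CB.pp_lt | apply CB.pp_le | apply CB.pp_mem))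
  · (repeat' (with_reducible first | assumption | exact CB.p_id | exact Primrec.const _ | exact CB.pp_const _ | apply CB.p_fst | apply CB.p_snd | apply CB.p_pair | apply CB.p_add | apply CB.p_sub | apply CB.p_mul | apply CB.p_div | apply CB.p_mod | apply CB.p_pow | apply CB.p_oA | apply CB.p_oB | apply CB.p_iA | apply CB.p_iB | apply CB.p_tr | apply CB.p_tl | apply CB.p_dg | apply CB.pp_all | apply CB.pp_ex | apply CB.pp_all_mem | apply CB.pp_ex_mem | apply CB.pp_and | apply CB.pp_or | apply CB.pp_not | apply CB.pp_iff | apply CB.pp_imp | apply CB.pp_eq | apply CB.pp_lt | apply CB.pp_le | apply CB.pp_mem))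

/-- number version of `Span` -/
def SpN (X : Code) (p d : ℕ) (r : List ℕ) : Prop :=
  (∀ q < X.1.1 + 1, ∀ a < X.1.2.1 + 1, ¬ q = p % (X.1.1 + 1) →
    d / ((X.1.2.1 + 1) + (X.1.2.2 + 1)) ^ q % ((X.1.2.1 + 1) + (X.1.2.2 + 1)) = a →
    oA X (iA X a) = q ∧ r.getD (oA X a) 0 < r.getD q 0) ∧
  (∀ q < X.1.1 + 1, ∀ b < X.1.2.2 + 1, ¬ q = p % (X.1.1 + 1) →
    d / ((X.1.2.1 + 1) + (X.1.2.2 + 1)) ^ q % ((X.1.2.1 + 1) + (X.1.2.2 + 1)) =
      (X.1.2.1 + 1) + b →
    oB X (iB X b) = q ∧ r.getD (oB X b) 0 < r.getD q 0)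

theorem p_getD {β : Type} [Primcodable β] {f : β → List ℕ} {g : β → ℕ} (hf : Primrec f)
    (hg : Primrec g) : Primrec (fun x => (f x).getD (g x) 0) :=
  (Primrec.list_getD 0).comp hf hg

theorem spN_p : PrimrecPred (fun x : Code × ℕ × ℕ × List ℕ => SpN x.1 x.2.1 x.2.2.1 x.2.2.2) := by
  unfold SpN
  (repeat' (with_reducible first | assumption | exact CB.p_id | exact Primrec.const _ | exact CB.pp_const _ | apply CB.p_fst | apply CB.p_snd | apply CB.p_pair | apply CB.p_add | apply CB.p_sub | apply CB.p_mul | apply CB.p_div | apply CB.p_mod | apply CB.p_pow | apply CB.p_oA | apply CB.p_oB | apply CB.p_iA | apply CB.p_iB | apply CB.p_tr | apply CB.p_tl | apply CB.p_dg | apply CB.pp_all | apply CB.pp_ex | apply CB.pp_all_mem | apply CB.pp_ex_mem | apply CB.pp_and | apply CB.pp_or | apply CB.pp_not | apply CB.pp_iff | apply CB.pp_imp | apply CB.pp_eq | apply CB.pp_lt | apply CB.pp_le | apply CB.pp_mem))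
  all_goals apply p_getD <;> (repeat' (with_reducible first | assumption | exact CB.p_id | exact Primrec.const _ | exact CB.pp_const _ | apply CB.p_fst | apply CB.p_snd | apply CB.p_pair | apply CB.p_add | apply CB.p_sub | apply CB.p_mul | apply CB.p_div | apply CB.p_mod | apply CB.p_pow | apply CB.p_oA | apply CB.p_oB | apply CB.p_iA | apply CB.p_iB | apply CB.p_tr | apply CB.p_tl | apply CB.p_dg | apply CB.pp_all | apply CB.pp_ex | apply CB.pp_all_mem | apply CB.pp_ex_mem | apply CB.pp_and | apply CB.pp_or | apply CB.pp_not | apply CB.pp_iff | apply CB.pp_imp | apply CB.pp_eq | apply CB.pp_lt | apply CB.pp_le | apply CB.pp_mem))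

theorem decd_inl (s : ℕ × ℕ × ℕ) (d : ℕ) (q : Fin (s.1 + 1)) (a : Fin (s.2.1 + 1)) :
    decd s d q = Sum.inl a ↔
      d / ((s.2.1 + 1) + (s.2.2 + 1)) ^ (q : ℕ) % ((s.2.1 + 1) + (s.2.2 + 1)) = a := by
  unfold decd
  rw [Equiv.symm_apply_eq, finSumFinEquiv_apply_left, Fin.ext_iff]
  rfl

theorem decd_inr (s : ℕ × ℕ × ℕ) (d : ℕ) (q : Fin (s.1 + 1)) (b : Fin (s.2.2 + 1)) :
    decd s d q = Sum.inr b ↔
      d / ((s.2.1 + 1) + (s.2.2 + 1)) ^ (q : ℕ) % ((s.2.1 + 1) + (s.2.2 + 1)) =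
        (s.2.1 + 1) + b := by
  unfold decd
  rw [Equiv.symm_apply_eq, finSumFinEquiv_apply_right, Fin.ext_iff]
  rfl

theorem span_iff (x : Code) (p d : ℕ) (r : List ℕ) :
    Span (dec x.1 x.2) (decp x.1 p) (decd x.1 d) (fun q => r.getD q 0) ↔ SpN x p d r := by
  have e : Span (dec x.1 x.2) (decp x.1 p) (decd x.1 d) (fun q => r.getD q 0) ↔
      (∀ (q : Fin (x.1.1 + 1)) (a : Fin (x.1.2.1 + 1)), ¬ q = decp x.1 p →
        decd x.1 d q = Sum.inl a → (dec x.1 x.2).oA ((dec x.1 x.2).iA a) = q ∧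
          r.getD ((dec x.1 x.2).oA a) 0 < r.getD q 0) ∧
      (∀ (q : Fin (x.1.1 + 1)) (b : Fin (x.1.2.2 + 1)), ¬ q = decp x.1 p →
        decd x.1 d q = Sum.inr b → (dec x.1 x.2).oB ((dec x.1 x.2).iB b) = q ∧
          r.getD ((dec x.1 x.2).oB b) 0 < r.getD q 0) := by
    constructor
    · intro h
      exact ⟨h.endA, h.endB⟩
    · rintro ⟨h1, h2⟩
      exact ⟨h1, h2⟩
  rw [e]
  simp only [decd_inl, decd_inr, Fin.ext_iff, Fin.forall_iff]
  rfl

end CB

theorem dec_surj (s : ℕ × ℕ × ℕ) (X : Dat (Fin (s.1 + 1)) (Fin (s.2.1 + 1)) (Fin (s.2.2 + 1))) :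
    ∃ t, InBox s t ∧ dec s t = X := by
  have e1 : s.2.1 + 1 ≤ (s.2.1 + 1) * (s.2.2 + 1) := Nat.le_mul_of_pos_right _ (Nat.succ_pos _)
  have e2 : s.2.2 + 1 ≤ (s.2.1 + 1) * (s.2.2 + 1) := Nat.le_mul_of_pos_left _ (Nat.succ_pos _)
  obtain ⟨t1, b1, h1⟩ := CB.exists_dig_bd s s.1 s.2.1 (by omega) e1 X.oA
  obtain ⟨t2, b2, h2⟩ := CB.exists_dig_bd s s.1 s.2.2 (by omega) e2 X.oB
  obtain ⟨t3, b3, h3⟩ := CB.exists_dig_bd s s.2.1 s.2.1 (by omega) e1 X.iA
  obtain ⟨t4, b4, h4⟩ := CB.exists_dig_bd s s.2.2 s.2.2 (by omega) e2 X.iB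
  obtain ⟨t5, b5, h5⟩ := CB.exists_dig2_bd s s.2.1 (by omega) X.tr
  obtain ⟨t6, b6, h6⟩ := CB.exists_dig2_bd s s.2.2 (by omega) X.tl
  refine ⟨(t1, t2, t3, t4, t5, t6), ⟨b1, b2, b3, b4, b5, b6⟩, ?_⟩
  cases X
  simp only [dec, Dat.mk.injEq]
  exact ⟨funext h1, funext h2, funext h3, funext h4, funext fun a => funext (h5 a),
    funext fun a => funext (h6 a)⟩

theorem closed_p : PrimrecPred Closed := by
  have h1 : PrimrecPred (fun l : List Code => ∀ x ∈ l, CB.ClosedAt l x x.1 ∧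
      CB.ClosedAt l x (x.1.1, x.1.2.2, x.1.2.1)) := by
    apply CB.pp_all_mem (p := fun l x => CB.ClosedAt l x x.1 ∧
      CB.ClosedAt l x (x.1.1, x.1.2.2, x.1.2.1))
    · (repeat' (with_reducible first | assumption | exact CB.p_id | exact Primrec.const _ | exact CB.pp_const _ | apply CB.p_fst | apply CB.p_snd | apply CB.p_pair | apply CB.p_add | apply CB.p_sub | apply CB.p_mul | apply CB.p_div | apply CB.p_mod | apply CB.p_pow | apply CB.p_oA | apply CB.p_oB | apply CB.p_iA | apply CB.p_iB | apply CB.p_tr | apply CB.p_tl | apply CB.p_dg | apply CB.pp_all | apply CB.pp_ex | apply CB.pp_all_mem | apply CB.pp_ex_mem | apply CB.pp_and | apply CB.pp_or | apply CB.pp_not | apply CB.pp_iff | apply CB.pp_imp | apply CB.pp_eq | apply CB.pp_lt | apply CB.pp_le | apply CB.pp_mem))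
    · apply CB.pp_and
      · refine CB.closedAt_p.comp (f := fun x : List Code × Code => (x.1, x.2, x.2.1)) ?_
        (repeat' (with_reducible first | assumption | exact CB.p_id | exact Primrec.const _ | exact CB.pp_const _ | apply CB.p_fst | apply CB.p_snd | apply CB.p_pair | apply CB.p_add | apply CB.p_sub | apply CB.p_mul | apply CB.p_div | apply CB.p_mod | apply CB.p_pow | apply CB.p_oA | apply CB.p_oB | apply CB.p_iA | apply CB.p_iB | apply CB.p_tr | apply CB.p_tl | apply CB.p_dg | apply CB.pp_all | apply CB.pp_ex | apply CB.pp_all_mem | apply CB.pp_ex_mem | apply CB.pp_and | apply CB.pp_or | apply CB.pp_not | apply CB.pp_iff | apply CB.pp_imp | apply CB.pp_eq | apply CB.pp_lt | apply CB.pp_le | apply CB.pp_mem))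
      · refine CB.closedAt_p.comp
          (f := fun x : List Code × Code => (x.1, x.2, (x.2.1.1, x.2.1.2.2, x.2.1.2.1))) ?_
        (repeat' (with_reducible first | assumption | exact CB.p_id | exact Primrec.const _ | exact CB.pp_const _ | apply CB.p_fst | apply CB.p_snd | apply CB.p_pair | apply CB.p_add | apply CB.p_sub | apply CB.p_mul | apply CB.p_div | apply CB.p_mod | apply CB.p_pow | apply CB.p_oA | apply CB.p_oB | apply CB.p_iA | apply CB.p_iB | apply CB.p_tr | apply CB.p_tl | apply CB.p_dg | apply CB.pp_all | apply CB.pp_ex | apply CB.pp_all_mem | apply CB.pp_ex_mem | apply CB.pp_and | apply CB.pp_or | apply CB.pp_not | apply CB.pp_iff | apply CB.pp_imp | apply CB.pp_eq | apply CB.pp_lt | apply CB.pp_le | apply CB.pp_mem))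
  refine PrimrecPred.of_eq h1 ?_
  intro l
  simp only [CB.closedAt_iff]
  constructor
  · rintro h x hx ⟨s, t⟩ hy hs
    have hs' : s = x.1 ∨ s = (x.1.1, x.1.2.2, x.1.2.1) := by
      rcases hs with h' | h'
      · exact Or.inl h'.1
      · exact Or.inr h'.1
    rcases hs' with rfl | rfl
    · exact (h x hx).1 t hy hs
    · exact (h x hx).2 t hy hs
  · intro h x hx
    exact ⟨fun t ht hs => h x hx _ ht hs, fun t ht hs => h x hx _ ht hs⟩

theorem decp_surj (s : ℕ × ℕ × ℕ) (q : Fin (s.1 + 1)) : ∃ p, decp s p = q :=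
  ⟨q, Fin.ext (Nat.mod_eq_of_lt q.2)⟩

theorem decd_surj (s : ℕ × ℕ × ℕ) (δ : Fin (s.1 + 1) → Fin (s.2.1 + 1) ⊕ Fin (s.2.2 + 1)) :
    ∃ d, decd s d = δ := by
  obtain ⟨w, -, h⟩ := CB.exists_dig (s.2.1 + 1 + s.2.2) s.1
    (fun q => (finSumFinEquiv (δ q) : Fin ((s.2.1 + 1) + (s.2.2 + 1))))
  refine ⟨w, funext fun q => ?_⟩
  unfold decd
  rw [Equiv.symm_apply_eq, ← h q]
  rfl

theorem span_p : PrimrecPred (fun x : Code × ℕ × ℕ × List ℕ =>
    Span (dec x.1.1 x.1.2) (decp x.1.1 x.2.1) (decd x.1.1 x.2.2.1)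
      (fun q => x.2.2.2.getD q 0)) :=
  PrimrecPred.of_eq CB.spN_p fun x => (CB.span_iff x.1 x.2.1 x.2.2.1 x.2.2.2).symm

end LatIso
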