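import Pool.Agent.Lib.MP_32d917_al.CODEB

/-!
# The elementary steps between codes are primitive recursive
-/

set_option autoImplicit false

namespace LatIso

namespace CB

/-- number version of `HSlW` -/
def HN (X Y : Code) (c w : ℕ) : Prop :=
  (∀ a < X.1.2.1 + 1, ∀ b < X.1.2.2 + 1, oA X a = oB X b → dg 1 c a = 1 →
    dg 1 c (tr X a b) = 1) ∧
  (∀ a < X.1.2.1 + 1, dg 1 c a = 1 → ¬ dg 1 c (iA X a) = 1) ∧
  (∀ a < X.1.2.1 + 1, dg 1 c a = 1 → ¬ dg 1 c (dg X.1.2.1 w a) = 1 ∧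
    ¬ dg 1 c (iA X (dg X.1.2.1 w a)) = 1 ∧ oA X (dg X.1.2.1 w a) = oA X a) ∧
  (∀ a < X.1.2.1 + 1, ∀ b < X.1.2.2 + 1, oA X a = oB X b → dg 1 c a = 1 →
    dg X.1.2.1 w (tr X a b) = tr X (dg X.1.2.1 w a) b) ∧
  (∀ b < X.1.2.2 + 1, oB Y b = oB X b) ∧
  (∀ b < X.1.2.2 + 1, iB Y b = iB X b) ∧
  (∀ a < X.1.2.1 + 1, iA Y a = iA X a) ∧
  (∀ a < X.1.2.1 + 1, dg 1 c a = 1 → oA Y a = oA X (iA X (dg X.1.2.1 w a))) ∧
  (∀ a < X.1.2.1 + 1, ¬ dg 1 c a = 1 → oA Y a = oA X a) ∧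
  (∀ a < X.1.2.1 + 1, ∀ b < X.1.2.2 + 1, dg 1 c a = 1 → oA Y a = oB X b →
    tr Y a b = tr X a (tl X (iA X (dg X.1.2.1 w a)) b)) ∧
  (∀ a < X.1.2.1 + 1, ∀ b < X.1.2.2 + 1, dg 1 c a = 1 → oA Y a = oB X b →
    tl Y a b = tl X a (tl X (iA X (dg X.1.2.1 w a)) b)) ∧
  (∀ a < X.1.2.1 + 1, ∀ b < X.1.2.2 + 1, ¬ dg 1 c a = 1 → oA Y a = oB X b →
    tr Y a b = tr X a b) ∧
  (∀ a < X.1.2.1 + 1, ∀ b < X.1.2.2 + 1, dg 1 c (iA X a) = 1 → oA Y a = oB X b →
    tl Y a b = tl X (dg X.1.2.1 w (iA X a)) (tl X a b)) ∧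
  (∀ a < X.1.2.1 + 1, ∀ b < X.1.2.2 + 1, ¬ dg 1 c a = 1 → ¬ dg 1 c (iA X a) = 1 →
    oA Y a = oB X b → tl Y a b = tl X a b)

theorem hn_p : PrimrecPred (fun x : (Code × Code) × ℕ × ℕ =>
    HN (x.1.1.1, x.1.1.2) (x.1.1.1, x.1.2.2) x.2.1 x.2.2) := by
  unfold HN
  (repeat' (with_reducible first | assumption | exact CB.p_id | exact Primrec.const _ | exact CB.pp_const _ | apply CB.p_fst | apply CB.p_snd | apply CB.p_pair | apply CB.p_add | apply CB.p_sub | apply CB.p_mul | apply CB.p_div | apply CB.p_mod | apply CB.p_pow | apply CB.p_oA | apply CB.p_oB | apply CB.p_iA | apply CB.p_iB | apply CB.p_tr | apply CB.p_tl | apply CB.p_dg | apply CB.pp_all | apply CB.pp_ex | apply CB.pp_all_mem | apply CB.pp_ex_mem | apply CB.pp_and | apply CB.pp_or | apply CB.pp_not | apply CB.pp_iff | apply CB.pp_imp | apply CB.pp_eq | apply CB.pp_lt | apply CB.pp_le | apply CB.pp_mem))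

theorem hslw_iff (s : ℕ × ℕ × ℕ) (t t' : ℕ × ℕ × ℕ × ℕ × ℕ × ℕ) (c w : ℕ)
    (C : Fin (s.2.1 + 1) → Prop) (π : Fin (s.2.1 + 1) → Fin (s.2.1 + 1))
    (hC : ∀ a : Fin (s.2.1 + 1), dg 1 c a = 1 ↔ C a)
    (hπ : ∀ a : Fin (s.2.1 + 1), dig s.2.1 w a = π a) :
    HSlW (dec s t) (dec s t') C π ↔ HN (s, t) (s, t') c w := by
  have hC' : ∀ a, C a ↔ dg 1 c a = 1 := fun a => (hC a).symm
  have hπ' : ∀ a, ((π a : Fin _) : ℕ) = dg s.2.1 w a := fun a => by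
    rw [← hπ a]; rfl
  have e : HSlW (dec s t) (dec s t') C π ↔
    ((∀ a b, (dec s t).oA a = (dec s t).oB b → C a → C ((dec s t).tr a b)) ∧
    (∀ a, C a → ¬ C ((dec s t).iA a)) ∧
    (∀ a, C a → ¬ C (π a) ∧ ¬ C ((dec s t).iA (π a)) ∧ (dec s t).oA (π a) = (dec s t).oA a) ∧
    (∀ a b, (dec s t).oA a = (dec s t).oB b → C a → π ((dec s t).tr a b) = (dec s t).tr (π a) b) ∧
    (∀ b, (dec s t').oB b = (dec s t).oB b) ∧
    (∀ b, (dec s t').iB b = (dec s t).iB b) ∧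
    (∀ a, (dec s t').iA a = (dec s t).iA a) ∧
    (∀ a, C a → (dec s t').oA a = (dec s t).oA ((dec s t).iA (π a))) ∧
    (∀ a, ¬ C a → (dec s t').oA a = (dec s t).oA a) ∧
    (∀ a b, C a → (dec s t').oA a = (dec s t).oB b →
      (dec s t').tr a b = (dec s t).tr a ((dec s t).tl ((dec s t).iA (π a)) b)) ∧
    (∀ a b, C a → (dec s t').oA a = (dec s t).oB b →
      (dec s t').tl a b = (dec s t).tl a ((dec s t).tl ((dec s t).iA (π a)) b)) ∧
    (∀ a b, ¬ C a → (dec s t').oA a = (dec s t).oB b → (dec s t').tr a b = (dec s t).tr a b) ∧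
    (∀ a b, C ((dec s t).iA a) → (dec s t').oA a = (dec s t).oB b →
      (dec s t').tl a b = (dec s t).tl (π ((dec s t).iA a)) ((dec s t).tl a b)) ∧
    (∀ a b, ¬ C a → ¬ C ((dec s t).iA a) → (dec s t').oA a = (dec s t).oB b →
      (dec s t').tl a b = (dec s t).tl a b)) := by
    constructor
    · intro h
      exact ⟨h.ctr, h.cinv, h.cpi, h.ptr, h.oB, h.iB, h.iA, h.oAC, h.oAN, h.trC, h.tlC, h.trN,
        h.tlI, h.tlN⟩
    · rintro ⟨h1, h2, h3, h4, h5, h6, h7, h8, h9, h10, h11, h12, h13, h14⟩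
      exact ⟨h1, h2, h3, h4, h5, h6, h7, h8, h9, h10, h11, h12, h13, h14⟩
  rw [e]
  unfold HN
  have vA : ∀ (u : ℕ × ℕ × ℕ × ℕ × ℕ × ℕ) a, (((dec s u).oA a : Fin _) : ℕ) = oA (s, u) a :=
    fun _ _ => rfl
  have vB : ∀ (u : ℕ × ℕ × ℕ × ℕ × ℕ × ℕ) b, (((dec s u).oB b : Fin _) : ℕ) = oB (s, u) b :=
    fun _ _ => rfl
  have viA : ∀ (u : ℕ × ℕ × ℕ × ℕ × ℕ × ℕ) a, (((dec s u).iA a : Fin _) : ℕ) = iA (s, u) a :=
    fun _ _ => rfl
  have viB : ∀ (u : ℕ × ℕ × ℕ × ℕ × ℕ × ℕ) b, (((dec s u).iB b : Fin _) : ℕ) = iB (s, u) b :=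
    fun _ _ => rfl
  have vtr : ∀ (u : ℕ × ℕ × ℕ × ℕ × ℕ × ℕ) a b, (((dec s u).tr a b : Fin _) : ℕ) = tr (s, u) a b :=
    fun _ _ _ => rfl
  have vtl : ∀ (u : ℕ × ℕ × ℕ × ℕ × ℕ × ℕ) a b, (((dec s u).tl a b : Fin _) : ℕ) = tl (s, u) a b :=
    fun _ _ _ => rfl
  simp only [hC', Fin.ext_iff, vA, vB, viA, viB, vtr, vtl, hπ', Fin.forall_iff]

theorem hsl_iff (s : ℕ × ℕ × ℕ) (t t' : ℕ × ℕ × ℕ × ℕ × ℕ × ℕ) :
    HSl (dec s t) (dec s t') ↔ ∃ c < 2 ^ (s.2.1 + 1), ∃ w < (s.2.1 + 1) ^ (s.2.1 + 1),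
      HN (s, t) (s, t') c w := by
  constructor
  · rintro ⟨C, π, h⟩
    obtain ⟨c, hc, hC⟩ := exists_pred _ C
    obtain ⟨w, hw, hW⟩ := exists_dig _ _ π
    exact ⟨c, hc, w, hw, (hslw_iff s t t' c w C π hC hW).1 h⟩
  · rintro ⟨c, -, w, -, h⟩
    exact ⟨fun a => dg 1 c a = 1, fun a => dig s.2.1 w a,
      (hslw_iff s t t' c w _ _ (fun a => Iff.rfl) (fun a => rfl)).2 h⟩

theorem hsl_p : PrimrecPred (fun x : Code × Code => HSl (dec x.1.1 x.1.2) (dec x.1.1 x.2.2)) := by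
  have h1 : PrimrecPred (fun x : Code × Code => ∃ c < 2 ^ (x.1.1.2.1 + 1),
      ∃ w < (x.1.1.2.1 + 1) ^ (x.1.1.2.1 + 1), HN (x.1.1, x.1.2) (x.1.1, x.2.2) c w) := by
    apply pp_ex
    · (repeat' (with_reducible first | assumption | exact CB.p_id | exact Primrec.const _ | exact CB.pp_const _ | apply CB.p_fst | apply CB.p_snd | apply CB.p_pair | apply CB.p_add | apply CB.p_sub | apply CB.p_mul | apply CB.p_div | apply CB.p_mod | apply CB.p_pow | apply CB.p_oA | apply CB.p_oB | apply CB.p_iA | apply CB.p_iB | apply CB.p_tr | apply CB.p_tl | apply CB.p_dg | apply CB.pp_all | apply CB.pp_ex | apply CB.pp_all_mem | apply CB.pp_ex_mem | apply CB.pp_and | apply CB.pp_or | apply CB.pp_not | apply CB.pp_iff | apply CB.pp_imp | apply CB.pp_eq | apply CB.pp_lt | apply CB.pp_le | apply CB.pp_mem))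
    apply pp_ex
    · (repeat' (with_reducible first | assumption | exact CB.p_id | exact Primrec.const _ | exact CB.pp_const _ | apply CB.p_fst | apply CB.p_snd | apply CB.p_pair | apply CB.p_add | apply CB.p_sub | apply CB.p_mul | apply CB.p_div | apply CB.p_mod | apply CB.p_pow | apply CB.p_oA | apply CB.p_oB | apply CB.p_iA | apply CB.p_iB | apply CB.p_tr | apply CB.p_tl | apply CB.p_dg | apply CB.pp_all | apply CB.pp_ex | apply CB.pp_all_mem | apply CB.pp_ex_mem | apply CB.pp_and | apply CB.pp_or | apply CB.pp_not | apply CB.pp_iff | apply CB.pp_imp | apply CB.pp_eq | apply CB.pp_lt | apply CB.pp_le | apply CB.pp_mem))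
    refine hn_p.comp (f := fun x : ((Code × Code) × ℕ) × ℕ => (x.1.1, x.1.2, x.2)) ?_
    (repeat' (with_reducible first | assumption | exact CB.p_id | exact Primrec.const _ | exact CB.pp_const _ | apply CB.p_fst | apply CB.p_snd | apply CB.p_pair | apply CB.p_add | apply CB.p_sub | apply CB.p_mul | apply CB.p_div | apply CB.p_mod | apply CB.p_pow | apply CB.p_oA | apply CB.p_oB | apply CB.p_iA | apply CB.p_iB | apply CB.p_tr | apply CB.p_tl | apply CB.p_dg | apply CB.pp_all | apply CB.pp_ex | apply CB.pp_all_mem | apply CB.pp_ex_mem | apply CB.pp_and | apply CB.pp_or | apply CB.pp_not | apply CB.pp_iff | apply CB.pp_imp | apply CB.pp_eq | apply CB.pp_lt | apply CB.pp_le | apply CB.pp_mem))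
  refine PrimrecPred.of_eq h1 ?_
  intro x
  exact (hsl_iff _ _ _).symm

/-- number version of the equality with the swapped data -/
def SN (X Y : Code) : Prop :=
  (∀ a < Y.1.2.1 + 1, oA Y a = oB X a) ∧ (∀ b < Y.1.2.2 + 1, oB Y b = oA X b) ∧
  (∀ a < Y.1.2.1 + 1, iA Y a = iB X a) ∧ (∀ b < Y.1.2.2 + 1, iB Y b = iA X b) ∧
  (∀ a < Y.1.2.1 + 1, ∀ b < Y.1.2.2 + 1, tr Y a b = tl X b a) ∧
  (∀ a < Y.1.2.1 + 1, ∀ b < Y.1.2.2 + 1, tl Y a b = tr X b a)

theorem swap_iff (x : Code) (t : ℕ × ℕ × ℕ × ℕ × ℕ × ℕ) :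
    dec (x.1.1, x.1.2.2, x.1.2.1) t = (dec x.1 x.2).swap ↔
      SN x ((x.1.1, x.1.2.2, x.1.2.1), t) := by
  have e : ∀ (P A B : Type) (X Y : Dat P A B), X = Y ↔ (∀ a, X.oA a = Y.oA a) ∧
      (∀ a, X.oB a = Y.oB a) ∧ (∀ a, X.iA a = Y.iA a) ∧ (∀ a, X.iB a = Y.iB a) ∧
      (∀ a b, X.tr a b = Y.tr a b) ∧ (∀ a b, X.tl a b = Y.tl a b) := by
    intro P A B X Y
    constructor
    · rintro rfl
      exact ⟨fun _ => rfl, fun _ => rfl, fun _ => rfl, fun _ => rfl, fun _ _ => rfl, fun _ _ => rfl⟩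
    · rintro ⟨h1, h2, h3, h4, h5, h6⟩
      cases X
      cases Y
      simp only [Dat.mk.injEq]
      exact ⟨funext h1, funext h2, funext h3, funext h4, funext fun a => funext (h5 a),
        funext fun a => funext (h6 a)⟩
  rw [e]
  simp only [Fin.ext_iff, Fin.forall_iff]
  rfl

end CB

theorem cstep_p : PrimrecPred (fun x : Code × Code => CStep x.1 x.2) := by
  have h1 : PrimrecPred (fun x : Code × Code =>
      (x.2.1 = x.1.1 ∧ HSl (dec x.1.1 x.1.2) (dec x.1.1 x.2.2)) ∨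
      (x.2.1 = (x.1.1.1, x.1.1.2.2, x.1.1.2.1) ∧
        CB.SN x.1 ((x.1.1.1, x.1.1.2.2, x.1.1.2.1), x.2.2))) := by
    apply CB.pp_or
    · apply CB.pp_and
      · (repeat' (with_reducible first | assumption | exact CB.p_id | exact Primrec.const _ | exact CB.pp_const _ | apply CB.p_fst | apply CB.p_snd | apply CB.p_pair | apply CB.p_add | apply CB.p_sub | apply CB.p_mul | apply CB.p_div | apply CB.p_mod | apply CB.p_pow | apply CB.p_oA | apply CB.p_oB | apply CB.p_iA | apply CB.p_iB | apply CB.p_tr | apply CB.p_tl | apply CB.p_dg | apply CB.pp_all | apply CB.pp_ex | apply CB.pp_all_mem | apply CB.pp_ex_mem | apply CB.pp_and | apply CB.pp_or | apply CB.pp_not | apply CB.pp_iff | apply CB.pp_imp | apply CB.pp_eq | apply CB.pp_lt | apply CB.pp_le | apply CB.pp_mem))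
      · exact CB.hsl_p
    · unfold CB.SN
      (repeat' (with_reducible first | assumption | exact CB.p_id | exact Primrec.const _ | exact CB.pp_const _ | apply CB.p_fst | apply CB.p_snd | apply CB.p_pair | apply CB.p_add | apply CB.p_sub | apply CB.p_mul | apply CB.p_div | apply CB.p_mod | apply CB.p_pow | apply CB.p_oA | apply CB.p_oB | apply CB.p_iA | apply CB.p_iB | apply CB.p_tr | apply CB.p_tl | apply CB.p_dg | apply CB.pp_all | apply CB.pp_ex | apply CB.pp_all_mem | apply CB.pp_ex_mem | apply CB.pp_and | apply CB.pp_or | apply CB.pp_not | apply CB.pp_iff | apply CB.pp_imp | apply CB.pp_eq | apply CB.pp_lt | apply CB.pp_le | apply CB.pp_mem))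
  refine PrimrecPred.of_eq h1 ?_
  intro x
  unfold CStep
  rw [CB.swap_iff]

end LatIso
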