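import Pool.Agent.Lib.MP_32d917_al.CODE2

/-!
# Codes: isomorphism of decoded data is primitive recursive
-/

set_option autoImplicit false

namespace LatIso

namespace CB

/-- number version of the isomorphism conditions -/
def IsoN (X Y : Code) (f g h : ℕ) : Prop :=
  (∀ a < X.1.1 + 1, ∀ b < X.1.1 + 1, dg X.1.1 f a = dg X.1.1 f b → a = b) ∧
  (∀ a < X.1.2.1 + 1, ∀ b < X.1.2.1 + 1, dg X.1.2.1 g a = dg X.1.2.1 g b → a = b) ∧
  (∀ a < X.1.2.2 + 1, ∀ b < X.1.2.2 + 1, dg X.1.2.2 h a = dg X.1.2.2 h b → a = b) ∧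
  (∀ a < X.1.2.1 + 1, oA Y (dg X.1.2.1 g a) = dg X.1.1 f (oA X a)) ∧
  (∀ b < X.1.2.2 + 1, oB Y (dg X.1.2.2 h b) = dg X.1.1 f (oB X b)) ∧
  (∀ a < X.1.2.1 + 1, iA Y (dg X.1.2.1 g a) = dg X.1.2.1 g (iA X a)) ∧
  (∀ b < X.1.2.2 + 1, iB Y (dg X.1.2.2 h b) = dg X.1.2.2 h (iB X b)) ∧
  (∀ a < X.1.2.1 + 1, ∀ b < X.1.2.2 + 1, oA X a = oB X b →
    tr Y (dg X.1.2.1 g a) (dg X.1.2.2 h b) = dg X.1.2.1 g (tr X a b)) ∧
  (∀ a < X.1.2.1 + 1, ∀ b < X.1.2.2 + 1, oA X a = oB X b →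
    tl Y (dg X.1.2.1 g a) (dg X.1.2.2 h b) = dg X.1.2.2 h (tl X a b))

theorem isoN_iff (s : ℕ × ℕ × ℕ) (t t' : ℕ × ℕ × ℕ × ℕ × ℕ × ℕ) (f g h : ℕ)
    (F : Fin (s.1 + 1) → Fin (s.1 + 1)) (G : Fin (s.2.1 + 1) → Fin (s.2.1 + 1))
    (H : Fin (s.2.2 + 1) → Fin (s.2.2 + 1))
    (hF : ∀ a : Fin (s.1 + 1), dig s.1 f a = F a)
    (hG : ∀ a : Fin (s.2.1 + 1), dig s.2.1 g a = G a)
    (hH : ∀ a : Fin (s.2.2 + 1), dig s.2.2 h a = H a) :
    (Function.Injective F ∧ Function.Injective G ∧ Function.Injective H ∧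
    (∀ a, (dec s t').oA (G a) = F ((dec s t).oA a)) ∧
    (∀ b, (dec s t').oB (H b) = F ((dec s t).oB b)) ∧
    (∀ a, (dec s t').iA (G a) = G ((dec s t).iA a)) ∧
    (∀ b, (dec s t').iB (H b) = H ((dec s t).iB b)) ∧
    (∀ a b, (dec s t).oA a = (dec s t).oB b →
      (dec s t').tr (G a) (H b) = G ((dec s t).tr a b)) ∧
    (∀ a b, (dec s t).oA a = (dec s t).oB b →
      (dec s t').tl (G a) (H b) = H ((dec s t).tl a b))) ↔ IsoN (s, t) (s, t') f g h := by
  have hF' : ∀ a, ((F a : Fin _) : ℕ) = dg s.1 f a := fun a => by rw [← hF a]; rfl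
  have hG' : ∀ a, ((G a : Fin _) : ℕ) = dg s.2.1 g a := fun a => by rw [← hG a]; rfl
  have hH' : ∀ a, ((H a : Fin _) : ℕ) = dg s.2.2 h a := fun a => by rw [← hH a]; rfl
  have vA : ∀ (u : ℕ × ℕ × ℕ × ℕ × ℕ × ℕ) a, (((dec s u).oA a : Fin _) : ℕ) = oA (s, u) a :=
    fun _ _ => rfl
  have vB : ∀ (u : ℕ × ℕ × ℕ × ℕ × ℕ × ℕ) b, (((dec s u).oB b : Fin _) : ℕ) = oB (s, u) b :=
    fun _ _ => rfl
  have viA : ∀ (u : ℕ × ℕ × ℕ × ℕ × ℕ × ℕ) a, (((dec s u).iA a : Fin _) : ℕ) = iA (s, u) a :=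
    fun _ _ => rfl
  have viB : ∀ (u : ℕ × ℕ × ℕ × ℕ × ℕ × ℕ) b, (((dec s u).iB b : Fin _) : ℕ) = iB (s, u) b :=
    fun _ _ => rfl
  have vtr : ∀ (u : ℕ × ℕ × ℕ × ℕ × ℕ × ℕ) a b, (((dec s u).tr a b : Fin _) : ℕ) = tr (s, u) a b :=
    fun _ _ _ => rfl
  have vtl : ∀ (u : ℕ × ℕ × ℕ × ℕ × ℕ × ℕ) a b, (((dec s u).tl a b : Fin _) : ℕ) = tl (s, u) a b :=
    fun _ _ _ => rfl
  unfold IsoN Function.Injective
  simp only [Fin.ext_iff, vA, vB, viA, viB, vtr, vtl, hF', hG', hH', Fin.forall_iff]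

/-- bounded form of the isomorphism relation -/
def IsoB (x : Code × Code) : Prop :=
  x.1.1 = x.2.1 ∧ ∃ f < (x.1.1.1 + 1) ^ (x.1.1.1 + 1), ∃ g < (x.1.1.2.1 + 1) ^ (x.1.1.2.1 + 1),
    ∃ h < (x.1.1.2.2 + 1) ^ (x.1.1.2.2 + 1), IsoN x.1 (x.1.1, x.2.2) f g h

theorem isoN_p : PrimrecPred (fun x : (Code × Code) × ℕ × ℕ × ℕ =>
    IsoN x.1.1 (x.1.1.1, x.1.2.2) x.2.1 x.2.2.1 x.2.2.2) := by
  unfold IsoN
  (repeat' (with_reducible first | assumption | exact CB.p_id | exact Primrec.const _ | exact CB.pp_const _ | apply CB.p_fst | apply CB.p_snd | apply CB.p_pair | apply CB.p_add | apply CB.p_sub | apply CB.p_mul | apply CB.p_div | apply CB.p_mod | apply CB.p_pow | apply CB.p_oA | apply CB.p_oB | apply CB.p_iA | apply CB.p_iB | apply CB.p_tr | apply CB.p_tl | apply CB.p_dg | apply CB.pp_all | apply CB.pp_ex | apply CB.pp_all_mem | apply CB.pp_ex_mem | apply CB.pp_and | apply CB.pp_or | apply CB.pp_not | apply CB.pp_iff | apply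 CB.pp_imp | apply CB.pp_eq | apply CB.pp_lt | apply CB.pp_le | apply CB.pp_mem))

theorem isoB_p : PrimrecPred IsoB := by
  unfold IsoB
  apply pp_and
  · (repeat' (with_reducible first | assumption | exact CB.p_id | exact Primrec.const _ | exact CB.pp_const _ | apply CB.p_fst | apply CB.p_snd | apply CB.p_pair | apply CB.p_add | apply CB.p_sub | apply CB.p_mul | apply CB.p_div | apply CB.p_mod | apply CB.p_pow | apply CB.p_oA | apply CB.p_oB | apply CB.p_iA | apply CB.p_iB | apply CB.p_tr | apply CB.p_tl | apply CB.p_dg | apply CB.pp_all | apply CB.pp_ex | apply CB.pp_all_mem | apply CB.pp_ex_mem | apply CB.pp_and | apply CB.pp_or | apply CB.pp_not | apply CB.pp_iff | apply CB.pp_imp | apply CB.pp_eq | apply CB.pp_lt | apply CB.pp_le | apply CB.pp_mem))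
  apply pp_ex
  · (repeat' (with_reducible first | assumption | exact CB.p_id | exact Primrec.const _ | exact CB.pp_const _ | apply CB.p_fst | apply CB.p_snd | apply CB.p_pair | apply CB.p_add | apply CB.p_sub | apply CB.p_mul | apply CB.p_div | apply CB.p_mod | apply CB.p_pow | apply CB.p_oA | apply CB.p_oB | apply CB.p_iA | apply CB.p_iB | apply CB.p_tr | apply CB.p_tl | apply CB.p_dg | apply CB.pp_all | apply CB.pp_ex | apply CB.pp_all_mem | apply CB.pp_ex_mem | apply CB.pp_and | apply CB.pp_or | apply CB.pp_not | apply CB.pp_iff | apply CB.pp_imp | apply CB.pp_eq | apply CB.pp_lt | apply CB.pp_le | apply CB.pp_mem))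
  apply pp_ex
  · (repeat' (with_reducible first | assumption | exact CB.p_id | exact Primrec.const _ | exact CB.pp_const _ | apply CB.p_fst | apply CB.p_snd | apply CB.p_pair | apply CB.p_add | apply CB.p_sub | apply CB.p_mul | apply CB.p_div | apply CB.p_mod | apply CB.p_pow | apply CB.p_oA | apply CB.p_oB | apply CB.p_iA | apply CB.p_iB | apply CB.p_tr | apply CB.p_tl | apply CB.p_dg | apply CB.pp_all | apply CB.pp_ex | apply CB.pp_all_mem | apply CB.pp_ex_mem | apply CB.pp_and | apply CB.pp_or | apply CB.pp_not | apply CB.pp_iff | apply CB.pp_imp | apply CB.pp_eq | apply CB.pp_lt | apply CB.pp_le | apply CB.pp_mem))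
  apply pp_ex
  · (repeat' (with_reducible first | assumption | exact CB.p_id | exact Primrec.const _ | exact CB.pp_const _ | apply CB.p_fst | apply CB.p_snd | apply CB.p_pair | apply CB.p_add | apply CB.p_sub | apply CB.p_mul | apply CB.p_div | apply CB.p_mod | apply CB.p_pow | apply CB.p_oA | apply CB.p_oB | apply CB.p_iA | apply CB.p_iB | apply CB.p_tr | apply CB.p_tl | apply CB.p_dg | apply CB.pp_all | apply CB.pp_ex | apply CB.pp_all_mem | apply CB.pp_ex_mem | apply CB.pp_and | apply CB.pp_or | apply CB.pp_not | apply CB.pp_iff | apply CB.pp_imp | apply CB.pp_eq | apply CB.pp_lt | apply CB.pp_le | apply CB.pp_mem))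
  refine isoN_p.comp
    (f := fun x : (((Code × Code) × ℕ) × ℕ) × ℕ => (x.1.1.1, x.1.1.2, x.1.2, x.2)) ?_
  (repeat' (with_reducible first | assumption | exact CB.p_id | exact Primrec.const _ | exact CB.pp_const _ | apply CB.p_fst | apply CB.p_snd | apply CB.p_pair | apply CB.p_add | apply CB.p_sub | apply CB.p_mul | apply CB.p_div | apply CB.p_mod | apply CB.p_pow | apply CB.p_oA | apply CB.p_oB | apply CB.p_iA | apply CB.p_iB | apply CB.p_tr | apply CB.p_tl | apply CB.p_dg | apply CB.pp_all | apply CB.pp_ex | apply CB.pp_all_mem | apply CB.pp_ex_mem | apply CB.pp_and | apply CB.pp_or | apply CB.pp_not | apply CB.pp_iff | apply CB.pp_imp | apply CB.pp_eq | apply CB.pp_lt | apply CB.pp_le | apply CB.pp_mem))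

theorem iso_iff (x : Code × Code) : IsoB x ↔ Iso (dec x.1.1 x.1.2) (dec x.2.1 x.2.2) := by
  obtain ⟨⟨s, t⟩, ⟨s', t'⟩⟩ := x
  constructor
  · rintro ⟨h0, f, -, g, -, h, -, hN⟩
    dsimp only at h0
    subst h0
    obtain ⟨iF, iG, iH, h1, h2, h3, h4, h5, h6⟩ :=
      (isoN_iff s t t' f g h (fun a => dig s.1 f a) (fun a => dig s.2.1 g a)
        (fun a => dig s.2.2 h a) (fun _ => rfl) (fun _ => rfl) (fun _ => rfl)).2 hN
    exact ⟨Equiv.ofBijective _ (Finite.injective_iff_bijective.1 iF),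
      Equiv.ofBijective _ (Finite.injective_iff_bijective.1 iG),
      Equiv.ofBijective _ (Finite.injective_iff_bijective.1 iH), h1, h2, h3, h4, h5, h6⟩
  · rintro ⟨F, G, H, h1, h2, h3, h4, h5, h6⟩
    have c1 : s.1 = s'.1 := by
      have := Fintype.card_congr F
      simpa using this
    have c2 : s.2.1 = s'.2.1 := by
      have := Fintype.card_congr G
      simpa using this
    have c3 : s.2.2 = s'.2.2 := by
      have := Fintype.card_congr H
      simpa using this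
    have hs : s = s' := Prod.ext c1 (Prod.ext c2 c3)
    subst hs
    obtain ⟨f, hf, hf'⟩ := exists_dig _ _ F
    obtain ⟨g, hg, hg'⟩ := exists_dig _ _ G
    obtain ⟨h, hh, hh'⟩ := exists_dig _ _ H
    exact ⟨rfl, f, hf, g, hg, h, hh, (isoN_iff s t t' f g h F G H hf' hg' hh').1
      ⟨F.injective, G.injective, H.injective, h1, h2, h3, h4, h5, h6⟩⟩

end CB

theorem ciso_p : PrimrecPred (fun x : Code × Code =>
    Iso (dec x.1.1 x.1.2) (dec x.2.1 x.2.2)) :=
  PrimrecPred.of_eq CB.isoB_p CB.iso_iff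

end LatIso
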