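import Mathlib
import Pool.Agent.Lib.MP_9f0b3e_al.CoReGen

/-!
# Closure properties of r.e. predicates
-/

set_option autoImplicit false

namespace LatIso

section RE

variable {α β : Type} [Primcodable α] [Primcodable β]

/-- normal form of r.e. predicates -/
theorem re_norm {p : α → Prop} (h : REPred p) : ∃ R : α → ℕ → Prop, PrimrecRel R ∧
    (∀ x k l, k ≤ l → R x k → R x l) ∧ ∀ x, p x ↔ ∃ k, R x k := by
  classical
  have h1 : Nat.Partrec fun n => Part.bind (Encodable.decode (α := α) n)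
      fun a => ((Part.assert (p a) fun _ => Part.some ()).map Encodable.encode) := h
  obtain ⟨c, hc⟩ := Nat.Partrec.Code.exists_code.1 h1
  refine ⟨fun x k => (Nat.Partrec.Code.evaln k c (Encodable.encode x)).isSome = true, ?_, ?_, ?_⟩
  · have h2 : Primrec fun a : α × ℕ => Nat.Partrec.Code.evaln a.2 c (Encodable.encode a.1) :=
      Nat.Partrec.Code.primrec_evaln.comp
        (Primrec.pair (Primrec.pair Primrec.snd (Primrec.const c))
          (Primrec.encode.comp Primrec.fst))
    have h3 : Primrec fun a : α × ℕ =>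
        (Nat.Partrec.Code.evaln a.2 c (Encodable.encode a.1)).isSome :=
      Primrec.option_isSome.comp h2
    exact Primrec.eq.comp h3 (Primrec.const true)
  · intro x k l hkl hx
    obtain ⟨y, hy⟩ := Option.isSome_iff_exists.1 hx
    have := Nat.Partrec.Code.evaln_mono hkl (show y ∈ _ from hy)
    exact Option.isSome_iff_exists.2 ⟨y, this⟩
  · intro x
    have h4 : p x ↔ ∃ y, y ∈ Nat.Partrec.Code.eval c (Encodable.encode x) := by
      rw [hc]
      simp only [Encodable.encodek, Part.coe_some, Part.bind_some]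
      constructor
      · intro hp
        refine ⟨Encodable.encode (), ?_⟩
        rw [Part.assert_pos hp]
        simp
      · rintro ⟨y, hy⟩
        obtain ⟨z, hz, -⟩ := (Part.mem_map_iff _).1 hy
        obtain ⟨hp, -⟩ := Part.mem_assert_iff.1 hz
        exact hp
    rw [h4]
    constructor
    · rintro ⟨y, hy⟩
      obtain ⟨k, hk⟩ := Nat.Partrec.Code.evaln_complete.1 hy
      exact ⟨k, Option.isSome_iff_exists.2 ⟨y, hk⟩⟩
    · rintro ⟨k, hk⟩
      obtain ⟨y, hy⟩ := Option.isSome_iff_exists.1 hk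
      exact ⟨y, Nat.Partrec.Code.evaln_complete.2 ⟨k, hy⟩⟩

theorem re_of_prim {p : α → Prop} (h : PrimrecPred p) : REPred p := by
  have h1 : PrimrecRel (fun (c : α) (_ : ℕ) => p c) := h.comp Primrec.fst
  refine (HypQ.CoRe.rePred_exists_nat h1).of_eq ?_
  intro a
  exact ⟨fun ⟨_, h⟩ => h, fun h => ⟨0, h⟩⟩

theorem re_and {p q : α → Prop} (hp : REPred p) (hq : REPred q) : REPred fun x => p x ∧ q x := by
  obtain ⟨R, hR, hm, hR2⟩ := re_norm hp
  obtain ⟨R', hR', hm', hR2'⟩ := re_norm hq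
  have h1 : PrimrecRel (fun (c : α) (k : ℕ) => R c k ∧ R' c k) := PrimrecPred.and hR hR'
  refine (HypQ.CoRe.rePred_exists_nat h1).of_eq ?_
  intro x
  rw [hR2, hR2']
  constructor
  · rintro ⟨k, h1, h2⟩
    exact ⟨⟨k, h1⟩, ⟨k, h2⟩⟩
  · rintro ⟨⟨k, h1⟩, ⟨l, h2⟩⟩
    exact ⟨max k l, hm _ _ _ (le_max_left _ _) h1, hm' _ _ _ (le_max_right _ _) h2⟩

theorem re_or {p q : α → Prop} (hp : REPred p) (hq : REPred q) : REPred fun x => p x ∨ q x := by
  obtain ⟨R, hR, hm, hR2⟩ := re_norm hp
  obtain ⟨R', hR', hm', hR2'⟩ := re_norm hq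
  have h1 : PrimrecRel (fun (c : α) (k : ℕ) => R c k ∨ R' c k) := PrimrecPred.or hR hR'
  refine (HypQ.CoRe.rePred_exists_nat h1).of_eq ?_
  intro x
  rw [hR2, hR2']
  constructor
  · rintro ⟨k, h1 | h1⟩
    · exact Or.inl ⟨k, h1⟩
    · exact Or.inr ⟨k, h1⟩
  · rintro (⟨k, h1⟩ | ⟨k, h1⟩)
    · exact ⟨k, Or.inl h1⟩
    · exact ⟨k, Or.inr h1⟩

theorem re_comp {p : β → Prop} (hp : REPred p) {f : α → β} (hf : Computable f) :
    REPred fun x => p (f x) := by
  exact Partrec.comp hp hf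

theorem re_exists {p : α → β → Prop} (hp : REPred fun x : α × β => p x.1 x.2) :
    REPred fun x => ∃ y, p x y := by
  obtain ⟨R, hR, hm, hR2⟩ := re_norm hp
  have h1 : PrimrecRel (fun (c : α) (n : ℕ) =>
      ∃ y ∈ (Encodable.decode (α := β) n.unpair.1).toList, R (c, y) n.unpair.2) := by
    have h2 : PrimrecRel (fun (y : β) (x : α × ℕ) => R (x.1, y) x.2.unpair.2) := by
      exact hR.comp (Primrec.pair (Primrec.fst.comp Primrec.snd) Primrec.fst)
        (Primrec.snd.comp (Primrec.unpair.comp (Primrec.snd.comp Primrec.snd)))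
    have h3 : Primrec (fun x : α × ℕ => (Encodable.decode (α := β) x.2.unpair.1).toList) := by
      have h4 : Primrec (fun x : α × ℕ => Encodable.decode (α := β) x.2.unpair.1) :=
        Primrec.decode.comp (Primrec.fst.comp (Primrec.unpair.comp Primrec.snd))
      have h5 : Primrec₂ (fun (_ : α × ℕ) (y : β) => [y]) :=
        Primrec.list_cons.comp Primrec.snd (Primrec.const [])
      refine (Primrec.option_casesOn h4 (Primrec.const ([] : List β)) h5).of_eq ?_
      intro x
      cases Encodable.decode (α := β) x.2.unpair.1 <;> rfl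
    exact (h2.exists_mem_list).comp h3 Primrec.id
  refine (HypQ.CoRe.rePred_exists_nat h1).of_eq ?_
  intro x
  constructor
  · rintro ⟨n, y, -, hy⟩
    exact ⟨y, (hR2 (x, y)).2 ⟨_, hy⟩⟩
  · rintro ⟨y, hy⟩
    obtain ⟨k, hk⟩ := (hR2 (x, y)).1 hy
    refine ⟨Nat.pair (Encodable.encode y) k, y, ?_, ?_⟩
    · simp
    · simpa using hk

theorem re_forall_lt {p : α → ℕ → Prop} {f : α → ℕ} (hf : Primrec f)
    (hp : REPred fun x : α × ℕ => p x.1 x.2) : REPred fun x => ∀ t < f x, p x t := by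
  obtain ⟨R, hR, hm, hR2⟩ := re_norm hp
  have h1 : PrimrecRel (fun (c : α) (k : ℕ) => ∀ t < f c, R (c, t) k) := by
    have h2 : PrimrecPred (fun x : (α × ℕ) × ℕ => R (x.1.1, x.2) x.1.2) := by
      exact hR.comp (Primrec.pair (Primrec.fst.comp Primrec.fst) Primrec.snd)
        (Primrec.snd.comp Primrec.fst)
    exact HypQ.CoRe.forall_lt_p (hf.comp Primrec.fst) h2
  refine (HypQ.CoRe.rePred_exists_nat h1).of_eq ?_
  intro x
  constructor
  · rintro ⟨k, hk⟩ t ht
    exact (hR2 (x, t)).2 ⟨k, hk t ht⟩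
  · intro h
    have h3 : ∀ t : ℕ, ∃ k, t < f x → R (x, t) k := by
      intro t
      by_cases ht : t < f x
      · obtain ⟨k, hk⟩ := (hR2 (x, t)).1 (h t ht)
        exact ⟨k, fun _ => hk⟩
      · exact ⟨0, fun h => absurd h ht⟩
    choose K hK using h3
    refine ⟨(Finset.range (f x)).sup K, ?_⟩
    intro t ht
    exact hm _ _ _ (Finset.le_sup (f := K) (Finset.mem_range.2 ht)) (hK t ht)

theorem re_forall_mem {p : α → β → Prop} {f : α → List β} (hf : Primrec f)
    (hp : REPred fun x : α × β => p x.1 x.2) : REPred fun x => ∀ t ∈ f x, p x t := by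
  classical
  obtain ⟨R, hR, hm, hR2⟩ := re_norm hp
  have h1 : PrimrecRel (fun (c : α) (k : ℕ) => ∀ t ∈ f c, R (c, t) k) := by
    have h2 : PrimrecRel (fun (y : β) (x : α × ℕ) => R (x.1, y) x.2) := by
      exact hR.comp (Primrec.pair (Primrec.fst.comp Primrec.snd) Primrec.fst)
        (Primrec.snd.comp Primrec.snd)
    exact (h2.forall_mem_list).comp (hf.comp Primrec.fst) Primrec.id
  refine (HypQ.CoRe.rePred_exists_nat h1).of_eq ?_
  intro x
  constructor
  · rintro ⟨k, hk⟩ t ht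
    exact (hR2 (x, t)).2 ⟨k, hk t ht⟩
  · intro h
    have h3 : ∀ t : β, ∃ k, t ∈ f x → R (x, t) k := by
      intro t
      by_cases ht : t ∈ f x
      · obtain ⟨k, hk⟩ := (hR2 (x, t)).1 (h t ht)
        exact ⟨k, fun _ => hk⟩
      · exact ⟨0, fun h => absurd h ht⟩
    choose K hK using h3
    refine ⟨(f x).toFinset.sup K, ?_⟩
    intro t ht
    exact hm _ _ _ (Finset.le_sup (f := K) (List.mem_toFinset.2 ht)) (hK t ht)

end RE

end LatIso
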