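import Pool.Agent.Lib.MP_32d917_al.CODE1
import Pool.Agent.Lib.MP_32d917_al.RE

/-!
# Codes: goodness of decoded data is recursively enumerable
-/

set_option autoImplicit false

namespace LatIso

namespace CB

/-! ### validity -/

/-- number version of `Valid` -/
def ValN (X : Code) : Prop :=
  (∀ a < X.1.2.1 + 1, iA X (iA X a) = a) ∧
  (∀ b < X.1.2.2 + 1, iB X (iB X b) = b) ∧
  (∀ a < X.1.2.1 + 1, ∀ b < X.1.2.2 + 1, oA X a = oB X b → oA X (tr X a b) = oB X (iB X b)) ∧
  (∀ a < X.1.2.1 + 1, ∀ b < X.1.2.2 + 1, oA X a = oB X b → oB X (tl X a b) = oA X (iA X a)) ∧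
  (∀ a < X.1.2.1 + 1, ∀ b < X.1.2.2 + 1, oA X a = oB X b →
    tr X (iA X a) (tl X a b) = iA X (tr X a b)) ∧
  (∀ a < X.1.2.1 + 1, ∀ b < X.1.2.2 + 1, oA X a = oB X b → tl X (iA X a) (tl X a b) = b) ∧
  (∀ a < X.1.2.1 + 1, ∀ b < X.1.2.2 + 1, oA X a = oB X b → tr X (tr X a b) (iB X b) = a) ∧
  (∀ a < X.1.2.1 + 1, ∀ b < X.1.2.2 + 1, oA X a = oB X b →
    tl X (tr X a b) (iB X b) = iB X (tl X a b))

theorem valN_p : PrimrecPred ValN := by
  unfold ValN
  (repeat' (with_reducible first | assumption | exact CB.p_id | exact Primrec.const _ | exact CB.pp_const _ | apply CB.p_fst | apply CB.p_snd | apply CB.p_pair | apply CB.p_add | apply CB.p_sub | apply CB.p_mul | apply CB.p_div | apply CB.p_mod | apply CB.p_pow | apply CB.p_oA | apply CB.p_oB | apply CB.p_iA | apply CB.p_iB | apply CB.p_tr | apply CB.p_tl | apply CB.p_dg | apply CB.pp_all | apply CB.pp_ex | apply CB.pp_all_mem | apply CB.pp_ex_mem | apply CB.pp_and | apply CB.pp_or | apply CB.pp_not | apply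 CB.pp_iff | apply CB.pp_imp | apply CB.pp_eq | apply CB.pp_lt | apply CB.pp_le | apply CB.pp_mem))

theorem valN_iff (x : Code) : ValN x ↔ Valid (dec x.1 x.2) := by
  obtain ⟨s, t⟩ := x
  have e : Valid (dec s t) ↔
    ((∀ a, (dec s t).iA ((dec s t).iA a) = a) ∧ (∀ b, (dec s t).iB ((dec s t).iB b) = b) ∧
    (∀ a b, (dec s t).oA a = (dec s t).oB b →
      (dec s t).oA ((dec s t).tr a b) = (dec s t).oB ((dec s t).iB b)) ∧
    (∀ a b, (dec s t).oA a = (dec s t).oB b →
      (dec s t).oB ((dec s t).tl a b) = (dec s t).oA ((dec s t).iA a)) ∧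
    (∀ a b, (dec s t).oA a = (dec s t).oB b →
      (dec s t).tr ((dec s t).iA a) ((dec s t).tl a b) = (dec s t).iA ((dec s t).tr a b)) ∧
    (∀ a b, (dec s t).oA a = (dec s t).oB b →
      (dec s t).tl ((dec s t).iA a) ((dec s t).tl a b) = b) ∧
    (∀ a b, (dec s t).oA a = (dec s t).oB b →
      (dec s t).tr ((dec s t).tr a b) ((dec s t).iB b) = a) ∧
    (∀ a b, (dec s t).oA a = (dec s t).oB b →
      (dec s t).tl ((dec s t).tr a b) ((dec s t).iB b) = (dec s t).iB ((dec s t).tl a b))) := by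
    constructor
    · intro h
      exact ⟨h.iA, h.iB, h.otr, h.otl, h.tri, h.tli, h.tri', h.tli'⟩
    · rintro ⟨h1, h2, h3, h4, h5, h6, h7, h8⟩
      exact ⟨h1, h2, h3, h4, h5, h6, h7, h8⟩
  have vA : ∀ a, (((dec s t).oA a : Fin _) : ℕ) = oA (s, t) a := fun _ => rfl
  have vB : ∀ b, (((dec s t).oB b : Fin _) : ℕ) = oB (s, t) b := fun _ => rfl
  have viA : ∀ a, (((dec s t).iA a : Fin _) : ℕ) = iA (s, t) a := fun _ => rfl
  have viB : ∀ b, (((dec s t).iB b : Fin _) : ℕ) = iB (s, t) b := fun _ => rfl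
  have vtr : ∀ a b, (((dec s t).tr a b : Fin _) : ℕ) = tr (s, t) a b := fun _ _ => rfl
  have vtl : ∀ a b, (((dec s t).tl a b : Fin _) : ℕ) = tl (s, t) a b := fun _ _ => rfl
  dsimp only
  rw [e]
  unfold ValN
  simp only [Fin.ext_iff, vA, vB, viA, viB, vtr, vtl, Fin.forall_iff]

/-! ### horizontal goodness, for number functions -/

/-- vertical translation along a list of darts; impossible steps are skipped -/
def vr (nB : ℕ) (oA oB : ℕ → ℕ) (tr : ℕ → ℕ → ℕ) (a : ℕ) (w : List ℕ) : ℕ :=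
  w.foldl (fun a b => if b < nB + 1 ∧ oA a = oB b then tr a b else a) a

/-- primitive recursive part of goodness -/
def GH1 (nP nA nB : ℕ) (oA oB iA : ℕ → ℕ) (tr : ℕ → ℕ → ℕ) : Prop :=
  (∀ q < nP + 1, ∃ a < nA + 1, ∃ a' < nA + 1, ¬ a = a' ∧ oA a = q ∧ oA a' = q) ∧
  (∃ q < nP + 1, ∃ a < nA + 1, ∃ a' < nA + 1, ∃ a'' < nA + 1, ¬ a = a' ∧ ¬ a' = a'' ∧ ¬ a = a'' ∧
    oA a = q ∧ oA a' = q ∧ oA a'' = q) ∧
  (∃ c < 2 ^ (nA + 1), (∀ a < nA + 1, ¬ dg 1 c (iA a) = dg 1 c a) ∧
    ∀ a < nA + 1, ∀ b < nB + 1, oA a = oB b → dg 1 c (tr a b) = dg 1 c a)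

/-- the reducedness condition for the dart `a` with witness `w` -/
def GH2 (nB : ℕ) (oA oB iA : ℕ → ℕ) (tr : ℕ → ℕ → ℕ) (a : ℕ) (w : List ℕ) : Prop :=
  oA (vr nB oA oB tr a w) = oA (iA a) ∨ (¬ vr nB oA oB tr a w = a ∧
    oA (vr nB oA oB tr a w) = oA a)

section Gen

variable {nP nA nB : ℕ} (X : Dat (Fin (nP + 1)) (Fin (nA + 1)) (Fin (nB + 1)))
  (oA oB iA : ℕ → ℕ) (tr : ℕ → ℕ → ℕ)

theorem bool_dg (nA : ℕ) (s : Fin (nA + 1) → Bool) :
    ∃ c < 2 ^ (nA + 1), ∀ a : Fin (nA + 1), dg 1 c a = if s a then 1 else 0 := by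
  obtain ⟨c, hc, h⟩ := exists_pred nA (fun a => s a = true)
  refine ⟨c, hc, fun a => ?_⟩
  have h1 := h a
  have h2 := dg_lt 1 c a
  split_ifs with h3
  · exact h1.2 h3
  · have h4 : ¬ dg 1 c a = 1 := fun h5 => h3 (h1.1 h5)
    omega

theorem gh1_iff (hA : ∀ a, ((X.oA a : Fin _) : ℕ) = oA a) (hB : ∀ b, ((X.oB b : Fin _) : ℕ) = oB b)
    (hi : ∀ a, ((X.iA a : Fin _) : ℕ) = iA a) (ht : ∀ a b, ((X.tr a b : Fin _) : ℕ) = tr a b) :
    GH1 nP nA nB oA oB iA tr ↔
      (∀ q : Fin (nP + 1), ∃ a a', a ≠ a' ∧ X.oA a = q ∧ X.oA a' = q) ∧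
      (∃ (q : Fin (nP + 1)) (a a' a'' : Fin (nA + 1)), a ≠ a' ∧ a' ≠ a'' ∧ a ≠ a'' ∧ X.oA a = q ∧
        X.oA a' = q ∧ X.oA a'' = q) ∧
      (∃ s : Fin (nA + 1) → Bool, (∀ a, s (X.iA a) = !(s a)) ∧
        ∀ a b, X.oA a = X.oB b → s (X.tr a b) = s a) := by
  unfold GH1
  have e3 : (∃ c < 2 ^ (nA + 1), (∀ a < nA + 1, ¬ dg 1 c (iA a) = dg 1 c a) ∧
      ∀ a < nA + 1, ∀ b < nB + 1, oA a = oB b → dg 1 c (tr a b) = dg 1 c a) ↔
      (∃ s : Fin (nA + 1) → Bool, (∀ a, s (X.iA a) = !(s a)) ∧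
        ∀ a b, X.oA a = X.oB b → s (X.tr a b) = s a) := by
    constructor
    · rintro ⟨c, -, h1, h2⟩
      refine ⟨fun a => decide (dg 1 c a = 1), fun a => ?_, fun a b hab => ?_⟩
      · have h3 := h1 a a.2
        have h4 := dg_lt 1 c a
        have h5 := dg_lt 1 c (iA a)
        dsimp only
        rw [hi]
        by_cases h6 : dg 1 c a = 1
        · have h7 : ¬ dg 1 c (iA a) = 1 := by omega
          simp [h6, h7]
        · have h7 : dg 1 c (iA a) = 1 := by omega
          simp [h6, h7]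
      · have h3 := h2 a a.2 b b.2 (by rw [← hA, ← hB, hab])
        dsimp only
        rw [ht, h3]
    · rintro ⟨s, h1, h2⟩
      obtain ⟨c, hc, h3⟩ := bool_dg nA s
      refine ⟨c, hc, fun a ha => ?_, fun a ha b hb hab => ?_⟩
      · have h4 := h3 ⟨a, ha⟩
        have h5 := h3 (X.iA ⟨a, ha⟩)
        rw [hi, h1] at h5
        dsimp only at h4 h5
        rw [h4, h5]
        cases s ⟨a, ha⟩ <;> simp
      · have h4 := h3 ⟨a, ha⟩
        have h5 := h3 (X.tr ⟨a, ha⟩ ⟨b, hb⟩)
        rw [ht, h2 ⟨a, ha⟩ ⟨b, hb⟩ (Fin.ext (by rw [hA, hB]; exact hab)), ← h4] at h5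
        exact h5
  rw [e3]
  simp only [Fin.forall_iff, Fin.exists_iff, Fin.ext_iff, hA, ne_eq, exists_prop]

theorem vr_lt (ht : ∀ a < nA + 1, ∀ b < nB + 1, tr a b < nA + 1) (w : List ℕ) (a : ℕ)
    (ha : a < nA + 1) : vr nB oA oB tr a w < nA + 1 := by
  induction w generalizing a with
  | nil => exact ha
  | cons b w ih =>
    unfold vr
    rw [List.foldl_cons]
    apply ih
    split_ifs with h
    · exact ht a ha b h.1
    · exact ha

theorem vtr_trans {P A B : Type} {X : Dat P A B} {a a' a'' : A} (h1 : VTr X a a')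
    (h2 : VTr X a' a'') : VTr X a a'' := by
  induction h2 with
  | refl => exact h1
  | step c b _ h3 ih => exact VTr.step c b ih h3

theorem vr_append (w w' : List ℕ) (a : ℕ) :
    vr nB oA oB tr a (w ++ w') = vr nB oA oB tr (vr nB oA oB tr a w) w' := by
  unfold vr
  rw [List.foldl_append]

theorem vtr_iff (hA : ∀ a, ((X.oA a : Fin _) : ℕ) = oA a) (hB : ∀ b, ((X.oB b : Fin _) : ℕ) = oB b)
    (ht : ∀ a b, ((X.tr a b : Fin _) : ℕ) = tr a b) (a a' : Fin (nA + 1)) :
    VTr X a a' ↔ ∃ w : List ℕ, vr nB oA oB tr a w = a' := by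
  constructor
  · intro h
    induction h with
    | refl => exact ⟨[], rfl⟩
    | step c b _ h3 ih =>
      obtain ⟨w, hw⟩ := ih
      refine ⟨w ++ [(b : ℕ)], ?_⟩
      rw [vr_append, hw]
      unfold vr
      have h4 : oA c = oB b := by rw [← hA, ← hB, h3]
      simp only [List.foldl_cons, List.foldl_nil]
      rw [if_pos ⟨b.2, h4⟩, ht]
  · rintro ⟨w, hw⟩
    induction w generalizing a with
    | nil =>
      have : a = a' := Fin.ext hw
      subst this
      exact VTr.refl
    | cons b w ih =>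
      unfold vr at hw
      rw [List.foldl_cons] at hw
      split_ifs at hw with h
      · have h5 := ih (X.tr a ⟨b, h.1⟩) (by rw [ht]; exact hw)
        refine vtr_trans (VTr.step a ⟨b, h.1⟩ VTr.refl ?_) h5
        apply Fin.ext
        rw [hA, hB]
        exact h.2
      · exact ih a hw

theorem goodH_iff (hA : ∀ a, ((X.oA a : Fin _) : ℕ) = oA a)
    (hB : ∀ b, ((X.oB b : Fin _) : ℕ) = oB b)
    (hi : ∀ a, ((X.iA a : Fin _) : ℕ) = iA a) (ht : ∀ a b, ((X.tr a b : Fin _) : ℕ) = tr a b) :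
    GoodH X ↔ GH1 nP nA nB oA oB iA tr ∧
      ∀ a < nA + 1, ∃ w : List ℕ, GH2 nB oA oB iA tr a w := by
  have e : GoodH X ↔ ((∀ q : Fin (nP + 1), ∃ a a', a ≠ a' ∧ X.oA a = q ∧ X.oA a' = q) ∧
      (∃ (q : Fin (nP + 1)) (a a' a'' : Fin (nA + 1)), a ≠ a' ∧ a' ≠ a'' ∧ a ≠ a'' ∧ X.oA a = q ∧
        X.oA a' = q ∧ X.oA a'' = q) ∧
      (∃ s : Fin (nA + 1) → Bool, (∀ a, s (X.iA a) = !(s a)) ∧
        ∀ a b, X.oA a = X.oB b → s (X.tr a b) = s a)) ∧
      ∀ a, ∃ a', VTr X a a' ∧ (X.oA a' = X.oA (X.iA a) ∨ (a' ≠ a ∧ X.oA a' = X.oA a)) := by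
    constructor
    · intro h
      exact ⟨⟨h.two, h.three, h.orient⟩, h.red⟩
    · rintro ⟨⟨h1, h2, h3⟩, h4⟩
      exact ⟨h1, h2, h3, h4⟩
  rw [e, ← gh1_iff X oA oB iA tr hA hB hi ht]
  refine and_congr_right fun _ => ?_
  rw [Fin.forall_iff]
  refine forall_congr' fun a => forall_congr' fun ha => ?_
  constructor
  · rintro ⟨a', h1, h2⟩
    obtain ⟨w, hw⟩ := (vtr_iff X oA oB tr hA hB ht _ _).1 h1
    refine ⟨w, ?_⟩
    unfold GH2
    dsimp only at hw
    rw [hw, ← hA a']
    rcases h2 with h2 | ⟨h2, h3⟩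
    · left
      rw [h2, hA, hi]
    · right
      refine ⟨fun h4 => h2 (Fin.ext h4), ?_⟩
      rw [h3, hA]
  · rintro ⟨w, hw⟩
    have hlt : vr nB oA oB tr a w < nA + 1 := by
      apply vr_lt oA oB tr _ w a ha
      intro c hc b hb
      rw [← ht ⟨c, hc⟩ ⟨b, hb⟩]
      exact Fin.isLt _
    refine ⟨⟨_, hlt⟩, (vtr_iff X oA oB tr hA hB ht _ _).2 ⟨w, rfl⟩, ?_⟩
    rcases hw with hw | ⟨hw, hw'⟩
    · left
      apply Fin.ext
      rw [hA, hA, hi]
      exact hw
    · right
      refine ⟨fun h4 => hw (congrArg Fin.val h4), ?_⟩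
      apply Fin.ext
      rw [hA, hA]
      exact hw'

end Gen

theorem gh1_p : PrimrecPred (fun x : Code =>
    GH1 x.1.1 x.1.2.1 x.1.2.2 (oA x) (oB x) (iA x) (tr x)) := by
  unfold GH1
  (repeat' (with_reducible first | assumption | exact CB.p_id | exact Primrec.const _ | exact CB.pp_const _ | apply CB.p_fst | apply CB.p_snd | apply CB.p_pair | apply CB.p_add | apply CB.p_sub | apply CB.p_mul | apply CB.p_div | apply CB.p_mod | apply CB.p_pow | apply CB.p_oA | apply CB.p_oB | apply CB.p_iA | apply CB.p_iB | apply CB.p_tr | apply CB.p_tl | apply CB.p_dg | apply CB.pp_all | apply CB.pp_ex | apply CB.pp_all_mem | apply CB.pp_ex_mem | apply CB.pp_and | apply CB.pp_or | apply CB.pp_not | apply CB.pp_iff | apply CB.pp_imp | apply CB.pp_eq | apply CB.pp_lt | apply CB.pp_le | apply CB.pp_mem))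

theorem gh1_p' : PrimrecPred (fun x : Code =>
    GH1 x.1.1 x.1.2.2 x.1.2.1 (oB x) (oA x) (iB x) (fun b a => tl x a b)) := by
  unfold GH1
  (repeat' (with_reducible first | assumption | exact CB.p_id | exact Primrec.const _ | exact CB.pp_const _ | apply CB.p_fst | apply CB.p_snd | apply CB.p_pair | apply CB.p_add | apply CB.p_sub | apply CB.p_mul | apply CB.p_div | apply CB.p_mod | apply CB.p_pow | apply CB.p_oA | apply CB.p_oB | apply CB.p_iA | apply CB.p_iB | apply CB.p_tr | apply CB.p_tl | apply CB.p_dg | apply CB.pp_all | apply CB.pp_ex | apply CB.pp_all_mem | apply CB.pp_ex_mem | apply CB.pp_and | apply CB.pp_or | apply CB.pp_not | apply CB.pp_iff | apply CB.pp_imp | apply CB.pp_eq | apply CB.pp_lt | apply CB.pp_le | apply CB.pp_mem))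

theorem vr_p : Primrec (fun x : (Code × ℕ) × List ℕ =>
    vr x.1.1.1.2.2 (oA x.1.1) (oB x.1.1) (tr x.1.1) x.1.2 x.2) := by
  unfold vr
  refine Primrec.list_foldl (f := fun x : (Code × ℕ) × List ℕ => x.2)
    (g := fun x : (Code × ℕ) × List ℕ => x.1.2)
    (h := fun (x : (Code × ℕ) × List ℕ) (p : ℕ × ℕ) =>
      if p.2 < x.1.1.1.2.2 + 1 ∧ oA x.1.1 p.1 = oB x.1.1 p.2 then tr x.1.1 p.1 p.2 else p.1)
    ?_ ?_ ?_
  · (repeat' (with_reducible first | assumption | exact CB.p_id | exact Primrec.const _ | exact CB.pp_const _ | apply CB.p_fst | apply CB.p_snd | apply CB.p_pair | apply CB.p_add | apply CB.p_sub | apply CB.p_mul | apply CB.p_div | apply CB.p_mod | apply CB.p_pow | apply CB.p_oA | apply CB.p_oB | apply CB.p_iA | apply CB.p_iB | apply CB.p_tr | apply CB.p_tl | apply CB.p_dg | apply CB.pp_all | apply CB.pp_ex | apply CB.pp_all_mem | apply CB.pp_ex_mem | apply CB.pp_and | apply CB.pp_or | apply CB.pp_not | apply CB.pp_iff | apply CB.pp_imp | apply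 CB.pp_eq | apply CB.pp_lt | apply CB.pp_le | apply CB.pp_mem))
  · (repeat' (with_reducible first | assumption | exact CB.p_id | exact Primrec.const _ | exact CB.pp_const _ | apply CB.p_fst | apply CB.p_snd | apply CB.p_pair | apply CB.p_add | apply CB.p_sub | apply CB.p_mul | apply CB.p_div | apply CB.p_mod | apply CB.p_pow | apply CB.p_oA | apply CB.p_oB | apply CB.p_iA | apply CB.p_iB | apply CB.p_tr | apply CB.p_tl | apply CB.p_dg | apply CB.pp_all | apply CB.pp_ex | apply CB.pp_all_mem | apply CB.pp_ex_mem | apply CB.pp_and | apply CB.pp_or | apply CB.pp_not | apply CB.pp_iff | apply CB.pp_imp | apply CB.pp_eq | apply CB.pp_lt | apply CB.pp_le | apply CB.pp_mem))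
  · have h1 : PrimrecPred (fun y : ((Code × ℕ) × List ℕ) × (ℕ × ℕ) =>
        y.2.2 < y.1.1.1.1.2.2 + 1 ∧ oA y.1.1.1 y.2.1 = oB y.1.1.1 y.2.2) := by (repeat' (with_reducible first | assumption | exact CB.p_id | exact Primrec.const _ | exact CB.pp_const _ | apply CB.p_fst | apply CB.p_snd | apply CB.p_pair | apply CB.p_add | apply CB.p_sub | apply CB.p_mul | apply CB.p_div | apply CB.p_mod | apply CB.p_pow | apply CB.p_oA | apply CB.p_oB | apply CB.p_iA | apply CB.p_iB | apply CB.p_tr | apply CB.p_tl | apply CB.p_dg | apply CB.pp_all | apply CB.pp_ex | apply CB.pp_all_mem | apply CB.pp_ex_mem | apply CB.pp_and | apply CB.pp_or | apply CB.pp_not | apply CB.pp_iff | apply CB.pp_imp | apply CB.pp_eq | apply CB.pp_lt | apply CB.pp_le | apply CB.pp_mem))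
    have h2 : Primrec (fun y : ((Code × ℕ) × List ℕ) × (ℕ × ℕ) =>
        tr y.1.1.1 y.2.1 y.2.2) := by (repeat' (with_reducible first | assumption | exact CB.p_id | exact Primrec.const _ | exact CB.pp_const _ | apply CB.p_fst | apply CB.p_snd | apply CB.p_pair | apply CB.p_add | apply CB.p_sub | apply CB.p_mul | apply CB.p_div | apply CB.p_mod | apply CB.p_pow | apply CB.p_oA | apply CB.p_oB | apply CB.p_iA | apply CB.p_iB | apply CB.p_tr | apply CB.p_tl | apply CB.p_dg | apply CB.pp_all | apply CB.pp_ex | apply CB.pp_all_mem | apply CB.pp_ex_mem | apply CB.pp_and | apply CB.pp_or | apply CB.pp_not | apply CB.pp_iff | apply CB.pp_imp | apply CB.pp_eq | apply CB.pp_lt | apply CB.pp_le | apply CB.pp_mem))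
    have h3 : Primrec (fun y : ((Code × ℕ) × List ℕ) × (ℕ × ℕ) => y.2.1) := by (repeat' (with_reducible first | assumption | exact CB.p_id | exact Primrec.const _ | exact CB.pp_const _ | apply CB.p_fst | apply CB.p_snd | apply CB.p_pair | apply CB.p_add | apply CB.p_sub | apply CB.p_mul | apply CB.p_div | apply CB.p_mod | apply CB.p_pow | apply CB.p_oA | apply CB.p_oB | apply CB.p_iA | apply CB.p_iB | apply CB.p_tr | apply CB.p_tl | apply CB.p_dg | apply CB.pp_all | apply CB.pp_ex | apply CB.pp_all_mem | apply CB.pp_ex_mem | apply CB.pp_and | apply CB.pp_or | apply CB.pp_not | apply CB.pp_iff | apply CB.pp_imp | apply CB.pp_eq | apply CB.pp_lt | apply CB.pp_le | apply CB.pp_mem))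
    exact Primrec.ite h1 h2 h3

theorem vr_p' : Primrec (fun x : (Code × ℕ) × List ℕ =>
    vr x.1.1.1.2.1 (oB x.1.1) (oA x.1.1) (fun b a => tl x.1.1 a b) x.1.2 x.2) := by
  unfold vr
  refine Primrec.list_foldl (f := fun x : (Code × ℕ) × List ℕ => x.2)
    (g := fun x : (Code × ℕ) × List ℕ => x.1.2)
    (h := fun (x : (Code × ℕ) × List ℕ) (p : ℕ × ℕ) =>
      if p.2 < x.1.1.1.2.1 + 1 ∧ oB x.1.1 p.1 = oA x.1.1 p.2 then tl x.1.1 p.2 p.1 else p.1)
    ?_ ?_ ?_
  · (repeat' (with_reducible first | assumption | exact CB.p_id | exact Primrec.const _ | exact CB.pp_const _ | apply CB.p_fst | apply CB.p_snd | apply CB.p_pair | apply CB.p_add | apply CB.p_sub | apply CB.p_mul | apply CB.p_div | apply CB.p_mod | apply CB.p_pow | apply CB.p_oA | apply CB.p_oB | apply CB.p_iA | apply CB.p_iB | apply CB.p_tr | apply CB.p_tl | apply CB.p_dg | apply CB.pp_all | apply CB.pp_ex | apply CB.pp_all_mem | apply CB.pp_ex_mem | apply CB.pp_and | apply CB.pp_or | apply CB.pp_not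 | apply CB.pp_iff | apply CB.pp_imp | apply CB.pp_eq | apply CB.pp_lt | apply CB.pp_le | apply CB.pp_mem))
  · (repeat' (with_reducible first | assumption | exact CB.p_id | exact Primrec.const _ | exact CB.pp_const _ | apply CB.p_fst | apply CB.p_snd | apply CB.p_pair | apply CB.p_add | apply CB.p_sub | apply CB.p_mul | apply CB.p_div | apply CB.p_mod | apply CB.p_pow | apply CB.p_oA | apply CB.p_oB | apply CB.p_iA | apply CB.p_iB | apply CB.p_tr | apply CB.p_tl | apply CB.p_dg | apply CB.pp_all | apply CB.pp_ex | apply CB.pp_all_mem | apply CB.pp_ex_mem | apply CB.pp_and | apply CB.pp_or | apply CB.pp_not | apply CB.pp_iff | apply CB.pp_imp | apply CB.pp_eq | apply CB.pp_lt | apply CB.pp_le | apply CB.pp_mem))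
  · have h1 : PrimrecPred (fun y : ((Code × ℕ) × List ℕ) × (ℕ × ℕ) =>
        y.2.2 < y.1.1.1.1.2.1 + 1 ∧ oB y.1.1.1 y.2.1 = oA y.1.1.1 y.2.2) := by (repeat' (with_reducible first | assumption | exact CB.p_id | exact Primrec.const _ | exact CB.pp_const _ | apply CB.p_fst | apply CB.p_snd | apply CB.p_pair | apply CB.p_add | apply CB.p_sub | apply CB.p_mul | apply CB.p_div | apply CB.p_mod | apply CB.p_pow | apply CB.p_oA | apply CB.p_oB | apply CB.p_iA | apply CB.p_iB | apply CB.p_tr | apply CB.p_tl | apply CB.p_dg | apply CB.pp_all | apply CB.pp_ex | apply CB.pp_all_mem | apply CB.pp_ex_mem | apply CB.pp_and | apply CB.pp_or | apply CB.pp_not | apply CB.pp_iff | apply CB.pp_imp | apply CB.pp_eq | apply CB.pp_lt | apply CB.pp_le | apply CB.pp_mem))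
    have h2 : Primrec (fun y : ((Code × ℕ) × List ℕ) × (ℕ × ℕ) =>
        tl y.1.1.1 y.2.2 y.2.1) := by (repeat' (with_reducible first | assumption | exact CB.p_id | exact Primrec.const _ | exact CB.pp_const _ | apply CB.p_fst | apply CB.p_snd | apply CB.p_pair | apply CB.p_add | apply CB.p_sub | apply CB.p_mul | apply CB.p_div | apply CB.p_mod | apply CB.p_pow | apply CB.p_oA | apply CB.p_oB | apply CB.p_iA | apply CB.p_iB | apply CB.p_tr | apply CB.p_tl | apply CB.p_dg | apply CB.pp_all | apply CB.pp_ex | apply CB.pp_all_mem | apply CB.pp_ex_mem | apply CB.pp_and | apply CB.pp_or | apply CB.pp_not | apply CB.pp_iff | apply CB.pp_imp | apply CB.pp_eq | apply CB.pp_lt | apply CB.pp_le | apply CB.pp_mem))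
    have h3 : Primrec (fun y : ((Code × ℕ) × List ℕ) × (ℕ × ℕ) => y.2.1) := by (repeat' (with_reducible first | assumption | exact CB.p_id | exact Primrec.const _ | exact CB.pp_const _ | apply CB.p_fst | apply CB.p_snd | apply CB.p_pair | apply CB.p_add | apply CB.p_sub | apply CB.p_mul | apply CB.p_div | apply CB.p_mod | apply CB.p_pow | apply CB.p_oA | apply CB.p_oB | apply CB.p_iA | apply CB.p_iB | apply CB.p_tr | apply CB.p_tl | apply CB.p_dg | apply CB.pp_all | apply CB.pp_ex | apply CB.pp_all_mem | apply CB.pp_ex_mem | apply CB.pp_and | apply CB.pp_or | apply CB.pp_not | apply CB.pp_iff | apply CB.pp_imp | apply CB.pp_eq | apply CB.pp_lt | apply CB.pp_le | apply CB.pp_mem))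
    exact Primrec.ite h1 h2 h3

theorem gh2_p : PrimrecPred (fun x : (Code × ℕ) × List ℕ =>
    GH2 x.1.1.1.2.2 (oA x.1.1) (oB x.1.1) (iA x.1.1) (tr x.1.1) x.1.2 x.2) := by
  unfold GH2
  have h := vr_p
  apply pp_or
  · apply pp_eq
    · exact p_oA (p_fst (p_fst p_id)) h
    · (repeat' (with_reducible first | assumption | exact CB.p_id | exact Primrec.const _ | exact CB.pp_const _ | apply CB.p_fst | apply CB.p_snd | apply CB.p_pair | apply CB.p_add | apply CB.p_sub | apply CB.p_mul | apply CB.p_div | apply CB.p_mod | apply CB.p_pow | apply CB.p_oA | apply CB.p_oB | apply CB.p_iA | apply CB.p_iB | apply CB.p_tr | apply CB.p_tl | apply CB.p_dg | apply CB.pp_all | apply CB.pp_ex | apply CB.pp_all_mem | apply CB.pp_ex_mem | apply CB.pp_and | apply CB.pp_or | apply CB.pp_not | apply CB.pp_iff | apply CB.pp_imp | apply CB.pp_eq | apply CB.pp_lt | apply CB.pp_le | apply CB.pp_mem))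
  · apply pp_and
    · apply pp_not
      apply pp_eq
      · exact h
      · (repeat' (with_reducible first | assumption | exact CB.p_id | exact Primrec.const _ | exact CB.pp_const _ | apply CB.p_fst | apply CB.p_snd | apply CB.p_pair | apply CB.p_add | apply CB.p_sub | apply CB.p_mul | apply CB.p_div | apply CB.p_mod | apply CB.p_pow | apply CB.p_oA | apply CB.p_oB | apply CB.p_iA | apply CB.p_iB | apply CB.p_tr | apply CB.p_tl | apply CB.p_dg | apply CB.pp_all | apply CB.pp_ex | apply CB.pp_all_mem | apply CB.pp_ex_mem | apply CB.pp_and | apply CB.pp_or | apply CB.pp_not | apply CB.pp_iff | apply CB.pp_imp | apply CB.pp_eq | apply CB.pp_lt | apply CB.pp_le | apply CB.pp_mem))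
    · apply pp_eq
      · exact p_oA (p_fst (p_fst p_id)) h
      · (repeat' (with_reducible first | assumption | exact CB.p_id | exact Primrec.const _ | exact CB.pp_const _ | apply CB.p_fst | apply CB.p_snd | apply CB.p_pair | apply CB.p_add | apply CB.p_sub | apply CB.p_mul | apply CB.p_div | apply CB.p_mod | apply CB.p_pow | apply CB.p_oA | apply CB.p_oB | apply CB.p_iA | apply CB.p_iB | apply CB.p_tr | apply CB.p_tl | apply CB.p_dg | apply CB.pp_all | apply CB.pp_ex | apply CB.pp_all_mem | apply CB.pp_ex_mem | apply CB.pp_and | apply CB.pp_or | apply CB.pp_not | apply CB.pp_iff | apply CB.pp_imp | apply CB.pp_eq | apply CB.pp_lt | apply CB.pp_le | apply CB.pp_mem))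

theorem gh2_p' : PrimrecPred (fun x : (Code × ℕ) × List ℕ =>
    GH2 x.1.1.1.2.1 (oB x.1.1) (oA x.1.1) (iB x.1.1) (fun b a => tl x.1.1 a b) x.1.2 x.2) := by
  unfold GH2
  have h := vr_p'
  apply pp_or
  · apply pp_eq
    · exact p_oB (p_fst (p_fst p_id)) h
    · (repeat' (with_reducible first | assumption | exact CB.p_id | exact Primrec.const _ | exact CB.pp_const _ | apply CB.p_fst | apply CB.p_snd | apply CB.p_pair | apply CB.p_add | apply CB.p_sub | apply CB.p_mul | apply CB.p_div | apply CB.p_mod | apply CB.p_pow | apply CB.p_oA | apply CB.p_oB | apply CB.p_iA | apply CB.p_iB | apply CB.p_tr | apply CB.p_tl | apply CB.p_dg | apply CB.pp_all | apply CB.pp_ex | apply CB.pp_all_mem | apply CB.pp_ex_mem | apply CB.pp_and | apply CB.pp_or | apply CB.pp_not | apply CB.pp_iff | apply CB.pp_imp | apply CB.pp_eq | apply CB.pp_lt | apply CB.pp_le | apply CB.pp_mem))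
  · apply pp_and
    · apply pp_not
      apply pp_eq
      · exact h
      · (repeat' (with_reducible first | assumption | exact CB.p_id | exact Primrec.const _ | exact CB.pp_const _ | apply CB.p_fst | apply CB.p_snd | apply CB.p_pair | apply CB.p_add | apply CB.p_sub | apply CB.p_mul | apply CB.p_div | apply CB.p_mod | apply CB.p_pow | apply CB.p_oA | apply CB.p_oB | apply CB.p_iA | apply CB.p_iB | apply CB.p_tr | apply CB.p_tl | apply CB.p_dg | apply CB.pp_all | apply CB.pp_ex | apply CB.pp_all_mem | apply CB.pp_ex_mem | apply CB.pp_and | apply CB.pp_or | apply CB.pp_not | apply CB.pp_iff | apply CB.pp_imp | apply CB.pp_eq | apply CB.pp_lt | apply CB.pp_le | apply CB.pp_mem))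
    · apply pp_eq
      · exact p_oB (p_fst (p_fst p_id)) h
      · (repeat' (with_reducible first | assumption | exact CB.p_id | exact Primrec.const _ | exact CB.pp_const _ | apply CB.p_fst | apply CB.p_snd | apply CB.p_pair | apply CB.p_add | apply CB.p_sub | apply CB.p_mul | apply CB.p_div | apply CB.p_mod | apply CB.p_pow | apply CB.p_oA | apply CB.p_oB | apply CB.p_iA | apply CB.p_iB | apply CB.p_tr | apply CB.p_tl | apply CB.p_dg | apply CB.pp_all | apply CB.pp_ex | apply CB.pp_all_mem | apply CB.pp_ex_mem | apply CB.pp_and | apply CB.pp_or | apply CB.pp_not | apply CB.pp_iff | apply CB.pp_imp | apply CB.pp_eq | apply CB.pp_lt | apply CB.pp_le | apply CB.pp_mem))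

theorem goodH_re : REPred (fun x : Code => GoodH (dec x.1 x.2)) := by
  have h1 : REPred (fun x : Code => GH1 x.1.1 x.1.2.1 x.1.2.2 (oA x) (oB x) (iA x) (tr x) ∧
      ∀ a < x.1.2.1 + 1, ∃ w : List ℕ, GH2 x.1.2.2 (oA x) (oB x) (iA x) (tr x) a w) := by
    apply re_and
    · exact re_of_prim gh1_p
    · apply re_forall_lt (f := fun x : Code => x.1.2.1 + 1)
        (p := fun x a => ∃ w : List ℕ, GH2 x.1.2.2 (oA x) (oB x) (iA x) (tr x) a w)
      · (repeat' (with_reducible first | assumption | exact CB.p_id | exact Primrec.const _ | exact CB.pp_const _ | apply CB.p_fst | apply CB.p_snd | apply CB.p_pair | apply CB.p_add | apply CB.p_sub | apply CB.p_mul | apply CB.p_div | apply CB.p_mod | apply CB.p_pow | apply CB.p_oA | apply CB.p_oB | apply CB.p_iA | apply CB.p_iB | apply CB.p_tr | apply CB.p_tl | apply CB.p_dg | apply CB.pp_all | apply CB.pp_ex | apply CB.pp_all_mem | apply CB.pp_ex_mem | apply CB.pp_and | apply CB.pp_or | apply CB.pp_not | apply CB.pp_iff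 | apply CB.pp_imp | apply CB.pp_eq | apply CB.pp_lt | apply CB.pp_le | apply CB.pp_mem))
      · exact re_exists (re_of_prim gh2_p)
  refine h1.of_eq ?_
  intro x
  exact (goodH_iff (dec x.1 x.2) (oA x) (oB x) (iA x) (tr x) (fun _ => rfl) (fun _ => rfl)
    (fun _ => rfl) (fun _ _ => rfl)).symm

theorem goodV_re : REPred (fun x : Code => GoodH (dec x.1 x.2).swap) := by
  have h1 : REPred (fun x : Code =>
      GH1 x.1.1 x.1.2.2 x.1.2.1 (oB x) (oA x) (iB x) (fun b a => tl x a b) ∧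
      ∀ a < x.1.2.2 + 1, ∃ w : List ℕ,
        GH2 x.1.2.1 (oB x) (oA x) (iB x) (fun b a => tl x a b) a w) := by
    apply re_and
    · exact re_of_prim gh1_p'
    · apply re_forall_lt (f := fun x : Code => x.1.2.2 + 1)
        (p := fun x a => ∃ w : List ℕ,
          GH2 x.1.2.1 (oB x) (oA x) (iB x) (fun b a => tl x a b) a w)
      · (repeat' (with_reducible first | assumption | exact CB.p_id | exact Primrec.const _ | exact CB.pp_const _ | apply CB.p_fst | apply CB.p_snd | apply CB.p_pair | apply CB.p_add | apply CB.p_sub | apply CB.p_mul | apply CB.p_div | apply CB.p_mod | apply CB.p_pow | apply CB.p_oA | apply CB.p_oB | apply CB.p_iA | apply CB.p_iB | apply CB.p_tr | apply CB.p_tl | apply CB.p_dg | apply CB.pp_all | apply CB.pp_ex | apply CB.pp_all_mem | apply CB.pp_ex_mem | apply CB.pp_and | apply CB.pp_or | apply CB.pp_not | apply CB.pp_iff | apply CB.pp_imp | apply CB.pp_eq | apply CB.pp_lt | apply CB.pp_le | apply CB.pp_mem))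
      · exact re_exists (re_of_prim gh2_p')
  refine h1.of_eq ?_
  intro x
  exact (goodH_iff (dec x.1 x.2).swap (oB x) (oA x) (iB x) (fun b a => tl x a b) (fun _ => rfl)
    (fun _ => rfl) (fun _ => rfl) (fun _ _ => rfl)).symm

theorem spanEx_re : REPred (fun x : Code => ∃ p0 δ r, Span (dec x.1 x.2) p0 δ r) := by
  have h1 : REPred (fun x : Code => ∃ y : ℕ × ℕ × List ℕ,
      Span (dec x.1 x.2) (decp x.1 y.1) (decd x.1 y.2.1) (fun q => y.2.2.getD q 0)) := by
    apply re_exists (p := fun (x : Code) (y : ℕ × ℕ × List ℕ) =>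
      Span (dec x.1 x.2) (decp x.1 y.1) (decd x.1 y.2.1) (fun q => y.2.2.getD q 0))
    apply re_of_prim
    exact span_p
  refine h1.of_eq ?_
  intro x
  constructor
  · rintro ⟨y, hy⟩
    exact ⟨_, _, _, hy⟩
  · rintro ⟨p0, δ, r, h⟩
    obtain ⟨p, rfl⟩ := decp_surj x.1 p0
    obtain ⟨d, rfl⟩ := decd_surj x.1 δ
    refine ⟨(p, d, List.ofFn r), ?_⟩
    have hr : (fun q : Fin (x.1.1 + 1) => (List.ofFn r).getD (q : ℕ) 0) = r := by
      funext q
      rw [List.getD_eq_getElem _ _ (by rw [List.length_ofFn]; exact q.2), List.getElem_ofFn]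
    dsimp only
    rw [hr]
    exact h

end CB

theorem good_re : REPred (fun x : Code => Good (dec x.1 x.2)) := by
  have h1 : REPred (fun x : Code => Valid (dec x.1 x.2) ∧
      (∃ p0 δ r, Span (dec x.1 x.2) p0 δ r) ∧ GoodH (dec x.1 x.2) ∧
      GoodH (dec x.1 x.2).swap) := by
    apply re_and
    · exact re_of_prim (PrimrecPred.of_eq CB.valN_p CB.valN_iff)
    apply re_and
    · exact CB.spanEx_re
    apply re_and
    · exact CB.goodH_re
    · exact CB.goodV_re
  refine h1.of_eq ?_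
  intro x
  constructor
  · rintro ⟨h1, h2, h3, h4⟩
    exact ⟨h1, h2, h3, h4⟩
  · intro h
    exact ⟨h.valid, h.span, h.goodH, h.goodV⟩

end LatIso
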