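import Pool.Agent.Lib.MP_32d917_al.Defs

/-!
# Codes of data: closure properties of primitive recursion and number valued tables
-/

set_option autoImplicit false

namespace LatIso

namespace CB

section Clos

variable {β : Type} [Primcodable β] {γ δ : Type} [Primcodable γ] [Primcodable δ]

theorem p_id : Primrec (fun x : β => x) := Primrec.id

theorem p_fst {f : β → γ × δ} (hf : Primrec f) : Primrec (fun x => (f x).1) := Primrec.fst.comp hf

theorem p_snd {f : β → γ × δ} (hf : Primrec f) : Primrec (fun x => (f x).2) := Primrec.snd.comp hf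

theorem p_pair {f : β → γ} {g : β → δ} (hf : Primrec f) (hg : Primrec g) :
    Primrec (fun x => (f x, g x)) := Primrec.pair hf hg

theorem p_add {f g : β → ℕ} (hf : Primrec f) (hg : Primrec g) :
    Primrec (fun x => f x + g x) := Primrec.nat_add.comp hf hg

theorem p_sub {f g : β → ℕ} (hf : Primrec f) (hg : Primrec g) :
    Primrec (fun x => f x - g x) := Primrec.nat_sub.comp hf hg

theorem p_mul {f g : β → ℕ} (hf : Primrec f) (hg : Primrec g) :
    Primrec (fun x => f x * g x) := Primrec.nat_mul.comp hf hg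

theorem p_div {f g : β → ℕ} (hf : Primrec f) (hg : Primrec g) :
    Primrec (fun x => f x / g x) := Primrec.nat_div.comp hf hg

theorem p_mod {f g : β → ℕ} (hf : Primrec f) (hg : Primrec g) :
    Primrec (fun x => f x % g x) := Primrec.nat_mod.comp hf hg

theorem p_pow {f g : β → ℕ} (hf : Primrec f) (hg : Primrec g) :
    Primrec (fun x => f x ^ g x) :=
  (Primrec₂.unpaired'.1 Nat.Primrec.pow : Primrec₂ ((· ^ ·) : ℕ → ℕ → ℕ)).comp hf hg

theorem pp_const (p : Prop) : PrimrecPred (fun _ : β => p) := by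
  classical
  by_cases h : p
  · refine PrimrecPred.of_eq (p := fun _ : β => (0 : ℕ) = 0) ?_ (by intro a; simp [h])
    exact Primrec.eq.comp (Primrec.const _) (Primrec.const _)
  · refine PrimrecPred.of_eq (p := fun _ : β => (0 : ℕ) = 1) ?_ (by intro a; simp [h])
    exact Primrec.eq.comp (Primrec.const _) (Primrec.const _)

theorem pp_eq {f g : β → γ} (hf : Primrec f) (hg : Primrec g) :
    PrimrecPred (fun x => f x = g x) := Primrec.eq.comp hf hg

theorem pp_lt {f g : β → ℕ} (hf : Primrec f) (hg : Primrec g) :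
    PrimrecPred (fun x => f x < g x) := Primrec.nat_lt.comp hf hg

theorem pp_le {f g : β → ℕ} (hf : Primrec f) (hg : Primrec g) :
    PrimrecPred (fun x => f x ≤ g x) := Primrec.nat_le.comp hf hg

theorem pp_not {p : β → Prop} (hp : PrimrecPred p) : PrimrecPred (fun x => ¬ p x) := hp.not

theorem pp_and {p q : β → Prop} (hp : PrimrecPred p) (hq : PrimrecPred q) :
    PrimrecPred (fun x => p x ∧ q x) := hp.and hq

theorem pp_or {p q : β → Prop} (hp : PrimrecPred p) (hq : PrimrecPred q) :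
    PrimrecPred (fun x => p x ∨ q x) := hp.or hq

theorem pp_imp {p q : β → Prop} (hp : PrimrecPred p)
    (hq : PrimrecPred q) : PrimrecPred (fun x => p x → q x) := by
  refine PrimrecPred.of_eq (hp.not.or hq) ?_
  intro a; tauto

theorem pp_iff {p q : β → Prop} (hp : PrimrecPred p)
    (hq : PrimrecPred q) : PrimrecPred (fun x => (p x ↔ q x)) := by
  refine PrimrecPred.of_eq (pp_and (pp_imp hp hq) (pp_imp hq hp)) ?_
  intro a; tauto

theorem pp_all {p : β → ℕ → Prop} {f : β → ℕ}
    (hf : Primrec f) (hp : PrimrecPred (fun x : β × ℕ => p x.1 x.2)) :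
    PrimrecPred (fun x => ∀ t < f x, p x t) := by
  have h1 : PrimrecRel (fun (t : ℕ) (x : β) => p x t) :=
    hp.comp (Primrec.pair Primrec.snd Primrec.fst)
  refine PrimrecPred.of_eq (h1.forall_mem_list.comp (Primrec.list_range.comp hf) Primrec.id) ?_
  intro x; simp

theorem pp_ex {p : β → ℕ → Prop} {f : β → ℕ}
    (hf : Primrec f) (hp : PrimrecPred (fun x : β × ℕ => p x.1 x.2)) :
    PrimrecPred (fun x => ∃ t < f x, p x t) := by
  have h1 : PrimrecRel (fun (t : ℕ) (x : β) => p x t) :=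
    hp.comp (Primrec.pair Primrec.snd Primrec.fst)
  refine PrimrecPred.of_eq (h1.exists_mem_list.comp (Primrec.list_range.comp hf) Primrec.id) ?_
  intro x; simp

theorem pp_all_mem {p : β → γ → Prop} {f : β → List γ}
    (hf : Primrec f) (hp : PrimrecPred (fun x : β × γ => p x.1 x.2)) :
    PrimrecPred (fun x => ∀ t ∈ f x, p x t) := by
  have h1 : PrimrecRel (fun (t : γ) (x : β) => p x t) :=
    hp.comp (Primrec.pair Primrec.snd Primrec.fst)
  exact (h1.forall_mem_list).comp hf Primrec.id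

theorem pp_ex_mem {p : β → γ → Prop} {f : β → List γ}
    (hf : Primrec f) (hp : PrimrecPred (fun x : β × γ => p x.1 x.2)) :
    PrimrecPred (fun x => ∃ t ∈ f x, p x t) := by
  have h1 : PrimrecRel (fun (t : γ) (x : β) => p x t) :=
    hp.comp (Primrec.pair Primrec.snd Primrec.fst)
  exact (h1.exists_mem_list).comp hf Primrec.id

theorem pp_mem {f : β → γ} {g : β → List γ} (hf : Primrec f) (hg : Primrec g) :
    PrimrecPred (fun x => f x ∈ g x) := by
  refine PrimrecPred.of_eq (pp_ex_mem (p := fun x t => t = f x) hg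
    (pp_eq p_snd' (hf.comp Primrec.fst))) ?_
  intro x; simp
where
  p_snd' : Primrec (fun x : β × γ => x.2) := Primrec.snd

end Clos

/-! ### Tables with number values -/

/-- digit number `t` of `w` in base `n + 1` -/
def dg (n w t : ℕ) : ℕ := w / (n + 1) ^ t % (n + 1)

theorem dig_val (n w t : ℕ) : ((dig n w t : Fin (n + 1)) : ℕ) = dg n w t := rfl

theorem dg_lt (n w t : ℕ) : dg n w t < n + 1 := Nat.mod_lt _ (Nat.succ_pos n)

section Clos2

variable {β : Type} [Primcodable β]

theorem p_dg {n w t : β → ℕ} (hn : Primrec n) (hw : Primrec w) (ht : Primrec t) :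
    Primrec (fun x => dg (n x) (w x) (t x)) := by
  unfold dg
  exact p_mod (p_div hw (p_pow (p_add hn (Primrec.const 1)) ht)) (p_add hn (Primrec.const 1))

end Clos2

/-- every function is given by the digits of a number -/
theorem exists_dg (n : ℕ) (F : ℕ → ℕ) (hF : ∀ t, F t < n + 1) (L : ℕ) :
    ∃ w < (n + 1) ^ L, ∀ t < L, dg n w t = F t := by
  have hn : 0 < n + 1 := Nat.succ_pos n
  induction L with
  | zero => exact ⟨0, by simp, by simp⟩
  | succ L ih =>
    obtain ⟨w, hw, h⟩ := ih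
    refine ⟨w + F L * (n + 1) ^ L, ?_, ?_⟩
    · have h1 : F L + 1 ≤ n + 1 := hF L
      calc w + F L * (n + 1) ^ L < (n + 1) ^ L + F L * (n + 1) ^ L := by omega
        _ = (F L + 1) * (n + 1) ^ L := by ring
        _ ≤ (n + 1) * (n + 1) ^ L := Nat.mul_le_mul_right _ h1
        _ = (n + 1) ^ (L + 1) := by ring
    · intro t ht
      unfold dg
      rcases Nat.lt_succ_iff_lt_or_eq.mp ht with h2 | h2
      · have h3 : (n + 1) ^ L = (n + 1) ^ t * (n + 1) ^ (L - t) := by
          rw [← pow_add]; congr 1; omega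
        have h4 : w + F L * (n + 1) ^ L = w + (n + 1) ^ t * (F L * (n + 1) ^ (L - t)) := by
          rw [h3]; ring
        rw [h4, Nat.add_mul_div_left _ _ (pow_pos hn t)]
        have h5 : F L * (n + 1) ^ (L - t) = (n + 1) * (F L * (n + 1) ^ (L - t - 1)) := by
          have : (n + 1) ^ (L - t) = (n + 1) * (n + 1) ^ (L - t - 1) := by
            rw [← pow_succ']; congr 1; omega
          rw [this]; ring
        rw [h5, Nat.add_mul_mod_self_left]
        exact h t h2
      · subst h2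
        rw [Nat.add_mul_div_right _ _ (pow_pos hn t), Nat.div_eq_of_lt hw, zero_add]
        exact Nat.mod_eq_of_lt (hF t)

theorem exists_dig (n m : ℕ) (F : Fin (m + 1) → Fin (n + 1)) :
    ∃ w < (n + 1) ^ (m + 1), ∀ a : Fin (m + 1), dig n w a = F a := by
  obtain ⟨w, hw, h⟩ := exists_dg n
    (fun t => if ht : t < m + 1 then ((F ⟨t, ht⟩ : Fin (n + 1)) : ℕ) else 0)
    (fun t => by
      split_ifs with h
      · exact (F ⟨t, h⟩).2
      · exact Nat.succ_pos n) (m + 1)
  refine ⟨w, hw, fun a => ?_⟩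
  apply Fin.ext
  rw [dig_val, h a a.2, dif_pos a.2]

theorem exists_pred (m : ℕ) (C : Fin (m + 1) → Prop) :
    ∃ w < 2 ^ (m + 1), ∀ a : Fin (m + 1), dg 1 w a = 1 ↔ C a := by
  classical
  obtain ⟨w, hw, h⟩ := exists_dg 1
    (fun t => if ht : t < m + 1 then (if C ⟨t, ht⟩ then 1 else 0) else 0)
    (fun t => by
      split_ifs <;> omega) (m + 1)
  refine ⟨w, hw, fun a => ?_⟩
  rw [h a a.2, dif_pos a.2]
  simp

/-! ### the entries of a code -/

def oA (x : Code) (a : ℕ) : ℕ := dg x.1.1 x.2.1 a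
def oB (x : Code) (b : ℕ) : ℕ := dg x.1.1 x.2.2.1 b
def iA (x : Code) (a : ℕ) : ℕ := dg x.1.2.1 x.2.2.2.1 a
def iB (x : Code) (b : ℕ) : ℕ := dg x.1.2.2 x.2.2.2.2.1 b
def tr (x : Code) (a b : ℕ) : ℕ := dg x.1.2.1 x.2.2.2.2.2.1 (a * (x.1.2.2 + 1) + b)
def tl (x : Code) (a b : ℕ) : ℕ := dg x.1.2.2 x.2.2.2.2.2.2 (a * (x.1.2.2 + 1) + b)

section Vals

variable (x : Code)

theorem oA_val (a : Fin (x.1.2.1 + 1)) : (((dec x.1 x.2).oA a : Fin _) : ℕ) = oA x a := rfl
theorem oB_val (b : Fin (x.1.2.2 + 1)) : (((dec x.1 x.2).oB b : Fin _) : ℕ) = oB x b := rfl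
theorem iA_val (a : Fin (x.1.2.1 + 1)) : (((dec x.1 x.2).iA a : Fin _) : ℕ) = iA x a := rfl
theorem iB_val (b : Fin (x.1.2.2 + 1)) : (((dec x.1 x.2).iB b : Fin _) : ℕ) = iB x b := rfl
theorem tr_val (a : Fin (x.1.2.1 + 1)) (b : Fin (x.1.2.2 + 1)) :
    (((dec x.1 x.2).tr a b : Fin _) : ℕ) = tr x a b := rfl
theorem tl_val (a : Fin (x.1.2.1 + 1)) (b : Fin (x.1.2.2 + 1)) :
    (((dec x.1 x.2).tl a b : Fin _) : ℕ) = tl x a b := rfl

end Vals

section Prims

variable {β : Type} [Primcodable β] {f : β → Code} {g h : β → ℕ}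

theorem p_oA (hf : Primrec f) (hg : Primrec g) : Primrec (fun x => oA (f x) (g x)) := by
  unfold oA
  exact p_dg (p_fst (p_fst hf)) (p_fst (p_snd hf)) hg

theorem p_oB (hf : Primrec f) (hg : Primrec g) : Primrec (fun x => oB (f x) (g x)) := by
  unfold oB
  exact p_dg (p_fst (p_fst hf)) (p_fst (p_snd (p_snd hf))) hg

theorem p_iA (hf : Primrec f) (hg : Primrec g) : Primrec (fun x => iA (f x) (g x)) := by
  unfold iA
  exact p_dg (p_fst (p_snd (p_fst hf))) (p_fst (p_snd (p_snd (p_snd hf)))) hg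

theorem p_iB (hf : Primrec f) (hg : Primrec g) : Primrec (fun x => iB (f x) (g x)) := by
  unfold iB
  exact p_dg (p_snd (p_snd (p_fst hf))) (p_fst (p_snd (p_snd (p_snd (p_snd hf))))) hg

theorem p_tr (hf : Primrec f) (hg : Primrec g) (hh : Primrec h) :
    Primrec (fun x => tr (f x) (g x) (h x)) := by
  unfold tr
  exact p_dg (p_fst (p_snd (p_fst hf))) (p_fst (p_snd (p_snd (p_snd (p_snd (p_snd hf))))))
    (p_add (p_mul hg (p_add (p_snd (p_snd (p_fst hf))) (Primrec.const 1))) hh)

theorem p_tl (hf : Primrec f) (hg : Primrec g) (hh : Primrec h) :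
    Primrec (fun x => tl (f x) (g x) (h x)) := by
  unfold tl
  exact p_dg (p_snd (p_snd (p_fst hf))) (p_snd (p_snd (p_snd (p_snd (p_snd (p_snd hf))))))
    (p_add (p_mul hg (p_add (p_snd (p_snd (p_fst hf))) (Primrec.const 1))) hh)

end Prims

end CB

end LatIso
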