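import Pool.Agent.Lib.MP_32d917_al.TL1

set_option autoImplicit false

namespace LatIso

section FIX

variable {G : Type} [Group G] {V : Type} [MulAction G V] {S : SimpleGraph V}

/-- (1.6) -/
theorem fix_of_finite (h : TA G S) (H : Subgroup G) (v : V)
    (hv : (Set.range fun k : H => (k : G) • v).Finite) : ∃ x : V, ∀ k ∈ H, k • x = x := by
  classical
  set O : Finset V := hv.toFinset with hO
  have hmem : ∀ o, o ∈ O ↔ ∃ k ∈ H, k • v = o := by
    intro o
    simp only [hO, Set.Finite.mem_toFinset, Set.mem_range, Subtype.exists]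
    constructor
    · rintro ⟨k, hk, e⟩; exact ⟨k, hk, e⟩
    · rintro ⟨k, hk, e⟩; exact ⟨k, hk, e⟩
  have hvO : v ∈ O := (hmem v).2 ⟨1, H.one_mem, one_smul _ _⟩
  have hOinv : ∀ k ∈ H, ∀ o ∈ O, k • o ∈ O := by
    intro k hk o ho
    obtain ⟨k', hk', rfl⟩ := (hmem o).1 ho
    exact (hmem _).2 ⟨k * k', H.mul_mem hk hk', mul_smul _ _ _⟩
  let ρ : V → ℕ := fun x => O.sup (fun o => S.dist x o)
  have hρle : ∀ x, ∀ o ∈ O, S.dist x o ≤ ρ x := fun x o ho =>
    Finset.le_sup (f := fun o => S.dist x o) ho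
  have hρinv : ∀ k ∈ H, ∀ x, ρ (k • x) ≤ ρ x := by
    intro k hk x
    apply Finset.sup_le
    intro o ho
    have h1 := hρle x (k⁻¹ • o) (hOinv _ (H.inv_mem hk) o ho)
    rw [← ta_dist h k, smul_inv_smul] at h1
    exact h1
  obtain ⟨x, hx⟩ : ∃ x, ∀ y, ρ x ≤ ρ y := by
    have hne : (Set.range ρ).Nonempty := ⟨_, v, rfl⟩
    obtain ⟨x, hx⟩ := Nat.sInf_mem hne
    exact ⟨x, fun y => by rw [hx]; exact Nat.sInf_le ⟨y, rfl⟩⟩
  -- centres are at distance at most one
  have hdiam : ∀ y z, ρ y ≤ ρ x → ρ z ≤ ρ x → S.dist y z ≤ 1 := by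
    intro y z hy hz
    by_contra hlt
    push Not at hlt
    obtain ⟨m, hm1, hm2⟩ := st_pt h.tree y z 1 (by omega)
    have hlt' : ∀ o ∈ O, S.dist m o < ρ x := by
      intro o ho
      have h1 := hρle y o ho
      have h2 := hρle z o ho
      have h3 := hm2
      unfold Bt at h3
      have c : S.dist z m = S.dist m z := SimpleGraph.dist_comm
      rcases st_bt h.tree hm2 o with h4 | h4
      · unfold Bt at h4; omega
      · unfold Bt at h4; omega
    have hpos : 0 < ρ x := lt_of_le_of_lt (Nat.zero_le _) (hlt' v hvO)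
    have : ρ m < ρ x := (Finset.sup_lt_iff hpos).2 hlt'
    have := hx m
    omega
  refine ⟨x, fun k hk => ?_⟩
  by_contra hne
  have h1 : S.dist x (k • x) ≤ 1 := hdiam x (k • x) le_rfl (hρinv k hk x)
  have h2 : 0 < S.dist x (k • x) := h.tree.connected.pos_dist_of_ne (Ne.symm hne)
  have h3 : S.dist x (k • x) = 1 := by omega
  have h4 : S.Adj x (k • x) := SimpleGraph.dist_eq_one_iff_adj.1 h3
  have h5 : ρ (k • k • x) ≤ ρ x := le_trans (hρinv k hk _) (hρinv k hk x)
  have h6 : S.dist x (k • k • x) ≤ 1 := hdiam x _ le_rfl h5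
  have h7 := h.noinv k x (k • x) h4 rfl
  have h8 : 0 < S.dist x (k • k • x) := h.tree.connected.pos_dist_of_ne (Ne.symm h7)
  have h9 := st_parity h.tree x (k • x) (k • k • x)
  rw [ta_dist h, h3] at h9
  obtain ⟨r, hr⟩ := h9
  omega

end FIX

end LatIso
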