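import Pool.Agent.Lib.MP_32d917_al.TL1
import Pool.Agent.Lib.MP_32d917_al.FIX

/-!
# Basic facts on lattices, part 1
-/

set_option autoImplicit false

namespace LatIso

section LATB

variable {G : Type} [Group G] {V W U : Type} [MulAction G V] [MulAction G W] [MulAction G U]
  {S : SimpleGraph V} {T : SimpleGraph W} {R : SimpleGraph U}

theorem Lat.symm (L : Lat G S T) : Lat G T S where
  hS := L.hT
  hT := L.hS
  locS := L.locT
  locT := L.locS
  twoS := L.twoT
  twoT := L.twoS
  threeS := L.threeT
  threeT := L.threeS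
  free := fun g v w hv hw => L.free g w v hw hv
  fin := by
    classical
    obtain ⟨F, hF⟩ := L.fin
    refine ⟨F.image Prod.swap, fun v w => ?_⟩
    obtain ⟨g, hg⟩ := hF w v
    exact ⟨g, Finset.mem_image.2 ⟨_, hg, rfl⟩⟩

theorem lat_finS (L : Lat G S T) : ∃ F : Finset V, ∀ v : V, ∃ k : G, k • v ∈ F := by
  classical
  obtain ⟨F, hF⟩ := L.fin
  obtain ⟨w, _⟩ := L.threeT
  refine ⟨F.image Prod.fst, fun v => ?_⟩
  obtain ⟨g, hg⟩ := hF v w
  exact ⟨g, Finset.mem_image.2 ⟨_, hg, rfl⟩⟩

/-- the stabilizer of `w` acts with finitely many orbits on `V` -/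
theorem lat_stab_fin (L : Lat G S T) (w : W) :
    ∃ F : Finset V, ∀ v : V, ∃ k ∈ MulAction.stabilizer G w, k • v ∈ F := by
  classical
  obtain ⟨F, hF⟩ := L.fin
  -- for every `x` in `F` a group element moving `x.2` to `w`, if possible
  let h : V × W → G := fun x => if hx : ∃ k : G, k • x.2 = w then hx.choose else 1
  have hh : ∀ x : V × W, (∃ k : G, k • x.2 = w) → h x • x.2 = w := by
    intro x hx
    simp only [h, dif_pos hx]
    exact hx.choose_spec
  refine ⟨F.image fun x => h x • x.1, fun v => ?_⟩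
  obtain ⟨g, hg⟩ := hF v w
  have h1 : h (g • v, g • w) • g • w = w := hh (g • v, g • w) ⟨g⁻¹, by simp⟩
  refine ⟨h (g • v, g • w) * g, ?_, ?_⟩
  · rw [MulAction.mem_stabilizer_iff, mul_smul]
    exact h1
  · rw [mul_smul]
    exact Finset.mem_image.2 ⟨_, hg, rfl⟩

/-- balls are finite -/
theorem latb1_ball (hc : S.Connected) (loc : ∀ v, (S.neighborSet v).Finite) (v : V) (n : ℕ) :
    {x | S.dist v x ≤ n}.Finite := by
  induction n with
  | zero =>
    refine (Set.finite_singleton v).subset ?_
    intro x hx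
    have h0 : S.dist v x = 0 := Nat.le_zero.1 hx
    exact ((hc.dist_eq_zero_iff).1 h0).symm
  | succ n ih =>
    have h1 : ({x | S.dist v x ≤ n} ∪ ⋃ y ∈ {x | S.dist v x ≤ n}, S.neighborSet y).Finite :=
      ih.union (ih.biUnion fun y _ => loc y)
    refine h1.subset ?_
    intro x hx
    simp only [Set.mem_ofPred_eq] at hx
    rcases Nat.lt_or_ge (S.dist v x) (n + 1) with h2 | h2
    · exact Or.inl (Nat.lt_succ_iff.1 h2)
    · right
      have h3 : S.dist v x = n + 1 := le_antisymm hx h2
      obtain ⟨p, hp⟩ := hc.exists_walk_length_eq_dist v x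
      have hx' : v ≠ x := by
        intro h4
        subst h4
        simp at h3
      -- the last edge of the walk
      obtain ⟨q, hq⟩ : ∃ q : S.Walk x v, q.length = n + 1 := ⟨p.reverse, by
        rw [SimpleGraph.Walk.length_reverse, hp, h3]⟩
      cases q with
      | nil => exact absurd rfl hx'
      | cons hadj q' =>
        rename_i u
        refine Set.mem_iUnion₂.2 ⟨u, ?_, ?_⟩
        · have h5 : S.dist u v ≤ q'.length := SimpleGraph.dist_le q'
          rw [SimpleGraph.Walk.length_cons] at hq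
          simp only [Set.mem_ofPred_eq]
          rw [SimpleGraph.dist_comm]
          omega
        · exact hadj.symm

theorem lat_orbit_fin (L : Lat G S T) (v v' : V) :
    (Set.range fun k : MulAction.stabilizer G v => (k : G) • v').Finite := by
  refine (latb1_ball L.hS.tree.connected L.locS v (S.dist v v')).subset ?_
  rintro _ ⟨k, rfl⟩
  simp only [Set.mem_ofPred_eq]
  have h1 : (k : G) • v = v := k.2
  have h2 := ta_dist L.hS (k : G) v v'
  rw [h1] at h2
  exact h2.le

/-- (1.8) -/
theorem lat_pow_fix (L : Lat G S T) (v v' : V) (g : G) (hg : g • v = v) :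
    ∃ m : ℕ, 0 < m ∧ g ^ m • v' = v' := by
  have h1 : (Set.range fun n : ℕ => g ^ n • v').Finite := by
    refine (lat_orbit_fin L v v').subset ?_
    rintro _ ⟨n, rfl⟩
    have h2 : g ^ n ∈ MulAction.stabilizer G v :=
      Subgroup.pow_mem _ (by rw [MulAction.mem_stabilizer_iff]; exact hg) n
    exact ⟨⟨g ^ n, h2⟩, rfl⟩
  have h2 : ¬ Function.Injective fun n : ℕ => g ^ n • v' := by
    intro h3
    exact Set.infinite_range_of_injective h3 h1
  rw [Function.Injective] at h2
  push Not at h2
  obtain ⟨i, j, h3, h4⟩ := h2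
  wlog hij : i < j generalizing i j
  · exact this j i h3.symm (Ne.symm h4) (lt_of_le_of_ne (not_lt.1 hij) (Ne.symm h4))
  refine ⟨j - i, Nat.sub_pos_of_lt hij, ?_⟩
  have h5 : g ^ j = g ^ i * g ^ (j - i) := by rw [← pow_add]; congr 1; omega
  rw [h5, mul_smul] at h3
  exact (MulAction.injective (g ^ i) h3).symm

/-- (1.8) -/
theorem lat_ell (L : Lat G S T) (hR : TA G R) (v v' : V)
    (h : ∃ u : U, StabLe G v u) : ∃ u : U, StabLe G v' u := by
  obtain ⟨u, hu⟩ := h
  have h1 : (Set.range fun k : MulAction.stabilizer G v' => (k : G) • u).Finite := by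
    have h2 := lat_orbit_fin L v' v
    -- the orbit of `u` is an image of the orbit of `v`
    classical
    let f : V → U := fun x => if hx : ∃ k : MulAction.stabilizer G v', (k : G) • v = x then
      ((hx.choose : MulAction.stabilizer G v') : G) • u else u
    refine (h2.image f).subset ?_
    rintro _ ⟨k, rfl⟩
    refine ⟨(k : G) • v, ⟨k, rfl⟩, ?_⟩
    have hx : ∃ k' : MulAction.stabilizer G v', (k' : G) • v = (k : G) • v := ⟨k, rfl⟩
    simp only [f, dif_pos hx]
    have h3 := hx.choose_spec
    have h4 : ((k : G)⁻¹ * (hx.choose : G)) • v = v := by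
      rw [mul_smul, h3, inv_smul_smul]
    have h5 := hu _ h4
    rw [mul_smul, inv_smul_eq_iff] at h5
    exact h5
  obtain ⟨x, hx⟩ := fix_of_finite hR (MulAction.stabilizer G v') u h1
  exact ⟨x, fun g hg => hx g (by rw [MulAction.mem_stabilizer_iff]; exact hg)⟩

end LATB

end LatIso
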