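import Pool.Agent.Lib.MP_32d917_al.Defs

/-!
# Metric of a tree
-/

set_option autoImplicit false

namespace LatIso

section ST

variable {V : Type} {S : SimpleGraph V}

theorem st1_tri (hS : S.IsTree) (x y z : V) : S.dist x z ≤ S.dist x y + S.dist y z :=
  hS.connected.dist_triangle

theorem st1_eq (hS : S.IsTree) {x y : V} (h : S.dist x y = 0) : x = y :=
  hS.connected.dist_eq_zero_iff.1 h

theorem st1_one {x y : V} (h : S.Adj x y) : S.dist x y = 1 :=
  SimpleGraph.dist_eq_one_iff_adj.2 h

theorem st_adj (hS : S.IsTree) {x y : V} (h : S.Adj x y) (z : V) :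
    S.dist z y = S.dist z x + 1 ∨ S.dist z x = S.dist z y + 1 :=
  (hS.dist_eq_dist_add_one_of_adj z h).symm

theorem st_uniq (hS : S.IsTree) {x y m n : V} (hm : S.Adj x m) (hn : S.Adj x n)
    (h1 : Bt S x m y) (h2 : Bt S x n y) : m = n := by
  obtain ⟨p, hp⟩ := hS.connected.exists_walk_length_eq_dist m y
  obtain ⟨q, hq⟩ := hS.connected.exists_walk_length_eq_dist n y
  unfold Bt at h1 h2
  rw [st1_one hm] at h1
  rw [st1_one hn] at h2
  have hP : (SimpleGraph.Walk.cons hm p).IsPath :=
    SimpleGraph.Walk.isPath_of_length_eq_dist _ (by rw [SimpleGraph.Walk.length_cons]; omega)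
  have hQ : (SimpleGraph.Walk.cons hn q).IsPath :=
    SimpleGraph.Walk.isPath_of_length_eq_dist _ (by rw [SimpleGraph.Walk.length_cons]; omega)
  have := (hS.existsUnique_path x y).unique hP hQ
  have h3 := congrArg SimpleGraph.Walk.snd this
  simpa using h3

theorem st_next (hS : S.IsTree) {x y : V} (h : x ≠ y) : ∃ n, S.Adj x n ∧ Bt S x n y := by
  obtain ⟨p, hp⟩ := hS.connected.exists_walk_length_eq_dist x y
  cases p with
  | nil => exact absurd rfl h
  | @cons _ n _ h1 q =>
    refine ⟨n, h1, ?_⟩
    unfold Bt
    rw [SimpleGraph.Walk.length_cons] at hp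
    have h2 := SimpleGraph.dist_le q
    have h3 := st1_tri hS x n y
    rw [st1_one h1] at h3 ⊢
    omega

theorem st1_step (hS : S.IsTree) {x m q q' : V} (hq : S.Adj q q') (h1 : Bt S q q' m)
    (h2 : Bt S x m q') : Bt S x m q ∨ (q' = m ∧ S.dist x m = S.dist x q + 1) := by
  unfold Bt at h1 h2
  have e1 := st1_one hq
  have c1 : S.dist q' m = S.dist m q' := SimpleGraph.dist_comm
  have c2 : S.dist q m = S.dist m q := SimpleGraph.dist_comm
  rcases st_adj hS hq.symm x with h | h
  · left
    unfold Bt
    omega
  · right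
    by_cases hm : q' = m
    · subst hm
      exact ⟨rfl, h⟩
    · exfalso
      obtain ⟨r, hr, hr2⟩ := st_next hS hm
      unfold Bt at hr2
      have e2 := st1_one hr
      have t1 := st1_tri hS x m r
      have t2 := st1_tri hS x r q'
      have c3 : S.dist r m = S.dist m r := SimpleGraph.dist_comm
      have c4 : S.dist r q' = S.dist q' r := SimpleGraph.dist_comm
      have c5 : S.dist x q' = S.dist q' x := SimpleGraph.dist_comm
      have c6 : S.dist x q = S.dist q x := SimpleGraph.dist_comm
      have c7 : S.dist x r = S.dist r x := SimpleGraph.dist_comm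
      have c8 : S.dist q' q = S.dist q q' := SimpleGraph.dist_comm
      have : r = q := by
        refine st_uniq hS hr hq.symm (y := x) ?_ ?_
        · unfold Bt; omega
        · unfold Bt; omega
      subst this
      omega

theorem st_bt (hS : S.IsTree) {x m y : V} (h : Bt S x m y) (q : V) : Bt S x m q ∨ Bt S y m q := by
  obtain ⟨n, hn⟩ : ∃ n, S.dist m q = n := ⟨_, rfl⟩
  induction n generalizing q with
  | zero =>
    have := st1_eq hS hn
    subst this
    left
    unfold Bt
    simp
  | succ n ih =>
    have hne : q ≠ m := by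
      rintro rfl
      simp at hn
    obtain ⟨q', hq, hq2⟩ := st_next hS hne
    have e1 := st1_one hq
    have c1 : S.dist q' m = S.dist m q' := SimpleGraph.dist_comm
    have c2 : S.dist q m = S.dist m q := SimpleGraph.dist_comm
    have hq3 := hq2
    unfold Bt at hq3
    have t1 := st1_tri hS x q y
    have c3 : S.dist x y = S.dist y x := SimpleGraph.dist_comm
    have c4 : S.dist x m = S.dist m x := SimpleGraph.dist_comm
    have c5 : S.dist y m = S.dist m y := SimpleGraph.dist_comm
    have c6 : S.dist y q = S.dist q y := SimpleGraph.dist_comm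
    have c7 : S.dist x q = S.dist q x := SimpleGraph.dist_comm
    have t2 := st1_tri hS y m q
    have t3 := st1_tri hS x m q
    unfold Bt at h
    rcases ih q' (by omega) with h1 | h1
    · rcases st1_step hS hq hq2 h1 with h2 | ⟨rfl, h2⟩
      · exact Or.inl h2
      · right
        unfold Bt
        omega
    · rcases st1_step hS hq hq2 h1 with h2 | ⟨rfl, h2⟩
      · exact Or.inr h2
      · left
        unfold Bt
        omega

theorem st_pt (hS : S.IsTree) (x y : V) (i : ℕ) (hi : i ≤ S.dist x y) :
    ∃ m, S.dist x m = i ∧ Bt S x m y := by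
  induction i with
  | zero => exact ⟨x, by simp, by unfold Bt; simp⟩
  | succ i ih =>
    obtain ⟨m, hm, hm2⟩ := ih (by omega)
    unfold Bt at hm2
    have hne : m ≠ y := by
      rintro rfl
      omega
    obtain ⟨n, hn, hn2⟩ := st_next hS hne
    unfold Bt at hn2
    have e1 := st1_one hn
    have t1 := st1_tri hS x m n
    have t2 := st1_tri hS x n y
    refine ⟨n, by omega, ?_⟩
    unfold Bt
    omega

theorem st_pt_uniq (hS : S.IsTree) {x y m n : V} (h1 : Bt S x m y) (h2 : Bt S x n y)
    (h : S.dist x m = S.dist x n) : m = n := by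
  apply st1_eq hS
  have c5 : S.dist y m = S.dist m y := SimpleGraph.dist_comm
  have c6 : S.dist y n = S.dist n y := SimpleGraph.dist_comm
  rcases st_bt hS h1 n with h3 | h3 <;> unfold Bt at h1 h2 h3 <;> omega

/-- two points of a segment -/
theorem st_seg (hS : S.IsTree) {x y m n : V} (h1 : Bt S x m y) (h2 : Bt S x n y)
    (h : S.dist x m ≤ S.dist x n) : Bt S x m n ∧ Bt S m n y := by
  have c5 : S.dist y m = S.dist m y := SimpleGraph.dist_comm
  have c6 : S.dist y n = S.dist n y := SimpleGraph.dist_comm
  rcases st_bt hS h1 n with h3 | h3 <;> unfold Bt at * <;> constructor <;> omega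

theorem st_median (hS : S.IsTree) (x y z : V) : ∃ m, Bt S x m y ∧ Bt S y m z ∧ Bt S x m z := by
  obtain ⟨n, hn⟩ : ∃ n, S.dist x y = n := ⟨_, rfl⟩
  induction n using Nat.strong_induction_on generalizing x with
  | _ n ih =>
    by_cases hc : ∃ r, S.Adj x r ∧ Bt S x r y ∧ Bt S x r z
    · obtain ⟨r, hr, hr1, hr2⟩ := hc
      have e1 := st1_one hr
      unfold Bt at hr1 hr2
      obtain ⟨m, h1, h2, h3⟩ := ih (S.dist r y) (by omega) r rfl
      refine ⟨m, ?_, h2, ?_⟩
      · unfold Bt at *
        have t1 := st1_tri hS x r m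
        have t2 := st1_tri hS x m y
        omega
      · unfold Bt at *
        have t1 := st1_tri hS x r m
        have t2 := st1_tri hS x m z
        omega
    · refine ⟨x, by unfold Bt; simp, ?_, by unfold Bt; simp⟩
      by_cases hxy : x = y
      · subst hxy
        unfold Bt; simp
      · obtain ⟨r, hr, hr1⟩ := st_next hS hxy
        have hr2 : ¬ Bt S x r z := fun h => hc ⟨r, hr, hr1, h⟩
        have e1 := st1_one hr
        have c1 : S.dist z r = S.dist r z := SimpleGraph.dist_comm
        have c2 : S.dist z x = S.dist x z := SimpleGraph.dist_comm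
        have c3 : S.dist y x = S.dist x y := SimpleGraph.dist_comm
        have c4 : S.dist y r = S.dist r y := SimpleGraph.dist_comm
        have h5 := st_adj hS hr z
        rcases st_bt hS hr1 z with h4 | h4
        · exact absurd h4 hr2
        · unfold Bt at *
          omega

theorem st_4pt (hS : S.IsTree) (x y z u : V) :
    S.dist x y + S.dist z u ≤ max (S.dist x z + S.dist y u) (S.dist x u + S.dist y z) := by
  obtain ⟨m, h1, h2, h3⟩ := st_median hS x y z
  have t1 := st1_tri hS z m u
  have c1 : S.dist z m = S.dist m z := SimpleGraph.dist_comm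
  have c2 : S.dist y m = S.dist m y := SimpleGraph.dist_comm
  rcases st_bt hS h1 u with h4 | h4
  · refine le_max_of_le_right ?_
    unfold Bt at *
    omega
  · refine le_max_of_le_left ?_
    unfold Bt at *
    omega

theorem st_parity (hS : S.IsTree) (x y z : V) :
    Even (S.dist x y + S.dist y z + S.dist x z) := by
  obtain ⟨m, h1, h2, h3⟩ := st_median hS x y z
  have c2 : S.dist y m = S.dist m y := SimpleGraph.dist_comm
  unfold Bt at *
  exact ⟨S.dist x m + S.dist m y + S.dist m z, by omega⟩

theorem st_cvx_bt (hS : S.IsTree) (x y : V) : Cvx S {m | Bt S x m y} := by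
  intro a ha b hb m hm
  have key : ∀ a b : V, Bt S x a y → Bt S x b y → Bt S a m b → S.dist x a ≤ S.dist x b →
      Bt S x m y := by
    intro a b ha hb hm hle
    obtain ⟨h1, h2⟩ := st_seg hS ha hb hle
    have t1 := st1_tri hS x a m
    have t2 := st1_tri hS m b y
    have t3 := st1_tri hS x m y
    unfold Bt at *
    omega
  rcases le_total (S.dist x a) (S.dist x b) with h | h
  · exact key a b ha hb hm h
  · refine key b a hb ha ?_ h
    unfold Bt at hm ⊢
    have c1 : S.dist b m = S.dist m b := SimpleGraph.dist_comm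
    have c2 : S.dist a m = S.dist m a := SimpleGraph.dist_comm
    have c3 : S.dist a b = S.dist b a := SimpleGraph.dist_comm
    omega

end ST

end LatIso
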