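import Pool.Agent.Lib.MP_32d917_al.LATB1
import Pool.Agent.Lib.MP_32d917_al.ST1

/-!
# Basic facts on lattices, part 2
-/

set_option autoImplicit false

namespace LatIso

section LATB

variable {G : Type} [Group G] {V W U : Type} [MulAction G V] [MulAction G W] [MulAction G U]
  {S : SimpleGraph V} {T : SimpleGraph W} {R : SimpleGraph U}

/-- (1.9) -/
theorem cinv (L : Lat G S T) (v x : V) (g : G)
    (h : ∀ k : G, k • v = v → k • x = x → k • g • v = g • v ∧ k • g • x = g • x) :
    ∀ k : G, k • g • v = g • v → k • g • x = g • x → k • v = v ∧ k • x = x := by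
  classical
  -- `H = stab v ∩ stab x`
  let H : Subgroup G := MulAction.stabilizer G v ⊓ MulAction.stabilizer G x
  have memH : ∀ k : G, k ∈ H ↔ k • v = v ∧ k • x = x := fun k => by
    rw [Subgroup.mem_inf, MulAction.mem_stabilizer_iff, MulAction.mem_stabilizer_iff]
  let st : Setoid W := ⟨fun a b => ∃ k : G, k ∈ H ∧ k • a = b,
    fun a => ⟨1, H.one_mem, one_smul _ _⟩,
    fun {a b} ⟨k, hk, hab⟩ => ⟨k⁻¹, H.inv_mem hk, by rw [← hab, inv_smul_smul]⟩,
    fun {a b c} ⟨k, hk, hab⟩ ⟨k', hk', hbc⟩ => ⟨k' * k, H.mul_mem hk' hk, by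
      rw [mul_smul, hab, hbc]⟩⟩
  -- finitely many `H`-orbits on `W`
  have hfin : Finite (Quotient st) := by
    obtain ⟨F, hF⟩ := lat_stab_fin L.symm v
    choose κ hκ1 hκ2 using hF
    have hO := lat_orbit_fin L v x
    let Of : Finset V := hO.toFinset
    let φ : Quotient st → W × V := fun q => (κ q.out • q.out, κ q.out • x)
    have hφ : ∀ q, φ q ∈ F ×ˢ Of := by
      intro q
      refine Finset.mem_product.2 ⟨hκ2 _, ?_⟩
      rw [Set.Finite.mem_toFinset]
      exact ⟨⟨κ q.out, hκ1 _⟩, rfl⟩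
    have hinj : Function.Injective φ := by
      intro q q' hq
      have h1 : κ q.out • q.out = κ q'.out • q'.out := congrArg Prod.fst hq
      have h2 : κ q.out • x = κ q'.out • x := congrArg Prod.snd hq
      rw [← Quotient.out_eq q, ← Quotient.out_eq q']
      refine Quotient.sound ⟨(κ q'.out)⁻¹ * κ q.out, ?_, ?_⟩
      · rw [memH, mul_smul, mul_smul, h2, inv_smul_smul]
        refine ⟨?_, rfl⟩
        have h3 : κ q.out • v = v := hκ1 q.out
        have h4 : κ q'.out • v = v := hκ1 q'.out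
        rw [h3, inv_smul_eq_iff, h4]
      · rw [mul_smul, h1, inv_smul_smul]
    exact Finite.of_injective (fun q => (⟨φ q, hφ q⟩ : {y // y ∈ F ×ˢ Of}))
      fun q q' hq => hinj (congrArg Subtype.val hq)
  -- the map `w ↦ g⁻¹ w` on orbits
  let e : Quotient st → Quotient st := Quotient.map (fun w => g⁻¹ • w) (by
    rintro a b ⟨k, hk, hab⟩
    have h1 := h k ((memH k).1 hk).1 ((memH k).1 hk).2
    refine ⟨g⁻¹ * k * g, ?_, ?_⟩
    · rw [memH, mul_smul, mul_smul, mul_smul, mul_smul, h1.1, h1.2, inv_smul_smul, inv_smul_smul]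
      exact ⟨rfl, rfl⟩
    · rw [← hab, mul_smul, mul_smul, smul_inv_smul])
  have hsurj : Function.Surjective e := by
    intro q
    induction q using Quotient.inductionOn with
    | h w => exact ⟨⟦g • w⟧, by simp [e]⟩
  have hinj : Function.Injective e := Finite.injective_iff_surjective.2 hsurj
  intro k hk1 hk2
  obtain ⟨w, _⟩ := L.threeT
  -- `w` and `k w` are in one `H`-orbit
  have h1 : (⟦w⟧ : Quotient st) = ⟦k • w⟧ := by
    apply hinj
    refine Quotient.sound ⟨g⁻¹ * k * g, ?_, ?_⟩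
    · rw [memH, mul_smul, mul_smul, mul_smul, mul_smul, hk1, hk2, inv_smul_smul, inv_smul_smul]
      exact ⟨rfl, rfl⟩
    · rw [mul_smul, mul_smul, smul_inv_smul]
  obtain ⟨l, hl, hlw⟩ := Quotient.exact h1
  have h2 := h l ((memH l).1 hl).1 ((memH l).1 hl).2
  have h3 : l⁻¹ * k = 1 := by
    refine L.free _ (g • v) w ?_ ?_
    · rw [mul_smul, hk1, inv_smul_eq_iff]
      exact h2.1.symm
    · rw [mul_smul, ← hlw, inv_smul_smul]
  have h4 : k = l := by
    rw [inv_mul_eq_one] at h3
    exact h3.symm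
  rw [h4]
  exact (memH l).1 hl

/-- a tree with all valences at least two is infinite -/
theorem latb2_inf (hT : T.IsTree) (two : ∀ w, ∃ x y, x ≠ y ∧ T.Adj w x ∧ T.Adj w y) (w0 : W) :
    ¬ Finite W := by
  intro hf
  have hne : Nonempty W := ⟨w0⟩
  obtain ⟨w, hw⟩ := Finite.exists_max (fun w : W => T.dist w w0)
  obtain ⟨x, y, hxy, hx, hy⟩ := two w
  have key : ∀ z, T.Adj w z → Bt T w z w0 := by
    intro z hz
    have h1 : T.dist w z = 1 := SimpleGraph.dist_eq_one_iff_adj.2 hz
    unfold Bt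
    have h2 := hw z
    rcases st_adj hT hz w0 with h3 | h3
    · rw [SimpleGraph.dist_comm, SimpleGraph.dist_comm (u := w0) (v := w)] at h3
      omega
    · rw [SimpleGraph.dist_comm, SimpleGraph.dist_comm (u := w0) (v := z)] at h3
      omega
  exact hxy (st_uniq hT hx hy (key x hx) (key y hy))

/-- vertex stabilizers are not trivial -/
theorem lat_stab_ne (L : Lat G S T) (v : V) : ∃ k : G, k • v = v ∧ k ≠ 1 := by
  by_contra hne
  push Not at hne
  obtain ⟨F, hF⟩ := lat_stab_fin L.symm v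
  obtain ⟨w0, _⟩ := L.threeT
  refine latb2_inf L.hT.tree L.twoT w0 ?_
  have h1 : (Set.univ : Set W) ⊆ (F : Set W) := by
    intro w _
    obtain ⟨k, hk, hkw⟩ := hF w
    have h2 := hne k hk
    rw [h2, one_smul] at hkw
    exact hkw
  exact Set.finite_univ_iff.1 (F.finite_toSet.subset h1)

/-- every vertex lies in every invariant nonempty convex set -/
theorem lat_min (L : Lat G S T) (C : Set V) (hC : Cvx S C) (h0 : C.Nonempty)
    (hG : ∀ (g : G), ∀ x ∈ C, g • x ∈ C) (x : V) : x ∈ C := by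
  classical
  by_contra hx
  -- distance to `C`
  let δ : V → ℕ := fun y => sInf (Set.range fun c : C => S.dist y c)
  have hne : ∀ y, (Set.range fun c : C => S.dist y c).Nonempty := by
    intro y
    obtain ⟨c, hc⟩ := h0
    exact ⟨_, ⟨⟨c, hc⟩, rfl⟩⟩
  have hδ1 : ∀ y, ∃ c ∈ C, S.dist y c = δ y := by
    intro y
    obtain ⟨c, hc⟩ := Nat.sInf_mem (hne y)
    exact ⟨c.1, c.2, hc⟩
  have hδ2 : ∀ y, ∀ c ∈ C, δ y ≤ S.dist y c := by
    intro y c hc
    exact Nat.sInf_le ⟨⟨c, hc⟩, rfl⟩
  have hδG : ∀ (g : G) y, δ (g • y) ≤ δ y := by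
    intro g y
    obtain ⟨c, hc, h1⟩ := hδ1 y
    rw [← h1, ← ta_dist L.hS g y c]
    exact hδ2 _ _ (hG g c hc)
  -- a vertex of maximal distance
  obtain ⟨F, hF⟩ := lat_finS L
  have hFne : F.Nonempty := by
    obtain ⟨k, hk⟩ := hF x
    exact ⟨_, hk⟩
  obtain ⟨m, _, hm⟩ := Finset.exists_max_image F δ hFne
  have hmax : ∀ y, δ y ≤ δ m := by
    intro y
    obtain ⟨k, hk⟩ := hF y
    have h1 := hδG k⁻¹ (k • y)
    rw [inv_smul_smul] at h1
    exact h1.trans (hm _ hk)
  have hmC : m ∉ C := by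
    intro h1
    have h2 : δ m ≤ 0 := by
      have h3 := hδ2 m m h1
      rwa [SimpleGraph.dist_self] at h3
    obtain ⟨c, hc, h3⟩ := hδ1 x
    have h4 := hmax x
    have h5 : S.dist x c = 0 := by omega
    have h6 : x = c := (L.hS.tree.connected.dist_eq_zero_iff).1 h5
    exact hx (h6 ▸ hc)
  obtain ⟨c, hc, h1⟩ := hδ1 m
  -- a neighbour `y` of `m` farther from `c`
  obtain ⟨y, hy, hyc⟩ : ∃ y, S.Adj m y ∧ S.dist y c = S.dist m c + 1 := by
    obtain ⟨y, z, hyz, hy, hz⟩ := L.twoS m
    by_contra hno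
    push Not at hno
    have key : ∀ t, S.Adj m t → Bt S m t c := by
      intro t ht
      have h2 : S.dist m t = 1 := SimpleGraph.dist_eq_one_iff_adj.2 ht
      have h3 := hno t ht
      unfold Bt
      rcases st_adj L.hS.tree ht c with h4 | h4
      · rw [SimpleGraph.dist_comm, SimpleGraph.dist_comm (u := c) (v := m)] at h4
        omega
      · rw [SimpleGraph.dist_comm, SimpleGraph.dist_comm (u := c) (v := t)] at h4
        omega
    exact hyz (st_uniq L.hS.tree hy hz (key y hy) (key z hz))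
  obtain ⟨c', hc', h2⟩ := hδ1 y
  have h3 := hmax y
  have h4 := hδ2 m c' hc'
  have hmy : S.dist m y = 1 := SimpleGraph.dist_eq_one_iff_adj.2 hy
  have h5 : Bt S m y c' := by
    unfold Bt
    rcases st_adj L.hS.tree hy c' with h6 | h6
    · rw [SimpleGraph.dist_comm, SimpleGraph.dist_comm (u := c') (v := m)] at h6
      omega
    · rw [SimpleGraph.dist_comm, SimpleGraph.dist_comm (u := c') (v := y)] at h6
      omega
  rcases st_bt L.hS.tree h5 c with h6 | h6
  · unfold Bt at h6
    omega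
  · -- `m` lies between `c'` and `c`
    refine hmC (hC c' hc' c hc m ?_)
    unfold Bt at h5 h6 ⊢
    rw [SimpleGraph.dist_comm (u := c') (v := m)]
    rw [SimpleGraph.dist_comm (u := c') (v := y)] at h6
    omega

end LATB

end LatIso
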