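import Pool.Agent.Lib.MP_32d917_al.TL2

set_option autoImplicit false

namespace LatIso

section FG

variable {G : Type} [Group G] {V : Type} [MulAction G V] {S : SimpleGraph V}

/-- a subgroup acting freely and cocompactly on a locally finite connected graph is finitely
generated -/
theorem fg_of_cocompact (hc : S.Connected) (ha : ∀ (g : G) (x y : V), S.Adj x y →
      S.Adj (g • x) (g • y)) (H : Subgroup G)
    (free : ∀ k ∈ H, ∀ v : V, k • v = v → k = 1)
    (fin : ∃ F : Finset V, ∀ v : V, ∃ k ∈ H, k • v ∈ F)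
    (loc : ∀ v, (S.neighborSet v).Finite) :
    ∃ F : Finset G, Subgroup.closure (F : Set G) = H := by
  classical
  obtain ⟨F, hF⟩ := fin
  -- the neighbourhood of `F`
  let N : Set V := (F : Set V) ∪ ⋃ x ∈ F, S.neighborSet x
  have hN : N.Finite := F.finite_toSet.union (Set.Finite.biUnion F.finite_toSet fun x _ => loc x)
  let Sg : Set G := {k | k ∈ H ∧ ∃ x ∈ F, k • x ∈ N}
  have hSg : Sg.Finite := by
    have h1 : Sg ⊆ ⋃ x ∈ (F : Set V), ⋃ y ∈ N, {k | k ∈ H ∧ k • x = y} := by
      rintro k ⟨hk, x, hx, hkx⟩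
      simp only [Set.mem_iUnion]
      exact ⟨x, hx, k • x, hkx, hk, rfl⟩
    refine Set.Finite.subset ?_ h1
    refine Set.Finite.biUnion F.finite_toSet fun x _ => Set.Finite.biUnion hN fun y _ => ?_
    refine Set.Subsingleton.finite ?_
    rintro k ⟨hk, e⟩ k' ⟨hk', e'⟩
    have h2 : (k'⁻¹ * k) • x = x := by rw [mul_smul, e, ← e', inv_smul_smul]
    have h3 := free _ (H.mul_mem (H.inv_mem hk') hk) x h2
    rwa [inv_mul_eq_one, eq_comm] at h3
  refine ⟨hSg.toFinset, ?_⟩
  rw [Set.Finite.coe_toFinset]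
  apply le_antisymm
  · rw [Subgroup.closure_le]
    exact fun k hk => hk.1
  -- base point
  obtain ⟨v⟩ := hc.nonempty
  obtain ⟨k0, _, hk0F⟩ := hF v
  set v0 := k0 • v with hv0
  have claim : ∀ {a b : V} (_p : S.Walk a b),
      (∀ k ∈ H, k • a ∈ F → k ∈ Subgroup.closure Sg) →
      ∀ k ∈ H, k • b ∈ F → k ∈ Subgroup.closure Sg := by
    intro a b p
    induction p with
    | nil => exact fun h => h
    | @cons a c b hac p ih =>
      intro hA
      apply ih
      intro k' hk' hk'c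
      obtain ⟨k, hk, hka⟩ := hF a
      have h1 := hA k hk hka
      have h2 : k * k'⁻¹ ∈ Sg := by
        refine ⟨H.mul_mem hk (H.inv_mem hk'), k' • c, hk'c, ?_⟩
        rw [mul_smul, inv_smul_smul]
        right
        simp only [Set.mem_iUnion]
        exact ⟨k • a, hka, ha k _ _ hac⟩
      have h3 := Subgroup.subset_closure (k := Sg) h2
      have h4 : k' = (k * k'⁻¹)⁻¹ * k := by group
      rw [h4]
      exact Subgroup.mul_mem _ (Subgroup.inv_mem _ h3) h1
  have base : ∀ k ∈ H, k • v0 ∈ F → k ∈ Subgroup.closure Sg := by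
    intro k hk hkF
    exact Subgroup.subset_closure ⟨hk, v0, hk0F, Or.inl hkF⟩
  intro k hk
  obtain ⟨p⟩ := hc.preconnected v0 (k⁻¹ • v0)
  apply claim p base k hk
  rw [smul_inv_smul]
  exact hk0F

/-- (1.7) -/
theorem fix_of_tl_zero {U : Type} [MulAction G U] {R : SimpleGraph U} (h : TA G S) (hR : TA G R)
    (H : Subgroup G) (free : ∀ k ∈ H, ∀ v : V, k • v = v → k = 1)
    (fin : ∃ F : Finset V, ∀ v : V, ∃ k ∈ H, k • v ∈ F)
    (loc : ∀ v, (S.neighborSet v).Finite)
    (h0 : ∀ k ∈ H, tl R k = 0) : ∃ u : U, ∀ k ∈ H, k • u = u := by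
  obtain ⟨F, hF⟩ := fg_of_cocompact h.tree.connected h.adj H free fin loc
  have hFH : ∀ g ∈ F, g ∈ H := by
    intro g hg
    rw [← hF]
    exact Subgroup.subset_closure hg
  obtain ⟨u, hu⟩ := serre hR F (fun g hg => h0 g (hFH g hg))
    (fun g hg k hk => h0 _ (H.mul_mem (hFH g hg) (hFH k hk)))
  refine ⟨u, fun k hk => ?_⟩
  have h1 : H ≤ MulAction.stabilizer G u := by
    rw [← hF, Subgroup.closure_le]
    intro g hg
    exact hu g hg
  exact h1 hk

end FG

end LatIso
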