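import Pool.Agent.Lib.MP_32d917_al.ST1

/-!
# Metric of a tree, part 2: Helly property, tight paths
-/

set_option autoImplicit false

namespace LatIso

variable {V : Type} {S : SimpleGraph V}

/-- Helly property -/
theorem st_helly (hS : S.IsTree) {ι : Type} (s : Finset ι) (C : ι → Set V)
    (hC : ∀ i ∈ s, Cvx S (C i)) (h2 : ∀ i ∈ s, ∀ j ∈ s, (C i ∩ C j).Nonempty) :
    ∃ x, ∀ i ∈ s, x ∈ C i := by
  classical
  induction s using Finset.induction_on generalizing C with
  | empty =>
    obtain ⟨x⟩ := hS.1.nonempty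
    exact ⟨x, by simp⟩
  | insert a s ha ih =>
    rcases s.eq_empty_or_nonempty with rfl | ⟨j0, hj0⟩
    · obtain ⟨x, hx⟩ := h2 a (by simp) a (by simp)
      refine ⟨x, ?_⟩
      intro i hi
      have : i = a := by simpa using hi
      subst this
      exact hx.1
    · suffices key : ∃ x, ∀ i ∈ s, x ∈ C i ∩ C a by
        obtain ⟨x, hx⟩ := key
        refine ⟨x, ?_⟩
        intro i hi
        rcases Finset.mem_insert.1 hi with rfl | hi
        · exact (hx j0 hj0).2
        · exact (hx i hi).1
      refine ih (fun j => C j ∩ C a) ?_ ?_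
      · intro i hi y hy z hz m hm
        exact ⟨hC i (Finset.mem_insert_of_mem hi) y hy.1 z hz.1 m hm,
          hC a (Finset.mem_insert_self a s) y hy.2 z hz.2 m hm⟩
      · intro i hi j hj
        have hi' := Finset.mem_insert_of_mem (a := i) (b := a) hi
        have hj' := Finset.mem_insert_of_mem (a := j) (b := a) hj
        have ha' := Finset.mem_insert_self a s
        obtain ⟨x, hx1, hx2⟩ := h2 i hi' j hj'
        obtain ⟨y, hy1, hy2⟩ := h2 j hj' a ha'
        obtain ⟨z, hz1, hz2⟩ := h2 i hi' a ha'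
        obtain ⟨m, hm1, hm2, hm3⟩ := st_median hS x y z
        exact ⟨m, ⟨hC i hi' x hx1 z hz1 m hm3, hC a ha' y hy2 z hz2 m hm2⟩,
          ⟨hC j hj' x hx2 y hy1 m hm1, hC a ha' y hy2 z hz2 m hm2⟩⟩

/-- concatenation of geodesics with small Gromov products: local to global.
`p i` is the Gromov product of `x i` and `x (i + 2)` at `x (i + 1)`. -/
theorem st_tight (hS : S.IsTree) (n : ℕ) (x : ℕ → V) (L p : ℕ → ℕ)
    (hL : ∀ i < n, S.dist (x i) (x (i + 1)) = L i) (hL0 : ∀ i < n, 0 < L i)
    (hp : ∀ i, i + 1 < n → S.dist (x i) (x (i + 2)) + 2 * p i = L i + L (i + 1))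
    (h0 : ∀ i, i + 1 < n → p i < L i) (h2 : ∀ i, i + 1 < n → p i < L (i + 1))
    (h1 : ∀ i, i + 2 < n → p i + p (i + 1) < L (i + 1)) :
    n ≤ S.dist (x 0) (x n) := by
  have key : ∀ k, k + 1 < n → (k + 1) + p k ≤ S.dist (x 0) (x (k + 1)) ∧
      S.dist (x 0) (x (k + 2)) + 2 * p k = S.dist (x 0) (x (k + 1)) + L (k + 1) := by
    intro k
    induction k with
    | zero =>
      intro hk
      have e1 := hL 0 (by omega)
      have e2 := hp 0 hk
      have e3 := h0 0 hk
      simp only [zero_add] at *
      constructor <;> omega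
    | succ k ih =>
      intro hk
      obtain ⟨i1, i2⟩ := ih (by omega)
      have e1 := h1 k (by omega)
      have e2 := hp (k + 1) hk
      have e3 := hL (k + 1) (by omega)
      have e4 := hL (k + 2) (by omega)
      have f1 := st_4pt hS (x 0) (x (k + 2)) (x (k + 1)) (x (k + 3))
      have f2 := st_4pt hS (x 0) (x (k + 3)) (x (k + 1)) (x (k + 2))
      have c1 : S.dist (x (k + 2)) (x (k + 1)) = S.dist (x (k + 1)) (x (k + 2)) :=
        SimpleGraph.dist_comm
      have c2 : S.dist (x (k + 3)) (x (k + 2)) = S.dist (x (k + 2)) (x (k + 3)) :=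
        SimpleGraph.dist_comm
      have c3 : S.dist (x (k + 3)) (x (k + 1)) = S.dist (x (k + 1)) (x (k + 3)) :=
        SimpleGraph.dist_comm
      simp only [show k + 1 + 1 = k + 2 from rfl, show k + 1 + 2 = k + 3 from rfl] at *
      constructor
      · omega
      · omega
  rcases n with _ | _ | n
  · exact Nat.zero_le _
  · have e1 := hL 0 (by omega)
    have e2 := hL0 0 (by omega)
    simp only [zero_add] at *
    omega
  · obtain ⟨i1, i2⟩ := key n (by omega)
    have e1 := h2 n (by omega)
    simp only [show n + 1 + 1 = n + 2 from rfl] at *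
    omega

/-- local geodesics are geodesics -/
theorem st_geod (hS : S.IsTree) (D : ℕ) (hD : 0 < D) (x : ℕ → V)
    (h1 : ∀ i, S.dist (x i) (x (i + 1)) = D) (h2 : ∀ i, S.dist (x i) (x (i + 2)) = 2 * D) (n : ℕ) :
    S.dist (x 0) (x n) = n * D := by
  have key : ∀ k, S.dist (x 0) (x k) = k * D ∧ S.dist (x 0) (x (k + 1)) = (k + 1) * D := by
    intro k
    induction k with
    | zero => simp [h1 0]
    | succ k ih =>
      obtain ⟨i1, i2⟩ := ih
      refine ⟨i2, ?_⟩
      have e2 := h2 k
      have e3 := h1 k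
      have e4 := h1 (k + 1)
      have f1 := st_4pt hS (x 0) (x (k + 1)) (x k) (x (k + 2))
      have f2 := st_4pt hS (x 0) (x (k + 2)) (x k) (x (k + 1))
      have c1 : S.dist (x (k + 1)) (x k) = S.dist (x k) (x (k + 1)) :=
        SimpleGraph.dist_comm
      have c2 : S.dist (x (k + 2)) (x (k + 1)) = S.dist (x (k + 1)) (x (k + 2)) :=
        SimpleGraph.dist_comm
      have c3 : S.dist (x (k + 2)) (x k) = S.dist (x k) (x (k + 2)) :=
        SimpleGraph.dist_comm
      simp only [show k + 1 + 1 = k + 2 from rfl] at *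
      have g1 : (k + 1) * D = k * D + D := by ring
      have g2 : (k + 1 + 1) * D = k * D + 2 * D := by ring
      rw [g2]
      rw [g1] at i2
      omega
  exact (key n).1

end LatIso
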