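import Pool.Agent.Lib.MP_32d917_al.ST1
import Pool.Agent.Lib.MP_32d917_al.ST2

set_option autoImplicit false

namespace LatIso

section TL1

variable {G : Type} [Group G] {V : Type} [MulAction G V] {S : SimpleGraph V}

theorem ta_adj_iff (h : TA G S) (g : G) (x y : V) : S.Adj (g • x) (g • y) ↔ S.Adj x y := by
  constructor
  · intro h1
    have h2 := h.adj g⁻¹ _ _ h1
    simpa using h2
  · exact h.adj g x y

theorem tl1_dist_le (h : TA G S) (g : G) (x y : V) : S.dist (g • x) (g • y) ≤ S.dist x y := by
  obtain ⟨p, hp⟩ := h.tree.connected.exists_walk_length_eq_dist x y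
  let f : S →g S := ⟨fun z => g • z, fun {a b} hab => h.adj g a b hab⟩
  have := SimpleGraph.dist_le (p.map f)
  rw [SimpleGraph.Walk.length_map, hp] at this
  exact this

theorem ta_dist (h : TA G S) (g : G) (x y : V) : S.dist (g • x) (g • y) = S.dist x y := by
  apply le_antisymm (tl1_dist_le h g x y)
  have := tl1_dist_le h g⁻¹ (g • x) (g • y)
  simpa using this

theorem tl_le (_h : TA G S) (g : G) (x : V) : tl S g ≤ S.dist x (g • x) :=
  Nat.sInf_le ⟨x, rfl⟩

theorem cc_nonempty (h : TA G S) (g : G) : (CC S g).Nonempty := by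
  obtain ⟨v⟩ := h.tree.connected.nonempty
  have h1 : (Set.range fun x : V => S.dist x (g • x)).Nonempty := ⟨_, v, rfl⟩
  obtain ⟨x, hx⟩ := Nat.sInf_mem h1
  exact ⟨x, hx⟩

theorem tl1_disp_inv (h : TA G S) (g : G) (x : V) :
    S.dist x (g⁻¹ • x) = S.dist x (g • x) := by
  rw [← ta_dist h g x (g⁻¹ • x), smul_inv_smul, SimpleGraph.dist_comm]

theorem tl_inv (h : TA G S) (g : G) : tl S g⁻¹ = tl S g := by
  unfold tl
  congr 1
  ext n
  simp only [Set.mem_range, tl1_disp_inv h g]

theorem cc_inv (h : TA G S) (g : G) : CC S g⁻¹ = CC S g := by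
  ext x
  simp only [CC, Set.mem_ofPred_eq, tl_inv h g, tl1_disp_inv h g]

theorem tl1_disp_conj (h : TA G S) (x g : G) (y : V) :
    S.dist (x • y) ((x * g * x⁻¹) • x • y) = S.dist y (g • y) := by
  rw [mul_smul, mul_smul, inv_smul_smul, ta_dist h]

theorem tl_conj (h : TA G S) (x g : G) : tl S (x * g * x⁻¹) = tl S g := by
  unfold tl
  congr 1
  ext n
  simp only [Set.mem_range]
  constructor
  · rintro ⟨y, hy⟩
    refine ⟨x⁻¹ • y, ?_⟩
    rw [← tl1_disp_conj h x g, smul_inv_smul]
    exact hy
  · rintro ⟨y, hy⟩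
    exact ⟨x • y, by rw [tl1_disp_conj h]; exact hy⟩

theorem cc_conj (h : TA G S) (x g : G) (y : V) : x • y ∈ CC S (x * g * x⁻¹) ↔ y ∈ CC S g := by
  simp only [CC, Set.mem_ofPred_eq, tl_conj h, tl1_disp_conj h]

theorem tl_eq_zero (h : TA G S) (g : G) : tl S g = 0 ↔ ∃ x : V, g • x = x := by
  constructor
  · intro h0
    obtain ⟨x, hx⟩ := cc_nonempty h g
    refine ⟨x, ?_⟩
    have h1 : S.dist x (g • x) = 0 := by rw [← h0]; exact hx
    exact ((h.tree.connected.dist_eq_zero_iff).1 h1).symm
  · rintro ⟨x, hx⟩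
    have h1 := tl_le h g x
    rw [hx, SimpleGraph.dist_self] at h1
    omega

theorem ta_bt (h : TA G S) (g : G) (x m y : V) : Bt S (g • x) (g • m) (g • y) ↔ Bt S x m y := by
  simp only [Bt, ta_dist h]

/-- displacement of powers on an axis -/
theorem tl1_axis_pow (h : TA G S) (g : G) (x : V) (h1 : 0 < S.dist x (g • x))
    (h2 : S.dist x (g • g • x) = 2 * S.dist x (g • x)) (n : ℕ) :
    S.dist x (g ^ n • x) = n * S.dist x (g • x) := by
  have h3 := st_geod h.tree (S.dist x (g • x)) h1 (fun i => g ^ i • x)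
    (fun i => by
      rw [pow_succ, mul_smul, ta_dist h])
    (fun i => by
      rw [pow_add, mul_smul, ta_dist h, pow_two, mul_smul, h2]) n
  simpa using h3

theorem tl1_pow_le (h : TA G S) (g : G) (y : V) (n : ℕ) :
    S.dist y (g ^ n • y) ≤ n * S.dist y (g • y) := by
  induction n with
  | zero => simp
  | succ n ih =>
    have h1 : S.dist y (g ^ (n + 1) • y) ≤ S.dist y (g ^ n • y) + S.dist (g ^ n • y)
        (g ^ (n + 1) • y) := h.tree.connected.dist_triangle
    have h2 : S.dist (g ^ n • y) (g ^ (n + 1) • y) = S.dist y (g • y) := by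
      rw [pow_succ, mul_smul, ta_dist h]
    rw [add_mul, one_mul]
    omega

/-- criterion for points of the axis -/
theorem tl_axis (h : TA G S) (g : G) (x : V) (h1 : 0 < S.dist x (g • x))
    (h2 : S.dist x (g • g • x) = 2 * S.dist x (g • x)) : x ∈ CC S g := by
  obtain ⟨y, hy⟩ := cc_nonempty h g
  have hy' : S.dist y (g • y) = tl S g := hy
  apply le_antisymm _ (tl_le h g x)
  by_contra hlt
  push Not at hlt
  -- compare for large `n`
  set D := S.dist x (g • x) with hD
  set t := tl S g with ht
  set e := S.dist x y with he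
  have key : ∀ n : ℕ, n * D ≤ n * t + 2 * e := by
    intro n
    have e1 := tl1_axis_pow h g x h1 h2 n
    have e2 := tl1_pow_le h g y n
    have e3 : S.dist x (g ^ n • x) ≤ S.dist x y + S.dist y (g ^ n • x) :=
      h.tree.connected.dist_triangle
    have e4 : S.dist y (g ^ n • x) ≤ S.dist y (g ^ n • y) + S.dist (g ^ n • y) (g ^ n • x) :=
      h.tree.connected.dist_triangle
    have e5 : S.dist (g ^ n • y) (g ^ n • x) = S.dist x y := by
      rw [ta_dist h, SimpleGraph.dist_comm]
    rw [hy'] at e2
    rw [← hD] at e1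
    omega
  have k := key (2 * e + 1)
  have : (2 * e + 1) * (t + 1) ≤ (2 * e + 1) * D := Nat.mul_le_mul_left _ hlt
  rw [mul_add, mul_one] at this
  omega

/-- one step towards the characteristic set -/
theorem tl1_step' (h : TA G S) (g : G) (x : V) (hD0 : 0 < S.dist x (g • x))
    (hne : S.dist x (g • g • x) ≠ 2 * S.dist x (g • x)) :
    ∃ x', S.Adj x x' ∧ S.dist x' (g • x') + 2 = S.dist x (g • x) := by
  set D := S.dist x (g • x) with hD
  have hg : S.dist (g • x) (g • g • x) = D := ta_dist h g _ _
  have hle : S.dist x (g • g • x) ≤ S.dist x (g • x) + S.dist (g • x) (g • g • x) :=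
    h.tree.connected.dist_triangle
  have hpar := st_parity h.tree x (g • x) (g • g • x)
  rw [← hD, hg] at hpar
  have hlt : S.dist x (g • g • x) + 2 ≤ 2 * D := by
    obtain ⟨k, hk⟩ := hpar
    omega
  -- median
  obtain ⟨m, m1, m2, m3⟩ := st_median h.tree x (g • x) (g • g • x)
  unfold Bt at m1 m2 m3
  have hm : 0 < S.dist (g • x) m := by
    rw [SimpleGraph.dist_comm] at m1
    have c1 : S.dist m x = S.dist x m := SimpleGraph.dist_comm
    have c2 : S.dist m (g • x) = S.dist (g • x) m := SimpleGraph.dist_comm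
    omega
  have hne' : g • x ≠ m := by
    intro h0
    rw [← h0, SimpleGraph.dist_self] at hm
    exact lt_irrefl _ hm
  obtain ⟨y, hy, hy'⟩ := st_next h.tree hne'
  have hyd : S.dist (g • x) y = 1 := SimpleGraph.dist_eq_one_iff_adj.2 hy
  unfold Bt at hy'
  -- `y` lies between `g x` and `x`
  have y1 : S.dist y x + 1 = D := by
    have t1 : S.dist y x ≤ S.dist y m + S.dist m x := h.tree.connected.dist_triangle
    have t2 : S.dist (g • x) x ≤ S.dist (g • x) y + S.dist y x := h.tree.connected.dist_triangle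
    have c1 : S.dist m x = S.dist x m := SimpleGraph.dist_comm
    have c2 : S.dist m (g • x) = S.dist (g • x) m := SimpleGraph.dist_comm
    have c3 : S.dist (g • x) x = D := by rw [SimpleGraph.dist_comm]
    omega
  have y2 : S.dist y (g • g • x) + 1 = D := by
    have t1 : S.dist y (g • g • x) ≤ S.dist y m + S.dist m (g • g • x) :=
      h.tree.connected.dist_triangle
    have t2 : S.dist (g • x) (g • g • x) ≤ S.dist (g • x) y + S.dist y (g • g • x) :=
      h.tree.connected.dist_triangle
    omega
  have hz : S.Adj x (g⁻¹ • y) := by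
    have := h.adj g⁻¹ _ _ hy
    simpa using this
  have hz1 : S.dist (g⁻¹ • y) (g • x) + 1 = D := by
    rw [← ta_dist h g, smul_inv_smul]
    exact y2
  refine ⟨g⁻¹ • y, hz, ?_⟩
  rw [smul_inv_smul]
  have hz1' : S.dist x (g⁻¹ • y) = 1 := SimpleGraph.dist_eq_one_iff_adj.2 hz
  rcases Nat.lt_or_ge D 2 with hD2 | hD2
  · -- inversion
    exfalso
    have hD1 : D = 1 := by omega
    have e1 : y = x := by
      have : S.dist y x = 0 := by omega
      exact (h.tree.connected.dist_eq_zero_iff).1 this
    have e2 : g⁻¹ • y = g • x := by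
      have : S.dist (g⁻¹ • y) (g • x) = 0 := by omega
      exact (h.tree.connected.dist_eq_zero_iff).1 this
    have e3 : S.Adj x (g • x) := by rw [← e2]; exact hz
    apply h.noinv g x (g • x) e3 rfl
    rw [← e2, e1, smul_inv_smul]
  · -- both on the segment from `x` to `g x`
    have b1 : Bt S x (g⁻¹ • y) (g • x) := by unfold Bt; omega
    have b2 : Bt S x y (g • x) := by
      unfold Bt
      have c : S.dist y (g • x) = S.dist (g • x) y := SimpleGraph.dist_comm
      have c' : S.dist x y = S.dist y x := SimpleGraph.dist_comm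
      omega
    have hle : S.dist x (g⁻¹ • y) ≤ S.dist x y := by
      have c' : S.dist x y = S.dist y x := SimpleGraph.dist_comm
      omega
    obtain ⟨b3, -⟩ := st_seg h.tree b1 b2 hle
    unfold Bt at b3
    have c' : S.dist x y = S.dist y x := SimpleGraph.dist_comm
    omega

theorem tl1_step (h : TA G S) (g : G) (x : V) (hx : tl S g < S.dist x (g • x)) :
    ∃ x', S.Adj x x' ∧ S.dist x' (g • x') + 2 = S.dist x (g • x) := by
  have hD0 : 0 < S.dist x (g • x) := by omega
  refine tl1_step' h g x hD0 ?_
  intro h2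
  have := tl_axis h g x hD0 h2
  have h3 : S.dist x (g • x) = tl S g := this
  omega

/-- points of the characteristic set move along an axis -/
theorem tl1_two (h : TA G S) (g : G) (x : V) (hx : x ∈ CC S g) (hg : 0 < tl S g) :
    S.dist x (g • g • x) = 2 * tl S g := by
  have hx' : S.dist x (g • x) = tl S g := hx
  by_contra hne
  obtain ⟨x', -, h2⟩ := tl1_step' h g x (by omega) (by rw [hx']; exact hne)
  have := tl_le h g x'
  omega

/-- (1.1) -/
theorem tl_disp (h : TA G S) (g : G) (x : V) :
    ∃ y ∈ CC S g, S.dist x (g • x) = tl S g + 2 * S.dist x y := by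
  have main : ∀ n : ℕ, ∀ x : V, S.dist x (g • x) = tl S g + n →
      ∃ y ∈ CC S g, S.dist x (g • x) = tl S g + 2 * S.dist x y := by
    intro n
    induction n using Nat.strong_induction_on with
    | _ n ih =>
      intro x hx
      rcases Nat.eq_zero_or_pos n with h0 | h0
      · refine ⟨x, ?_, ?_⟩
        · show S.dist x (g • x) = tl S g
          omega
        · rw [SimpleGraph.dist_self]; omega
      · obtain ⟨x', hx', hd⟩ := tl1_step h g x (by omega)
        have hle := tl_le h g x'
        obtain ⟨y, hy, hyd⟩ := ih (n - 2) (by omega) x' (by omega)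
        refine ⟨y, hy, ?_⟩
        have hxx : S.dist x x' = 1 := SimpleGraph.dist_eq_one_iff_adj.2 hx'
        have t1 : S.dist x y ≤ S.dist x x' + S.dist x' y := h.tree.connected.dist_triangle
        -- lower bound for `dist x y`
        have t2 : S.dist x (g • x) ≤ S.dist x y + S.dist y (g • x) :=
          h.tree.connected.dist_triangle
        have t3 : S.dist y (g • x) ≤ S.dist y (g • y) + S.dist (g • y) (g • x) :=
          h.tree.connected.dist_triangle
        have t4 : S.dist (g • y) (g • x) = S.dist x y := by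
          rw [ta_dist h, SimpleGraph.dist_comm]
        have t5 : S.dist y (g • y) = tl S g := hy
        omega
  exact main (S.dist x (g • x) - tl S g) x (by have := tl_le h g x; omega)

/-- (1.2) -/
theorem cc_cvx (h : TA G S) (g : G) : Cvx S (CC S g) := by
  intro x hx z hz m hm
  have hx' : S.dist x (g • x) = tl S g := hx
  have hz' : S.dist z (g • z) = tl S g := hz
  apply le_antisymm _ (tl_le h g m)
  have hgm : Bt S (g • x) (g • m) (g • z) := (ta_bt h g x m z).2 hm
  have c1 : S.dist z m = S.dist m z := SimpleGraph.dist_comm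
  have c2 : S.dist (g • m) (g • z) = S.dist m z := ta_dist h g _ _
  have c3 : S.dist (g • x) (g • m) = S.dist x m := ta_dist h g _ _
  have c4 : S.dist (g • z) (g • m) = S.dist m z := by rw [SimpleGraph.dist_comm, c2]
  have t1 : S.dist x (g • z) ≤ S.dist x (g • x) + S.dist (g • x) (g • z) :=
    h.tree.connected.dist_triangle
  have t2 : S.dist z (g • x) ≤ S.dist z (g • z) + S.dist (g • z) (g • x) :=
    h.tree.connected.dist_triangle
  have c5 : S.dist (g • x) (g • z) = S.dist x z := ta_dist h g _ _
  have c6 : S.dist (g • z) (g • x) = S.dist x z := by rw [SimpleGraph.dist_comm, c5]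
  unfold Bt at hm
  rcases st_bt h.tree (show Bt S x m z from hm) (g • m) with h1 | h1
  · rcases st_bt h.tree hgm x with h2 | h2
    · unfold Bt at h1 h2
      have d1 : S.dist (g • m) x = S.dist x (g • m) := SimpleGraph.dist_comm
      have d2 : S.dist (g • x) x = S.dist x (g • x) := SimpleGraph.dist_comm
      omega
    · unfold Bt at h1 h2
      have d1 : S.dist (g • m) x = S.dist x (g • m) := SimpleGraph.dist_comm
      have d2 : S.dist (g • z) x = S.dist x (g • z) := SimpleGraph.dist_comm
      omega
  · rcases st_bt h.tree hgm z with h2 | h2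
    · unfold Bt at h1 h2
      have d1 : S.dist (g • m) z = S.dist z (g • m) := SimpleGraph.dist_comm
      have d2 : S.dist (g • x) z = S.dist z (g • x) := SimpleGraph.dist_comm
      omega
    · unfold Bt at h1 h2
      have d1 : S.dist (g • m) z = S.dist z (g • m) := SimpleGraph.dist_comm
      have d2 : S.dist (g • z) z = S.dist z (g • z) := SimpleGraph.dist_comm
      omega

/-- concatenation of two overlapping segments -/
theorem st_cat {V : Type} {S : SimpleGraph V} (hS : S.IsTree) {x m n y : V} (h1 : Bt S x m n)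
    (h2 : Bt S m n y) (h3 : m ≠ n) : S.dist x y = S.dist x m + S.dist m n + S.dist n y := by
  unfold Bt at h1 h2
  have h0 : 0 < S.dist m n := hS.connected.pos_dist_of_ne h3
  have h4 := st_4pt hS x n m y
  have t1 : S.dist x y ≤ S.dist x m + S.dist m y := hS.connected.dist_triangle
  have c1 : S.dist n m = S.dist m n := SimpleGraph.dist_comm
  rcases le_max_iff.1 h4 with h5 | h5 <;> omega

theorem tl_pow_aux (h : TA G S) (g : G) (hg : 0 < tl S g) (n : ℕ) (hn : 0 < n) (x : V)
    (hx : x ∈ CC S g) : x ∈ CC S (g ^ n) ∧ tl S (g ^ n) = n * tl S g := by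
  have hx' : S.dist x (g • x) = tl S g := hx
  have h2 := tl1_two h g x hx hg
  have e1 := tl1_axis_pow h g x (by omega) (by rw [hx']; exact h2)
  have e2 : S.dist x (g ^ n • x) = n * tl S g := by rw [e1, hx']
  have e3 : S.dist x (g ^ n • g ^ n • x) = 2 * S.dist x (g ^ n • x) := by
    rw [← mul_smul, ← pow_add, e1, e2, hx']; ring
  have e4 : x ∈ CC S (g ^ n) := tl_axis h (g ^ n) x (by rw [e2]; positivity) e3
  refine ⟨e4, ?_⟩
  have e5 : S.dist x (g ^ n • x) = tl S (g ^ n) := e4
  omega

theorem tl_pow (h : TA G S) (g : G) (n : ℕ) : tl S (g ^ n) = n * tl S g := by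
  rcases Nat.eq_zero_or_pos n with rfl | hn
  · rw [pow_zero, zero_mul, tl_eq_zero h]
    obtain ⟨v⟩ := h.tree.connected.nonempty
    exact ⟨v, one_smul _ _⟩
  · rcases Nat.eq_zero_or_pos (tl S g) with h0 | h0
    · obtain ⟨x, hx⟩ := (tl_eq_zero h g).1 h0
      rw [h0, mul_zero, tl_eq_zero h]
      refine ⟨x, ?_⟩
      clear h0 hn
      induction n with
      | zero => simp
      | succ n ih => rw [pow_succ, mul_smul, hx, ih]
    · obtain ⟨x, hx⟩ := cc_nonempty h g
      exact (tl_pow_aux h g h0 n hn x hx).2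

/-- the nearest point of the characteristic set is a gate -/
theorem tl_gate (h : TA G S) (g : G) (y z : V) (hz : z ∈ CC S g)
    (hyz : S.dist y (g • y) = tl S g + 2 * S.dist y z) (w : V) (hw : w ∈ CC S g) :
    Bt S y z w := by
  obtain ⟨m, m1, m2, m3⟩ := st_median h.tree y z w
  have hm : m ∈ CC S g := cc_cvx h g z hz w hw m m2
  have hm' : S.dist m (g • m) = tl S g := hm
  have t1 : S.dist y (g • y) ≤ S.dist y m + S.dist m (g • y) := h.tree.connected.dist_triangle
  have t2 : S.dist m (g • y) ≤ S.dist m (g • m) + S.dist (g • m) (g • y) :=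
    h.tree.connected.dist_triangle
  have c : S.dist (g • m) (g • y) = S.dist y m := by rw [ta_dist h, SimpleGraph.dist_comm]
  have m1' := m1
  unfold Bt at m1'
  have h0 : S.dist m z = 0 := by omega
  have : m = z := h.tree.connected.dist_eq_zero_iff.1 h0
  rw [← this]
  exact m3

theorem cc_pow (h : TA G S) (g : G) (hg : 0 < tl S g) (n : ℕ) (hn : 0 < n) :
    CC S (g ^ n) = CC S g := by
  apply Set.Subset.antisymm
  · intro y hy
    have hy' : S.dist y (g ^ n • y) = tl S (g ^ n) := hy
    obtain ⟨z, hz, hyz⟩ := tl_disp h g y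
    obtain ⟨hz1, hz2⟩ := tl_pow_aux h g hg n hn z hz
    have hz1' : S.dist z (g ^ n • z) = tl S (g ^ n) := hz1
    have hpos : 0 < n * tl S g := Nat.mul_pos hn hg
    -- `g ^ n • z` is in the characteristic set of `g`
    have hgz : g ^ n • z ∈ CC S g := by
      have : S.dist (g ^ n • z) (g • g ^ n • z) = tl S g := by
        rw [← mul_smul, ← pow_succ', pow_succ, mul_smul, ta_dist h]; exact hz
      exact this
    have b1 : Bt S y z (g ^ n • z) := tl_gate h g y z hz hyz _ hgz
    have hinv : (g ^ n)⁻¹ • z ∈ CC S g := by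
      have h1 : S.dist ((g ^ n)⁻¹ • z) (g • (g ^ n)⁻¹ • z) = tl S g := by
        have h2 : g • (g ^ n)⁻¹ • z = (g ^ n)⁻¹ • g • z := by
          rw [← mul_smul, ← mul_smul]
          congr 1
          have : Commute g (g ^ n)⁻¹ := (Commute.refl g).pow_right n |>.inv_right
          exact this
        rw [h2, ta_dist h]
        exact hz
      exact h1
    have b2 : Bt S (g ^ n • y) (g ^ n • z) z := by
      have b3 := tl_gate h g y z hz hyz _ hinv
      have b4 := (ta_bt h (g ^ n) y z ((g ^ n)⁻¹ • z)).2 b3
      rwa [smul_inv_smul] at b4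
    have b2' : Bt S z (g ^ n • z) (g ^ n • y) := by
      unfold Bt at b2 ⊢
      have c1 : S.dist z (g ^ n • z) = S.dist (g ^ n • z) z := SimpleGraph.dist_comm
      have c2 : S.dist (g ^ n • z) (g ^ n • y) = S.dist (g ^ n • y) (g ^ n • z) :=
        SimpleGraph.dist_comm
      have c3 : S.dist z (g ^ n • y) = S.dist (g ^ n • y) z := SimpleGraph.dist_comm
      omega
    have hne : z ≠ g ^ n • z := by
      intro h0
      rw [← h0, SimpleGraph.dist_self] at hz1'
      omega
    have e := st_cat h.tree b1 b2' hne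
    have c : S.dist (g ^ n • z) (g ^ n • y) = S.dist y z := by
      rw [ta_dist h, SimpleGraph.dist_comm]
    have h0 : S.dist y z = 0 := by omega
    have : y = z := h.tree.connected.dist_eq_zero_iff.1 h0
    rw [this]
    exact hz
  · intro x hx
    exact (tl_pow_aux h g hg n hn x hx).1

end TL1

end LatIso
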