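import Pool.Agent.Lib.MP_32d917_al.TL1

set_option autoImplicit false

namespace LatIso

section TL1B

variable {G : Type} [Group G] {V : Type} [MulAction G V] {S : SimpleGraph V}

theorem tl1b_zpow (h : TA G S) (g : G) (x : V) (hx : x ∈ CC S g) (hg : 0 < tl S g) (p q : ℤ)
    (hpq : p ≤ q) : (S.dist (g ^ p • x) (g ^ q • x) : ℤ) = (q - p) * tl S g := by
  obtain ⟨n, hn⟩ := Int.eq_ofNat_of_zero_le (sub_nonneg.2 hpq)
  have h1 : g ^ q • x = g ^ p • g ^ n • x := by
    rw [← mul_smul, ← zpow_natCast, ← zpow_add]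
    congr 2
    omega
  have hx' : S.dist x (g • x) = tl S g := hx
  have h2 := tl1_axis_pow h g x (by omega) (by rw [hx']; exact tl1_two h g x hx hg) n
  rw [h1, ta_dist h, h2, hx', hn]
  push_cast
  ring

theorem tl1b_lemma (h : TA G S) (g : G) (hg : 0 < tl S g) (x : V) (hx : x ∈ CC S g)
    (c : ℕ → V) (hc : ∀ i ≤ tl S g, S.dist x (c i) = i ∧ Bt S x (c i) (g • x))
    (b : ℤ → V) (hb : ∀ q : ℤ, ∀ r : ℕ, r < tl S g → b (q * tl S g + r) = g ^ q • c r) :
    ∀ i j : ℤ, i ≤ j → (S.dist (b i) (b j) : ℤ) = j - i := by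
  set t := tl S g with ht
  have ht0 : (0 : ℤ) < t := by exact_mod_cast hg
  have hx' : S.dist x (g • x) = t := hx
  -- decomposition
  have dec : ∀ i : ℤ, ∃ (q : ℤ) (r : ℕ), r < t ∧ i = q * t + r ∧ b i = g ^ q • c r := by
    intro i
    refine ⟨i / t, (i % t).toNat, ?_, ?_, ?_⟩
    · have := Int.emod_lt_of_pos i ht0
      have := Int.emod_nonneg i ht0.ne'
      omega
    · have h1 := Int.emod_nonneg i ht0.ne'
      rw [Int.toNat_of_nonneg h1]
      have := Int.ediv_mul_add_emod i t
      linarith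
    · have h1 := Int.emod_nonneg i ht0.ne'
      have h2 := Int.emod_lt_of_pos i ht0
      have h3 := hb (i / t) (i % t).toNat (by omega)
      rw [← h3]
      congr 1
      rw [Int.toNat_of_nonneg h1]
      have := Int.ediv_mul_add_emod i t
      linarith
  -- position with respect to the orbit of `x`
  have pos : ∀ (q : ℤ) (r : ℕ), r < t → ∀ p p' : ℤ, p ≤ q → q + 1 ≤ p' →
      (S.dist (g ^ p • x) (g ^ q • c r) : ℤ) = (q - p) * t + r ∧
      (S.dist (g ^ q • c r) (g ^ p' • x) : ℤ) = (p' - q) * t - r := by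
    intro q r hr p p' hp hp'
    obtain ⟨c1, c2⟩ := hc r hr.le
    unfold Bt at c2
    have d1 : S.dist (g ^ q • x) (g ^ q • c r) = r := by rw [ta_dist h, c1]
    have d2 : (S.dist (g ^ q • c r) (g ^ (q + 1) • x) : ℤ) = t - r := by
      have : g ^ (q + 1) • x = g ^ q • g • x := by rw [← mul_smul, zpow_add, zpow_one]
      rw [this, ta_dist h]
      omega
    have e1 := tl1b_zpow h g x hx hg p q hp
    have e2 := tl1b_zpow h g x hx hg p p' (by omega)
    have e3 := tl1b_zpow h g x hx hg (q + 1) p' hp'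
    rw [← ht] at e1 e2 e3
    have t1 : S.dist (g ^ p • x) (g ^ q • c r) ≤ S.dist (g ^ p • x) (g ^ q • x) +
        S.dist (g ^ q • x) (g ^ q • c r) := h.tree.connected.dist_triangle
    have t2 : S.dist (g ^ q • c r) (g ^ p' • x) ≤ S.dist (g ^ q • c r) (g ^ (q + 1) • x) +
        S.dist (g ^ (q + 1) • x) (g ^ p' • x) := h.tree.connected.dist_triangle
    have t3 : S.dist (g ^ p • x) (g ^ p' • x) ≤ S.dist (g ^ p • x) (g ^ q • c r) +
        S.dist (g ^ q • c r) (g ^ p' • x) := h.tree.connected.dist_triangle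
    have e2' : (S.dist (g ^ p • x) (g ^ p' • x) : ℤ) = (q - p) * t + t + (p' - (q + 1)) * t := by
      rw [e2]; ring
    have e3' : (p' - q) * (t : ℤ) - r = t - r + (p' - (q + 1)) * t := by ring
    rw [e3']
    constructor <;> omega
  intro i j hij
  obtain ⟨q, r, hr, hi, hbi⟩ := dec i
  obtain ⟨q', r', hr', hj, hbj⟩ := dec j
  have hqq : q ≤ q' := by
    by_contra hlt
    push Not at hlt
    have h1 : (q' + 1) * (t : ℤ) ≤ q * t := mul_le_mul_of_nonneg_right hlt ht0.le
    have h2 : (r' : ℤ) < t := by exact_mod_cast hr'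
    rw [add_mul, one_mul] at h1
    omega
  obtain ⟨a1, a2⟩ := pos q r hr q (q' + 1) le_rfl (by omega)
  obtain ⟨b1, b2⟩ := pos q' r' hr' q (q' + 1) hqq le_rfl
  have e2 := tl1b_zpow h g x hx hg q (q' + 1) (by omega)
  have k1 : Bt S (g ^ q • x) (b i) (g ^ (q' + 1) • x) := by
    unfold Bt
    rw [hbi]
    have : ((S.dist (g ^ q • x) (g ^ q • c r) + S.dist (g ^ q • c r) (g ^ (q' + 1) • x) : ℕ) : ℤ) =
      S.dist (g ^ q • x) (g ^ (q' + 1) • x) := by
      rw [Nat.cast_add, a1, a2, e2]; ring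
    exact_mod_cast this
  have k2 : Bt S (g ^ q • x) (b j) (g ^ (q' + 1) • x) := by
    unfold Bt
    rw [hbj]
    have : ((S.dist (g ^ q • x) (g ^ q' • c r') + S.dist (g ^ q' • c r') (g ^ (q' + 1) • x) : ℕ) :
        ℤ) = S.dist (g ^ q • x) (g ^ (q' + 1) • x) := by
      rw [Nat.cast_add, b1, b2, e2]; ring
    exact_mod_cast this
  have k3 : (S.dist (g ^ q • x) (b i) : ℤ) = i - q * t := by
    rw [hbi, a1, hi]; ring
  have k4 : (S.dist (g ^ q • x) (b j) : ℤ) = j - q * t := by
    rw [hbj, b1, hj]; ring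
  obtain ⟨k5, -⟩ := st_seg h.tree k1 k2 (by omega)
  unfold Bt at k5
  omega

/-- (1.3) the axis -/
theorem tl_line (h : TA G S) (g : G) (hg : 0 < tl S g) :
    ∃ b : ℤ → V, (∀ i j, S.dist (b i) (b j) = (i - j).natAbs) ∧
      (∀ i, g • b i = b (i + tl S g)) ∧ ∀ x, x ∈ CC S g ↔ ∃ i, b i = x := by
  obtain ⟨x, hx⟩ := cc_nonempty h g
  have hx' : S.dist x (g • x) = tl S g := hx
  have hc0 : ∀ i : ℕ, ∃ m, i ≤ tl S g → S.dist x m = i ∧ Bt S x m (g • x) := by
    intro i
    by_cases hi : i ≤ tl S g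
    · obtain ⟨m, hm⟩ := st_pt h.tree x (g • x) i (by omega)
      exact ⟨m, fun _ => hm⟩
    · exact ⟨x, fun h => absurd h hi⟩
  choose c hc using hc0
  set t := tl S g with ht
  have ht0 : (0 : ℤ) < t := by exact_mod_cast hg
  let b : ℤ → V := fun i => g ^ (i / t) • c (i % t).toNat
  have hb : ∀ q : ℤ, ∀ r : ℕ, r < t → b (q * t + r) = g ^ q • c r := by
    intro q r hr
    have h1 : (q * t + r) / (t : ℤ) = q := by
      rw [add_comm, Int.add_mul_ediv_right _ _ ht0.ne']
      rw [Int.ediv_eq_zero_of_lt (by omega) (by exact_mod_cast hr)]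
      ring
    have h2 : (q * t + r) % (t : ℤ) = r := by
      rw [add_comm, Int.add_mul_emod_self_right]
      exact Int.emod_eq_of_lt (by omega) (by exact_mod_cast hr)
    show g ^ ((q * t + r) / (t : ℤ)) • c ((q * t + r) % (t : ℤ)).toNat = _
    rw [h1, h2, Int.toNat_natCast]
  have hd := tl1b_lemma h g hg x hx c hc b hb
  have hdist : ∀ i j, S.dist (b i) (b j) = (i - j).natAbs := by
    intro i j
    rcases le_total i j with hij | hij
    · have := hd i j hij
      omega
    · have := hd j i hij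
      rw [SimpleGraph.dist_comm]
      omega
  have hgb : ∀ i, g • b i = b (i + t) := by
    intro i
    show g • g ^ (i / t) • c (i % t).toNat = g ^ ((i + t) / t) • c ((i + t) % t).toNat
    have h1 : (i + t) / (t : ℤ) = 1 + i / t := by
      rw [Int.add_ediv_of_dvd_right (dvd_refl _), Int.ediv_self ht0.ne', add_comm]
    have h2 : (i + t) % (t : ℤ) = i % t := by simp
    rw [h1, h2, ← mul_smul, zpow_add, zpow_one]
  have hbc : ∀ i, b i ∈ CC S g := by
    intro i
    show S.dist (b i) (g • b i) = tl S g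
    rw [hgb, hdist]
    omega
  refine ⟨b, hdist, hgb, ?_⟩
  intro y
  constructor
  · intro hy
    have hy' : S.dist y (g • y) = t := hy
    -- nearest point of the line
    obtain ⟨m, hm⟩ : ∃ m : ℤ, ∀ j : ℤ, S.dist y (b m) ≤ S.dist y (b j) := by
      have hne : (Set.range fun j : ℤ => S.dist y (b j)).Nonempty := ⟨_, 0, rfl⟩
      obtain ⟨m, hm⟩ := Nat.sInf_mem hne
      exact ⟨m, fun j => by
        simp only at hm
        rw [hm]; exact Nat.sInf_le ⟨j, rfl⟩⟩
    -- gate property
    have gate : ∀ j, Bt S y (b m) (b j) := by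
      intro j
      obtain ⟨μ, m1, m2, m3⟩ := st_median h.tree y (b m) (b j)
      -- `μ` is on the line
      have hμ : ∃ k, b k = μ := by
        have m2' := m2
        unfold Bt at m2'
        rw [hdist] at m2'
        have hle : S.dist (b m) μ ≤ (m - j).natAbs := by omega
        rcases le_total m j with hmj | hmj
        · refine ⟨m + S.dist (b m) μ, ?_⟩
          refine (st_pt_uniq h.tree m2 ?_ ?_).symm
          · unfold Bt; rw [hdist, hdist, hdist]; omega
          · rw [hdist]; omega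
        · refine ⟨m - S.dist (b m) μ, ?_⟩
          refine (st_pt_uniq h.tree m2 ?_ ?_).symm
          · unfold Bt; rw [hdist, hdist, hdist]; omega
          · rw [hdist]; omega
      obtain ⟨k, rfl⟩ := hμ
      have := hm k
      unfold Bt at m1
      have h0 : S.dist (b k) (b m) = 0 := by omega
      rw [hdist] at h0
      have : k = m := by omega
      rw [← this]
      exact m3
    by_contra hcon
    have hne : y ≠ b m := fun h0 => hcon ⟨m, h0.symm⟩
    have hpos := h.tree.connected.pos_dist_of_ne hne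
    have b1 : Bt S y (b m) (b (m + t)) := gate _
    have b2 : Bt S (g • y) (b (m + t)) (b m) := by
      have h1 := gate (m - t)
      have h2 := (ta_bt h g _ _ _).2 h1
      rw [hgb, hgb, sub_add_cancel] at h2
      exact h2
    have b2' : Bt S (b m) (b (m + t)) (g • y) := by
      unfold Bt at b2 ⊢
      have c1 : S.dist (b m) (b (m + t)) = S.dist (b (m + t)) (b m) := SimpleGraph.dist_comm
      have c2 : S.dist (b (m + t)) (g • y) = S.dist (g • y) (b (m + t)) := SimpleGraph.dist_comm
      have c3 : S.dist (b m) (g • y) = S.dist (g • y) (b m) := SimpleGraph.dist_comm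
      omega
    have hne2 : b m ≠ b (m + t) := by
      intro h0
      have := hdist m (m + t)
      rw [← h0, SimpleGraph.dist_self] at this
      omega
    have e := st_cat h.tree b1 b2' hne2
    rw [hdist] at e
    omega
  · rintro ⟨i, rfl⟩
    exact hbc i

end TL1B

end LatIso
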