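import Pool.Agent.Lib.MP_32d917_al.ST1
import Pool.Agent.Lib.MP_32d917_al.TL1
import Pool.Agent.Lib.MP_32d917_al.TL1B

/-!
# Convex sets and axes (3.2)
-/

set_option autoImplicit false

namespace LatIso

section LEMF

variable {G : Type} [Group G] {V : Type} [MulAction G V] {S : SimpleGraph V}

theorem lemf_inj {b : ℤ → V} (hb : ∀ i j, S.dist (b i) (b j) = (i - j).natAbs) :
    Function.Injective b := by
  intro i j hij
  have h1 := hb i j
  rw [hij, SimpleGraph.dist_self] at h1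
  omega

theorem lemf_bt {b : ℤ → V} (hb : ∀ i j, S.dist (b i) (b j) = (i - j).natAbs) {i j k : ℤ}
    (h1 : i ≤ j) (h2 : j ≤ k) : Bt S (b i) (b j) (b k) := by
  show S.dist (b i) (b j) + S.dist (b j) (b k) = S.dist (b i) (b k)
  rw [hb, hb, hb]; omega

/-- the projection to an axis -/
theorem lemf_proj (h : TA G S) (k : G) {b : ℤ → V}
    (hb : ∀ i j, S.dist (b i) (b j) = (i - j).natAbs)
    (hr : ∀ x, x ∈ CC S k ↔ ∃ i, b i = x) (z : V) :
    ∃ m : ℤ, ∀ j, S.dist z (b j) = S.dist z (b m) + (m - j).natAbs := by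
  have hne : ∃ d, ∃ m : ℤ, S.dist z (b m) = d := ⟨_, 0, rfl⟩
  classical
  obtain ⟨m, hm⟩ := Nat.find_spec hne
  have hmin : ∀ j, S.dist z (b m) ≤ S.dist z (b j) := by
    intro j; rw [hm]; exact Nat.find_min' hne ⟨j, rfl⟩
  refine ⟨m, fun j => ?_⟩
  obtain ⟨q, q1, q2, q3⟩ := st_median h.tree z (b m) (b j)
  have hq : q ∈ CC S k := cc_cvx h k _ ((hr _).mpr ⟨m, rfl⟩) _ ((hr _).mpr ⟨j, rfl⟩) q q2
  obtain ⟨i, rfl⟩ := (hr q).mp hq
  have e1 : S.dist z (b i) + S.dist (b i) (b m) = S.dist z (b m) := q1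
  have e3 : S.dist z (b i) + S.dist (b i) (b j) = S.dist z (b j) := q3
  have e4 := hmin i
  rw [hb] at e1 e3
  have : i = m := by omega
  subst this
  exact e3.symm

theorem lemf_pow (k : G) {b : ℤ → V} (t : ℕ) (hk : ∀ i, k • b i = b (i + t)) (n : ℕ) (i : ℤ) :
    k ^ n • b i = b (i + n * t) := by
  induction n generalizing i with
  | zero => simp
  | succ n ih =>
    rw [pow_succ, mul_smul, hk, ih]
    congr 1
    push_cast
    ring

/-- (3.2) -/
theorem lemF (h : TA G S) (k : G) (hk : 0 < tl S k) (C : Set V) (hC : Cvx S C) (h0 : C.Nonempty)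
    (hf : (C ∩ CC S k).Finite) : ∃ n : ℕ, 0 < n ∧ ∀ x ∈ C, k ^ n • x ∉ C := by
  obtain ⟨b, hb, hkb, hr⟩ := tl_line h k hk
  choose m hm using lemf_proj h k hb hr
  -- images under powers
  have hpow : ∀ (n : ℕ) (z : V), m (k ^ n • z) = m z + n * tl S k := by
    intro n z
    have e1 : ∀ j, S.dist (k ^ n • z) (b j) = S.dist z (b (m z)) + (m z - (j - n * tl S k)).natAbs := by
      intro j
      have : b j = k ^ n • b (j - n * tl S k) := by
        rw [lemf_pow k _ hkb]; congr 1; ring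
      rw [this, ta_dist h, hm z]
    have e2 := e1 (m (k ^ n • z))
    have e3 := hm (k ^ n • z) (m z + n * tl S k)
    rw [e1 (m z + n * tl S k)] at e3
    omega
  have hbt : ∀ z z', z ∈ C → z' ∈ C → m z ≠ m z' → b (m z) ∈ C := by
    intro z z' hz hz' hne
    have b1 : Bt S z (b (m z)) (b (m z')) := by
      show S.dist z (b (m z)) + S.dist (b (m z)) (b (m z')) = S.dist z (b (m z'))
      rw [hb, hm z (m z')]
    rcases st_bt h.tree b1 z' with h1 | h1
    · exact hC z hz z' hz' _ h1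
    · exfalso
      have h2 : S.dist (b (m z')) (b (m z)) + S.dist (b (m z)) z' = S.dist (b (m z')) z' := h1
      rw [hb, SimpleGraph.dist_comm (u := b (m z)), SimpleGraph.dist_comm (u := b (m z')),
        hm z' (m z)] at h2
      omega
  obtain ⟨z0, hz0⟩ := h0
  have hfin : {i : ℤ | b i ∈ C}.Finite := by
    refine Set.Finite.preimage (s := C ∩ CC S k) (f := b) ((lemf_inj hb).injOn) hf |>.subset ?_
    intro i hi
    exact ⟨hi, (hr _).mpr ⟨i, rfl⟩⟩
  have hfin2 := ((hfin.union (Set.finite_singleton (m z0))).image Int.natAbs)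
  obtain ⟨R, hR⟩ := hfin2.bddAbove
  have hbd : ∀ z ∈ C, (m z).natAbs ≤ R := by
    intro z hz
    apply hR
    refine ⟨m z, ?_, rfl⟩
    by_cases he : m z = m z0
    · exact Or.inr he
    · exact Or.inl (hbt z z0 hz hz0 he)
  refine ⟨2 * R + 1, by omega, fun x hx hx2 => ?_⟩
  have e1 := hbd x hx
  have e2 := hbd _ hx2
  rw [hpow] at e2
  have e3 : ((2 * R + 1 : ℕ) : ℤ) * 1 ≤ ((2 * R + 1 : ℕ) : ℤ) * tl S k := by
    apply mul_le_mul_of_nonneg_left _ (by positivity)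
    exact_mod_cast hk
  omega

theorem lemf_ray {b : ℤ → V} (hb : ∀ i j, S.dist (b i) (b j) = (i - j).natAbs) (C : Set V)
    (hC : Cvx S C) (hi : {i : ℤ | b i ∈ C}.Infinite) :
    (∃ i, ∀ j, i ≤ j → b j ∈ C) ∨ (∃ i, ∀ j, j ≤ i → b j ∈ C) := by
  by_cases hup : ∀ N : ℤ, ∃ j, N ≤ j ∧ b j ∈ C
  · left
    obtain ⟨i, -, hi⟩ := hup 0
    refine ⟨i, fun j hj => ?_⟩
    obtain ⟨k, hk, hkC⟩ := hup j
    exact hC _ hi _ hkC _ (lemf_bt hb hj hk)
  by_cases hdn : ∀ N : ℤ, ∃ j, j ≤ N ∧ b j ∈ C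
  · right
    obtain ⟨i, -, hi⟩ := hdn 0
    refine ⟨i, fun j hj => ?_⟩
    obtain ⟨k, hk, hkC⟩ := hdn j
    exact hC _ hkC _ hi _ (lemf_bt hb hk hj)
  exfalso
  push Not at hup hdn
  obtain ⟨N, hN⟩ := hup
  obtain ⟨M, hM⟩ := hdn
  refine hi ((Set.finite_Icc M N).subset fun i hiC => ?_)
  constructor
  · by_contra hlt; exact hM i (by omega) hiC
  · by_contra hlt; exact hN i (by omega) hiC

/-- infinite convex subsets of an axis contain one of the two rays: of three such sets two have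
infinite intersection -/
theorem three_lines (h : TA G S) (g : G) (hg : 0 < tl S g) (C₁ C₂ C₃ : Set V)
    (h1 : Cvx S C₁) (h2 : Cvx S C₂) (h3 : Cvx S C₃)
    (i1 : (CC S g ∩ C₁).Infinite) (i2 : (CC S g ∩ C₂).Infinite) (i3 : (CC S g ∩ C₃).Infinite) :
    (C₁ ∩ C₂).Infinite ∨ (C₂ ∩ C₃).Infinite ∨ (C₁ ∩ C₃).Infinite := by
  obtain ⟨b, hb, -, hr⟩ := tl_line h g hg
  have hinf : ∀ C : Set V, (CC S g ∩ C).Infinite → {i : ℤ | b i ∈ C}.Infinite := by
    intro C hC hfin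
    refine hC ((hfin.image b).subset ?_)
    rintro x ⟨hx, hxC⟩
    obtain ⟨i, rfl⟩ := (hr x).mp hx
    exact ⟨i, hxC, rfl⟩
  have hup : ∀ C C' : Set V, (∃ i, ∀ j, i ≤ j → b j ∈ C) → (∃ i, ∀ j, i ≤ j → b j ∈ C') →
      (C ∩ C').Infinite := by
    rintro C C' ⟨i, hi⟩ ⟨i', hi'⟩
    refine Set.infinite_of_injective_forall_mem (f := fun n : ℕ => b (max i i' + n)) ?_ ?_
    · intro n n' hn
      have := lemf_inj hb hn
      omega
    · intro n
      exact ⟨hi _ (by omega), hi' _ (by omega)⟩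
  have hdn : ∀ C C' : Set V, (∃ i, ∀ j, j ≤ i → b j ∈ C) → (∃ i, ∀ j, j ≤ i → b j ∈ C') →
      (C ∩ C').Infinite := by
    rintro C C' ⟨i, hi⟩ ⟨i', hi'⟩
    refine Set.infinite_of_injective_forall_mem (f := fun n : ℕ => b (min i i' - n)) ?_ ?_
    · intro n n' hn
      have := lemf_inj hb hn
      omega
    · intro n
      exact ⟨hi _ (by omega), hi' _ (by omega)⟩
  rcases lemf_ray hb C₁ h1 (hinf _ i1) with a1 | a1 <;>
  rcases lemf_ray hb C₂ h2 (hinf _ i2) with a2 | a2 <;>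
  rcases lemf_ray hb C₃ h3 (hinf _ i3) with a3 | a3
  · exact Or.inl (hup _ _ a1 a2)
  · exact Or.inl (hup _ _ a1 a2)
  · exact Or.inr (Or.inr (hup _ _ a1 a3))
  · exact Or.inr (Or.inl (hdn _ _ a2 a3))
  · exact Or.inr (Or.inl (hup _ _ a2 a3))
  · exact Or.inr (Or.inr (hdn _ _ a1 a3))
  · exact Or.inl (hdn _ _ a1 a2)
  · exact Or.inl (hdn _ _ a1 a2)

end LEMF

end LatIso
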