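import Pool.Agent.Lib.MP_32d917_al.WHITE
import Pool.Agent.Lib.MP_32d917_al.LEME
import Pool.Agent.Lib.MP_32d917_al.LEMF
import Pool.Agent.Lib.MP_32d917_al.FG
import Pool.Agent.Lib.MP_32d917_al.LATB1
import Pool.Agent.Lib.MP_32d917_al.LATB2

/-!
# Theorem A (3.3)
-/

set_option autoImplicit false

namespace LatIso

section THMA

theorem thma_conj {G : Type} [Group G] {V : Type} [MulAction G V] {S : SimpleGraph V}
    (h : TA G S) (x g : G) (y : V) : y ∈ CC S (x * g * x⁻¹) ↔ x⁻¹ • y ∈ CC S g := by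
  have := cc_conj h x g (x⁻¹ • y)
  rwa [smul_inv_smul] at this

variable {G : Type} [Group G] {V W V' W' : Type} [MulAction G V] [MulAction G W]
  [MulAction G V'] [MulAction G W']
  {S : SimpleGraph V} {T : SimpleGraph W} {S' : SimpleGraph V'} {T' : SimpleGraph W'}

/-- (3.3) -/
theorem thmA (L : Lat G S T) (L' : Lat G S' T') (v : V) (w : W) :
    (∃ u : V', StabLe G v u) ∨ (∃ u : V', StabLe G w u) := by
  by_contra hcon
  push Not at hcon
  obtain ⟨hv, hw⟩ := hcon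
  have hS := L.hS
  have hU := L'.hS
  -- the stabilizer of w contains a hyperbolic element
  have hfreeH : ∀ k ∈ MulAction.stabilizer G w, ∀ v : V, k • v = v → k = 1 := fun k hk v hkv =>
    L.free k v w hkv hk
  have hH : ∃ h1 ∈ MulAction.stabilizer G w, 0 < tl S' h1 := by
    by_contra hno
    push Not at hno
    obtain ⟨u, hu⟩ := fix_of_tl_zero hS hU (MulAction.stabilizer G w) hfreeH
      (lat_stab_fin L w) L.locS (fun k hk => Nat.le_zero.mp (hno k hk))
    exact hw u fun g hg => hu g hg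
  obtain ⟨h1, h1H, h1p⟩ := hH
  obtain ⟨h0, h0H, h0U, h0S, hstar⟩ := white hS hU (MulAction.stabilizer G w) hfreeH
    (lat_stab_fin L w) L.locS h1 h1H h1p
  obtain ⟨v0, hv0⟩ := cc_nonempty hS h0
  have hK : ∃ k : G, k • v0 = v0 ∧ 0 < tl S' k := by
    by_contra hno
    push Not at hno
    obtain ⟨u, hu⟩ := fix_of_tl_zero L.hT hU (MulAction.stabilizer G v0)
      (fun k hk w hkw => L.free k v0 w hk hkw)
      (lat_stab_fin L.symm v0) L.locT (fun k hk => Nat.le_zero.mp (hno k hk))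
    obtain ⟨u', hu'⟩ := lat_ell L hU v0 v ⟨u, fun g hg => hu g hg⟩
    exact hv u' hu'
  obtain ⟨k, hk, hkp⟩ := hK
  -- (i)
  have hi : ∀ c : G, c • v0 = v0 → ∃ y ∈ CC S' h0, c • y ∈ CC S' h0 := by
    intro c hc
    obtain ⟨m, hm, hmw⟩ := lat_pow_fix L.symm w (c⁻¹ • w) h0 h0H
    have e1 : c * h0 ^ m * c⁻¹ ∈ MulAction.stabilizer G w := by
      rw [MulAction.mem_stabilizer_iff, mul_smul, mul_smul, hmw, smul_inv_smul]
    have e2 : v0 ∈ CC S (h0 ^ m) := by rw [cc_pow hS h0 h0S m hm]; exact hv0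
    have e3 : v0 ∈ CC S (c * h0 ^ m * c⁻¹) := by
      have := (cc_conj hS c (h0 ^ m) v0).mpr e2
      rwa [hc] at this
    have e4 : tl S (h0 ^ m * (c * h0 ^ m * c⁻¹)) ≤ tl S (h0 ^ m) + tl S (c * h0 ^ m * c⁻¹) := by
      refine (tl_le hS _ v0).trans ?_
      refine (hS.tree.connected.dist_triangle (v := h0 ^ m • v0)).trans ?_
      rw [mul_smul, ta_dist hS]
      exact Nat.add_le_add e2.le e3.le
    rw [tl_conj hS, tl_pow hS] at e4
    have e5 := hstar (h0 ^ m * (c * h0 ^ m * c⁻¹))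
      (mul_mem (pow_mem (show h0 ∈ MulAction.stabilizer G w from h0H) m) e1)
    have e6 : tl S' (h0 ^ m * (c * h0 ^ m * c⁻¹)) ≤ tl S' (h0 ^ m) + tl S' (c * h0 ^ m * c⁻¹) := by
      rw [tl_conj hU, tl_pow hU]
      refine Nat.le_of_mul_le_mul_right ?_ h0S
      refine e5.trans ((Nat.mul_le_mul_left _ e4).trans (le_of_eq ?_))
      ring
    obtain ⟨x, hx1, hx2⟩ := tl_n1 hU _ _ e6
    rw [cc_pow hU h0 h0U m hm] at hx1
    rw [thma_conj hU, cc_pow hU h0 h0U m hm] at hx2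
    exact ⟨c⁻¹ • x, hx2, by rw [smul_inv_smul]; exact hx1⟩
  -- (ii)
  have hii : ∀ k : G, k • v0 = v0 → 0 < tl S' k → (CC S' h0 ∩ CC S' k).Infinite := by
    intro k hk hkp hfin
    obtain ⟨n, hn, hno⟩ := lemF hU k hkp (CC S' h0) (cc_cvx hU h0) (cc_nonempty hU h0) hfin
    have hkn : k ^ n • v0 = v0 := by
      have : k ^ n ∈ MulAction.stabilizer G v0 :=
        pow_mem (show k ∈ MulAction.stabilizer G v0 from hk) n
      exact this
    obtain ⟨y, hy1, hy2⟩ := hi (k ^ n) hkn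
    exact hno y hy1 hy2
  -- (iii)
  obtain ⟨x, hx⟩ := lemE L' k hkp
  obtain ⟨m, hm, hmv⟩ := lat_pow_fix L v0 (x⁻¹ • v0) k hk
  have k'v : (x * k ^ m * x⁻¹) • v0 = v0 := by
    rw [mul_smul, mul_smul, hmv, smul_inv_smul]
  have k'p : 0 < tl S' (x * k ^ m * x⁻¹) := by
    rw [tl_conj hU, tl_pow hU]; exact Nat.mul_pos hm hkp
  have hcc : CC S' (x * k ^ m * x⁻¹) = CC S' (x * k * x⁻¹) := by
    ext y
    rw [thma_conj hU, thma_conj hU, cc_pow hU k hkp m hm]
  set k' := x * k ^ m * x⁻¹ with hk'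
  have hfin1 : (CC S' k' ∩ CC S' k).Finite := by rw [hcc]; exact hx
  obtain ⟨n, hn, hno⟩ := lemF hU k hkp (CC S' k') (cc_cvx hU k') (cc_nonempty hU k') hfin1
  have hkn : k ^ n • v0 = v0 := by
    have : k ^ n ∈ MulAction.stabilizer G v0 :=
      pow_mem (show k ∈ MulAction.stabilizer G v0 from hk) n
    exact this
  have k''v : (k ^ n * k' * (k ^ n)⁻¹) • v0 = v0 := by
    have : k ^ n * k' * (k ^ n)⁻¹ ∈ MulAction.stabilizer G v0 :=
      mul_mem (mul_mem (show k ^ n ∈ MulAction.stabilizer G v0 from hkn)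
        (show k' ∈ MulAction.stabilizer G v0 from k'v))
        (inv_mem (show k ^ n ∈ MulAction.stabilizer G v0 from hkn))
    exact this
  have k''p : 0 < tl S' (k ^ n * k' * (k ^ n)⁻¹) := by rw [tl_conj hU]; exact k'p
  -- intersections
  have hB : ∀ y, y ∈ CC S' k → (k ^ n)⁻¹ • y ∈ CC S' k := by
    intro y hy
    have h1 : k ^ n * k * (k ^ n)⁻¹ = k := by
      rw [mul_inv_eq_iff_eq_mul, ← pow_succ, ← pow_succ']
    have h2 := (thma_conj hU (k ^ n) k y)
    rw [h1] at h2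
    exact h2.mp hy
  rcases three_lines hU h0 h0U (CC S' k) (CC S' k') (CC S' (k ^ n * k' * (k ^ n)⁻¹))
    (cc_cvx hU _) (cc_cvx hU _) (cc_cvx hU _) (hii k hk hkp) (hii k' k'v k'p)
    (hii _ k''v k''p) with h | h | h
  · rw [Set.inter_comm] at h
    exact h hfin1
  · obtain ⟨y, hy1, hy2⟩ := h.nonempty
    rw [thma_conj hU] at hy2
    refine hno _ hy2 ?_
    rw [smul_inv_smul]; exact hy1
  · refine h ((hfin1.image fun y => k ^ n • y).subset ?_)
    rintro y ⟨hy1, hy2⟩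
    rw [thma_conj hU] at hy2
    exact ⟨(k ^ n)⁻¹ • y, ⟨hy2, hB y hy1⟩, smul_inv_smul _ _⟩

end THMA

end LatIso
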