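import Pool.Agent.Lib.MP_32d917_al.ST1
import Pool.Agent.Lib.MP_32d917_al.TL1
import Pool.Agent.Lib.MP_32d917_al.LATB1
import Pool.Agent.Lib.MP_32d917_al.LATB2
import Pool.Agent.Lib.MP_32d917_al.THMA

/-!
# Comparison of two lattice structures
-/

set_option autoImplicit false

namespace LatIso

theorem COMM_triv {G : Type} [Group G] {V W : Type} [MulAction G V] [MulAction G W]
    {S : SimpleGraph V} {T : SimpleGraph W} (L : Lat G S T) {X : Type} [MulAction G X]
    (x : X) (hx : ∃ k : G, k • x = x ∧ k ≠ 1) (h1 : ∃ v : V, StabLe G x v)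
    (h2 : ∃ w : W, StabLe G x w) : False := by
  obtain ⟨k, hk, hk1⟩ := hx
  obtain ⟨v, hv⟩ := h1
  obtain ⟨w, hw⟩ := h2
  exact hk1 (L.free k v w (hv k hk) (hw k hk))

section

variable {G : Type} [Group G] {V W V' W' : Type} [MulAction G V] [MulAction G W]
  [MulAction G V'] [MulAction G W']
  {S : SimpleGraph V} {T : SimpleGraph W} {S' : SimpleGraph V'} {T' : SimpleGraph W'}

theorem COMM_ne (L : Lat G S T) : Nonempty V ∧ Nonempty W := by
  obtain ⟨v, _⟩ := L.threeS
  obtain ⟨w, _⟩ := L.threeT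
  exact ⟨⟨v⟩, ⟨w⟩⟩

/-- one half of (3.4) -/
theorem COMM_half (L : Lat G S T) (L' : Lat G S' T') :
    ((∀ v : V, ∃ v' : V', StabLe G v v') ∧ (∀ w : W, ∃ w' : W', StabLe G w w')) ∨
    ((∀ v : V, ∃ w' : W', StabLe G v w') ∧ (∀ w : W, ∃ v' : V', StabLe G w v')) := by
  obtain ⟨⟨v⟩, ⟨w⟩⟩ := COMM_ne L
  have a1 := thmA L L' v w
  have a2 := thmA L (Lat.symm L') v w
  have b1 := COMM_triv L' v (lat_stab_ne L v)
  have b2 := COMM_triv L' w (lat_stab_ne (Lat.symm L) w)
  rcases a1 with a1 | a1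
  · have a3 : ∃ u : W', StabLe G w u := by
      rcases a2 with a2 | a2
      · exact (b1 a1 a2).elim
      · exact a2
    exact Or.inl ⟨fun x => lat_ell L L'.hS v x a1, fun x => lat_ell (Lat.symm L) L'.hT w x a3⟩
  · have a3 : ∃ u : W', StabLe G v u := by
      rcases a2 with a2 | a2
      · exact a2
      · exact (b2 a1 a2).elim
    exact Or.inr ⟨fun x => lat_ell L L'.hT v x a3, fun x => lat_ell (Lat.symm L) L'.hS w x a1⟩

/-- (3.4) -/
theorem comm (L : Lat G S T) (L' : Lat G S' T') :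
    ((∀ v : V, ∃ v' : V', StabLe G v v') ∧ (∀ w : W, ∃ w' : W', StabLe G w w') ∧
      (∀ v' : V', ∃ v : V, StabLe G v' v) ∧ (∀ w' : W', ∃ w : W, StabLe G w' w)) ∨
    ((∀ v : V, ∃ w' : W', StabLe G v w') ∧ (∀ w : W, ∃ v' : V', StabLe G w v') ∧
      (∀ v' : V', ∃ w : W, StabLe G v' w) ∧ (∀ w' : W', ∃ v : V, StabLe G w' v)) := by
  have tr : ∀ {X Y Z : Type} [MulAction G X] [MulAction G Y] [MulAction G Z] (x : X),
      (∃ y : Y, StabLe G x y) → (∀ y : Y, ∃ z : Z, StabLe G y z) → ∃ z : Z, StabLe G x z := by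
    intro X Y Z _ _ _ x h1 h2
    obtain ⟨y, hy⟩ := h1
    obtain ⟨z, hz⟩ := h2 y
    exact ⟨z, fun k hk => hz k (hy k hk)⟩
  obtain ⟨⟨v⟩, ⟨w⟩⟩ := COMM_ne L
  rcases COMM_half L L' with ⟨h1, h2⟩ | ⟨h1, h2⟩
  · rcases COMM_half L' L with ⟨h3, h4⟩ | ⟨h3, h4⟩
    · exact Or.inl ⟨h1, h2, h3, h4⟩
    · exact (COMM_triv L v (lat_stab_ne L v) ⟨v, fun k hk => hk⟩ (tr v (h1 v) h3)).elim
  · rcases COMM_half L' L with ⟨h3, h4⟩ | ⟨h3, h4⟩
    · exact (COMM_triv L v (lat_stab_ne L v) ⟨v, fun k hk => hk⟩ (tr v (h1 v) h4)).elim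
    · exact Or.inr ⟨h1, h2, h3, h4⟩

/-- in a reduced tree, inclusion of stabilizers implies the same orbit and equality -/
theorem COMM_red (L : Lat G S T) (hS : Red G S) : ∀ (n : ℕ) (v x : V), S.dist v x = n →
    StabLe G v x → (∃ g : G, g • v = x) ∧ StabLe G x v := by
  intro n
  induction n using Nat.strong_induction_on with
  | _ n ih =>
    intro v x hn h
    by_cases hvx : v = x
    · subst hvx
      exact ⟨⟨1, one_smul G v⟩, fun k hk => hk⟩
    · obtain ⟨m, hm1, hm2⟩ := st_next L.hS.tree hvx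
      have hd : S.dist v m = 1 := SimpleGraph.dist_eq_one_iff_adj.2 hm1
      have hvm : StabLe G v m := by
        intro k hk
        have hkx := h k hk
        have e1 : S.dist v (k • m) = S.dist v m := by
          conv_lhs => rw [← hk]
          exact ta_dist L.hS k v m
        have e2 : S.dist (k • m) x = S.dist m x := by
          conv_lhs => rw [← hkx]
          exact ta_dist L.hS k m x
        have e3 : Bt S v (k • m) x := by
          unfold Bt at hm2 ⊢
          rw [e1, e2]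
          exact hm2
        exact st_pt_uniq L.hS.tree e3 hm2 e1
      obtain ⟨g, hg⟩ := hS v m hm1 hvm
      have hmv : StabLe G m v := by
        intro k hk
        have c := cinv L v v g (fun j h1 _ => by
          have := hvm j h1
          rw [hg]
          exact ⟨this, this⟩) k (by rw [hg]; exact hk) (by rw [hg]; exact hk)
        exact c.1
      have hlt : S.dist m x < n := by
        unfold Bt at hm2
        omega
      obtain ⟨⟨g', hg'⟩, h'⟩ := ih _ hlt m x rfl (fun k hk => h k (hmv k hk))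
      exact ⟨⟨g' * g, by rw [mul_smul, hg, hg']⟩, fun k hk => hmv k (h' k hk)⟩

/-- (3.5) -/
theorem vset (L : Lat G S T) (L' : Lat G S' T') (hS : Red G S) (hS' : Red G S')
    (h1 : ∀ v : V, ∃ v' : V', StabLe G v v') (h2 : ∀ v' : V', ∃ v : V, StabLe G v' v) :
    ∃ φ : V ≃ V', ∀ (g : G) (v : V), φ (g • v) = g • φ v := by
  classical
  have e1 : ∀ v : V, ∃ v' : V', ∀ g : G, g • v = v ↔ g • v' = v' := by
    intro v
    obtain ⟨v', hv'⟩ := h1 v
    obtain ⟨x, hx⟩ := h2 v'
    have := COMM_red L hS _ v x rfl (fun k hk => hx k (hv' k hk))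
    exact ⟨v', fun g => ⟨hv' g, fun h => this.2 g (hx g h)⟩⟩
  have e2 : ∀ v' : V', ∃ v : V, ∀ g : G, g • v = v ↔ g • v' = v' := by
    intro v'
    obtain ⟨v, hv⟩ := h2 v'
    obtain ⟨x, hx⟩ := h1 v
    have := COMM_red L' hS' _ v' x rfl (fun k hk => hx k (hv k hk))
    exact ⟨v, fun g => ⟨fun h => this.2 g (hx g h), hv g⟩⟩
  choose c hc using e1
  let r : V → V := fun v => (Quotient.mk (MulAction.orbitRel G V) v).out
  have hr : ∀ v, ∃ g : G, g • r v = v := by
    intro v
    have : (MulAction.orbitRel G V) (r v) v := Quotient.mk_out (s := MulAction.orbitRel G V) v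
    rw [MulAction.orbitRel_apply] at this
    obtain ⟨g, hg⟩ := this
    refine ⟨g⁻¹, ?_⟩
    rw [← hg]
    simp
  have hrg : ∀ (g : G) (v : V), r (g • v) = r v := by
    intro g v
    have : Quotient.mk (MulAction.orbitRel G V) (g • v) = Quotient.mk (MulAction.orbitRel G V) v := by
      apply Quotient.sound
      change (MulAction.orbitRel G V) (g • v) v
      rw [MulAction.orbitRel_apply]
      exact ⟨g, rfl⟩
    simp only [r, this]
  choose γ hγ using hr
  let φ : V → V' := fun v => γ v • c (r v)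
  have hφ : ∀ (g : G) (v : V), φ (g • v) = g • φ v := by
    intro g v
    have h3 : (γ v)⁻¹ • g⁻¹ • γ (g • v) • r v = r v := by
      have := hγ (g • v)
      rw [hrg] at this
      rw [this, inv_smul_smul, inv_smul_eq_iff, hγ]
    have h4 : ((γ v)⁻¹ * (g⁻¹ * γ (g • v))) • c (r v) = c (r v) := by
      rw [← hc]
      rw [mul_smul, mul_smul]
      exact h3
    change γ (g • v) • c (r (g • v)) = g • γ v • c (r v)
    rw [hrg]
    rw [mul_smul, mul_smul, inv_smul_eq_iff, inv_smul_eq_iff] at h4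
    exact h4
  have hst : ∀ (v : V) (g : G), g • v = v ↔ g • φ v = φ v := by
    intro v g
    have e : φ v = γ v • c (r v) := rfl
    have h3 := hc (r v) ((γ v)⁻¹ * (g * γ v))
    rw [mul_smul, mul_smul, mul_smul, mul_smul, inv_smul_eq_iff, inv_smul_eq_iff, hγ] at h3
    rw [e]
    exact h3
  refine ⟨Equiv.ofBijective φ ⟨?_, ?_⟩, hφ⟩
  · intro x y hxy
    have h3 : StabLe G x y := by
      intro k hk
      rw [hst] at hk ⊢
      rw [← hxy]
      exact hk
    obtain ⟨⟨g, hg⟩, -⟩ := COMM_red L hS _ x y rfl h3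
    have h4 : g • φ x = φ x := by
      rw [← hφ, hg, hxy]
    rw [← hst] at h4
    rw [← h4, hg]
  · intro v'
    obtain ⟨v, hv⟩ := e2 v'
    have h3 : StabLe G (φ v) v' := by
      intro k hk
      rw [← hst] at hk
      exact (hv k).1 hk
    obtain ⟨⟨g, hg⟩, -⟩ := COMM_red L' hS' _ (φ v) v' rfl h3
    exact ⟨g • v, by rw [hφ, hg]⟩

end

end LatIso
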