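import Pool.Agent.Lib.MP_32d917_al.DG1

/-!
# (5.2) The fundamental group of the data is the covering group
-/

set_option autoImplicit false

namespace LatIso

section DG2

variable {P A B : Type} {X : Dat P A B} {G V W : Type} [Group G] [MulAction G V] [MulAction G W]
  {S : SimpleGraph V} {T : SimpleGraph W}

/-- `y'` is the end of the lift of the dart `d` at `y` -/
def dgLift (L : LP X S T) (y : V × W) (d : A ⊕ B) (y' : V × W) : Prop :=
  match d with
  | Sum.inl a => S.Adj y.1 y'.1 ∧ y'.2 = y.2 ∧ L.al y.1 y'.1 y.2 = a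
  | Sum.inr b => y'.1 = y.1 ∧ T.Adj y.2 y'.2 ∧ L.be y.1 y.2 y'.2 = b

/-- origin of a dart -/
def dgO (X : Dat P A B) : A ⊕ B → P := Sum.elim X.oA X.oB

/-- reversal of a dart -/
def dgI (X : Dat P A B) : A ⊕ B → A ⊕ B := Sum.map X.iA X.iB

/-- label of a point -/
def dgP (L : LP X S T) (y : V × W) : P := L.p y.1 y.2

theorem dg_ex (L : LP X S T) (y : V × W) (d : A ⊕ B) (h : dgO X d = dgP L y) :
    ∃ y', dgLift L y d y' := by
  rcases d with a | b
  · obtain ⟨v', h1, h2⟩ := L.sur_al y.1 y.2 a h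
    exact ⟨(v', y.2), h1, rfl, h2⟩
  · obtain ⟨w', h1, h2⟩ := L.sur_be y.1 y.2 b h
    exact ⟨(y.1, w'), rfl, h1, h2⟩

theorem dg_uniq (L : LP X S T) {y : V × W} {d : A ⊕ B} {y' y'' : V × W} (h : dgLift L y d y')
    (h' : dgLift L y d y'') : y' = y'' := by
  rcases d with a | b
  · obtain ⟨h1, h2, h3⟩ := h
    obtain ⟨k1, k2, k3⟩ := h'
    exact Prod.ext (L.inj_al _ _ _ _ h1 k1 (h3.trans k3.symm)) (h2.trans k2.symm)
  · obtain ⟨h1, h2, h3⟩ := h
    obtain ⟨k1, k2, k3⟩ := h'
    exact Prod.ext (h1.trans k1.symm) (L.inj_be _ _ _ _ h2 k2 (h3.trans k3.symm))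

theorem dg_inv (L : LP X S T) {y : V × W} {d : A ⊕ B} {y' : V × W} (h : dgLift L y d y') :
    dgLift L y' (dgI X d) y := by
  rcases d with a | b
  · obtain ⟨h1, h2, h3⟩ := h
    refine ⟨h1.symm, h2.symm, ?_⟩
    show L.al y'.1 y.1 y'.2 = X.iA a
    rw [h2, L.ial _ _ _ h1, h3]
  · obtain ⟨h1, h2, h3⟩ := h
    refine ⟨h1.symm, h2.symm, ?_⟩
    show L.be y'.1 y'.2 y.2 = X.iB b
    rw [h1, L.ibe _ _ _ h2, h3]

theorem dg_src (L : LP X S T) {y : V × W} {d : A ⊕ B} {y' : V × W} (h : dgLift L y d y') :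
    dgP L y = dgO X d := by
  rcases d with a | b
  · obtain ⟨h1, h2, h3⟩ := h
    show L.p y.1 y.2 = X.oA a
    rw [← h3, L.oal _ _ _ h1]
  · obtain ⟨h1, h2, h3⟩ := h
    show L.p y.1 y.2 = X.oB b
    rw [← h3, L.obe _ _ _ h2]

theorem dg_tgt (L : LP X S T) {y : V × W} {d : A ⊕ B} {y' : V × W} (h : dgLift L y d y') :
    dgP L y' = dgO X (dgI X d) := dg_src L (dg_inv L h)

theorem dg_smul {L : LP X S T} (hL : Cov G L) (g : G) {y : V × W} {d : A ⊕ B} {y' : V × W}
    (h : dgLift L y d y') : dgLift L (g • y) d (g • y') := by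
  rcases d with a | b
  · obtain ⟨h1, h2, h3⟩ := h
    refine ⟨hL.adjS g _ _ h1, ?_, ?_⟩
    · show g • y'.2 = g • y.2
      rw [h2]
    · show L.al (g • y.1) (g • y'.1) (g • y.2) = a
      rw [hL.gal _ _ _ _ h1, h3]
  · obtain ⟨h1, h2, h3⟩ := h
    refine ⟨?_, hL.adjT g _ _ h2, ?_⟩
    · show g • y'.1 = g • y.1
      rw [h1]
    · show L.be (g • y.1) (g • y.2) (g • y'.2) = b
      rw [hL.gbe _ _ _ _ h2, h3]

theorem dg_smulP {L : LP X S T} (hL : Cov G L) (g : G) (y : V × W) :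
    dgP L (g • y) = dgP L y := hL.gp g y.1 y.2

theorem dg_free {L : LP X S T} (hL : Cov G L) {g k : G} {y : V × W} (h : g • y = k • y) :
    g = k := by
  have h1 : (k⁻¹ * g) • y = y := by rw [mul_smul, h, inv_smul_smul]
  have h2 := hL.free (k⁻¹ * g) y.1 y.2 (congrArg Prod.fst h1) (congrArg Prod.snd h1)
  rw [inv_mul_eq_one] at h2
  exact h2.symm

theorem dg_trans {L : LP X S T} (hL : Cov G L) {y y' : V × W} (h : dgP L y = dgP L y') :
    ∃ g : G, g • y = y' := by
  obtain ⟨g, h1, h2⟩ := hL.trans y.1 y.2 y'.1 y'.2 h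
  exact ⟨g, Prod.ext h1 h2⟩

/-- induction along darts -/
theorem dg_ind (hS : S.Connected) (hT : T.Connected) (L : LP X S T) (R : V × W → Prop)
    (x0 : V × W) (h0 : R x0) (h1 : ∀ y d y', dgLift L y d y' → R y → R y') (y : V × W) : R y := by
  have hA : ∀ w, R (x0.1, w) := by
    intro w
    have := (SimpleGraph.reachable_iff_reflTransGen x0.2 w).mp (hT.preconnected x0.2 w)
    induction this with
    | refl => exact h0
    | @tail b c hab hbc ih =>
      exact h1 (x0.1, b) (Sum.inr (L.be x0.1 b c)) (x0.1, c) ⟨rfl, hbc, rfl⟩ ih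
  have hB : ∀ v, R (v, y.2) := by
    intro v
    have := (SimpleGraph.reachable_iff_reflTransGen x0.1 v).mp (hS.preconnected x0.1 v)
    induction this with
    | refl => exact hA _
    | @tail b c hab hbc ih =>
      exact h1 (b, y.2) (Sum.inl (L.al b c y.2)) (c, y.2) ⟨hbc, rfl, rfl⟩ ih
  exact hB y.1

/-- the generator of the fundamental group given by a dart -/
def dgG (X : Dat P A B) (p0 : P) (δ : P → A ⊕ B) (d : A ⊕ B) : Gam X p0 δ := PresentedGroup.of d

theorem dg_rel {p0 : P} {δ : P → A ⊕ B} {r : FreeGroup (A ⊕ B)} (h : Rel X p0 δ r) :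
    PresentedGroup.mk {r | Rel X p0 δ r} r = 1 := by
  rw [PresentedGroup.mk_eq_one_iff]
  exact Subgroup.subset_normalClosure h

theorem dg_gi (p0 : P) (δ : P → A ⊕ B) (d : A ⊕ B) :
    dgG X p0 δ d * dgG X p0 δ (dgI X d) = 1 := by
  rcases d with a | b
  · exact dg_rel (Rel.invA a)
  · exact dg_rel (Rel.invB b)

theorem dg_gsq (p0 : P) (δ : P → A ⊕ B) (a : A) (b : B) (h : X.oA a = X.oB b) :
    dgG X p0 δ (Sum.inl a) * dgG X p0 δ (Sum.inr (X.tl a b)) =
      dgG X p0 δ (Sum.inr b) * dgG X p0 δ (Sum.inl (X.tr a b)) := by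
  have h1 : dgG X p0 δ (Sum.inl a) * dgG X p0 δ (Sum.inr (X.tl a b)) *
      (dgG X p0 δ (Sum.inl (X.tr a b)))⁻¹ * (dgG X p0 δ (Sum.inr b))⁻¹ = 1 :=
    dg_rel (Rel.sq a b h)
  rw [mul_inv_eq_one, mul_inv_eq_iff_eq_mul] at h1
  exact h1

theorem dg_gspan (p0 : P) (δ : P → A ⊕ B) (q : P) (h : q ≠ p0) : dgG X p0 δ (δ q) = 1 :=
  dg_rel (Rel.span q h)

/-- a section compatible with the spanning tree -/
theorem dg_section {L : LP X S T} {p0 : P} {δ : P → A ⊕ B} {r : P → ℕ} (hs : Span X p0 δ r)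
    (x0 : V × W) (h0 : dgP L x0 = p0) :
    ∃ z : P → V × W, z p0 = x0 ∧ (∀ q, dgP L (z q) = q) ∧
      ∀ q, q ≠ p0 → dgLift L (z (dgO X (δ q))) (δ q) (z q) := by
  classical
  have hend : ∀ q, q ≠ p0 → dgO X (dgI X (δ q)) = q ∧ r (dgO X (δ q)) < r q := by
    intro q hq
    rcases hd : δ q with a | b
    · exact hs.endA q a hq hd
    · exact hs.endB q b hq hd
  have hst : ∀ q, ∀ ih : (∀ q', r q' < r q → {y : V × W // dgP L y = q'}), ∀ h : q ≠ p0,
      ∃ y', dgLift L (ih (dgO X (δ q)) (hend q h).2).1 (δ q) y' := by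
    intro q ih h
    exact dg_ex L _ _ (ih (dgO X (δ q)) (hend q h).2).2.symm
  let F : ∀ q, (∀ q', r q' < r q → {y : V × W // dgP L y = q'}) → {y : V × W // dgP L y = q} :=
    fun q ih => if h : q = p0 then ⟨x0, by rw [h0, h]⟩ else
      ⟨Classical.choose (hst q ih h), by
        rw [dg_tgt L (Classical.choose_spec (hst q ih h))]
        exact (hend q h).1⟩
  let z : ∀ q, {y : V × W // dgP L y = q} := (measure r).wf.fix F
  have hz : ∀ q, z q = F q (fun q' _ => z q') := fun q => (measure r).wf.fix_eq F q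
  refine ⟨fun q => (z q).1, ?_, fun q => (z q).2, ?_⟩
  · show (z p0).1 = x0
    rw [hz p0]
    simp [F]
  · intro q hq
    show dgLift L (z (dgO X (δ q))).1 (δ q) (z q).1
    have h1 : (z q).1 = Classical.choose (hst q (fun q' _ => z q') hq) := by
      rw [hz q]
      simp only [F]
      rw [dif_neg hq]
    rw [h1]
    exact Classical.choose_spec (hst q (fun q' _ => z q') hq)

/-- (5.2) -/
theorem cov_gam [Finite P] (hS : S.IsTree) (hT : T.IsTree) {L : LP X S T} (hL : Cov G L) {p0 : P}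
    {δ : P → A ⊕ B} {r : P → ℕ} (hs : Span X p0 δ r) : Nonempty (G ≃* Gam X p0 δ) := by
  classical
  obtain ⟨v0, w0, hp0⟩ := hL.onto p0
  obtain ⟨F0, hF0, hFa, hFb⟩ := dg_pot (X := X) hS hT L (fun a => dgG X p0 δ (Sum.inl a))
    (fun b => dgG X p0 δ (Sum.inr b)) (fun a => dg_gi p0 δ (Sum.inl a))
    (fun b => dg_gi p0 δ (Sum.inr b)) (fun a b h => dg_gsq p0 δ a b h) v0 w0
  let F : V × W → Gam X p0 δ := fun y => F0 y.1 y.2
  let x0 : V × W := (v0, w0)
  have hx0 : dgP L x0 = p0 := hp0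
  have hF : ∀ y d y', dgLift L y d y' → F y' = F y * dgG X p0 δ d := by
    intro y d y' h
    rcases d with a | b
    · obtain ⟨h1, h2, h3⟩ := h
      show F0 y'.1 y'.2 = F0 y.1 y.2 * dgG X p0 δ (Sum.inl a)
      rw [h2, hFa _ _ _ h1, h3]
    · obtain ⟨h1, h2, h3⟩ := h
      show F0 y'.1 y'.2 = F0 y.1 y.2 * dgG X p0 δ (Sum.inr b)
      rw [h1, hFb _ _ _ h2, h3]
  have hF1 : F x0 = 1 := hF0
  -- equivariance
  have heq : ∀ (g : G) (y : V × W), F (g • y) = F (g • x0) * F y := by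
    intro g
    refine dg_ind hS.1 hT.1 L (fun y => F (g • y) = F (g • x0) * F y) x0 ?_ ?_
    · rw [hF1, mul_one]
    · intro y d y' h ih
      rw [hF _ _ _ (dg_smul hL g h), ih, hF _ _ _ h, mul_assoc]
  let Psi : G →* Gam X p0 δ :=
    { toFun := fun g => F (g • x0)
      map_one' := by rw [one_smul, hF1]
      map_mul' := fun g h => by rw [mul_smul, heq] }
  obtain ⟨z, hz0, hzp, hzs⟩ := dg_section (L := L) hs x0 hx0
  -- the group element given by a dart
  have hph : ∀ d : A ⊕ B, ∃ g : G, dgLift L (z (dgO X d)) d (g • z (dgO X (dgI X d))) := by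
    intro d
    obtain ⟨y', hy'⟩ := dg_ex L (z (dgO X d)) d (hzp _).symm
    obtain ⟨g, hg⟩ := dg_trans hL (y := z (dgO X (dgI X d))) (y' := y')
      (by rw [hzp, dg_tgt L hy'])
    exact ⟨g, by rw [hg]; exact hy'⟩
  choose ph hph using hph
  have hinv : ∀ d : A ⊕ B, dgO X (dgI X (dgI X d)) = dgO X d := by
    intro d
    have h1 := dg_inv L (hph d)
    have h2 := dg_inv L h1
    rw [← dg_src L h2, dg_src L (hph d)]
  have hrel : ∀ w ∈ {r | Rel X p0 δ r}, FreeGroup.lift ph w = 1 := by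
    intro w hw
    have hcomp : ∀ d, ph d * ph (dgI X d) = 1 := by
      intro d
      have h1 := dg_inv L (hph d)
      have h2 := dg_smul hL (ph d) (hph (dgI X d))
      have h3 := dg_uniq L h1 h2
      rw [hinv d] at h3
      rw [← mul_smul] at h3
      refine dg_free hL (y := z (dgO X d)) ?_
      rw [one_smul]
      exact h3.symm
    induction hw with
    | invA a =>
      rw [map_mul, FreeGroup.lift_apply_of, FreeGroup.lift_apply_of]
      exact hcomp (Sum.inl a)
    | invB b =>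
      rw [map_mul, FreeGroup.lift_apply_of, FreeGroup.lift_apply_of]
      exact hcomp (Sum.inr b)
    | sq a b h =>
      rw [map_mul, map_mul, map_mul, map_inv, map_inv, FreeGroup.lift_apply_of,
        FreeGroup.lift_apply_of, FreeGroup.lift_apply_of, FreeGroup.lift_apply_of, mul_inv_eq_one,
        mul_inv_eq_iff_eq_mul]
      -- base point
      have ha := hph (Sum.inl a)
      have hb := hph (Sum.inr b)
      have hbase : z (dgO X (Sum.inr b)) = z (dgO X (Sum.inl a)) := by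
        show z (X.oB b) = z (X.oA a)
        rw [h]
      rw [hbase] at hb
      set y := z (dgO X (Sum.inl a)) with hy
      set ya := ph (Sum.inl a) • z (dgO X (dgI X (Sum.inl a))) with hya
      set yb := ph (Sum.inr b) • z (dgO X (dgI X (Sum.inr b))) with hyb
      obtain ⟨a1, a2, a3⟩ := ha
      obtain ⟨b1, b2, b3⟩ := hb
      -- the opposite corner
      have htl : dgLift L ya (Sum.inr (X.tl a b)) (ya.1, yb.2) := by
        refine ⟨rfl, ?_, ?_⟩
        · show T.Adj ya.2 yb.2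
          rw [a2]; exact b2
        · show L.be ya.1 ya.2 yb.2 = X.tl a b
          rw [a2, ← L.tl _ _ _ _ a1 b2, a3, b3]
      have htr : dgLift L yb (Sum.inl (X.tr a b)) (ya.1, yb.2) := by
        refine ⟨?_, rfl, ?_⟩
        · show S.Adj yb.1 ya.1
          rw [b1]; exact a1
        · show L.al yb.1 ya.1 yb.2 = X.tr a b
          rw [b1, ← L.tr _ _ _ _ a1 b2, a3, b3]
      have e1 := dg_smul hL (ph (Sum.inl a)) (hph (Sum.inr (X.tl a b)))
      have e2 := dg_smul hL (ph (Sum.inr b)) (hph (Sum.inl (X.tr a b)))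
      have f1 : z (dgO X (Sum.inr (X.tl a b))) = z (dgO X (dgI X (Sum.inl a))) := by
        congr 1
        rw [← dg_src L htl, hya, dg_smulP hL, hzp]
      have f2 : z (dgO X (Sum.inl (X.tr a b))) = z (dgO X (dgI X (Sum.inr b))) := by
        congr 1
        rw [← dg_src L htr, hyb, dg_smulP hL, hzp]
      rw [f1, ← hya] at e1
      rw [f2, ← hyb] at e2
      have g1 := dg_uniq L htl e1
      have g2 := dg_uniq L htr e2
      have f3 : dgO X (dgI X (Sum.inl (X.tr a b))) = dgO X (dgI X (Sum.inr (X.tl a b))) := by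
        rw [← dg_tgt L htl, ← dg_tgt L htr]
      rw [f3] at g2
      refine dg_free hL (y := z (dgO X (dgI X (Sum.inr (X.tl a b))))) ?_
      rw [mul_smul, mul_smul, ← g1, ← g2]
    | span q h =>
      rw [FreeGroup.lift_apply_of]
      have h1 := hzs q h
      have h2 := dg_uniq L h1 (hph (δ q))
      have h3 : dgO X (dgI X (δ q)) = q := by rw [← dg_tgt L h1, hzp]
      rw [h3] at h2
      refine dg_free hL (y := z q) ?_
      rw [one_smul, ← h2]
  let Phi : Gam X p0 δ →* G := PresentedGroup.toGroup hrel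
  have hPhi : ∀ d, Phi (dgG X p0 δ d) = ph d := fun d => PresentedGroup.toGroup.of hrel
  -- the two maps are inverse to each other
  have key : ∀ y, Phi (F y) • z (dgP L y) = y := by
    refine dg_ind hS.1 hT.1 L (fun y => Phi (F y) • z (dgP L y) = y) x0 ?_ ?_
    · rw [hF1, map_one, one_smul, hx0, hz0]
    · intro y d y' h ih
      rw [hF _ _ _ h, map_mul, hPhi, mul_smul, dg_tgt L h]
      have h1 := dg_smul hL (Phi (F y)) (hph d)
      rw [← dg_src L h, ih] at h1
      exact dg_uniq L h1 h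
  have hzF : ∀ q, F (z q) = 1 := by
    intro q
    induction hr : r q using Nat.strong_induction_on generalizing q with
    | _ n ih =>
      by_cases h : q = p0
      · rw [h, hz0, hF1]
      · have h1 := hzs q h
        have h2 : r (dgO X (δ q)) < r q := by
          rcases hd : δ q with a | b
          · exact (hs.endA q a h hd).2
          · exact (hs.endB q b h hd).2
        rw [hF _ _ _ h1, ih _ (hr ▸ h2) _ rfl, one_mul, dg_gspan p0 δ q h]
  have c1 : ∀ g, Phi (Psi g) = g := by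
    intro g
    have h1 := key (g • x0)
    rw [dg_smulP hL, hx0, hz0] at h1
    exact dg_free hL h1
  have c2 : ∀ d, Psi (Phi (dgG X p0 δ d)) = dgG X p0 δ d := by
    intro d
    rw [hPhi]
    have h1 := hF _ _ _ (hph d)
    rw [hzF, one_mul, heq, hzF, mul_one] at h1
    exact h1
  refine ⟨MonoidHom.toMulEquiv Psi Phi ?_ ?_⟩
  · ext g
    exact c1 g
  · apply PresentedGroup.ext
    intro d
    exact c2 d

end DG2

end LatIso
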