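import Pool.Agent.Lib.MP_32d917_al.QISO

/-!
# Data of reduced lattices are good (module GOODA)
-/

set_option autoImplicit false

namespace LatIso

section GOODA

variable {G V W : Type} [Group G] [MulAction G V] [MulAction G W]
  {S : SimpleGraph V} {T : SimpleGraph W} {P A B : Type} {X : Dat P A B}

theorem gooda_trans {a a' a'' : A} (h : VTr X a a') (h' : VTr X a' a'') : VTr X a a'' := by
  induction h' with
  | refl => exact h
  | step c b _ h5 ih => exact VTr.step _ _ ih h5

/-- the vertical translates of a dart of an edge -/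
theorem gooda_vtr (hT : T.Connected) (L : LP X S T) {v x : V} (h : S.Adj v x) (w w' : W) :
    VTr X (L.al v x w) (L.al v x w') := by
  obtain ⟨q⟩ := hT.preconnected w w'
  induction q with
  | nil => exact VTr.refl
  | @cons u u' u'' huu' q ih =>
    have h1 := L.tr v x u u' h huu'
    have h2 : X.oA (L.al v x u) = X.oB (L.be v u u') := by
      rw [L.oal v x u h, L.obe v u u' huu']
    have h3 := VTr.step (X := X) (a := L.al v x u) _ _ VTr.refl h2
    rw [h1] at h3
    exact gooda_trans h3 ih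

theorem gooda_next {U : Type} {R : SimpleGraph U} (hR : R.Connected) {v0 v : U} (h : v0 ≠ v) :
    ∃ v', R.Adj v' v ∧ R.dist v0 v' < R.dist v0 v := by
  obtain ⟨p, hp⟩ := hR.exists_walk_length_eq_dist v v0
  cases p with
  | nil => exact absurd rfl h
  | @cons _ v' _ h1 p' =>
    refine ⟨v', h1.symm, ?_⟩
    rw [SimpleGraph.Walk.length_cons] at hp
    have h2 := R.dist_le p'
    rw [R.dist_comm (u := v0) (v := v'), R.dist_comm (u := v0) (v := v)]
    omega

/-- the spanning tree -/
theorem gooda_span (hS : S.Connected) (hT : T.Connected) (L : LP X S T)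
    (hon : ∀ q : P, ∃ v w, L.p v w = q) (hne : Nonempty (A ⊕ B)) :
    ∃ p0 δ r, Span X p0 δ r := by
  classical
  obtain ⟨v0⟩ := hS.nonempty
  obtain ⟨w0⟩ := hT.nonempty
  obtain ⟨p0, hp0⟩ : ∃ p0, p0 = L.p v0 w0 := ⟨_, rfl⟩
  have hex : ∀ q : P, ∃ n : ℕ, ∃ v w, L.p v w = q ∧ S.dist v0 v + T.dist w0 w = n := by
    intro q
    obtain ⟨v, w, h⟩ := hon q
    exact ⟨_, v, w, h, rfl⟩
  obtain ⟨r, hr1, hr2⟩ : ∃ r : P → ℕ,
      (∀ q, ∃ v w, L.p v w = q ∧ S.dist v0 v + T.dist w0 w = r q) ∧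
      ∀ v w, r (L.p v w) ≤ S.dist v0 v + T.dist w0 w :=
    ⟨fun q => Nat.find (hex q), fun q => Nat.find_spec (hex q),
      fun v w => Nat.find_min' (hex _) ⟨v, w, rfl, rfl⟩⟩
  have step : ∀ q : P, q ≠ p0 → ∃ d : A ⊕ B,
      (∀ a, d = Sum.inl a → X.oA (X.iA a) = q ∧ r (X.oA a) < r q) ∧
      ∀ b, d = Sum.inr b → X.oB (X.iB b) = q ∧ r (X.oB b) < r q := by
    intro q hq
    obtain ⟨v, w, h1, h2⟩ := hr1 q
    by_cases hv : v0 = v
    · by_cases hw : w0 = w
      · exact absurd (by rw [← h1, hp0, hv, hw]) hq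
      · obtain ⟨w', h3, h4⟩ := gooda_next hT hw
        refine ⟨Sum.inr (L.be v w' w), ?_, ?_⟩
        · intro a ha
          exact absurd ha (by simp)
        · intro b hb
          obtain rfl : L.be v w' w = b := Sum.inr.inj hb
          refine ⟨?_, ?_⟩
          · rw [← L.ibe v w' w h3, L.obe v w w' h3.symm, h1]
          · rw [L.obe v w' w h3]
            have h5 := hr2 v w'
            omega
    · obtain ⟨v', h3, h4⟩ := gooda_next hS hv
      refine ⟨Sum.inl (L.al v' v w), ?_, ?_⟩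
      · intro a ha
        obtain rfl : L.al v' v w = a := Sum.inl.inj ha
        refine ⟨?_, ?_⟩
        · rw [← L.ial v' v w h3, L.oal v v' w h3.symm, h1]
        · rw [L.oal v' v w h3]
          have h5 := hr2 v' w
          omega
      · intro b hb
        exact absurd hb (by simp)
  obtain ⟨d0⟩ := hne
  refine ⟨p0, fun q => if h : q ≠ p0 then (step q h).choose else d0, r, ?_, ?_⟩
  · intro q a hq hd
    simp only [dif_pos hq] at hd
    exact (step q hq).choose_spec.1 a hd
  · intro q a hq hd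
    simp only [dif_pos hq] at hd
    exact (step q hq).choose_spec.2 a hd

/-- the horizontal half of goodness -/
theorem gooda_half (hS : TA G S) (hT : T.Connected)
    (two : ∀ v, ∃ x y, x ≠ y ∧ S.Adj v x ∧ S.Adj v y)
    (three : ∃ v x y z, x ≠ y ∧ y ≠ z ∧ x ≠ z ∧ S.Adj v x ∧ S.Adj v y ∧ S.Adj v z)
    (red : Red G S) (h : IsCov G S T X) : GoodH X := by
  classical
  obtain ⟨L, hL⟩ := h
  obtain ⟨w0⟩ := hT.nonempty
  have hdart : ∀ a : A, ∃ v x w, S.Adj v x ∧ L.al v x w = a := by
    intro a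
    obtain ⟨v, w, h1⟩ := hL.onto (X.oA a)
    obtain ⟨x, h2, h3⟩ := L.sur_al v w a h1.symm
    exact ⟨v, x, w, h2, h3⟩
  refine { two := ?_, three := ?_, orient := ?_, red := ?_ }
  · intro q
    obtain ⟨v, w, h1⟩ := hL.onto q
    obtain ⟨x, y, h2, h3, h4⟩ := two v
    refine ⟨L.al v x w, L.al v y w, fun e => h2 (L.inj_al v x y w h3 h4 e), ?_, ?_⟩
    · rw [L.oal v x w h3, h1]
    · rw [L.oal v y w h4, h1]
  · obtain ⟨v, x, y, z, h1, h2, h3, h4, h5, h6⟩ := three
    refine ⟨L.p v w0, L.al v x w0, L.al v y w0, L.al v z w0,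
      fun e => h1 (L.inj_al _ _ _ _ h4 h5 e), fun e => h2 (L.inj_al _ _ _ _ h5 h6 e),
      fun e => h3 (L.inj_al _ _ _ _ h4 h6 e), L.oal _ _ _ h4, L.oal _ _ _ h5, L.oal _ _ _ h6⟩
  · -- the orientation
    let Q := Quotient (MulAction.orbitRel G (V × V))
    let cl : V → V → Q := fun v x => Quotient.mk _ (v, x)
    let _ : LinearOrder Q := linearOrderOfSTO (WellOrderingRel : Q → Q → Prop)
    have hcl : ∀ v x v' x', cl v x = cl v' x' ↔ ∃ g : G, g • v = v' ∧ g • x = x' := by
      intro v x v' x'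
      constructor
      · intro e
        have e1 := Quotient.exact e
        obtain ⟨g, hg⟩ := (MulAction.orbitRel_apply).1 e1
        refine ⟨g⁻¹, ?_, ?_⟩
        · have h1 : g • v' = v := congrArg Prod.fst hg
          rw [← h1, inv_smul_smul]
        · have h1 : g • x' = x := congrArg Prod.snd hg
          rw [← h1, inv_smul_smul]
      · rintro ⟨g, h1, h2⟩
        apply Quotient.sound
        refine (MulAction.orbitRel_apply).2 ⟨g⁻¹, ?_⟩
        change (g⁻¹ • v', g⁻¹ • x') = (v, x)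
        rw [← h1, ← h2, inv_smul_smul, inv_smul_smul]
    have hsame : ∀ v x w v' x' w', S.Adj v x → S.Adj v' x' → L.al v x w = L.al v' x' w' →
        cl v x = cl v' x' := by
      intro v x w v' x' w' h1 h2 h3
      rw [hcl]
      have h4 : L.p v w = L.p v' w' := by
        rw [← L.oal v x w h1, ← L.oal v' x' w' h2, h3]
      obtain ⟨g, h5, h6⟩ := hL.trans _ _ _ _ h4
      refine ⟨g, h5, ?_⟩
      have h7 := hL.gal g v x w h1
      rw [h5, h6, h3] at h7
      have h8 : S.Adj v' (g • x) := by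
        rw [← h5]
        exact hS.adj g v x h1
      exact L.inj_al v' _ _ w' h8 h2 h7
    choose dv dx dw hd1 hd2 using hdart
    refine ⟨fun a => decide (cl (dv a) (dx a) < cl (dx a) (dv a)), ?_, ?_⟩
    · intro a
      have e1 : L.al (dx a) (dv a) (dw a) = X.iA a := by
        rw [L.ial _ _ _ (hd1 a), hd2 a]
      have e2 : cl (dv (X.iA a)) (dx (X.iA a)) = cl (dx a) (dv a) :=
        hsame _ _ (dw (X.iA a)) _ _ (dw a) (hd1 _) (hd1 a).symm (by rw [hd2, e1])
      have e3 : cl (dx (X.iA a)) (dv (X.iA a)) = cl (dv a) (dx a) := by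
        rw [hcl] at e2 ⊢
        obtain ⟨g, h1, h2⟩ := e2
        exact ⟨g, h2, h1⟩
      have e4 : cl (dv a) (dx a) ≠ cl (dx a) (dv a) := by
        intro e
        obtain ⟨g, h1, h2⟩ := (hcl _ _ _ _).1 e
        exact hS.noinv g _ _ (hd1 a) h1 h2
      change decide (cl (dv (X.iA a)) (dx (X.iA a)) < cl (dx (X.iA a)) (dv (X.iA a))) =
        !(decide (cl (dv a) (dx a) < cl (dx a) (dv a)))
      rw [e2, e3, ← decide_not]
      congr 1
      rw [not_lt, lt_iff_le_and_ne]
      simp only [eq_iff_iff, and_iff_left_iff_imp]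
      intro _
      exact e4.symm
    · intro a b hab
      have h1 : X.oB b = L.p (dv a) (dw a) := by
        rw [← hab, ← L.oal _ _ _ (hd1 a), hd2 a]
      obtain ⟨w', h2, h3⟩ := L.sur_be _ _ b h1
      have h4 : X.tr a b = L.al (dv a) (dx a) w' := by
        have := L.tr _ _ _ _ (hd1 a) h2
        rw [hd2 a, h3] at this
        exact this
      have e2 : cl (dv (X.tr a b)) (dx (X.tr a b)) = cl (dv a) (dx a) :=
        hsame _ _ (dw (X.tr a b)) _ _ w' (hd1 _) (hd1 a) (by rw [hd2, h4])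
      have e3 : cl (dx (X.tr a b)) (dv (X.tr a b)) = cl (dx a) (dv a) := by
        rw [hcl] at e2 ⊢
        obtain ⟨g, h1, h2⟩ := e2
        exact ⟨g, h2, h1⟩
      change decide (cl (dv (X.tr a b)) (dx (X.tr a b)) < cl (dx (X.tr a b)) (dv (X.tr a b))) =
        decide (cl (dv a) (dx a) < cl (dx a) (dv a))
      rw [e2, e3]
  · intro a
    obtain ⟨v, x, w, h1, h2⟩ := hdart a
    by_cases h3 : ∀ g : G, g • v = v → g • x = x
    · obtain ⟨g, h4⟩ := red v x h1 h3
      refine ⟨L.al v x (g⁻¹ • w), ?_, Or.inl ?_⟩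
      · rw [← h2]
        exact gooda_vtr hT L h1 _ _
      · rw [L.oal _ _ _ h1, ← h2, ← L.ial _ _ _ h1, L.oal _ _ _ h1.symm]
        have h5 := hL.gp g v (g⁻¹ • w)
        rw [smul_inv_smul, h4] at h5
        exact h5.symm
    · push Not at h3
      obtain ⟨g, h4, h5⟩ := h3
      refine ⟨L.al v x (g⁻¹ • w), ?_, Or.inr ⟨?_, ?_⟩⟩
      · rw [← h2]
        exact gooda_vtr hT L h1 _ _
      · intro e
        have h6 := hL.gal g v x (g⁻¹ • w) h1
        rw [smul_inv_smul, h4, e, ← h2] at h6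
        have h7 : S.Adj v (g • x) := by
          have := hS.adj g v x h1
          rwa [h4] at this
        exact h5 (L.inj_al v _ _ w h7 h1 h6)
      · rw [L.oal _ _ _ h1, ← h2, L.oal _ _ _ h1]
        have h6 := hL.gp g v (g⁻¹ • w)
        rw [smul_inv_smul, h4] at h6
        exact h6.symm

/-- (5.7) -/
theorem good_of_lat (L : Lat G S T) (hS : Red G S) (hT : Red G T) (h : IsCov G S T X) :
    Good X := by
  have cS : S.Connected := L.hS.tree.connected
  have cT : T.Connected := L.hT.tree.connected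
  refine { valid := cov_valid cS cT h, span := ?_, goodH := ?_, goodV := ?_ }
  · obtain ⟨M, hM⟩ := h
    obtain ⟨v⟩ := cS.nonempty
    obtain ⟨w⟩ := cT.nonempty
    obtain ⟨x, _, _, _, _⟩ := L.twoS v
    exact gooda_span cS cT M hM.onto ⟨Sum.inl (M.al v x w)⟩
  · exact gooda_half L.hS cT L.twoS L.threeS hS h
  · exact gooda_half L.hT cS L.twoT L.threeT hT (swap_cov h)

end GOODA

end LatIso
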