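import Pool.Agent.Lib.MP_32d917_al.QISO

/-!
# Good data give reduced lattices (module GOODB)
-/

set_option autoImplicit false

namespace LatIso

section GOODB

variable {G V W : Type} [Group G] [MulAction G V] [MulAction G W]
  {S : SimpleGraph V} {T : SimpleGraph W} {P A B : Type} {X : Dat P A B}

/-- vertical translates of the dart of an edge are darts of the same edge -/
theorem goodb_vtr (L : LP X S T) {v x : V} (h : S.Adj v x) (w : W) {a' : A}
    (h' : VTr X (L.al v x w) a') : ∃ w', a' = L.al v x w' := by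
  induction h' with
  | refl => exact ⟨w, rfl⟩
  | step c b _ h5 ih =>
    obtain ⟨w', rfl⟩ := ih
    rw [L.oal _ _ _ h] at h5
    obtain ⟨w'', h6, rfl⟩ := L.sur_be v w' b h5.symm
    exact ⟨w'', L.tr _ _ _ _ h h6⟩

/-- the sign of a dart only depends on the edge -/
theorem goodb_sign (hT : T.Connected) (L : LP X S T) (s : A → Bool)
    (hs : ∀ a b, X.oA a = X.oB b → s (X.tr a b) = s a) {v x : V} (h : S.Adj v x) (w w' : W) :
    s (L.al v x w) = s (L.al v x w') := by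
  obtain ⟨q⟩ := hT.preconnected w w'
  induction q with
  | nil => rfl
  | @cons u u' u'' huu' q ih =>
    rw [← ih, ← L.tr v x u u' h huu', hs]
    rw [L.oal v x u h, L.obe v u u' huu']

/-- the horizontal half -/
theorem goodb_half [Finite A] (hS : S.IsTree) (hT : T.Connected) (h : IsCov G S T X)
    (hX : GoodH X) :
    TA G S ∧ (∀ v, (S.neighborSet v).Finite) ∧ (∀ v, ∃ x y, x ≠ y ∧ S.Adj v x ∧ S.Adj v y) ∧
      (∃ v x y z, x ≠ y ∧ y ≠ z ∧ x ≠ z ∧ S.Adj v x ∧ S.Adj v y ∧ S.Adj v z) ∧ Red G S := by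
  obtain ⟨L, hL⟩ := h
  obtain ⟨w0⟩ := hT.nonempty
  refine ⟨⟨hS, hL.adjS, ?_⟩, ?_, ?_, ?_, ?_⟩
  · intro g x y h1 h2 h3
    obtain ⟨s, hs1, hs2⟩ := hX.orient
    have e1 := hL.gal g x y w0 h1
    rw [h2, h3, L.ial x y _ h1] at e1
    have e2 : s (L.al x y w0) = !(s (L.al x y (g • w0))) := by
      rw [← e1, hs1]
    rw [goodb_sign hT L s hs2 h1 w0 (g • w0)] at e2
    cases hb : s (L.al x y (g • w0)) <;> rw [hb] at e2 <;> simp at e2
  · intro v
    refine Set.Finite.of_injOn (f := fun x => L.al v x w0) (t := Set.univ) ?_ ?_ Set.finite_univ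
    · intro x _
      exact Set.mem_univ _
    · intro x hx y hy hxy
      exact L.inj_al v x y w0 hx hy hxy
  · intro v
    obtain ⟨a, a', h1, h2, h3⟩ := hX.two (L.p v w0)
    obtain ⟨x, h4, h5⟩ := L.sur_al v w0 a h2
    obtain ⟨y, h6, h7⟩ := L.sur_al v w0 a' h3
    refine ⟨x, y, ?_, h4, h6⟩
    rintro rfl
    exact h1 (h5.symm.trans h7)
  · obtain ⟨q, a, a', a'', h1, h2, h3, h4, h5, h6⟩ := hX.three
    obtain ⟨v, w, rfl⟩ := hL.onto q
    obtain ⟨x, hx, ex⟩ := L.sur_al v w a h4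
    obtain ⟨y, hy, ey⟩ := L.sur_al v w a' h5
    obtain ⟨z, hz, ez⟩ := L.sur_al v w a'' h6
    refine ⟨v, x, y, z, ?_, ?_, ?_, hx, hy, hz⟩
    · rintro rfl
      exact h1 (ex.symm.trans ey)
    · rintro rfl
      exact h2 (ey.symm.trans ez)
    · rintro rfl
      exact h3 (ex.symm.trans ez)
  · intro v x hvx hst
    obtain ⟨a', h1, h2⟩ := hX.red (L.al v x w0)
    obtain ⟨w', rfl⟩ := goodb_vtr L hvx w0 h1
    rcases h2 with h2 | ⟨h2, h3⟩
    · rw [L.oal _ _ _ hvx, ← L.ial _ _ _ hvx, L.oal _ _ _ hvx.symm] at h2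
      obtain ⟨g, h4, _⟩ := hL.trans _ _ _ _ h2
      exact ⟨g, h4⟩
    · exfalso
      rw [L.oal _ _ _ hvx, L.oal _ _ _ hvx] at h3
      obtain ⟨g, h4, h5⟩ := hL.trans _ _ _ _ h3
      have h6 := hst g h4
      have h7 := hL.gal g v x w' hvx
      rw [h4, h5, h6] at h7
      exact h2 h7.symm

/-- (5.7) -/
theorem lat_of_good [Finite P] [Finite A] [Finite B] (hS : S.IsTree) (hT : T.IsTree)
    (h : IsCov G S T X) (hX : Good X) : Lat G S T ∧ Red G S ∧ Red G T := by
  classical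
  obtain ⟨a1, a2, a3, a4, a5⟩ := goodb_half hS hT.connected h hX.goodH
  obtain ⟨b1, b2, b3, b4, b5⟩ := goodb_half hT hS.connected (swap_cov h) hX.goodV
  refine ⟨{ hS := a1, hT := b1, locS := a2, locT := b2, twoS := a3, twoT := b3, threeS := a4,
            threeT := b4, free := ?_, fin := ?_ }, a5, b5⟩
  · obtain ⟨L, hL⟩ := h
    exact hL.free
  · obtain ⟨L, hL⟩ := h
    have _ : Fintype P := Fintype.ofFinite P
    choose dv dw hd using hL.onto
    refine ⟨Finset.univ.image (fun q => (dv q, dw q)), ?_⟩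
    intro v w
    obtain ⟨g, h1, h2⟩ := hL.trans v w (dv (L.p v w)) (dw (L.p v w)) (hd (L.p v w)).symm
    refine ⟨g, ?_⟩
    rw [Finset.mem_image]
    exact ⟨L.p v w, Finset.mem_univ _, by rw [h1, h2]⟩

end GOODB

end LatIso
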