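import Pool.Agent.Lib.MP_32d917_al.Defs

/-!
# Presentations of fundamental groups given by codes
-/

set_option autoImplicit false

namespace LatIso

/-- comparison of a presentation on an initial segment of `ℕ` with a presentation on another set of
generators -/
theorem GPRES_iso {A' : Type} (N : ℕ) (e : A' ≃ Fin N) (R : Set (FreeGroup A'))
    (l : List (List (ℕ × Bool)))
    (h1 : ∀ r ∈ R, ∃ w ∈ l, FreeGroup.mk w = FreeGroup.map (fun x => (e x : ℕ)) r)
    (h2 : ∀ w ∈ l, w = [] ∨ ∃ r ∈ R, FreeGroup.mk w = FreeGroup.map (fun x => (e x : ℕ)) r) :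
    Nonempty (Pres.Grp (N, l) ≃* PresentedGroup R) := by
  classical
  let φ0 : A' → Pres.Grp (N, l) := fun x => PresentedGroup.of (e x : ℕ)
  let ψ0 : ℕ → PresentedGroup R := fun i => if h : i < N then PresentedGroup.of (e.symm ⟨i, h⟩) else 1
  have hφ : ∀ r ∈ R, FreeGroup.lift φ0 r = 1 := by
    intro r hr
    obtain ⟨w, hw, hw2⟩ := h1 r hr
    have e1 : FreeGroup.lift φ0 r =
        PresentedGroup.mk (Pres.rels (N, l)) (FreeGroup.map (fun x => (e x : ℕ)) r) := by
      have : FreeGroup.lift φ0 =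
        (PresentedGroup.mk (Pres.rels (N, l))).comp (FreeGroup.map (fun x => (e x : ℕ))) := by
        apply FreeGroup.ext_hom
        intro a
        simp [φ0, PresentedGroup.of]
      rw [this]
      rfl
    rw [e1, ← hw2]
    apply PresentedGroup.one_of_mem
    exact Or.inl ⟨w, hw, rfl⟩
  have hψe : ∀ x : A', ψ0 (e x : ℕ) = PresentedGroup.of x := by
    intro x
    simp [ψ0]
  have hψ : ∀ r ∈ Pres.rels (N, l), FreeGroup.lift ψ0 r = 1 := by
    intro r hr
    rcases hr with ⟨w, hw, rfl⟩ | ⟨i, hi, rfl⟩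
    · rcases h2 w hw with rfl | ⟨r, hr, hr2⟩
      · exact map_one _
      · rw [hr2]
        have : FreeGroup.lift ψ0 (FreeGroup.map (fun x => (e x : ℕ)) r) =
            PresentedGroup.mk R r := by
          have : (FreeGroup.lift ψ0).comp (FreeGroup.map (fun x => (e x : ℕ))) =
              PresentedGroup.mk R := by
            apply FreeGroup.ext_hom
            intro a
            simp [hψe, PresentedGroup.of]
          rw [← this]
          rfl
        rw [this]
        exact PresentedGroup.one_of_mem hr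
    · have hi' : ¬ i < N := not_lt.2 hi
      simp [ψ0, hi']
  refine ⟨MonoidHom.toMulEquiv (PresentedGroup.toGroup hψ) (PresentedGroup.toGroup hφ) ?_ ?_⟩
  · apply PresentedGroup.ext
    intro i
    simp only [MonoidHom.comp_apply, PresentedGroup.toGroup.of, MonoidHom.id_apply]
    by_cases hi : i < N
    · have : ψ0 i = PresentedGroup.of (e.symm ⟨i, hi⟩) := by simp [ψ0, hi]
      rw [this, PresentedGroup.toGroup.of]
      simp [φ0]
    · have : ψ0 i = 1 := by simp [ψ0, hi]
      rw [this, map_one]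
      symm
      apply PresentedGroup.one_of_mem
      exact Or.inr ⟨i, not_lt.1 hi, rfl⟩
  · apply PresentedGroup.ext
    intro x
    simp only [MonoidHom.comp_apply, PresentedGroup.toGroup.of, MonoidHom.id_apply, φ0]
    exact hψe x

/-- digits -/
def GPRES_d (n w t : ℕ) : ℕ := w / (n + 1) ^ t % (n + 1)

theorem GPRES_dp : Primrec fun x : ℕ × ℕ × ℕ => GPRES_d x.1 x.2.1 x.2.2 := by
  have hpow : Primrec₂ ((· ^ ·) : ℕ → ℕ → ℕ) := Primrec₂.unpaired'.1 Nat.Primrec.pow
  have h1 : Primrec fun x : ℕ × ℕ × ℕ => x.1 + 1 := Primrec.succ.comp Primrec.fst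
  exact Primrec.nat_mod.comp (Primrec.nat_div.comp (Primrec.fst.comp Primrec.snd)
    (hpow.comp h1 (Primrec.snd.comp Primrec.snd))) h1

theorem GPRES_dc {α : Type} [Primcodable α] {f g h : α → ℕ} (hf : Primrec f) (hg : Primrec g)
    (hh : Primrec h) : Primrec fun x => GPRES_d (f x) (g x) (h x) :=
  GPRES_dp.comp (hf.pair (hg.pair hh))

/-- the presentation -/
def GPRES_f (y : Code × ℕ × ℕ) : Pres :=
  let nP := y.1.1.1
  let nA := y.1.1.2.1
  let nB := y.1.1.2.2
  let t := y.1.2
  (nA + 1 + (nB + 1),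
    ((List.range (nA + 1)).map fun a => [(a, true), (GPRES_d nA t.2.2.1 a, true)]) ++
    (((List.range (nB + 1)).map fun b => [(nA + 1 + b, true),
        (nA + 1 + GPRES_d nB t.2.2.2.1 b, true)]) ++
    (((List.range ((nA + 1) * (nB + 1))).map fun j =>
        if GPRES_d nP t.1 (j / (nB + 1)) = GPRES_d nP t.2.1 (j % (nB + 1)) then
          [(j / (nB + 1), true), (nA + 1 + GPRES_d nB t.2.2.2.2.2 j, true),
            (GPRES_d nA t.2.2.2.2.1 j, false), (nA + 1 + j % (nB + 1), false)]
        else []) ++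
    ((List.range (nP + 1)).map fun q => if q = y.2.1 % (nP + 1) then [] else
        [(y.2.2 / (nA + 1 + (nB + 1)) ^ q % (nA + 1 + (nB + 1)), true)]))))

theorem GPRES_prim : Primrec GPRES_f := by
  have hpow : Primrec₂ ((· ^ ·) : ℕ → ℕ → ℕ) := Primrec₂.unpaired'.1 Nat.Primrec.pow
  have hnP : Primrec fun y : Code × ℕ × ℕ => y.1.1.1 :=
    Primrec.fst.comp (Primrec.fst.comp Primrec.fst)
  have hnA : Primrec fun y : Code × ℕ × ℕ => y.1.1.2.1 :=
    Primrec.fst.comp (Primrec.snd.comp (Primrec.fst.comp Primrec.fst))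
  have hnB : Primrec fun y : Code × ℕ × ℕ => y.1.1.2.2 :=
    Primrec.snd.comp (Primrec.snd.comp (Primrec.fst.comp Primrec.fst))
  have ht : Primrec fun y : Code × ℕ × ℕ => y.1.2 := Primrec.snd.comp Primrec.fst
  have ht1 : Primrec fun y : Code × ℕ × ℕ => y.1.2.1 := Primrec.fst.comp ht
  have ht2 : Primrec fun y : Code × ℕ × ℕ => y.1.2.2.1 := Primrec.fst.comp (Primrec.snd.comp ht)
  have ht3 : Primrec fun y : Code × ℕ × ℕ => y.1.2.2.2.1 :=
    Primrec.fst.comp (Primrec.snd.comp (Primrec.snd.comp ht))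
  have ht4 : Primrec fun y : Code × ℕ × ℕ => y.1.2.2.2.2.1 :=
    Primrec.fst.comp (Primrec.snd.comp (Primrec.snd.comp (Primrec.snd.comp ht)))
  have ht5 : Primrec fun y : Code × ℕ × ℕ => y.1.2.2.2.2.2.1 :=
    Primrec.fst.comp (Primrec.snd.comp (Primrec.snd.comp (Primrec.snd.comp
      (Primrec.snd.comp ht))))
  have ht6 : Primrec fun y : Code × ℕ × ℕ => y.1.2.2.2.2.2.2 :=
    Primrec.snd.comp (Primrec.snd.comp (Primrec.snd.comp (Primrec.snd.comp
      (Primrec.snd.comp ht))))
  have hp : Primrec fun y : Code × ℕ × ℕ => y.2.1 := Primrec.fst.comp Primrec.snd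
  have hd : Primrec fun y : Code × ℕ × ℕ => y.2.2 := Primrec.snd.comp Primrec.snd
  have hA1 := Primrec.succ.comp hnA
  have hB1 := Primrec.succ.comp hnB
  have hP1 := Primrec.succ.comp hnP
  have hN := Primrec.nat_add.comp hA1 hB1
  have hnil : ∀ {α : Type} [Primcodable α], Primrec fun _ : α => ([] : List (ℕ × Bool)) :=
    Primrec.const _
  have htr : ∀ {α : Type} [Primcodable α], Primrec fun _ : α => true := Primrec.const _
  have hfa : ∀ {α : Type} [Primcodable α], Primrec fun _ : α => false := Primrec.const _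
  unfold GPRES_f
  refine Primrec.pair hN (Primrec.list_append.comp ?_ (Primrec.list_append.comp ?_
    (Primrec.list_append.comp ?_ ?_)))
  · refine Primrec.list_map (Primrec.list_range.comp hA1) ?_
    refine Primrec.list_cons.comp (Primrec.pair Primrec.snd htr)
      (Primrec.list_cons.comp (Primrec.pair ?_ htr) hnil)
    exact GPRES_dc (hnA.comp Primrec.fst) (ht3.comp Primrec.fst) Primrec.snd
  · refine Primrec.list_map (Primrec.list_range.comp hB1) ?_
    refine Primrec.list_cons.comp (Primrec.pair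
      (Primrec.nat_add.comp (hA1.comp Primrec.fst) Primrec.snd) htr)
      (Primrec.list_cons.comp (Primrec.pair ?_ htr) hnil)
    exact Primrec.nat_add.comp (hA1.comp Primrec.fst)
      (GPRES_dc (hnB.comp Primrec.fst) (ht4.comp Primrec.fst) Primrec.snd)
  · refine Primrec.list_map (Primrec.list_range.comp (Primrec.nat_mul.comp hA1 hB1)) ?_
    have ha : Primrec fun z : (Code × ℕ × ℕ) × ℕ => z.2 / (z.1.1.1.2.2 + 1) :=
      Primrec.nat_div.comp Primrec.snd (hB1.comp Primrec.fst)
    have hb : Primrec fun z : (Code × ℕ × ℕ) × ℕ => z.2 % (z.1.1.1.2.2 + 1) :=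
      Primrec.nat_mod.comp Primrec.snd (hB1.comp Primrec.fst)
    refine Primrec.ite ?_ ?_ hnil
    · exact Primrec.eq.comp (GPRES_dc (hnP.comp Primrec.fst) (ht1.comp Primrec.fst) ha)
        (GPRES_dc (hnP.comp Primrec.fst) (ht2.comp Primrec.fst) hb)
    · refine Primrec.list_cons.comp (Primrec.pair ha htr)
        (Primrec.list_cons.comp (Primrec.pair ?_ htr)
        (Primrec.list_cons.comp (Primrec.pair ?_ hfa)
        (Primrec.list_cons.comp (Primrec.pair ?_ hfa) hnil)))
      · exact Primrec.nat_add.comp (hA1.comp Primrec.fst)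
          (GPRES_dc (hnB.comp Primrec.fst) (ht6.comp Primrec.fst) Primrec.snd)
      · exact GPRES_dc (hnA.comp Primrec.fst) (ht5.comp Primrec.fst) Primrec.snd
      · exact Primrec.nat_add.comp (hA1.comp Primrec.fst) hb
  · refine Primrec.list_map (Primrec.list_range.comp hP1) ?_
    refine Primrec.ite ?_ hnil (Primrec.list_cons.comp (Primrec.pair ?_ htr) hnil)
    · exact Primrec.eq.comp Primrec.snd (Primrec.nat_mod.comp (hp.comp Primrec.fst)
        (hP1.comp Primrec.fst))
    · exact Primrec.nat_mod.comp (Primrec.nat_div.comp (hd.comp Primrec.fst)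
        (hpow.comp (hN.comp Primrec.fst) Primrec.snd)) (hN.comp Primrec.fst)

/-- the presentation of the fundamental group given by a code, base point and spanning tree -/
theorem gam_pres : ∃ f : Code × ℕ × ℕ → Pres, Primrec f ∧
    ∀ (x : Code) (p d : ℕ), Nonempty ((f (x, p, d)).Grp ≃*
      Gam (dec x.1 x.2) (decp x.1 p) (decd x.1 d)) := by
  refine ⟨GPRES_f, GPRES_prim, ?_⟩
  intro x p d
  obtain ⟨⟨nP, nA, nB⟩, t1, t2, t3, t4, t5, t6⟩ := x
  let ι : Fin (nA + 1) ⊕ Fin (nB + 1) → ℕ := fun x => (finSumFinEquiv x : ℕ)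
  have ιl : ∀ a : Fin (nA + 1), ι (Sum.inl a) = (a : ℕ) := by
    intro a
    simp [ι]
  have ιr : ∀ b : Fin (nB + 1), ι (Sum.inr b) = nA + 1 + (b : ℕ) := by
    intro b
    simp [ι]
  have ιd : ∀ q : Fin (nP + 1), ι (decd (nP, nA, nB) d q) =
      d / (nA + 1 + (nB + 1)) ^ (q : ℕ) % (nA + 1 + (nB + 1)) := by
    intro q
    simp [ι, decd]
  refine GPRES_iso (nA + 1 + (nB + 1)) finSumFinEquiv _ _ ?_ ?_
  · intro r hr
    cases hr with
    | invA a =>
      refine ⟨_, List.mem_append_left _ (List.mem_map.2 ⟨(a : ℕ), List.mem_range.2 a.2, rfl⟩), ?_⟩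
      have : FreeGroup.map ι (FreeGroup.of (Sum.inl a) *
          FreeGroup.of (Sum.inl ((dec (nP, nA, nB) (t1, t2, t3, t4, t5, t6)).iA a))) =
          FreeGroup.mk [(ι (Sum.inl a), true),
            (ι (Sum.inl ((dec (nP, nA, nB) (t1, t2, t3, t4, t5, t6)).iA a)), true)] := rfl
      rw [ιl, ιl] at this
      exact this.symm
    | invB b =>
      refine ⟨_, List.mem_append_right _ (List.mem_append_left _
        (List.mem_map.2 ⟨(b : ℕ), List.mem_range.2 b.2, rfl⟩)), ?_⟩
      have : FreeGroup.map ι (FreeGroup.of (Sum.inr b) *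
          FreeGroup.of (Sum.inr ((dec (nP, nA, nB) (t1, t2, t3, t4, t5, t6)).iB b))) =
          FreeGroup.mk [(ι (Sum.inr b), true),
            (ι (Sum.inr ((dec (nP, nA, nB) (t1, t2, t3, t4, t5, t6)).iB b)), true)] := rfl
      rw [ιr, ιr] at this
      exact this.symm
    | sq a b h =>
      have hj : (a : ℕ) * (nB + 1) + (b : ℕ) < (nA + 1) * (nB + 1) := by
        have h1 := a.2
        have h2 := b.2
        have : ((a : ℕ) + 1) * (nB + 1) ≤ (nA + 1) * (nB + 1) := Nat.mul_le_mul_right _ h1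
        nlinarith
      have hdiv : ((a : ℕ) * (nB + 1) + (b : ℕ)) / (nB + 1) = a := by
        rw [mul_comm, Nat.mul_add_div (Nat.succ_pos nB), Nat.div_eq_of_lt b.2, add_zero]
      have hmod : ((a : ℕ) * (nB + 1) + (b : ℕ)) % (nB + 1) = b := by
        rw [mul_comm, Nat.mul_add_mod, Nat.mod_eq_of_lt b.2]
      refine ⟨_, List.mem_append_right _ (List.mem_append_right _ (List.mem_append_left _
        (List.mem_map.2 ⟨(a : ℕ) * (nB + 1) + (b : ℕ), List.mem_range.2 hj, rfl⟩))), ?_⟩
      have hc : GPRES_d nP t1 a = GPRES_d nP t2 b := by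
        have := congrArg Fin.val h
        exact this
      rw [hdiv, hmod, if_pos hc]
      have : FreeGroup.map ι (FreeGroup.of (Sum.inl a) *
          FreeGroup.of (Sum.inr ((dec (nP, nA, nB) (t1, t2, t3, t4, t5, t6)).tl a b)) *
          (FreeGroup.of (Sum.inl ((dec (nP, nA, nB) (t1, t2, t3, t4, t5, t6)).tr a b)))⁻¹ *
          (FreeGroup.of (Sum.inr b))⁻¹) =
          FreeGroup.mk [(ι (Sum.inl a), true),
            (ι (Sum.inr ((dec (nP, nA, nB) (t1, t2, t3, t4, t5, t6)).tl a b)), true),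
            (ι (Sum.inl ((dec (nP, nA, nB) (t1, t2, t3, t4, t5, t6)).tr a b)), false),
            (ι (Sum.inr b), false)] := rfl
      rw [ιl, ιr, ιl, ιr] at this
      exact this.symm
    | span q h =>
      refine ⟨_, List.mem_append_right _ (List.mem_append_right _ (List.mem_append_right _
        (List.mem_map.2 ⟨(q : ℕ), List.mem_range.2 q.2, rfl⟩))), ?_⟩
      have hq : ¬ (q : ℕ) = p % (nP + 1) := by
        intro h'
        exact h (Fin.ext h')
      have : FreeGroup.map ι (FreeGroup.of (decd (nP, nA, nB) d q)) =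
          FreeGroup.mk [(ι (decd (nP, nA, nB) d q), true)] := rfl
      rw [ιd] at this
      simp only [hq, if_false]
      exact this.symm
  · intro w hw
    rcases List.mem_append.1 hw with hw | hw
    · obtain ⟨a, ha, rfl⟩ := List.mem_map.1 hw
      right
      refine ⟨_, Rel.invA ⟨a, List.mem_range.1 ha⟩, ?_⟩
      have : FreeGroup.map ι (FreeGroup.of (Sum.inl ⟨a, List.mem_range.1 ha⟩) *
          FreeGroup.of (Sum.inl ((dec (nP, nA, nB) (t1, t2, t3, t4, t5, t6)).iA
            ⟨a, List.mem_range.1 ha⟩))) =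
          FreeGroup.mk [(ι (Sum.inl ⟨a, List.mem_range.1 ha⟩), true),
            (ι (Sum.inl ((dec (nP, nA, nB) (t1, t2, t3, t4, t5, t6)).iA
              ⟨a, List.mem_range.1 ha⟩)), true)] := rfl
      rw [ιl, ιl] at this
      exact this.symm
    rcases List.mem_append.1 hw with hw | hw
    · obtain ⟨a, ha, rfl⟩ := List.mem_map.1 hw
      right
      refine ⟨_, Rel.invB ⟨a, List.mem_range.1 ha⟩, ?_⟩
      have : FreeGroup.map ι (FreeGroup.of (Sum.inr ⟨a, List.mem_range.1 ha⟩) *
          FreeGroup.of (Sum.inr ((dec (nP, nA, nB) (t1, t2, t3, t4, t5, t6)).iB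
            ⟨a, List.mem_range.1 ha⟩))) =
          FreeGroup.mk [(ι (Sum.inr ⟨a, List.mem_range.1 ha⟩), true),
            (ι (Sum.inr ((dec (nP, nA, nB) (t1, t2, t3, t4, t5, t6)).iB
              ⟨a, List.mem_range.1 ha⟩)), true)] := rfl
      rw [ιr, ιr] at this
      exact this.symm
    rcases List.mem_append.1 hw with hw | hw
    · obtain ⟨j, hj, rfl⟩ := List.mem_map.1 hw
      have hj := List.mem_range.1 hj
      change j < (nA + 1) * (nB + 1) at hj
      have ha : j / (nB + 1) < nA + 1 := by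
        rw [Nat.div_lt_iff_lt_mul (Nat.succ_pos nB)]
        exact hj
      have hb : j % (nB + 1) < nB + 1 := Nat.mod_lt _ (Nat.succ_pos nB)
      have hjj : j / (nB + 1) * (nB + 1) + j % (nB + 1) = j := by
        rw [mul_comm]
        exact Nat.div_add_mod j (nB + 1)
      by_cases hc : GPRES_d nP t1 (j / (nB + 1)) = GPRES_d nP t2 (j % (nB + 1))
      · right
        have hoo : (dec (nP, nA, nB) (t1, t2, t3, t4, t5, t6)).oA ⟨_, ha⟩ =
          (dec (nP, nA, nB) (t1, t2, t3, t4, t5, t6)).oB ⟨_, hb⟩ := Fin.ext hc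
        refine ⟨_, Rel.sq ⟨_, ha⟩ ⟨_, hb⟩ hoo, ?_⟩
        have : FreeGroup.map ι (FreeGroup.of (Sum.inl ⟨_, ha⟩) *
          FreeGroup.of (Sum.inr ((dec (nP, nA, nB) (t1, t2, t3, t4, t5, t6)).tl ⟨_, ha⟩ ⟨_, hb⟩)) *
          (FreeGroup.of (Sum.inl ((dec (nP, nA, nB) (t1, t2, t3, t4, t5, t6)).tr ⟨_, ha⟩
            ⟨_, hb⟩)))⁻¹ *
          (FreeGroup.of (Sum.inr ⟨_, hb⟩))⁻¹) =
          FreeGroup.mk [(ι (Sum.inl ⟨_, ha⟩), true),
            (ι (Sum.inr ((dec (nP, nA, nB) (t1, t2, t3, t4, t5, t6)).tl ⟨_, ha⟩ ⟨_, hb⟩)), true),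
            (ι (Sum.inl ((dec (nP, nA, nB) (t1, t2, t3, t4, t5, t6)).tr ⟨_, ha⟩ ⟨_, hb⟩)), false),
            (ι (Sum.inr ⟨_, hb⟩), false)] := rfl
        rw [ιl, ιr, ιl, ιr] at this
        have e1 : (((dec (nP, nA, nB) (t1, t2, t3, t4, t5, t6)).tl ⟨_, ha⟩ ⟨_, hb⟩ :
            Fin (nB + 1)) : ℕ) = GPRES_d nB t6 j := by
          conv_rhs => rw [← hjj]
          rfl
        have e2 : (((dec (nP, nA, nB) (t1, t2, t3, t4, t5, t6)).tr ⟨_, ha⟩ ⟨_, hb⟩ :
            Fin (nA + 1)) : ℕ) = GPRES_d nA t5 j := by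
          conv_rhs => rw [← hjj]
          rfl
        rw [e1, e2] at this
        rw [if_pos hc]
        exact this.symm
      · left
        rw [if_neg hc]
    · obtain ⟨q, hq, rfl⟩ := List.mem_map.1 hw
      have hq := List.mem_range.1 hq
      change q < nP + 1 at hq
      by_cases hc : q = p % (nP + 1)
      · left
        exact if_pos hc
      · right
        have hc' : (⟨q, hq⟩ : Fin (nP + 1)) ≠ decp (nP, nA, nB) p := by
          intro h'
          exact hc (congrArg Fin.val h')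
        refine ⟨_, Rel.span ⟨q, hq⟩ hc', ?_⟩
        have : FreeGroup.map ι (FreeGroup.of (decd (nP, nA, nB) d ⟨q, hq⟩)) =
          FreeGroup.mk [(ι (decd (nP, nA, nB) d ⟨q, hq⟩), true)] := rfl
        rw [ιd] at this
        simp only [hc, if_false]
        exact this.symm

end LatIso
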