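import Pool.Agent.Lib.MP_32d917_al.TTL

/-!
# Extension of the labels from the axes to the product of two trees
-/

set_option autoImplicit false

namespace LatIso

section LEX

variable {P A B : Type} {X : Dat P A B}

/-- a vertical dart at a vertex is transported to all vertices of a horizontal tree -/
theorem LEX1_f (hX : Valid X) {V : Type} {S : SimpleGraph V} (hS : S.IsTree) {q : V → P}
    {al : V → V → A} (h : HCv X S q al) (v0 : V) (b : B) (hb : X.oB b = q v0) :
    ∃ f : V → B, f v0 = b ∧ (∀ v, X.oB (f v) = q v) ∧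
      ∀ v v', S.Adj v v' → f v' = X.tl (al v v') (f v) := by
  refine ttl hS (fun v b => X.oB b = q v) (fun v v' b => X.tl (al v v') b) ?_ ?_ v0 b hb
  · intro v v' y hv hy
    have h1 : X.oA (al v v') = X.oB y := by rw [h.o v v' hv]; exact hy.symm
    show X.oB (X.tl (al v v') y) = q v'
    rw [hX.otl _ _ h1, ← h.i v v' hv, h.o v' v hv.symm]
  · intro v v' y hv hy
    have h1 : X.oA (al v v') = X.oB y := by rw [h.o v v' hv]; exact hy.symm
    show X.tl (al v' v) (X.tl (al v v') y) = y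
    rw [h.i v v' hv, hX.tli _ _ h1]

open Classical in
/-- the transported dart -/
noncomputable def LEX1F (X : Dat P A B) {V : Type} (S : SimpleGraph V) (v0 : V)
    (y : (V → P) × (V → V → A)) (b : B) : V → B :=
  if h : ∃ f : V → B, f v0 = b ∧ (∀ v, X.oB (f v) = y.1 v) ∧
      ∀ v v', S.Adj v v' → f v' = X.tl (y.2 v v') (f v) then h.choose else fun _ => b

theorem LEX1F_spec (hX : Valid X) {V : Type} {S : SimpleGraph V} (hS : S.IsTree)
    {y : (V → P) × (V → V → A)} (h : HCv X S y.1 y.2) (v0 : V) (b : B) (hb : X.oB b = y.1 v0) :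
    LEX1F X S v0 y b v0 = b ∧ (∀ v, X.oB (LEX1F X S v0 y b v) = y.1 v) ∧
      ∀ v v', S.Adj v v' → LEX1F X S v0 y b v' = X.tl (y.2 v v') (LEX1F X S v0 y b v) := by
  have hex := LEX1_f hX hS h v0 b hb
  unfold LEX1F
  rw [dif_pos hex]
  exact hex.choose_spec

theorem LEX1F_uniq (hX : Valid X) {V : Type} {S : SimpleGraph V} (hS : S.IsTree)
    {y : (V → P) × (V → V → A)} (h : HCv X S y.1 y.2) (v0 : V) (b : B) (hb : X.oB b = y.1 v0)
    (f : V → B) (hf : ∀ v v', S.Adj v v' → f v' = X.tl (y.2 v v') (f v)) (v : V)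
    (hv : f v = LEX1F X S v0 y b v) : f = LEX1F X S v0 y b :=
  ttl_uniq hS.1 (fun v v' b => X.tl (y.2 v v') b) f _ hf
    (LEX1F_spec hX hS h v0 b hb).2.2 v hv

open Classical in
/-- one vertical step -/
noncomputable def LEX1st (X : Dat P A B) {V : Type} (S : SimpleGraph V) (v0 : V)
    (y : (V → P) × (V → V → A)) (b : B) : (V → P) × (V → V → A) :=
  (fun v => X.oB (X.iB (LEX1F X S v0 y b v)),
    fun v v' => if S.Adj v v' then X.tr (y.2 v v') (LEX1F X S v0 y b v) else y.2 v v')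

theorem LEX1st_adj {V : Type} {S : SimpleGraph V} (v0 : V)
    (y : (V → P) × (V → V → A)) (b : B) {v v' : V} (h : S.Adj v v') :
    (LEX1st X S v0 y b).2 v v' = X.tr (y.2 v v') (LEX1F X S v0 y b v) := by
  unfold LEX1st
  simp only
  rw [if_pos h]

theorem LEX1st_nadj {V : Type} {S : SimpleGraph V} (v0 : V)
    (y : (V → P) × (V → V → A)) (b : B) {v v' : V} (h : ¬ S.Adj v v') :
    (LEX1st X S v0 y b).2 v v' = y.2 v v' := by
  unfold LEX1st
  simp only
  rw [if_neg h]

theorem LEX1st_hcv (hX : Valid X) {V : Type} {S : SimpleGraph V} (hS : S.IsTree)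
    {y : (V → P) × (V → V → A)} (h : HCv X S y.1 y.2) (v0 : V) (b : B) (hb : X.oB b = y.1 v0) :
    HCv X S (LEX1st X S v0 y b).1 (LEX1st X S v0 y b).2 := by
  obtain ⟨h1, h2, h3⟩ := LEX1F_spec hX hS h v0 b hb
  have hab : ∀ v v', S.Adj v v' → X.oA (y.2 v v') = X.oB (LEX1F X S v0 y b v) := by
    intro v v' hv
    rw [h.o v v' hv, h2]
  constructor
  · intro v v' hv
    rw [LEX1st_adj v0 y b hv]
    exact hX.otr _ _ (hab v v' hv)
  · intro v v' hv
    rw [LEX1st_adj v0 y b hv, LEX1st_adj v0 y b hv.symm, h3 v v' hv, h.i v v' hv]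
    exact hX.tri _ _ (hab v v' hv)
  · intro v x z hx hz he
    rw [LEX1st_adj v0 y b hx, LEX1st_adj v0 y b hz] at he
    have := congrArg (fun a => X.tr a (X.iB (LEX1F X S v0 y b v))) he
    rw [hX.tri' _ _ (hab v x hx), hX.tri' _ _ (hab v z hz)] at this
    exact h.inj v x z hx hz this
  · intro v a ha
    have ha' : X.oA a = X.oB (X.iB (LEX1F X S v0 y b v)) := ha
    have h4 : X.oA (X.tr a (X.iB (LEX1F X S v0 y b v))) = y.1 v := by
      rw [hX.otr _ _ ha', hX.iB, h2]
    obtain ⟨v', hv', he⟩ := h.sur v _ h4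
    refine ⟨v', hv', ?_⟩
    rw [LEX1st_adj v0 y b hv', he]
    have := hX.tri' _ _ ha'
    rw [hX.iB] at this
    exact this

theorem LEX1F_back (hX : Valid X) {V : Type} {S : SimpleGraph V} (hS : S.IsTree)
    {y : (V → P) × (V → V → A)} (h : HCv X S y.1 y.2) (v0 : V) (b : B) (hb : X.oB b = y.1 v0)
    (v : V) : LEX1F X S v0 (LEX1st X S v0 y b) (X.iB b) v = X.iB (LEX1F X S v0 y b v) := by
  obtain ⟨h1, h2, h3⟩ := LEX1F_spec hX hS h v0 b hb
  have hab : ∀ v v', S.Adj v v' → X.oA (y.2 v v') = X.oB (LEX1F X S v0 y b v) := by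
    intro v v' hv
    rw [h.o v v' hv, h2]
  have hb' : X.oB (X.iB b) = (LEX1st X S v0 y b).1 v0 := by
    show X.oB (X.iB b) = X.oB (X.iB (LEX1F X S v0 y b v0))
    rw [h1]
  have hst := LEX1st_hcv hX hS h v0 b hb
  have hu := LEX1F_uniq hX hS hst v0 (X.iB b) hb' (fun v => X.iB (LEX1F X S v0 y b v)) (by
    intro v v' hv
    show X.iB (LEX1F X S v0 y b v') = _
    rw [LEX1st_adj v0 y b hv, hX.tli' _ _ (hab v v' hv), h3 v v' hv]) v0 (by
    rw [(LEX1F_spec hX hS hst v0 (X.iB b) hb').1]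
    show X.iB (LEX1F X S v0 y b v0) = _
    rw [h1])
  exact (congrFun hu v).symm

theorem LEX1st_back (hX : Valid X) {V : Type} {S : SimpleGraph V} (hS : S.IsTree)
    {y : (V → P) × (V → V → A)} (h : HCv X S y.1 y.2) (v0 : V) (b : B) (hb : X.oB b = y.1 v0) :
    LEX1st X S v0 (LEX1st X S v0 y b) (X.iB b) = y := by
  obtain ⟨h1, h2, h3⟩ := LEX1F_spec hX hS h v0 b hb
  have hab : ∀ v v', S.Adj v v' → X.oA (y.2 v v') = X.oB (LEX1F X S v0 y b v) := by
    intro v v' hv
    rw [h.o v v' hv, h2]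
  apply Prod.ext
  · funext v
    show X.oB (X.iB (LEX1F X S v0 (LEX1st X S v0 y b) (X.iB b) v)) = y.1 v
    rw [LEX1F_back hX hS h v0 b hb, hX.iB, h2]
  · funext v v'
    by_cases hv : S.Adj v v'
    · rw [LEX1st_adj _ _ _ hv, LEX1st_adj _ _ _ hv, LEX1F_back hX hS h v0 b hb,
        hX.tri' _ _ (hab v v' hv)]
    · rw [LEX1st_nadj _ _ _ hv, LEX1st_nadj _ _ _ hv]

/-- extension of labels from the axes to the product -/
theorem lp_extend (hX : Valid X) {V W : Type} {S : SimpleGraph V} {T : SimpleGraph W}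
    (hS : S.IsTree) (hT : T.IsTree) (v0 : V) (w0 : W) (q : V → P) (al : V → V → A) (r : W → P)
    (be : W → W → B) (hq : HCv X S q al) (hr : HCv X.swap T r be) (h0 : q v0 = r w0) :
    ∃ L : LP X S T, L.p v0 w0 = q v0 := by
  have hro : ∀ w w', T.Adj w w' → X.oB (be w w') = r w := fun w w' h => hr.o w w' h
  have hri : ∀ w w', T.Adj w w' → be w' w = X.iB (be w w') := fun w w' h => hr.i w w' h
  have hrs : ∀ w b, X.oB b = r w → ∃ w', T.Adj w w' ∧ be w w' = b := fun w b h => hr.sur w b h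
  obtain ⟨F, hF0, hFQ, hFs⟩ := ttl hT
    (fun w (y : (V → P) × (V → V → A)) => HCv X S y.1 y.2 ∧ y.1 v0 = r w)
    (fun w w' y => LEX1st X S v0 y (be w w')) (by
      rintro w w' y hw ⟨hy1, hy2⟩
      have hb : X.oB (be w w') = y.1 v0 := by rw [hro w w' hw, hy2]
      refine ⟨LEX1st_hcv hX hS hy1 v0 _ hb, ?_⟩
      show X.oB (X.iB (LEX1F X S v0 y (be w w') v0)) = r w'
      rw [(LEX1F_spec hX hS hy1 v0 _ hb).1, ← hri w w' hw, hro w' w hw.symm]) (by
      rintro w w' y hw ⟨hy1, hy2⟩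
      have hb : X.oB (be w w') = y.1 v0 := by rw [hro w w' hw, hy2]
      show LEX1st X S v0 (LEX1st X S v0 y (be w w')) (be w' w) = y
      rw [hri w w' hw]
      exact LEX1st_back hX hS hy1 v0 _ hb) w0 (q, al) ⟨hq, h0⟩
  have hb : ∀ w w', T.Adj w w' → X.oB (be w w') = (F w).1 v0 := by
    intro w w' hw
    rw [hro w w' hw, (hFQ w).2]
  have hsp := fun w w' (hw : T.Adj w w') => LEX1F_spec hX hS (hFQ w).1 v0 _ (hb w w' hw)
  refine ⟨{ p := fun v w => (F w).1 v
            al := fun v v' w => (F w).2 v v'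
            be := fun v w w' => LEX1F X S v0 (F w) (be w w') v
            oal := fun v v' w hv => (hFQ w).1.o v v' hv
            obe := fun v w w' hw => (hsp w w' hw).2.1 v
            ial := fun v v' w hv => (hFQ w).1.i v v' hv
            ibe := ?_
            tr := ?_
            tl := ?_
            inj_al := fun v x y w hx hy h => (hFQ w).1.inj v x y hx hy h
            sur_al := fun v w a ha => (hFQ w).1.sur v a ha
            inj_be := ?_
            sur_be := ?_ }, ?_⟩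
  · intro v w w' hw
    show LEX1F X S v0 (F w') (be w' w) v = X.iB (LEX1F X S v0 (F w) (be w w') v)
    rw [hri w w' hw, hFs w w' hw]
    exact LEX1F_back hX hS (hFQ w).1 v0 _ (hb w w' hw) v
  · intro v v' w w' hv hw
    show X.tr ((F w).2 v v') (LEX1F X S v0 (F w) (be w w') v) = (F w').2 v v'
    rw [hFs w w' hw, LEX1st_adj _ _ _ hv]
  · intro v v' w w' hv hw
    exact ((hsp w w' hw).2.2 v v' hv).symm
  · intro v w x y hx hy h
    have h' : LEX1F X S v0 (F w) (be w x) v = LEX1F X S v0 (F w) (be w y) v := h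
    have hu := LEX1F_uniq hX hS (hFQ w).1 v0 _ (hb w y hy) (LEX1F X S v0 (F w) (be w x))
      (hsp w x hx).2.2 v h'
    have h1 := congrFun hu v0
    rw [(hsp w x hx).1, (hsp w y hy).1] at h1
    exact hr.inj w x y hx hy h1
  · intro v w b hbv
    have hbv' : X.oB b = (F w).1 v := hbv
    obtain ⟨f, hf0, hfQ, hfs⟩ := LEX1_f hX hS (hFQ w).1 v b hbv'
    have h1 : X.oB (f v0) = r w := by rw [hfQ v0, (hFQ w).2]
    obtain ⟨w', hw', hbe⟩ := hrs w _ h1
    refine ⟨w', hw', ?_⟩
    have hu := LEX1F_uniq hX hS (hFQ w).1 v0 _ (hb w w' hw') f hfs v0 (by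
      rw [(hsp w w' hw').1, hbe])
    show LEX1F X S v0 (F w) (be w w') v = b
    rw [← hu, hf0]
  · show (F w0).1 v0 = q v0
    rw [hF0]

end LEX

end LatIso
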