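import Pool.Agent.Lib.MP_32d917_al.UC
import Pool.Agent.Lib.MP_32d917_al.LEX1

/-!
# Existence of labelled products
-/

set_option autoImplicit false

namespace LatIso

section LEX

variable {P A B : Type} {X : Dat P A B}

/-- (5.4) -/
theorem lp_exists [Nonempty A] [Nonempty B] (hX : Valid X) (p0 : P) :
    ∃ (V W : Type) (S : SimpleGraph V)
    (T : SimpleGraph W), S.IsTree ∧ T.IsTree ∧ ∃ (L : LP X S T) (v : V) (w : W),
      L.p v w = p0 := by
  obtain ⟨V, S, v0, q, al, hS, h1, h2, h3, h4, h5⟩ := uc_exists X.oA X.iA hX.iA p0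
  obtain ⟨W, T, w0, r, be, hT, k1, k2, k3, k4, k5⟩ := uc_exists X.oB X.iB hX.iB p0
  obtain ⟨L, hL⟩ := lp_extend hX hS hT v0 w0 q al r be ⟨h2, h3, h4, h5⟩ ⟨k2, k3, k4, k5⟩
    (h1.trans k1.symm)
  exact ⟨V, W, S, T, hS, hT, L, v0, w0, hL.trans h1⟩

theorem lp_onto {V W : Type} {S : SimpleGraph V} {T : SimpleGraph W} (L : LP X S T) {p0 : P}
    {δ : P → A ⊕ B} {r : P → ℕ} (hs : Span X p0 δ r) (h0 : ∃ v w, L.p v w = p0) (q : P) :
    ∃ v w, L.p v w = q := by
  have key : ∀ n : ℕ, ∀ q, r q = n → ∃ v w, L.p v w = q := by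
    intro n
    induction n using Nat.strong_induction_on with
    | _ n ih =>
      intro q hq
      by_cases hqp : q = p0
      · rw [hqp]; exact h0
      · rcases hd : δ q with a | b
        · obtain ⟨h1, h2⟩ := hs.endA q a hqp hd
          obtain ⟨v, w, hvw⟩ := ih (r (X.oA a)) (hq ▸ h2) (X.oA a) rfl
          obtain ⟨v', hv', ha⟩ := L.sur_al v w a hvw.symm
          refine ⟨v', w, ?_⟩
          rw [← L.oal v' v w hv'.symm, L.ial v v' w hv', ha, h1]
        · obtain ⟨h1, h2⟩ := hs.endB q b hqp hd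
          obtain ⟨v, w, hvw⟩ := ih (r (X.oB b)) (hq ▸ h2) (X.oB b) rfl
          obtain ⟨w', hw', hb⟩ := L.sur_be v w b hvw.symm
          refine ⟨v, w', ?_⟩
          rw [← L.obe v w' w hw'.symm, L.ibe v w w' hw', hb, h1]
  exact key _ q rfl

end LEX

end LatIso
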