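import Pool.Agent.Lib.MP_32d917_al.PRES1

/-!
# Isomorphism of finite presentations is r.e.
-/

set_option autoImplicit false

namespace LatIso

/-- image of a letter under the substitution `F` -/
def sbl (F : List PW) (a : ℕ × Bool) : PW :=
  if a.2 = true then F.getD a.1 [] else FreeGroup.invRev (F.getD a.1 [])

/-- substitution -/
def sbw (F : List PW) (w : PW) : PW := w.flatMap (sbl F)

theorem pres2_lift {Q : Pres} (F : List PW) (w : PW) :
    FreeGroup.lift (fun i => (PresentedGroup.mk Q.rels (FreeGroup.mk (F.getD i [])) : Q.Grp))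
      (FreeGroup.mk w) = PresentedGroup.mk Q.rels (FreeGroup.mk (sbw F w)) := by
  induction w with
  | nil =>
    have h1 : FreeGroup.mk ([] : PW) = 1 := rfl
    have h2 : sbw F [] = [] := rfl
    rw [h2, h1, map_one, map_one]
  | cons a w ih =>
    have h1 : FreeGroup.mk (a :: w) = FreeGroup.mk [a] * FreeGroup.mk w := by
      rw [FreeGroup.mul_mk]
      rfl
    have h2 : sbw F (a :: w) = sbl F a ++ sbw F w := by
      unfold sbw
      rw [List.flatMap_cons]
    rw [h2, ← FreeGroup.mul_mk, map_mul, h1, map_mul, ih]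
    congr 1
    obtain ⟨i, b⟩ := a
    unfold sbl
    cases b
    · simp [FreeGroup.lift_mk, ← FreeGroup.inv_mk]
    · simp [FreeGroup.lift_mk]

/-- the word `w` is trivial in the group with the presentation `P` -/
def TrivW (P : Pres) (w : PW) : Prop := (PresentedGroup.mk P.rels (FreeGroup.mk w) : P.Grp) = 1

theorem trivW_re : REPred (fun x : Pres × PW => TrivW x.1 x.2) := triv_re

/-- one half of a certificate of isomorphism: `F` defines a homomorphism, and `G ∘ F` is the
identity -/
def ICert (P Q : Pres) (F G : List PW) : Prop :=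
  F.length ≤ P.1 ∧
  (∀ w ∈ P.2, TrivW Q (sbw F w)) ∧
  (∀ i < P.1, TrivW P (sbw G (F.getD i []) ++ [(i, false)]))

theorem pres2_one_of_ge {P : Pres} (i : ℕ) (hi : P.1 ≤ i) :
    (PresentedGroup.of i : P.Grp) = 1 :=
  PresentedGroup.one_of_mem (Or.inr ⟨i, hi, rfl⟩)

theorem pres2_hom {P Q : Pres} {F G : List PW} (h : ICert P Q F G) :
    ∀ r ∈ P.rels, FreeGroup.lift
      (fun i => (PresentedGroup.mk Q.rels (FreeGroup.mk (F.getD i [])) : Q.Grp)) r = 1 := by
  intro r hr
  rcases hr with ⟨w, hw, rfl⟩ | ⟨i, hi, rfl⟩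
  · rw [pres2_lift]
    exact h.2.1 w hw
  · rw [FreeGroup.lift_apply_of]
    rw [List.getD_eq_default _ _ (le_trans h.1 hi)]
    exact map_one _

/-- the homomorphism of a certificate -/
noncomputable def ihom {P Q : Pres} {F G : List PW} (h : ICert P Q F G) : P.Grp →* Q.Grp :=
  PresentedGroup.toGroup (pres2_hom h)

theorem pres2_ihom_of {P Q : Pres} {F G : List PW} (h : ICert P Q F G) (i : ℕ) :
    ihom h (PresentedGroup.of i) = PresentedGroup.mk Q.rels (FreeGroup.mk (F.getD i [])) :=
  PresentedGroup.toGroup.of _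

theorem pres2_ihom_mk {P Q : Pres} {F G : List PW} (h : ICert P Q F G) (w : PW) :
    ihom h (PresentedGroup.mk P.rels (FreeGroup.mk w)) =
      PresentedGroup.mk Q.rels (FreeGroup.mk (sbw F w)) := by
  rw [← pres2_lift]
  rfl

theorem pres2_comp {P Q : Pres} {F G : List PW} (h : ICert P Q F G) (h' : ICert Q P G F) :
    (ihom h').comp (ihom h) = MonoidHom.id _ := by
  apply PresentedGroup.ext
  intro i
  rw [MonoidHom.comp_apply, pres2_ihom_of, pres2_ihom_mk, MonoidHom.id_apply]
  by_cases hi : i < P.1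
  · have h1 := h.2.2 i hi
    unfold TrivW at h1
    rw [← FreeGroup.mul_mk, map_mul] at h1
    have h2 : FreeGroup.mk [(i, false)] = (FreeGroup.of i)⁻¹ := by
      unfold FreeGroup.of
      rw [FreeGroup.inv_mk]
      rfl
    rw [h2, map_inv, mul_inv_eq_one] at h1
    exact h1
  · rw [pres2_one_of_ge i (not_lt.1 hi), List.getD_eq_default _ _ (le_trans h.1 (not_lt.1 hi))]
    exact map_one _

theorem pres2_sound {P Q : Pres} {F G : List PW} (h : ICert P Q F G) (h' : ICert Q P G F) :
    Nonempty (P.Grp ≃* Q.Grp) :=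
  ⟨MonoidHom.toMulEquiv (ihom h) (ihom h') (pres2_comp h h') (pres2_comp h' h)⟩

theorem pres2_word {Q : Pres} (x : Q.Grp) :
    ∃ w : PW, PresentedGroup.mk Q.rels (FreeGroup.mk w) = x := by
  obtain ⟨y, rfl⟩ := PresentedGroup.mk_surjective Q.rels x
  exact ⟨y.toWord, by rw [FreeGroup.mk_toWord]⟩

theorem pres2_list {P Q : Pres} (e : P.Grp →* Q.Grp) : ∃ F : List PW, F.length ≤ P.1 ∧
    ∀ i : ℕ, PresentedGroup.mk Q.rels (FreeGroup.mk (F.getD i [])) =
      e (PresentedGroup.of i) := by
  choose f hf using fun i : ℕ => pres2_word (e (PresentedGroup.of i))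
  refine ⟨(List.range P.1).map f, by simp, ?_⟩
  intro i
  by_cases hi : i < P.1
  · have h1 : ((List.range P.1).map f).getD i [] = f i := by
      rw [List.getD_eq_getElem _ _ (by simpa using hi)]
      simp
    rw [h1, hf]
  · have h1 : ((List.range P.1).map f).getD i [] = [] := by
      rw [List.getD_eq_default _ _ (by simpa using hi)]
    rw [h1, pres2_one_of_ge i (not_lt.1 hi), map_one]
    exact map_one _

theorem pres2_eval {P Q : Pres} (e : P.Grp →* Q.Grp) {F : List PW}
    (hF : ∀ i : ℕ, PresentedGroup.mk Q.rels (FreeGroup.mk (F.getD i [])) =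
      e (PresentedGroup.of i)) (w : PW) :
    PresentedGroup.mk Q.rels (FreeGroup.mk (sbw F w)) =
      e (PresentedGroup.mk P.rels (FreeGroup.mk w)) := by
  rw [← pres2_lift]
  have h1 : FreeGroup.lift (fun i => (PresentedGroup.mk Q.rels (FreeGroup.mk (F.getD i [])) :
      Q.Grp)) = e.comp (PresentedGroup.mk P.rels) := by
    apply FreeGroup.ext_hom
    intro i
    rw [FreeGroup.lift_apply_of, hF]
    rfl
  rw [h1]
  rfl

theorem pres2_icert {P Q : Pres} (e : P.Grp ≃* Q.Grp) {F G : List PW} (hl : F.length ≤ P.1)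
    (hF : ∀ i : ℕ, PresentedGroup.mk Q.rels (FreeGroup.mk (F.getD i [])) =
      e.toMonoidHom (PresentedGroup.of i))
    (hG : ∀ i : ℕ, PresentedGroup.mk P.rels (FreeGroup.mk (G.getD i [])) =
      e.symm.toMonoidHom (PresentedGroup.of i)) : ICert P Q F G := by
  refine ⟨hl, ?_, ?_⟩
  · intro w hw
    unfold TrivW
    rw [pres2_eval e.toMonoidHom hF]
    have h1 : (PresentedGroup.mk P.rels (FreeGroup.mk w) : P.Grp) = 1 :=
      PresentedGroup.one_of_mem (Or.inl ⟨w, hw, rfl⟩)
    rw [h1, map_one]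
  · intro i _
    unfold TrivW
    rw [← FreeGroup.mul_mk, map_mul, pres2_eval e.symm.toMonoidHom hG, hF]
    have h2 : FreeGroup.mk [(i, false)] = (FreeGroup.of i)⁻¹ := by
      unfold FreeGroup.of
      rw [FreeGroup.inv_mk]
      rfl
    rw [h2, map_inv, mul_inv_eq_one]
    exact e.symm_apply_apply _

theorem pres2_iff (x : Pres × Pres) : Nonempty (x.1.Grp ≃* x.2.Grp) ↔
    ∃ c : List PW × List PW, ICert x.1 x.2 c.1 c.2 ∧ ICert x.2 x.1 c.2 c.1 := by
  constructor
  · rintro ⟨e⟩
    obtain ⟨F, hF1, hF2⟩ := pres2_list e.toMonoidHom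
    obtain ⟨G, hG1, hG2⟩ := pres2_list e.symm.toMonoidHom
    exact ⟨(F, G), pres2_icert e hF1 hF2 hG2, pres2_icert e.symm hG1 hG2 hF2⟩
  · rintro ⟨c, h1, h2⟩
    exact pres2_sound h1 h2

/-! ### primitive recursiveness -/

section prim

variable {γ : Type} [Primcodable γ]

theorem pres2_getD_p {F : γ → List PW} {n : γ → ℕ} (hF : Primrec F) (hn : Primrec n) :
    Primrec (fun x => (F x).getD (n x) []) := by
  have h1 : Primrec (fun x => (F x)[n x]?) := Primrec.list_getElem?.comp hF hn
  refine (Primrec.option_getD.comp h1 (Primrec.const ([] : PW))).of_eq ?_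
  intro x
  rw [List.getD_eq_getElem?_getD]

theorem pres2_sbl_p : Primrec (fun x : List PW × (ℕ × Bool) => sbl x.1 x.2) := by
  unfold sbl
  have h1 : Primrec (fun x : List PW × (ℕ × Bool) => x.1.getD x.2.1 []) :=
    pres2_getD_p Primrec.fst (Primrec.fst.comp Primrec.snd)
  exact Primrec.ite (Primrec.eq.comp (Primrec.snd.comp Primrec.snd) (Primrec.const true)) h1
    (pres1_invRev_p h1)

theorem pres2_sbw_p {F : γ → List PW} {w : γ → PW} (hF : Primrec F) (hw : Primrec w) :
    Primrec (fun x => sbw (F x) (w x)) := by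
  unfold sbw
  exact Primrec.list_flatMap hw (pres2_sbl_p.comp (Primrec.pair (hF.comp Primrec.fst) Primrec.snd))

theorem pres2_triv_comp {P : γ → Pres} {w : γ → PW} (hP : Primrec P) (hw : Primrec w) :
    REPred (fun x => TrivW (P x) (w x)) :=
  re_comp (p := fun x : Pres × PW => TrivW x.1 x.2) (f := fun x : γ => (P x, w x)) trivW_re
    (Primrec.pair hP hw).to_comp

theorem pres2_icert_re {P Q : γ → Pres} {F G : γ → List PW} (hP : Primrec P) (hQ : Primrec Q)
    (hF : Primrec F) (hG : Primrec G) : REPred (fun x => ICert (P x) (Q x) (F x) (G x)) := by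
  unfold ICert
  refine re_and (re_of_prim ?_) (re_and ?_ ?_)
  · exact Primrec.nat_le.comp (Primrec.list_length.comp hF) (Primrec.fst.comp hP)
  · refine re_forall_mem (p := fun x w => TrivW (Q x) (sbw (F x) w))
      (Primrec.snd.comp hP) ?_
    exact pres2_triv_comp (γ := γ × PW) (P := fun y => Q y.1) (w := fun y => sbw (F y.1) y.2)
      (hQ.comp Primrec.fst) (pres2_sbw_p (hF.comp Primrec.fst) Primrec.snd)
  · refine re_forall_lt (p := fun x i => TrivW (P x) (sbw (G x) ((F x).getD i []) ++ [(i, false)]))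
      (Primrec.fst.comp hP) ?_
    refine pres2_triv_comp (γ := γ × ℕ) (P := fun y => P y.1)
      (w := fun y => sbw (G y.1) ((F y.1).getD y.2 []) ++ [(y.2, false)])
      (hP.comp Primrec.fst) (Primrec.list_append.comp ?_ ?_)
    · exact pres2_sbw_p (hG.comp Primrec.fst) (pres2_getD_p (hF.comp Primrec.fst) Primrec.snd)
    · exact Primrec.list_cons.comp (Primrec.pair Primrec.snd (Primrec.const false))
        (Primrec.const [])

end prim

theorem iso_re : REPred (fun x : Pres × Pres => Nonempty (x.1.Grp ≃* x.2.Grp)) := by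
  have h1 : REPred (fun y : (Pres × Pres) × (List PW × List PW) =>
      ICert y.1.1 y.1.2 y.2.1 y.2.2 ∧ ICert y.1.2 y.1.1 y.2.2 y.2.1) := by
    have e1 : Primrec (fun y : (Pres × Pres) × (List PW × List PW) => y.1.1) :=
      Primrec.fst.comp Primrec.fst
    have e2 : Primrec (fun y : (Pres × Pres) × (List PW × List PW) => y.1.2) :=
      Primrec.snd.comp Primrec.fst
    have e3 : Primrec (fun y : (Pres × Pres) × (List PW × List PW) => y.2.1) :=
      Primrec.fst.comp Primrec.snd
    have e4 : Primrec (fun y : (Pres × Pres) × (List PW × List PW) => y.2.2) :=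
      Primrec.snd.comp Primrec.snd
    exact re_and (pres2_icert_re e1 e2 e3 e4) (pres2_icert_re e2 e1 e4 e3)
  exact (re_exists h1).of_eq fun x => (pres2_iff x).symm

end LatIso
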