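import Pool.Agent.Lib.MP_32d917_al.LATB1

/-!
# The quotient of a lattice
-/

set_option autoImplicit false

namespace LatIso

section QUOT

/-- finitely many orbits can be labelled by numbers -/
theorem quot_label {G X : Type} [Group G] [MulAction G X] (D : Set X) (hD : D.Nonempty)
    (F : Finset X) (hF : ∀ x ∈ D, ∃ g : G, g • x ∈ F) :
    ∃ (n : ℕ) (f : X → Fin (n + 1)), (∀ i, ∃ x ∈ D, f x = i) ∧
      ∀ x ∈ D, ∀ y ∈ D, (f x = f y ↔ ∃ g : G, g • x = y) := by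
  classical
  let st : Setoid D := ⟨fun a b => ∃ g : G, g • (a : X) = b,
    fun a => ⟨1, one_smul _ _⟩,
    fun {a b} ⟨k, hab⟩ => ⟨k⁻¹, by rw [← hab, inv_smul_smul]⟩,
    fun {a b c} ⟨k, hab⟩ ⟨k', hbc⟩ => ⟨k' * k, by rw [mul_smul, hab, hbc]⟩⟩
  have hfin : Finite (Quotient st) := by
    choose κ hκ using fun x : D => hF x x.2
    let φ : Quotient st → {y // y ∈ F} := fun q => ⟨κ q.out • (q.out : X), hκ q.out⟩
    refine Finite.of_injective φ ?_
    intro q q' hq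
    have h1 : κ q.out • (q.out : X) = κ q'.out • (q'.out : X) := congrArg Subtype.val hq
    rw [← Quotient.out_eq q, ← Quotient.out_eq q']
    refine Quotient.sound ⟨(κ q'.out)⁻¹ * κ q.out, ?_⟩
    rw [mul_smul, h1, inv_smul_smul]
  have hne : Nonempty (Quotient st) := by
    obtain ⟨x, hx⟩ := hD
    exact ⟨⟦⟨x, hx⟩⟧⟩
  have hcard : Nat.card (Quotient st) = (Nat.card (Quotient st) - 1) + 1 := by
    have := Nat.card_pos (α := Quotient st)
    omega
  let e : Quotient st ≃ Fin ((Nat.card (Quotient st) - 1) + 1) :=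
    (Finite.equivFin (Quotient st)).trans (finCongr hcard)
  refine ⟨Nat.card (Quotient st) - 1, fun x => if h : x ∈ D then e ⟦⟨x, h⟩⟧ else 0, ?_, ?_⟩
  · intro i
    refine ⟨((e.symm i).out : D), ((e.symm i).out).2, ?_⟩
    have h1 : (((e.symm i).out : D) : X) ∈ D := ((e.symm i).out).2
    simp only [dif_pos h1, Subtype.coe_eta, Quotient.out_eq, Equiv.apply_symm_apply]
  · intro x hx y hy
    simp only [dif_pos hx, dif_pos hy, e.apply_eq_iff_eq]
    constructor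
    · intro h
      exact Quotient.exact h
    · rintro ⟨g, hg⟩
      exact Quotient.sound ⟨g, hg⟩

variable {G V W : Type} [Group G] [MulAction G V] [MulAction G W]
  {S : SimpleGraph V} {T : SimpleGraph W}

/-- representatives of edges times vertices -/
theorem quot_fin (L : Lat G S T) : ∃ F : Finset (V × V × W), ∀ v v' w, S.Adj v v' →
    ∃ g : G, (g • v, g • v', g • w) ∈ F := by
  classical
  obtain ⟨F, hF⟩ := L.fin
  refine ⟨F.biUnion fun x => (L.locS x.1).toFinset.image fun v' => (x.1, v', x.2), ?_⟩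
  intro v v' w h
  obtain ⟨g, hg⟩ := hF v w
  refine ⟨g, Finset.mem_biUnion.2 ⟨_, hg, Finset.mem_image.2 ⟨g • v', ?_, rfl⟩⟩⟩
  rw [Set.Finite.mem_toFinset]
  exact L.hS.adj g v v' h

/-- (5.5) -/
theorem quot_exists (L : Lat G S T) : ∃ (nP nA nB : ℕ)
    (X : Dat (Fin (nP + 1)) (Fin (nA + 1)) (Fin (nB + 1))), IsCov G S T X := by
  classical
  obtain ⟨v0, v1, _, _, _, _, _, hv01, _⟩ := L.threeS
  obtain ⟨w0, w1, _, _, _, _, _, hw01, _⟩ := L.threeT
  -- labels of points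
  obtain ⟨F, hF⟩ := L.fin
  obtain ⟨nP, P, hP1, hP2⟩ := quot_label (G := G) (Set.univ : Set (V × W)) ⟨(v0, w0), trivial⟩ F
    (fun x _ => hF x.1 x.2)
  -- labels of horizontal darts
  obtain ⟨FA, hFA⟩ := quot_fin L
  obtain ⟨nA, A, hA1, hA2⟩ := quot_label (G := G) ({x | S.Adj x.1 x.2.1} : Set (V × V × W))
    ⟨(v0, v1, w0), hv01⟩ FA
    (fun x hx => hFA x.1 x.2.1 x.2.2 hx)
  -- labels of vertical darts
  obtain ⟨FB, hFB⟩ := quot_fin L.symm
  obtain ⟨nB, B, hB1, hB2⟩ := quot_label (G := G) ({x | T.Adj x.1 x.2.1} : Set (W × W × V))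
    ⟨(w0, w1, v0), hw01⟩ FB
    (fun x hx => hFB x.1 x.2.1 x.2.2 hx)
  have hP : ∀ v w v' w', P (v, w) = P (v', w') ↔ ∃ g : G, g • v = v' ∧ g • w = w' := by
    intro v w v' w'
    rw [hP2 (v, w) trivial (v', w') trivial]
    simp [Prod.ext_iff]
  have hA : ∀ v x w v' x' w', S.Adj v x → S.Adj v' x' →
      (A (v, x, w) = A (v', x', w') ↔ ∃ g : G, g • v = v' ∧ g • x = x' ∧ g • w = w') := by
    intro v x w v' x' w' h h'
    rw [hA2 (v, x, w) h (v', x', w') h']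
    simp [Prod.ext_iff]
  have hB : ∀ w y v w' y' v', T.Adj w y → T.Adj w' y' →
      (B (w, y, v) = B (w', y', v') ↔ ∃ g : G, g • w = w' ∧ g • y = y' ∧ g • v = v') := by
    intro w y v w' y' v' h h'
    rw [hB2 (w, y, v) h (w', y', v') h']
    simp [Prod.ext_iff]
  choose α hα1 hα2 using hA1
  choose β hβ1 hβ2 using hB1
  have hαe : ∀ a, A ((α a).1, (α a).2.1, (α a).2.2) = a := hα2
  have hβe : ∀ a, B ((β a).1, (β a).2.1, (β a).2.2) = a := hβ2
  have hαd : ∀ a, S.Adj (α a).1 (α a).2.1 := hα1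
  have hβd : ∀ a, T.Adj (β a).1 (β a).2.1 := hβ1
  -- squares
  let sq : Fin (nA + 1) → Fin (nB + 1) → V × V × W × W → Prop := fun a b x =>
    S.Adj x.1 x.2.1 ∧ T.Adj x.2.2.1 x.2.2.2 ∧ A (x.1, x.2.1, x.2.2.1) = a ∧
      B (x.2.2.1, x.2.2.2, x.1) = b
  let X : Dat (Fin (nP + 1)) (Fin (nA + 1)) (Fin (nB + 1)) :=
    { oA := fun a => P ((α a).1, (α a).2.2)
      oB := fun b => P ((β b).2.2, (β b).1)
      iA := fun a => A ((α a).2.1, (α a).1, (α a).2.2)
      iB := fun b => B ((β b).2.1, (β b).1, (β b).2.2)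
      tr := fun a b => if h : ∃ x, sq a b x then
        A (h.choose.1, h.choose.2.1, h.choose.2.2.2) else a
      tl := fun a b => if h : ∃ x, sq a b x then
        B (h.choose.2.2.1, h.choose.2.2.2, h.choose.2.1) else b }
  have sqe : ∀ v v' w w', S.Adj v v' → T.Adj w w' → ∃ x : V × V × W × W,
      S.Adj x.1 x.2.1 ∧ T.Adj x.2.2.1 x.2.2.2 ∧
      X.tr (A (v, v', w)) (B (w, w', v)) = A (x.1, x.2.1, x.2.2.2) ∧
      X.tl (A (v, v', w)) (B (w, w', v)) = B (x.2.2.1, x.2.2.2, x.2.1) ∧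
      ∃ g : G, g • x.1 = v ∧ g • x.2.1 = v' ∧ g • x.2.2.1 = w ∧ g • x.2.2.2 = w' := by
    intro v v' w w' hv hw
    have h : ∃ x, sq (A (v, v', w)) (B (w, w', v)) x := ⟨(v, v', w, w'), hv, hw, rfl, rfl⟩
    have h1 := h.choose_spec
    refine ⟨h.choose, h1.1, h1.2.1, ?_, ?_, ?_⟩
    · simp only [X, dif_pos h]
    · simp only [X, dif_pos h]
    · obtain ⟨g, hg1, hg2, hg3⟩ := (hA _ _ _ _ _ _ h1.1 hv).1 h1.2.2.1
      obtain ⟨k, hk1, hk2, hk3⟩ := (hB _ _ _ _ _ _ h1.2.1 hw).1 h1.2.2.2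
      have h2 : k⁻¹ * g = 1 := by
        refine L.free _ h.choose.1 h.choose.2.2.1 ?_ ?_
        · rw [mul_smul, hg1, inv_smul_eq_iff]; exact hk3.symm
        · rw [mul_smul, hg3, inv_smul_eq_iff]; exact hk1.symm
      have h3 : k = g := inv_mul_eq_one.1 h2
      rw [h3] at hk2
      exact ⟨g, hg1, hg2, hg3, hk2⟩
  let LL : LP X S T :=
    { p := fun v w => P (v, w)
      al := fun v v' w => A (v, v', w)
      be := fun v w w' => B (w, w', v)
      oal := by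
        intro v v' w h
        obtain ⟨g, h1, h2, h3⟩ := (hA _ _ _ _ _ _ (hαd _) h).1 (hαe (A (v, v', w)))
        exact (hP _ _ _ _).2 ⟨g, h1, h3⟩
      obe := by
        intro v w w' h
        obtain ⟨g, h1, h2, h3⟩ := (hB _ _ _ _ _ _ (hβd _) h).1 (hβe (B (w, w', v)))
        exact (hP _ _ _ _).2 ⟨g, h3, h1⟩
      ial := by
        intro v v' w h
        obtain ⟨g, h1, h2, h3⟩ := (hA _ _ _ _ _ _ (hαd _) h).1 (hαe (A (v, v', w)))
        exact ((hA _ _ _ _ _ _ (hαd _).symm h.symm).2 ⟨g, h2, h1, h3⟩).symm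
      ibe := by
        intro v w w' h
        obtain ⟨g, h1, h2, h3⟩ := (hB _ _ _ _ _ _ (hβd _) h).1 (hβe (B (w, w', v)))
        exact ((hB _ _ _ _ _ _ (hβd _).symm h.symm).2 ⟨g, h2, h1, h3⟩).symm
      tr := by
        intro v v' w w' hv hw
        obtain ⟨x, hx1, hx2, hx3, hx4, g, h1, h2, h3, h4⟩ := sqe v v' w w' hv hw
        rw [hx3]
        exact (hA _ _ _ _ _ _ hx1 hv).2 ⟨g, h1, h2, h4⟩
      tl := by
        intro v v' w w' hv hw
        obtain ⟨x, hx1, hx2, hx3, hx4, g, h1, h2, h3, h4⟩ := sqe v v' w w' hv hw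
        rw [hx4]
        exact (hB _ _ _ _ _ _ hx2 hw).2 ⟨g, h3, h4, h2⟩
      inj_al := by
        intro v x y w hx hy h
        obtain ⟨g, h1, h2, h3⟩ := (hA _ _ _ _ _ _ hx hy).1 h
        rw [L.free g v w h1 h3, one_smul] at h2
        exact h2
      sur_al := by
        intro v w a h
        obtain ⟨g, h1, h2⟩ := (hP _ _ _ _).1 h
        refine ⟨g • (α a).2.1, ?_, ?_⟩
        · rw [← h1]; exact L.hS.adj g _ _ (hαd a)
        · rw [← hαe a]
          refine ((hA _ _ _ _ _ _ (hαd a) ?_).2 ⟨g, h1, ?_, h2⟩).symm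
          · rw [← h1, hαe a]; exact L.hS.adj g _ _ (hαd a)
          · rw [hαe a]
      inj_be := by
        intro v w x y hx hy h
        obtain ⟨g, h1, h2, h3⟩ := (hB _ _ _ _ _ _ hx hy).1 h
        rw [L.free g v w h3 h1, one_smul] at h2
        exact h2
      sur_be := by
        intro v w b h
        obtain ⟨g, h1, h2⟩ := (hP _ _ _ _).1 h
        refine ⟨g • (β b).2.1, ?_, ?_⟩
        · rw [← h2]; exact L.hT.adj g _ _ (hβd b)
        · rw [← hβe b]
          refine ((hB _ _ _ _ _ _ (hβd b) ?_).2 ⟨g, h2, ?_, h1⟩).symm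
          · rw [← h2, hβe b]; exact L.hT.adj g _ _ (hβd b)
          · rw [hβe b] }
  refine ⟨nP, nA, nB, X, LL, ?_⟩
  exact
    { adjS := L.hS.adj
      adjT := L.hT.adj
      gp := fun g v w => ((hP _ _ _ _).2 ⟨g, rfl, rfl⟩).symm
      gal := fun g v v' w h => ((hA _ _ _ _ _ _ h (L.hS.adj g _ _ h)).2 ⟨g, rfl, rfl, rfl⟩).symm
      gbe := fun g v w w' h => ((hB _ _ _ _ _ _ h (L.hT.adj g _ _ h)).2 ⟨g, rfl, rfl, rfl⟩).symm
      free := L.free
      trans := fun v w v' w' h => (hP _ _ _ _).1 h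
      onto := fun q => by
        obtain ⟨x, _, hx⟩ := hP1 q
        exact ⟨x.1, x.2, hx⟩ }

end QUOT

end LatIso
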