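import Pool.Agent.Lib.MP_32d917_al.ST1

/-!
# Reduction: collapsing edges
-/

set_option autoImplicit false

namespace LatIso

/-! ### Acyclicity by cuts -/

theorem red_acyclic {V : Type} (A : SimpleGraph V)
    (h : ∀ a b, A.Adj a b → ∃ P : V → Prop, P a ∧ ¬ P b ∧
      ∀ a' b', A.Adj a' b' → P a' → ¬ P b' → a' = a ∧ b' = b) : A.IsAcyclic := by
  rw [SimpleGraph.isAcyclic_iff_forall_adj_isBridge]
  intro a b hab
  obtain ⟨P, hPa, hPb, hP⟩ := h a b hab
  rw [SimpleGraph.isBridge_iff_forall_walk_mem_edges]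
  have key : ∀ {x y : V} (p : A.Walk x y), P x → ¬ P y → s(a, b) ∈ p.edges := by
    intro x y p
    induction p with
    | nil => intro h1 h2; exact absurd h1 h2
    | @cons x z y hxz q ih =>
      intro h1 h2
      by_cases hz : P z
      · rw [SimpleGraph.Walk.edges_cons]
        exact List.mem_cons_of_mem _ (ih hz h2)
      · obtain ⟨e1, e2⟩ := hP x z hxz h1 hz
        subst e1 e2
        rw [SimpleGraph.Walk.edges_cons]
        exact List.mem_cons_self
  intro p
  exact key p hPa hPb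

/-- an edge of a tree crossing the cut of the edge `u w` is the edge `u w` -/
theorem red_cut {V : Type} {S : SimpleGraph V} (hS : S.IsTree) {u w u' w' : V} (h : S.Adj u w)
    (h' : S.Adj u' w') (h1 : S.dist u' u < S.dist u' w) (h2 : S.dist w' w < S.dist w' u) :
    u' = u ∧ w' = w := by
  have a1 := st_adj hS h u'
  have a2 := st_adj hS h w'
  have a3 := st_adj hS h' u
  have a4 := st_adj hS h' w
  rw [S.dist_comm (u := u) (v := u'), S.dist_comm (u := u) (v := w')] at a3
  rw [S.dist_comm (u := w) (v := u'), S.dist_comm (u := w) (v := w')] at a4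
  have e1 : S.dist u' w = S.dist u' u + 1 := by omega
  have e2 : S.dist w' u = S.dist w' w + 1 := by omega
  have e3 : S.dist w' w = S.dist u' u := by omega
  have huw : S.dist u w = 1 := SimpleGraph.dist_eq_one_iff_adj.mpr h
  have huw' : S.dist u' w' = 1 := SimpleGraph.dist_eq_one_iff_adj.mpr h'
  have main : u' = u := by
    by_contra hne
    obtain ⟨n, hn1, hn2⟩ := st_next hS (x := u) (y := u') (fun hh => hne hh.symm)
    -- `n` and `w` are both the neighbour of `u` in the direction of `w'`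
    have hun : S.dist u n = 1 := SimpleGraph.dist_eq_one_iff_adj.mpr hn1
    have b1 : Bt S u w w' := by
      unfold Bt
      rw [huw, S.dist_comm (u := w) (v := w'), S.dist_comm (u := u) (v := w')]
      omega
    have b2 : Bt S u n w' := by
      unfold Bt at hn2 ⊢
      have t1 : S.dist n w' ≤ S.dist n u' + S.dist u' w' := hS.1.dist_triangle
      have t2 : S.dist u w' ≤ S.dist u n + S.dist n w' := hS.1.dist_triangle
      rw [S.dist_comm (u := u) (v := u')] at hn2
      rw [S.dist_comm (u := u) (v := w')] at t2 ⊢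
      omega
    have e5 : w = n := st_uniq hS h hn1 b1 b2
    subst e5
    unfold Bt at hn2
    rw [S.dist_comm (u := w) (v := u'), S.dist_comm (u := u) (v := u')] at hn2
    omega
  refine ⟨main, ?_⟩
  subst main
  have : S.dist w' w = 0 := by
    rw [e3]; exact SimpleGraph.dist_self
  exact (hS.1.dist_eq_zero_iff).mp this

/-! ### Contractions -/

/-- the image of a graph under a map -/
def rcG {V V₁ : Type} (S : SimpleGraph V) (r : V → V₁) : SimpleGraph V₁ where
  Adj a b := a ≠ b ∧ ∃ u w, S.Adj u w ∧ r u = a ∧ r w = b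
  symm := by
    constructor
    rintro a b ⟨h, u, w, h1, h2, h3⟩
    exact ⟨h.symm, w, u, h1.symm, h3, h2⟩
  loopless := ⟨fun a h => h.1 rfl⟩

section contraction

variable {V V₁ : Type} {S : SimpleGraph V} {i : V₁ → V} {r : V → V₁}

theorem red_side1 (hS : S.IsTree) (ri : ∀ a, r (i a) = a) (ad : ∀ y, y = i (r y) ∨ S.Adj y (i (r y)))
    {u w : V} (h : S.Adj u w) (hr : r u ≠ r w) (y : V) :
    S.dist y u < S.dist y w ↔ S.dist (i (r y)) u < S.dist (i (r y)) w := by
  rcases ad y with h0 | h0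
  · rw [← h0]
  · have b1 := st_adj hS h y
    have b2 := st_adj hS h (i (r y))
    constructor
    · intro h1
      by_contra h2
      have h3 : S.dist (i (r y)) w < S.dist (i (r y)) u := by omega
      obtain ⟨e1, e2⟩ := red_cut hS h h0 h1 h3
      apply hr
      rw [← e1, ← e2, ri]
    · intro h1
      by_contra h2
      have h3 : S.dist y w < S.dist y u := by omega
      obtain ⟨e1, e2⟩ := red_cut hS h h0.symm h1 h3
      apply hr
      rw [← e1, ← e2, ri]

theorem red_side (hS : S.IsTree) (ri : ∀ a, r (i a) = a) (ad : ∀ y, y = i (r y) ∨ S.Adj y (i (r y)))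
    {u w : V} (h : S.Adj u w) (hr : r u ≠ r w) (y z : V) (hyz : r y = r z) :
    S.dist y u < S.dist y w ↔ S.dist z u < S.dist z w := by
  rw [red_side1 hS ri ad h hr y, red_side1 hS ri ad h hr z, hyz]

theorem red_dart (hS : S.IsTree) (ri : ∀ a, r (i a) = a) (ad : ∀ y, y = i (r y) ∨ S.Adj y (i (r y)))
    {u w u' w' : V} (h : S.Adj u w) (h' : S.Adj u' w') (hr : r u ≠ r w) (e1 : r u' = r u)
    (e2 : r w' = r w) : u' = u ∧ w' = w := by
  have huw : S.dist u w = 1 := SimpleGraph.dist_eq_one_iff_adj.mpr h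
  have h1 : S.dist u' u < S.dist u' w := by
    rw [red_side hS ri ad h hr u' u e1, SimpleGraph.dist_self, huw]; omega
  have h2 : S.dist w' w < S.dist w' u := by
    rw [red_side hS ri ad h.symm hr.symm w' w e2, SimpleGraph.dist_self,
      S.dist_comm (u := w) (v := u), huw]
    omega
  exact red_cut hS h h' h1 h2

theorem red_tree (hS : S.IsTree) (ri : ∀ a, r (i a) = a)
    (ad : ∀ y, y = i (r y) ∨ S.Adj y (i (r y))) : (rcG S r).IsTree := by
  refine ⟨?_, red_acyclic _ ?_⟩
  · haveI : Nonempty V := hS.1.nonempty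
    have : Nonempty V₁ := ⟨r (Classical.arbitrary V)⟩
    rw [SimpleGraph.connected_iff_exists_forall_reachable]
    refine ⟨r (Classical.arbitrary V), ?_⟩
    have key : ∀ {x y : V} (p : S.Walk x y), (rcG S r).Reachable (r x) (r y) := by
      intro x y p
      induction p with
      | nil => exact SimpleGraph.Reachable.refl _
      | @cons x z y hxz q ih =>
        by_cases hh : r x = r z
        · rw [hh]; exact ih
        · refine SimpleGraph.Reachable.trans ?_ ih
          exact SimpleGraph.Adj.reachable (G := rcG S r) ⟨hh, x, z, hxz, rfl, rfl⟩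
    intro w
    obtain ⟨p⟩ := hS.1.preconnected (Classical.arbitrary V) (i w)
    have := key p
    rwa [ri] at this
  · rintro a b ⟨hab, u, w, h, rfl, rfl⟩
    refine ⟨fun c => S.dist (i c) u < S.dist (i c) w, ?_, ?_, ?_⟩
    · show S.dist (i (r u)) u < S.dist (i (r u)) w
      rw [← red_side1 hS ri ad h hab u, SimpleGraph.dist_self,
        SimpleGraph.dist_eq_one_iff_adj.mpr h]
      omega
    · show ¬ S.dist (i (r w)) u < S.dist (i (r w)) w
      rw [← red_side1 hS ri ad h hab w, SimpleGraph.dist_self]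
      omega
    · rintro a' b' ⟨hab', u', w', h', rfl, rfl⟩ h1 h2
      change S.dist (i (r u')) u < S.dist (i (r u')) w at h1
      change ¬ S.dist (i (r w')) u < S.dist (i (r w')) w at h2
      rw [← red_side1 hS ri ad h hab u'] at h1
      rw [← red_side1 hS ri ad h hab w'] at h2
      have b2 := st_adj hS h w'
      obtain ⟨e1, e2⟩ := red_cut hS h h' h1 (by omega)
      rw [e1, e2]
      exact ⟨rfl, rfl⟩

/-- a neighbour `n` of `i a` gives a neighbour of `a` in the contraction: either `r n`, or (if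
`r n = a`) the image of a neighbour of `n` -/
theorem red_leave (hS : S.IsTree) (ri : ∀ a, r (i a) = a)
    (ad : ∀ y, y = i (r y) ∨ S.Adj y (i (r y)))
    (two : ∀ v, ∃ x y, x ≠ y ∧ S.Adj v x ∧ S.Adj v y)
    (a : V₁) (n : V) (hn : S.Adj (i a) n) :
    ∃ p q, (p = i a ∧ q = n ∨ p = n) ∧ S.Adj p q ∧ r p = a ∧ r q ≠ a := by
  by_cases h : r n = a
  · obtain ⟨x, y, hxy, hx, hy⟩ := two n
    obtain ⟨m, hm, hma⟩ : ∃ m, S.Adj n m ∧ m ≠ i a := by
      by_cases hxa : x = i a
      · exact ⟨y, hy, fun hh => hxy (hxa.trans hh.symm)⟩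
      · exact ⟨x, hx, hxa⟩
    refine ⟨n, m, Or.inr rfl, hm, h, ?_⟩
    intro hm2
    rcases ad m with h1 | h1
    · rw [hm2] at h1
      exact hma h1
    · rw [hm2] at h1
      -- triangle
      have t := st_adj hS hm (i a)
      rw [SimpleGraph.dist_eq_one_iff_adj.mpr hn, SimpleGraph.dist_eq_one_iff_adj.mpr h1.symm] at t
      omega
  · exact ⟨i a, n, Or.inl ⟨rfl, rfl⟩, hn, ri a, h⟩

theorem red_leave_ne (hS : S.IsTree) (ri : ∀ a, r (i a) = a)
    (ad : ∀ y, y = i (r y) ∨ S.Adj y (i (r y)))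
    (a : V₁) {p q p' q' : V} (h : S.Adj p q) (h' : S.Adj p' q') (hp : r p = a) (hp' : r p' = a)
    (hq : r q ≠ a) (hne : ¬ (p' = p ∧ q' = q)) : r q ≠ r q' := by
  intro hh
  apply hne
  refine red_dart hS ri ad h h' ?_ (hp'.trans hp.symm) hh.symm
  rw [hp]
  exact hq.symm

theorem red_two (hS : S.IsTree) (ri : ∀ a, r (i a) = a)
    (ad : ∀ y, y = i (r y) ∨ S.Adj y (i (r y)))
    (two : ∀ v, ∃ x y, x ≠ y ∧ S.Adj v x ∧ S.Adj v y) (a : V₁) :
    ∃ x y, x ≠ y ∧ (rcG S r).Adj a x ∧ (rcG S r).Adj a y := by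
  obtain ⟨n, n', hne, hn, hn'⟩ := two (i a)
  obtain ⟨p, q, h1, h2, h3, h4⟩ := red_leave hS ri ad two a n hn
  obtain ⟨p', q', h1', h2', h3', h4'⟩ := red_leave hS ri ad two a n' hn'
  refine ⟨r q, r q', ?_, ⟨h4.symm, p, q, h2, h3, rfl⟩, ⟨h4'.symm, p', q', h2', h3', rfl⟩⟩
  apply red_leave_ne hS ri ad a h2 h2' h3 h3' h4
  rintro ⟨e1, e2⟩
  rcases h1 with ⟨g1, g2⟩ | g1 <;> rcases h1' with ⟨g1', g2'⟩ | g1'
  · exact hne (by rw [← g2, ← g2', e2])
  · exact hn'.ne (by rw [← g1', e1, g1])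
  · exact hn.ne (by rw [← g1, ← e1, g1'])
  · exact hne (by rw [← g1, ← g1', e1])

theorem red_three (hS : S.IsTree) (ri : ∀ a, r (i a) = a)
    (ad : ∀ y, y = i (r y) ∨ S.Adj y (i (r y)))
    (two : ∀ v, ∃ x y, x ≠ y ∧ S.Adj v x ∧ S.Adj v y)
    (three : ∃ v x y z, x ≠ y ∧ y ≠ z ∧ x ≠ z ∧ S.Adj v x ∧ S.Adj v y ∧ S.Adj v z) :
    ∃ v x y z, x ≠ y ∧ y ≠ z ∧ x ≠ z ∧ (rcG S r).Adj v x ∧ (rcG S r).Adj v y ∧
      (rcG S r).Adj v z := by
  obtain ⟨v, x, y, z, hxy, hyz, hxz, hx, hy, hz⟩ := three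
  rcases ad v with hv | hv
  · -- `v = i (r v)`
    set a := r v with ha
    rw [hv] at hx hy hz
    obtain ⟨p, q, h1, h2, h3, h4⟩ := red_leave hS ri ad two a x hx
    obtain ⟨p', q', h1', h2', h3', h4'⟩ := red_leave hS ri ad two a y hy
    obtain ⟨p'', q'', h1'', h2'', h3'', h4''⟩ := red_leave hS ri ad two a z hz
    have gen : ∀ {n n' p q p' q' : V}, n ≠ n' → S.Adj (i a) n → S.Adj (i a) n' →
        (p = i a ∧ q = n ∨ p = n) → (p' = i a ∧ q' = n' ∨ p' = n') → ¬ (p' = p ∧ q' = q) := by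
      rintro n n' p q p' q' hne hn hn' h1 h1' ⟨e1, e2⟩
      rcases h1 with ⟨g1, g2⟩ | g1 <;> rcases h1' with ⟨g1', g2'⟩ | g1'
      · exact hne (by rw [← g2, ← g2', e2])
      · exact hn'.ne (by rw [← g1', e1, g1])
      · exact hn.ne (by rw [← g1, ← e1, g1'])
      · exact hne (by rw [← g1, ← g1', e1])
    refine ⟨a, r q, r q', r q'', ?_, ?_, ?_, ⟨h4.symm, p, q, h2, h3, rfl⟩,
      ⟨h4'.symm, p', q', h2', h3', rfl⟩, ⟨h4''.symm, p'', q'', h2'', h3'', rfl⟩⟩
    · exact red_leave_ne hS ri ad a h2 h2' h3 h3' h4 (gen hxy hx hy h1 h1')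
    · exact red_leave_ne hS ri ad a h2' h2'' h3' h3'' h4' (gen hyz hy hz h1' h1'')
    · exact red_leave_ne hS ri ad a h2 h2'' h3 h3'' h4 (gen hxz hx hz h1 h1'')
  · -- `v` is adjacent to `i a`
    set a := r v with ha
    -- two neighbours of `v` different from `i a`
    obtain ⟨m, m', hmm, hm, hm', hma, hma'⟩ : ∃ m m', m ≠ m' ∧ S.Adj v m ∧ S.Adj v m' ∧
        m ≠ i a ∧ m' ≠ i a := by
      by_cases h1 : x = i a
      · exact ⟨y, z, hyz, hy, hz, fun h => hxy (h1.trans h.symm), fun h => hxz (h1.trans h.symm)⟩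
      · by_cases h2 : y = i a
        · exact ⟨x, z, hxz, hx, hz, h1, fun h => hyz (h2.trans h.symm)⟩
        · exact ⟨x, y, hxy, hx, hy, h1, h2⟩
    have out : ∀ m, S.Adj v m → m ≠ i a → r m ≠ a := by
      intro m hm hma hm2
      rcases ad m with h1 | h1
      · rw [hm2] at h1
        exact hma h1
      · rw [hm2] at h1
        have t := st_adj hS hm (i a)
        rw [SimpleGraph.dist_eq_one_iff_adj.mpr hv.symm,
          SimpleGraph.dist_eq_one_iff_adj.mpr h1.symm] at t
        omega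
    obtain ⟨n, hn, hnv⟩ : ∃ n, S.Adj (i a) n ∧ n ≠ v := by
      obtain ⟨n, n', hne, hn, hn'⟩ := two (i a)
      by_cases h1 : n = v
      · exact ⟨n', hn', fun h => hne (h1.trans h.symm)⟩
      · exact ⟨n, hn, h1⟩
    obtain ⟨p, q, h1, h2, h3, h4⟩ := red_leave hS ri ad two a n hn
    have hpv : p ≠ v := by
      rcases h1 with ⟨g1, -⟩ | g1
      · rw [g1]; exact hv.ne.symm
      · rw [g1]; exact hnv
    refine ⟨a, r m, r m', r q, ?_, ?_, ?_, ⟨(out m hm hma).symm, v, m, hm, rfl, rfl⟩,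
      ⟨(out m' hm' hma').symm, v, m', hm', rfl, rfl⟩, ⟨h4.symm, p, q, h2, h3, rfl⟩⟩
    · exact red_leave_ne hS ri ad a hm hm' rfl rfl (out m hm hma) (fun h => hmm h.2.symm)
    · exact red_leave_ne hS ri ad a hm' h2 rfl h3 (out m' hm' hma') (fun h => hpv h.1)
    · exact red_leave_ne hS ri ad a hm h2 rfl h3 (out m hm hma) (fun h => hpv h.1)

theorem red_loc (hS : S.IsTree) (ri : ∀ a, r (i a) = a)
    (ad : ∀ y, y = i (r y) ∨ S.Adj y (i (r y))) (loc : ∀ v, (S.neighborSet v).Finite) (a : V₁) :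
    ((rcG S r).neighborSet a).Finite := by
  have h1 : ((rcG S r).neighborSet a) ⊆
      r '' (⋃ u ∈ insert (i a) (S.neighborSet (i a)), S.neighborSet u) := by
    rintro b ⟨-, u, w, h, rfl, rfl⟩
    refine ⟨w, ?_, rfl⟩
    rw [Set.mem_iUnion₂]
    refine ⟨u, ?_, h⟩
    rcases ad u with h2 | h2
    · left; exact h2
    · right; exact h2.symm
  refine Set.Finite.subset (Set.Finite.image r ?_) h1
  exact Set.Finite.biUnion ((loc (i a)).insert _) (fun u _ => loc u)

end contraction

section lattice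

variable {G : Type} [Group G] {V V₁ W : Type} [MulAction G V] [MulAction G V₁] [MulAction G W]
  {S : SimpleGraph V} {T : SimpleGraph W} {i : V₁ → V} {r : V → V₁}

theorem red_lat (L : Lat G S T) (gi : ∀ (g : G) a, i (g • a) = g • i a)
    (gr : ∀ (g : G) y, r (g • y) = g • r y) (ri : ∀ a, r (i a) = a)
    (ad : ∀ y, y = i (r y) ∨ S.Adj y (i (r y))) : Lat G (rcG S r) T := by
  have hS := L.hS.tree
  refine ⟨⟨red_tree hS ri ad, ?_, ?_⟩, L.hT, red_loc hS ri ad L.locS, L.locT,
    red_two hS ri ad L.twoS, L.twoT, red_three hS ri ad L.twoS L.threeS, L.threeT, ?_, ?_⟩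
  · rintro g a b ⟨hab, u, w, h, rfl, rfl⟩
    refine ⟨?_, g • u, g • w, L.hS.adj g u w h, gr g u, gr g w⟩
    intro hh
    exact hab (MulAction.injective g hh)
  · rintro g a b ⟨hab, u, w, h, rfl, rfl⟩ h1 h2
    have e := red_dart hS ri ad h.symm (L.hS.adj g u w h) hab.symm (by rw [gr, h1])
      (by rw [gr, h2])
    exact L.hS.noinv g u w h e.1 e.2
  · intro g a w h1 h2
    refine L.free g (i a) w ?_ h2
    rw [← gi, h1]
  · obtain ⟨F, hF⟩ := L.fin
    classical
    refine ⟨F.image (fun x => (r x.1, x.2)), ?_⟩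
    intro a w
    obtain ⟨g, hg⟩ := hF (i a) w
    refine ⟨g, ?_⟩
    rw [Finset.mem_image]
    refine ⟨_, hg, ?_⟩
    simp only [gr, ri]

/-- number of orbits on the product -/
noncomputable def rcN (G V W : Type) [Group G] [MulAction G V] [MulAction G W] : ℕ :=
  Nat.card (MulAction.orbitRel.Quotient G (V × W))

theorem rcN_fin (L : Lat G S T) : Finite (MulAction.orbitRel.Quotient G (V × W)) := by
  obtain ⟨F, hF⟩ := L.fin
  let f : F → MulAction.orbitRel.Quotient G (V × W) := fun x => Quotient.mk'' x.1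
  refine Finite.of_surjective f ?_
  intro q
  induction q using Quotient.inductionOn' with
  | h x =>
    obtain ⟨g, hg⟩ := hF x.1 x.2
    refine ⟨⟨_, hg⟩, ?_⟩
    apply Quotient.sound'
    exact ⟨g, rfl⟩

theorem rcN_comm : rcN G V W = rcN G W V := by
  unfold rcN
  refine Nat.card_congr ?_
  refine Quotient.congr (Equiv.prodComm V W) ?_
  intro a b
  constructor
  · rintro ⟨g, hg⟩
    refine ⟨g, ?_⟩
    have := congrArg (Equiv.prodComm V W) hg
    exact this
  · rintro ⟨g, hg⟩
    refine ⟨g, ?_⟩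
    have := congrArg (Equiv.prodComm V W).symm hg
    exact this

theorem rcN_lt (L : Lat G S T) (gi : ∀ (g : G) a, i (g • a) = g • i a)
    (ii : Function.Injective i) (v : V) (hv : ∀ a, i a ≠ v) : rcN G V₁ W < rcN G V W := by
  haveI := rcN_fin L
  obtain ⟨w⟩ : Nonempty W := L.hT.tree.1.nonempty
  let f : MulAction.orbitRel.Quotient G (V₁ × W) → MulAction.orbitRel.Quotient G (V × W) :=
    Quotient.map' (fun x => (i x.1, x.2)) (by
      rintro a b ⟨g, hg⟩
      refine ⟨g, ?_⟩
      have h1 : g • b = a := hg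
      show g • (i b.1, b.2) = (i a.1, a.2)
      rw [← h1]
      exact Prod.ext (gi g b.1).symm rfl)
  have hf : Function.Injective f := by
    intro q q' h
    induction q using Quotient.inductionOn' with
    | h a =>
      induction q' using Quotient.inductionOn' with
      | h b =>
        have h1 := Quotient.exact h
        obtain ⟨g, hg⟩ := h1
        apply Quotient.sound'
        refine ⟨g, ?_⟩
        have h2 : g • (i b.1, b.2) = (i a.1, a.2) := hg
        have h3 := congrArg Prod.fst h2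
        have h4 := congrArg Prod.snd h2
        show g • b = a
        refine Prod.ext ?_ h4
        apply ii
        show i (g • b.1) = i a.1
        rw [gi]
        exact h3
  have hns : ¬ Function.Surjective f := by
    intro hs
    obtain ⟨q, hq⟩ := hs (Quotient.mk'' (v, w))
    induction q using Quotient.inductionOn' with
    | h a =>
      obtain ⟨g, hg⟩ := Quotient.exact hq
      have h2 : g • (v, w) = (i a.1, a.2) := hg
      have h3 : g • v = i a.1 := congrArg Prod.fst h2
      apply hv (g⁻¹ • a.1)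
      rw [gi, ← h3, inv_smul_smul]
  unfold rcN
  haveI : Finite (MulAction.orbitRel.Quotient G (V₁ × W)) := Finite.of_injective f hf
  have h5 : Nat.card (MulAction.orbitRel.Quotient G (V₁ × W)) ≤
      Nat.card (MulAction.orbitRel.Quotient G (V × W)) := Nat.card_le_card_of_injective f hf
  refine lt_of_le_of_ne h5 ?_
  intro heq
  apply hns
  have hb : Function.Bijective f := (Nat.bijective_iff_injective_and_card f).mpr ⟨hf, heq⟩
  exact hb.2

/-- one collapse -/
theorem red_step (L : Lat G S T) (hS : ¬ Red G S) :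
    ∃ (V₁ : Type) (_ : MulAction G V₁) (S₁ : SimpleGraph V₁), Lat G S₁ T ∧
      rcN G V₁ W < rcN G V W := by
  unfold Red at hS
  push Not at hS
  obtain ⟨v, x, hvx, h1, h2⟩ := hS
  -- the complement of the orbit of `v`
  let V₁ : Type := {y : V // ∀ g : G, g • v ≠ y}
  letI act : MulAction G V₁ :=
    { smul := fun g y => ⟨g • y.1, fun k hk => y.2 (g⁻¹ * k) (by rw [mul_smul, hk, inv_smul_smul])⟩
      one_smul := fun y => Subtype.ext (one_smul G y.1)
      mul_smul := fun g k y => Subtype.ext (mul_smul g k y.1) }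
  have hsm : ∀ (g : G) (y : V₁), (g • y).1 = g • y.1 := fun g y => rfl
  have hx : ∀ g : G, g • v ≠ x := h2
  have hgx : ∀ k g : G, g • v ≠ k • x := by
    intro k g hh
    apply hx (k⁻¹ * g)
    rw [mul_smul, hh, inv_smul_smul]
  classical
  let r : V → V₁ := fun y => if h : ∃ g : G, g • v = y then ⟨h.choose • x, hgx _⟩ else
    ⟨y, fun g hg => h ⟨g, hg⟩⟩
  have r1 : ∀ g : G, (r (g • v)).1 = g • x := by
    intro g
    have hex : ∃ k : G, k • v = g • v := ⟨g, rfl⟩
    have e1 : (r (g • v)).1 = hex.choose • x := by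
      show (if h : ∃ k : G, k • v = g • v then (⟨h.choose • x, hgx _⟩ : V₁) else
        ⟨g • v, fun k hk => h ⟨k, hk⟩⟩).1 = _
      rw [dif_pos hex]
    have e2 := hex.choose_spec
    rw [e1]
    have e3 : (g⁻¹ * hex.choose) • v = v := by
      rw [mul_smul, e2, inv_smul_smul]
    have e4 := h1 _ e3
    rw [mul_smul, inv_smul_eq_iff] at e4
    exact e4
  have r2 : ∀ y : V, (∀ g : G, g • v ≠ y) → (r y).1 = y := by
    intro y hy
    have hex : ¬ ∃ g : G, g • v = y := fun ⟨g, hg⟩ => hy g hg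
    show (if h : ∃ k : G, k • v = y then (⟨h.choose • x, hgx _⟩ : V₁) else
        ⟨y, fun k hk => h ⟨k, hk⟩⟩).1 = _
    rw [dif_neg hex]
  have gr : ∀ (g : G) y, r (g • y) = g • r y := by
    intro g y
    apply Subtype.ext
    rw [hsm]
    by_cases hy : ∃ k : G, k • v = y
    · obtain ⟨k, rfl⟩ := hy
      rw [← mul_smul, r1, r1, mul_smul]
    · have hy1 : ∀ k : G, k • v ≠ y := fun k hk => hy ⟨k, hk⟩
      have hy2 : ∀ k : G, k • v ≠ g • y := fun k hk => hy1 (g⁻¹ * k) (by
        rw [mul_smul, hk, inv_smul_smul])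
      rw [r2 _ hy1, r2 _ hy2]
  have ad : ∀ y, y = (r y).1 ∨ S.Adj y (r y).1 := by
    intro y
    by_cases hy : ∃ k : G, k • v = y
    · obtain ⟨k, rfl⟩ := hy
      right
      rw [r1]
      exact L.hS.adj k v x hvx
    · left
      exact (r2 y fun k hk => hy ⟨k, hk⟩).symm
  refine ⟨V₁, act, rcG S r, red_lat (i := fun a : V₁ => a.1) L hsm gr ?_ ad,
    rcN_lt (i := fun a : V₁ => a.1) L hsm Subtype.val_injective v ?_⟩
  · intro a
    exact Subtype.ext (r2 a.1 a.2)
  · intro a h
    exact a.2 1 (by rw [one_smul]; exact h.symm)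

theorem red_symm (L : Lat G S T) : Lat G T S := by
  refine ⟨L.hT, L.hS, L.locT, L.locS, L.twoT, L.twoS, L.threeT, L.threeS,
    fun g w v h1 h2 => L.free g v w h2 h1, ?_⟩
  obtain ⟨F, hF⟩ := L.fin
  classical
  refine ⟨F.image Prod.swap, fun w v => ?_⟩
  obtain ⟨g, hg⟩ := hF v w
  exact ⟨g, Finset.mem_image.mpr ⟨_, hg, rfl⟩⟩

end lattice

/-- (5.8) -/
theorem red_exists {G V W : Type} [Group G] [MulAction G V] [MulAction G W] {S : SimpleGraph V}
    {T : SimpleGraph W} (L : Lat G S T) : IsRedLattice G := by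
  have key : ∀ n : ℕ, ∀ (V W : Type) [MulAction G V] [MulAction G W] (S : SimpleGraph V)
      (T : SimpleGraph W), Lat G S T → rcN G V W = n → IsRedLattice G := by
    intro n
    induction n using Nat.strong_induction_on with
    | _ n ih =>
      intro V W _ _ S T L hn
      by_cases hS : Red G S
      · by_cases hT : Red G T
        · exact ⟨V, W, _, _, S, T, L, hS, hT⟩
        · obtain ⟨V₁, _, S₁, L₁, hlt⟩ := red_step (red_symm L) hT
          exact ih (rcN G V₁ V) (by rw [← hn, rcN_comm (G := G) (V := V) (W := W)]; exact hlt) V₁ V S₁ S L₁ rfl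
      · obtain ⟨V₁, _, S₁, L₁, hlt⟩ := red_step L hS
        exact ih (rcN G V₁ W) (by rw [← hn]; exact hlt) V₁ W S₁ T L₁ rfl
  exact key _ V W S T L rfl

end LatIso
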