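import Pool.Agent.Lib.MP_32d917_al.RED

/-!
# Barycentric subdivision
-/

set_option autoImplicit false

namespace LatIso

theorem subd_acyclic {V : Type} (A : SimpleGraph V)
    (h : ∀ a b, A.Adj a b → ∃ P : V → Prop, (P a ∧ ¬ P b ∨ P b ∧ ¬ P a) ∧
      ∀ a' b', A.Adj a' b' → P a' → ¬ P b' → s(a', b') = s(a, b)) : A.IsAcyclic := by
  rw [SimpleGraph.isAcyclic_iff_forall_adj_isBridge]
  intro a b hab
  obtain ⟨P, hPab, hP⟩ := h a b hab
  rw [SimpleGraph.isBridge_iff_forall_walk_mem_edges]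
  have key : ∀ {x y : V} (p : A.Walk x y), P x → ¬ P y → s(a, b) ∈ p.edges := by
    intro x y p
    induction p with
    | nil => intro h1 h2; exact absurd h1 h2
    | @cons x z y hxz q ih =>
      intro h1 h2
      by_cases hz : P z
      · rw [SimpleGraph.Walk.edges_cons]
        exact List.mem_cons_of_mem _ (ih hz h2)
      · rw [← hP x z hxz h1 hz, SimpleGraph.Walk.edges_cons]
        exact List.mem_cons_self
  have key2 : ∀ {x y : V} (p : A.Walk x y), ¬ P x → P y → s(a, b) ∈ p.edges := by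
    intro x y p h1 h2
    have := key p.reverse h2 h1
    rwa [SimpleGraph.Walk.edges_reverse, List.mem_reverse] at this
  intro p
  rcases hPab with ⟨h1, h2⟩ | ⟨h1, h2⟩
  · exact key p h1 h2
  · exact key2 p h2 h1

section

variable {V : Type} (S : SimpleGraph V)

/-- vertices of the subdivision: unordered pairs of equal or adjacent vertices -/
def SbV : Type := {x : Sym2 V // ∃ a b, x = s(a, b) ∧ (a = b ∨ S.Adj a b)}

/-- the subdivision -/
def sbG : SimpleGraph (SbV S) where
  Adj x y := ∃ a b, S.Adj a b ∧ ((x.1 = s(a, a) ∧ y.1 = s(a, b)) ∨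
    (y.1 = s(a, a) ∧ x.1 = s(a, b)))
  symm := by
    constructor
    rintro x y ⟨a, b, h, h1⟩
    exact ⟨a, b, h, h1.symm⟩
  loopless := by
    constructor
    rintro x ⟨a, b, h, h1⟩
    have h2 : s(a, a) = s(a, b) := by
      rcases h1 with ⟨e1, e2⟩ | ⟨e1, e2⟩ <;> rw [← e1, ← e2]
    rw [Sym2.eq_iff] at h2
    rcases h2 with h2 | h2
    · exact h.ne h2.2
    · exact h.ne h2.1

/-- the point `s(a, b)` -/
def sbP (a b : V) (h : a = b ∨ S.Adj a b) : SbV S := ⟨s(a, b), a, b, rfl, h⟩

variable {S}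

theorem sbG_adj {a b : V} (h : S.Adj a b) : (sbG S).Adj (sbP S a a (Or.inl rfl))
    (sbP S a b (Or.inr h)) := ⟨a, b, h, Or.inl ⟨rfl, rfl⟩⟩

theorem sb_tree (hS : S.IsTree) : (sbG S).IsTree := by
  refine ⟨?_, subd_acyclic _ ?_⟩
  · have : Nonempty V := hS.1.nonempty
    have hne : Nonempty (SbV S) := ⟨sbP S (Classical.arbitrary V) (Classical.arbitrary V)
      (Or.inl rfl)⟩
    rw [SimpleGraph.connected_iff_exists_forall_reachable]
    refine ⟨sbP S (Classical.arbitrary V) (Classical.arbitrary V) (Or.inl rfl), ?_⟩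
    have key : ∀ {x y : V} (p : S.Walk x y), (sbG S).Reachable (sbP S x x (Or.inl rfl))
        (sbP S y y (Or.inl rfl)) := by
      intro x y p
      induction p with
      | nil => exact SimpleGraph.Reachable.refl _
      | @cons x z y hxz q ih =>
        refine SimpleGraph.Reachable.trans ?_ ih
        refine (sbG_adj hxz).reachable.trans ?_
        have h1 := sbG_adj hxz.symm
        have h2 : sbP S z x (Or.inr hxz.symm) = sbP S x z (Or.inr hxz) := Subtype.ext Sym2.eq_swap
        rw [h2] at h1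
        exact h1.symm.reachable
    rintro ⟨x, a, b, rfl, hab⟩
    obtain ⟨p⟩ := hS.1.preconnected (Classical.arbitrary V) a
    refine (key p).trans ?_
    by_cases h : a = b
    · subst h
      exact SimpleGraph.Reachable.refl _
    · exact (sbG_adj (hab.resolve_left h)).reachable
  · rintro x y ⟨a, b, hab, hxy⟩
    refine ⟨fun z => ∀ c ∈ z.1, S.dist c a < S.dist c b, ?_, ?_⟩
    · have h1 : ∀ z : SbV S, z.1 = s(a, a) → ∀ c ∈ z.1, S.dist c a < S.dist c b := by
        intro z hz c hc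
        rw [hz, Sym2.mem_iff] at hc
        have hca : c = a := by
          rcases hc with h | h <;> exact h
        rw [hca, SimpleGraph.dist_self, SimpleGraph.dist_eq_one_iff_adj.mpr hab]
        omega
      have h2 : ∀ z : SbV S, z.1 = s(a, b) → ¬ ∀ c ∈ z.1, S.dist c a < S.dist c b := by
        intro z hz hh
        have h3 := hh b (by rw [hz]; exact Sym2.mem_mk_right a b)
        rw [SimpleGraph.dist_self] at h3
        omega
      rcases hxy with ⟨e1, e2⟩ | ⟨e1, e2⟩
      · exact Or.inl ⟨h1 x e1, h2 y e2⟩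
      · exact Or.inr ⟨h1 y e1, h2 x e2⟩
    · rintro x' y' ⟨c, d, hcd, hxy'⟩ h1 h2
      rcases hxy' with ⟨e1, e2⟩ | ⟨e1, e2⟩
      · have h3 : S.dist c a < S.dist c b := h1 c (by rw [e1]; exact Sym2.mem_mk_left c c)
        have h4 : ¬ S.dist d a < S.dist d b := by
          intro h4
          apply h2
          intro k hk
          rw [e2, Sym2.mem_iff] at hk
          rcases hk with rfl | rfl
          · exact h3
          · exact h4
        have h5 := st_adj hS hab d
        obtain ⟨r1, r2⟩ := red_cut hS hab hcd h3 (by omega)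
        subst r1 r2
        rcases hxy with ⟨f1, f2⟩ | ⟨f1, f2⟩
        · have g1 : x' = x := Subtype.ext (e1.trans f1.symm)
          have g2 : y' = y := Subtype.ext (e2.trans f2.symm)
          rw [g1, g2]
        · have g1 : x' = y := Subtype.ext (e1.trans f1.symm)
          have g2 : y' = x := Subtype.ext (e2.trans f2.symm)
          rw [g1, g2]
          exact Sym2.eq_swap
      · exfalso
        apply h2
        intro k hk
        rw [e1, Sym2.mem_iff] at hk
        have hkc : k = c := by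
          rcases hk with h | h <;> exact h
        rw [hkc]
        exact h1 c (by rw [e2]; exact Sym2.mem_mk_left c d)

theorem sb_loc (loc : ∀ v, (S.neighborSet v).Finite) (x : SbV S) :
    ((sbG S).neighborSet x).Finite := by
  obtain ⟨x, u, w, rfl, huw⟩ := x
  -- all neighbours are pairs of elements of a finite set
  let K : Set V := insert u (insert w (S.neighborSet u ∪ S.neighborSet w))
  have hK : K.Finite := (((loc u).union (loc w)).insert w).insert u
  have h1 : Subtype.val '' ((sbG S).neighborSet ⟨s(u, w), u, w, rfl, huw⟩) ⊆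
      (fun p : V × V => s(p.1, p.2)) '' (K ×ˢ K) := by
    rintro - ⟨y, ⟨a, b, hab, hxy⟩, rfl⟩
    rcases hxy with ⟨e1, e2⟩ | ⟨e1, e2⟩
    · have e3 : s(u, w) = s(a, a) := e1
      rw [Sym2.eq_iff] at e3
      have hu : u = a := by rcases e3 with h | h; exacts [h.1, h.1]
      refine ⟨(a, b), ⟨Or.inl hu.symm, ?_⟩, e2.symm⟩
      right; right; left
      rw [hu]
      exact hab
    · have e3 : s(u, w) = s(a, b) := e2
      rw [Sym2.eq_iff] at e3
      refine ⟨(a, a), ?_, e1.symm⟩
      rcases e3 with h | h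
      · exact ⟨Or.inl h.1.symm, Or.inl h.1.symm⟩
      · exact ⟨Or.inr (Or.inl h.2.symm), Or.inr (Or.inl h.2.symm)⟩
  have h2 : (Subtype.val '' ((sbG S).neighborSet ⟨s(u, w), u, w, rfl, huw⟩)).Finite :=
    Set.Finite.subset ((hK.prod hK).image _) h1
  exact Set.Finite.of_finite_image h2 Subtype.val_injective.injOn

theorem sb_ne {a b c : V} (h : b ≠ c) (h1 : a = b ∨ S.Adj a b) (h2 : a = c ∨ S.Adj a c) :
    sbP S a b h1 ≠ sbP S a c h2 := by
  intro hh
  have h3 : s(a, b) = s(a, c) := congrArg Subtype.val hh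
  rw [Sym2.eq_iff] at h3
  rcases h3 with h3 | h3
  · exact h h3.2
  · exact h (h3.2.trans h3.1)

theorem sb_two (two : ∀ v, ∃ x y, x ≠ y ∧ S.Adj v x ∧ S.Adj v y) (v : SbV S) :
    ∃ x y, x ≠ y ∧ (sbG S).Adj v x ∧ (sbG S).Adj v y := by
  obtain ⟨v, a, b, rfl, hab⟩ := v
  by_cases h : a = b
  · subst h
    obtain ⟨x, y, hxy, hx, hy⟩ := two a
    exact ⟨sbP S a x (Or.inr hx), sbP S a y (Or.inr hy), sb_ne hxy _ _, sbG_adj hx, sbG_adj hy⟩
  · have hab' := hab.resolve_left h
    refine ⟨sbP S a a (Or.inl rfl), sbP S b b (Or.inl rfl), ?_, (sbG_adj hab').symm, ?_⟩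
    · intro hh
      have h3 : s(a, a) = s(b, b) := congrArg Subtype.val hh
      rw [Sym2.eq_iff] at h3
      rcases h3 with h3 | h3
      · exact h h3.1
      · exact h h3.1
    · exact ⟨b, a, hab'.symm, Or.inr ⟨rfl, Sym2.eq_swap⟩⟩

theorem sb_three (three : ∃ v x y z, x ≠ y ∧ y ≠ z ∧ x ≠ z ∧ S.Adj v x ∧ S.Adj v y ∧ S.Adj v z) :
    ∃ v x y z, x ≠ y ∧ y ≠ z ∧ x ≠ z ∧ (sbG S).Adj v x ∧ (sbG S).Adj v y ∧ (sbG S).Adj v z := by
  obtain ⟨v, x, y, z, hxy, hyz, hxz, hx, hy, hz⟩ := three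
  exact ⟨sbP S v v (Or.inl rfl), sbP S v x (Or.inr hx), sbP S v y (Or.inr hy),
    sbP S v z (Or.inr hz), sb_ne hxy _ _, sb_ne hyz _ _, sb_ne hxz _ _, sbG_adj hx, sbG_adj hy,
    sbG_adj hz⟩

variable {G : Type} [Group G] [MulAction G V]

/-- the action on the subdivision -/
@[reducible] def sbAct (adj : ∀ (g : G) (x y : V), S.Adj x y → S.Adj (g • x) (g • y)) :
    MulAction G (SbV S) where
  smul g x := ⟨x.1.map (fun v => g • v), by
    obtain ⟨a, b, h, h1⟩ := x.2
    refine ⟨g • a, g • b, by rw [h]; rfl, h1.imp (fun e => by rw [e]) (adj g a b)⟩⟩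
  one_smul x := Subtype.ext (by
    show x.1.map (fun v => (1 : G) • v) = x.1
    simp)
  mul_smul g k x := Subtype.ext (by
    show x.1.map (fun v => (g * k) • v) = (x.1.map (fun v => k • v)).map (fun v => g • v)
    rw [Sym2.map_map]
    congr 1
    funext v
    exact mul_smul g k v)

theorem sb_ta (hS : S.IsTree) (adj : ∀ (g : G) (x y : V), S.Adj x y → S.Adj (g • x) (g • y)) :
    @TA G _ (SbV S) (sbAct adj) (sbG S) := by
  letI := sbAct adj
  refine ⟨sb_tree hS, ?_, ?_⟩
  · rintro g x y ⟨a, b, hab, h⟩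
    refine ⟨g • a, g • b, adj g a b hab, ?_⟩
    rcases h with ⟨e1, e2⟩ | ⟨e1, e2⟩
    · left
      refine ⟨?_, ?_⟩
      · show x.1.map _ = _
        rw [e1]; rfl
      · show y.1.map _ = _
        rw [e2]; rfl
    · right
      refine ⟨?_, ?_⟩
      · show y.1.map _ = _
        rw [e1]; rfl
      · show x.1.map _ = _
        rw [e2]; rfl
  · rintro g x y ⟨a, b, hab, h⟩ h1 h2
    have key : ∀ k : G, Sym2.map (fun v => k • v) s(a, a) ≠ s(a, b) := by
      intro k hk
      have h3 : s(k • a, k • a) = s(a, b) := hk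
      rw [Sym2.eq_iff] at h3
      rcases h3 with h3 | h3
      · exact hab.ne (h3.1.symm.trans h3.2)
      · exact hab.ne (h3.2.symm.trans h3.1)
    rcases h with ⟨e1, e2⟩ | ⟨e1, e2⟩
    · apply key g
      rw [← e1, ← e2, ← h1]
      rfl
    · apply key g
      rw [← e1, ← e2, ← h2]
      rfl

theorem sb_sq (adj : ∀ (g : G) (x y : V), S.Adj x y → S.Adj (g • x) (g • y)) (g : G) (x : SbV S)
    (h : (sbAct adj).smul g x = x) : ∃ a : V, (g ^ 2) • a = a := by
  obtain ⟨x, a, b, rfl, hab⟩ := x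
  have h1 : s(g • a, g • b) = s(a, b) := congrArg Subtype.val h
  rw [Sym2.eq_iff] at h1
  refine ⟨a, ?_⟩
  rw [pow_two, mul_smul]
  rcases h1 with h1 | h1
  · rw [h1.1, h1.1]
  · rw [h1.1, h1.2]

end

theorem subd {G : Type} [Group G] (h : IsTreeLattice G) :
    ∃ (V W : Type) (_ : MulAction G V) (_ : MulAction G W) (S : SimpleGraph V)
      (T : SimpleGraph W), Lat G S T := by
  obtain ⟨V, W, _, _, S, T, L⟩ := h
  refine ⟨SbV S, SbV T, sbAct L.adjS, sbAct L.adjT, sbG S, sbG T, ?_⟩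
  letI := sbAct L.adjS
  letI := sbAct L.adjT
  refine ⟨sb_ta L.treeS L.adjS, sb_ta L.treeT L.adjT, sb_loc L.locS, sb_loc L.locT,
    sb_two L.twoS, sb_two L.twoT, sb_three L.threeS, sb_three L.threeT, ?_, ?_⟩
  · intro g x y h1 h2
    obtain ⟨a, ha⟩ := sb_sq L.adjS g x h1
    obtain ⟨c, hc⟩ := sb_sq L.adjT g y h2
    by_contra hg
    exact L.tf g hg 2 (by omega) (L.free _ a c ha hc)
  · obtain ⟨F, hF⟩ := L.fin
    let Q : Set (Sym2 V × Sym2 W) := ⋃ p ∈ F,
      ((fun b => s(p.1, b)) '' (insert p.1 (S.neighborSet p.1))) ×ˢ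
      ((fun d => s(p.2, d)) '' (insert p.2 (T.neighborSet p.2)))
    have hQ : Q.Finite := by
      apply Set.Finite.biUnion F.finite_toSet
      intro p _
      exact (((L.locS p.1).insert _).image _).prod (((L.locT p.2).insert _).image _)
    let f : SbV S × SbV T → Sym2 V × Sym2 W := fun x => (x.1.1, x.2.1)
    have hf : Function.Injective f := by
      rintro ⟨x1, x2⟩ ⟨y1, y2⟩ hxy
      have e1 := congrArg Prod.fst hxy
      have e2 := congrArg Prod.snd hxy
      exact Prod.ext (Subtype.ext e1) (Subtype.ext e2)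
    have hQ2 : (f ⁻¹' Q).Finite := Set.Finite.preimage hf.injOn hQ
    refine ⟨hQ2.toFinset, ?_⟩
    rintro ⟨x, a, b, rfl, hab⟩ ⟨y, c, d, rfl, hcd⟩
    obtain ⟨g, hg⟩ := hF a c
    refine ⟨g, ?_⟩
    rw [Set.Finite.mem_toFinset]
    show f _ ∈ Q
    refine Set.mem_iUnion₂.mpr ⟨_, hg, ?_⟩
    refine ⟨⟨g • b, ?_, rfl⟩, ⟨g • d, ?_, rfl⟩⟩
    · rcases hab with h | h
      · left; rw [h]
      · right; exact L.adjS g a b h
    · rcases hcd with h | h
      · left; rw [h]
      · right; exact L.adjT g c d h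

end LatIso
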