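import Pool.Agent.Lib.MP_32d917_al.Rig
import Pool.Agent.Lib.MP_32d917_al.AUT
import Pool.Agent.Lib.MP_32d917_al.DG2
import Pool.Agent.Lib.MP_32d917_al.LEX2
import Pool.Agent.Lib.MP_32d917_al.GOODA
import Pool.Agent.Lib.MP_32d917_al.GOODB
import Pool.Agent.Lib.MP_32d917_al.QUOT
import Pool.Agent.Lib.MP_32d917_al.RED
import Pool.Agent.Lib.MP_32d917_al.SUBD
import Pool.Agent.Lib.MP_32d917_al.PRES2
import Pool.Agent.Lib.MP_32d917_al.CODE1
import Pool.Agent.Lib.MP_32d917_al.CODE2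
import Pool.Agent.Lib.MP_32d917_al.CODE3
import Pool.Agent.Lib.MP_32d917_al.CODE4
import Pool.Agent.Lib.MP_32d917_al.GPRES

/-!
# Certificates of isomorphism and of non-isomorphism
-/

set_option autoImplicit false

namespace LatIso

/-- `x` is a code of good data for the group presented by `P` -/
def CodeFor (P : Pres) (x : Code) : Prop := Good (dec x.1 x.2) ∧ HasCov P.Grp (dec x.1 x.2)

/-- `HasCov` in terms of the fundamental group -/
theorem hasCov_iff {G : Type} [Group G] {P A B : Type} [Finite P] [Nonempty A] [Nonempty B] {X : Dat P A B} (hX : Valid X)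
    {p0 : P} {δ : P → A ⊕ B} {r : P → ℕ} (hs : Span X p0 δ r) :
    HasCov G X ↔ Nonempty (G ≃* Gam X p0 δ) := by
  constructor
  · rintro ⟨V, W, _, _, S, T, hS, hT, L, hL⟩
    exact cov_gam hS hT hL hs
  · rintro ⟨e⟩
    obtain ⟨V, W, S, T, hS, hT, L, v, w, hvw⟩ := lp_exists hX p0
    have hon := lp_onto L hs ⟨v, w, hvw⟩
    obtain ⟨K, _, _, _, hK⟩ := lp_aut hX hS hT L hon
    obtain ⟨e'⟩ := cov_gam hS hT hK hs
    exact hasCov_transport (e.trans e'.symm) ⟨V, W, _, _, S, T, hS, hT, L, hK⟩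

theorem hasCov_unique {G G' : Type} [Group G] [Group G'] {P A B : Type} [Finite P]
    [Nonempty A] [Nonempty B]
    {X : Dat P A B} (hX : Good X) (h : HasCov G X) (h' : HasCov G' X) : Nonempty (G ≃* G') := by
  obtain ⟨p0, δ, r, hs⟩ := hX.span
  obtain ⟨e⟩ := (hasCov_iff hX.valid hs).1 h
  obtain ⟨e'⟩ := (hasCov_iff hX.valid hs).1 h'
  exact ⟨e.trans e'.symm⟩

/-- every rank function is given by a list -/
theorem list_rank {n : ℕ} (r : Fin n → ℕ) : ∃ l : List ℕ, (fun q : Fin n => l.getD q 0) = r := by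
  refine ⟨List.ofFn r, ?_⟩
  funext q
  rw [List.getD_eq_getElem?_getD, List.getElem?_ofFn]
  simp

theorem codeFor_iff (P : Pres) (x : Code) (f : Code × ℕ × ℕ → Pres)
    (hf : ∀ (x : Code) (p d : ℕ), Nonempty ((f (x, p, d)).Grp ≃*
      Gam (dec x.1 x.2) (decp x.1 p) (decd x.1 d))) :
    CodeFor P x ↔ Good (dec x.1 x.2) ∧ ∃ y : ℕ × ℕ × List ℕ,
      Span (dec x.1 x.2) (decp x.1 y.1) (decd x.1 y.2.1) (fun q => y.2.2.getD q 0) ∧
      Nonempty (P.Grp ≃* (f (x, y.1, y.2.1)).Grp) := by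
  constructor
  · rintro ⟨hg, hc⟩
    refine ⟨hg, ?_⟩
    obtain ⟨p0, δ, r, hs⟩ := hg.span
    obtain ⟨p, hp⟩ := decp_surj x.1 p0
    obtain ⟨d, hd⟩ := decd_surj x.1 δ
    obtain ⟨l, hl⟩ := list_rank r
    subst hp hd hl
    obtain ⟨e⟩ := (hasCov_iff hg.valid hs).1 hc
    obtain ⟨e'⟩ := hf x p d
    exact ⟨(p, d, l), hs, ⟨e.trans e'.symm⟩⟩
  · rintro ⟨hg, ⟨p, d, l⟩, hs, ⟨e⟩⟩
    obtain ⟨e'⟩ := hf x p d
    exact ⟨hg, (hasCov_iff hg.valid hs).2 ⟨e.trans e'⟩⟩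

theorem codeFor_re : REPred (fun x : Pres × Code => CodeFor x.1 x.2) := by
  obtain ⟨f, hf, hf'⟩ := gam_pres
  have h1 : REPred (fun x : (Pres × Code) × (ℕ × ℕ × List ℕ) =>
      Span (dec x.1.2.1 x.1.2.2) (decp x.1.2.1 x.2.1) (decd x.1.2.1 x.2.2.1)
        (fun q => x.2.2.2.getD q 0)) := by
    refine re_of_prim ?_
    exact span_p.comp (f := fun x : (Pres × Code) × (ℕ × ℕ × List ℕ) =>
      (x.1.2, x.2.1, x.2.2.1, x.2.2.2)) (by
        exact Primrec.pair (Primrec.snd.comp Primrec.fst) (Primrec.pair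
          (Primrec.fst.comp Primrec.snd) (Primrec.pair (Primrec.fst.comp (Primrec.snd.comp
          Primrec.snd)) (Primrec.snd.comp (Primrec.snd.comp Primrec.snd)))))
  have h2 : REPred (fun x : (Pres × Code) × (ℕ × ℕ × List ℕ) =>
      Nonempty (x.1.1.Grp ≃* (f (x.1.2, x.2.1, x.2.2.1)).Grp)) := by
    refine re_comp iso_re (f := fun x : (Pres × Code) × (ℕ × ℕ × List ℕ) =>
      (x.1.1, f (x.1.2, x.2.1, x.2.2.1))) ?_
    refine Primrec.to_comp ?_
    exact Primrec.pair (Primrec.fst.comp Primrec.fst) (hf.comp (Primrec.pair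
      (Primrec.snd.comp Primrec.fst) (Primrec.pair (Primrec.fst.comp Primrec.snd)
      (Primrec.fst.comp (Primrec.snd.comp Primrec.snd)))))
  have h3 : REPred (fun x : Pres × Code => Good (dec x.2.1 x.2.2)) :=
    re_comp good_re (f := fun x : Pres × Code => x.2) Primrec.snd.to_comp
  have h4 := re_and h3 (re_exists (p := fun (x : Pres × Code) (y : ℕ × ℕ × List ℕ) =>
    Span (dec x.2.1 x.2.2) (decp x.2.1 y.1) (decd x.2.1 y.2.1) (fun q => y.2.2.getD q 0) ∧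
      Nonempty (x.1.Grp ≃* (f (x.2, y.1, y.2.1)).Grp)) (re_and h1 h2))
  refine h4.of_eq ?_
  intro x
  exact (codeFor_iff x.1 x.2 f hf').symm

/-- certificate of non-isomorphism -/
def NoCert (P Q : Pres) : Prop :=
  ∃ z : Code × Code × List Code, CodeFor P z.1 ∧ CodeFor Q z.2.1 ∧ Closed z.2.2 ∧ z.1 ∈ z.2.2 ∧
    ∀ t ∈ z.2.2, ¬ Iso (dec t.1 t.2) (dec z.2.1.1 z.2.1.2)

theorem mem_code_p : PrimrecPred (fun x : Code × List Code => x.1 ∈ x.2) := by
  have h1 : PrimrecRel (fun (t : Code) (x : Code) => t = x) := Primrec.eq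
  refine PrimrecPred.of_eq (h1.exists_mem_list.comp Primrec.snd Primrec.fst) ?_
  intro x
  simp

theorem noCert_re : REPred (fun x : Pres × Pres => NoCert x.1 x.2) := by
  have hP : Primrec (fun x : (Pres × Pres) × (Code × Code × List Code) => (x.1.1, x.2.1)) :=
    Primrec.pair (Primrec.fst.comp Primrec.fst) (Primrec.fst.comp Primrec.snd)
  have hQ : Primrec (fun x : (Pres × Pres) × (Code × Code × List Code) => (x.1.2, x.2.2.1)) :=
    Primrec.pair (Primrec.snd.comp Primrec.fst) (Primrec.fst.comp (Primrec.snd.comp Primrec.snd))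
  have hl : Primrec (fun x : (Pres × Pres) × (Code × Code × List Code) => x.2.2.2) :=
    Primrec.snd.comp (Primrec.snd.comp Primrec.snd)
  have hz : Primrec (fun x : (Pres × Pres) × (Code × Code × List Code) => x.2.1) :=
    Primrec.fst.comp Primrec.snd
  have hy : Primrec (fun x : (Pres × Pres) × (Code × Code × List Code) => x.2.2.1) :=
    Primrec.fst.comp (Primrec.snd.comp Primrec.snd)
  have h1 := re_comp codeFor_re hP.to_comp
  have h2 := re_comp codeFor_re hQ.to_comp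
  have h3 : PrimrecPred (fun x : (Pres × Pres) × (Code × Code × List Code) => Closed x.2.2.2) :=
    closed_p.comp hl
  have h4 : PrimrecPred (fun x : (Pres × Pres) × (Code × Code × List Code) =>
      x.2.1 ∈ x.2.2.2) := mem_code_p.comp (Primrec.pair hz hl)
  have h5 : PrimrecPred (fun x : (Pres × Pres) × (Code × Code × List Code) =>
      ∀ t ∈ x.2.2.2, ¬ Iso (dec t.1 t.2) (dec x.2.2.1.1 x.2.2.1.2)) := by
    have h6 : PrimrecRel (fun (t : Code) (y : Code) => ¬ Iso (dec t.1 t.2) (dec y.1 y.2)) :=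
      ciso_p.not
    exact h6.forall_mem_list.comp hl hy
  have h := re_exists (p := fun (x : Pres × Pres) (z : Code × Code × List Code) =>
    CodeFor x.1 z.1 ∧ CodeFor x.2 z.2.1 ∧ Closed z.2.2 ∧ z.1 ∈ z.2.2 ∧
      ∀ t ∈ z.2.2, ¬ Iso (dec t.1 t.2) (dec z.2.1.1 z.2.1.2))
    (re_and h1 (re_and h2 (re_and (re_of_prim h3) (re_and (re_of_prim h4) (re_of_prim h5)))))
  exact h

theorem Iso.swap {P A B P' A' B' : Type} {X : Dat P A B} {Y : Dat P' A' B'} (h : Iso X Y) :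
    Iso X.swap Y.swap := by
  obtain ⟨f, g, h, h1, h2, h3, h4, h5, h6⟩ := h
  exact ⟨f, h, g, h2, h1, h4, h3, fun b a e => h6 a b e.symm, fun b a e => h5 a b e.symm⟩

/-- closed lists are closed under chains of slides -/
theorem closed_chain {l : List Code} (hl : Closed l) (s : ℕ × ℕ × ℕ)
    {X Y : Dat (Fin (s.1 + 1)) (Fin (s.2.1 + 1)) (Fin (s.2.2 + 1))}
    (h : Relation.ReflTransGen HSl X Y) (hX : ∃ t, (s, t) ∈ l ∧ dec s t = X) :
    ∃ t, (s, t) ∈ l ∧ dec s t = Y := by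
  induction h with
  | refl => exact hX
  | @tail Y Z _ h ih =>
    obtain ⟨t, h1, h2⟩ := ih
    obtain ⟨t', h3, h4⟩ := dec_surj s Z
    refine ⟨t', hl _ h1 (s, t') h3 (Or.inl ⟨rfl, ?_⟩), h4⟩
    simp only
    rw [h2, h4]
    exact h

theorem closed_swap {l : List Code} (hl : Closed l) (s : ℕ × ℕ × ℕ)
    {X : Dat (Fin (s.1 + 1)) (Fin (s.2.1 + 1)) (Fin (s.2.2 + 1))}
    (hX : ∃ t, (s, t) ∈ l ∧ dec s t = X) :
    ∃ t, ((s.1, s.2.2, s.2.1), t) ∈ l ∧ dec (s.1, s.2.2, s.2.1) t = X.swap := by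
  obtain ⟨t, h1, h2⟩ := hX
  obtain ⟨t', h3, h4⟩ := dec_surj (s.1, s.2.2, s.2.1) X.swap
  refine ⟨t', hl _ h1 ((s.1, s.2.2, s.2.1), t') h3 (Or.inr ⟨rfl, ?_⟩), h4⟩
  simp only
  rw [h2, h4]

theorem noCert_sound (P Q : Pres) (h : NoCert P Q) : ¬ Nonempty (P.Grp ≃* Q.Grp) := by
  rintro ⟨e⟩
  obtain ⟨⟨x, y, l⟩, ⟨gx, cx⟩, ⟨gy, cy⟩, hl, hx, hno⟩ := h
  simp only at gx cx gy cy hl hx hno
  have cy' : HasCov P.Grp (dec y.1 y.2) := hasCov_transport e cy
  obtain ⟨V, W, _, _, S, T, hS, hT, cX⟩ := cx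
  obtain ⟨V', W', _, _, S', T', hS', hT', cY⟩ := cy'
  obtain ⟨L, rS, rT⟩ := lat_of_good hS hT cX gx
  obtain ⟨L', rS', rT'⟩ := lat_of_good hS' hT' cY gy
  obtain ⟨X1, X2, h1, h2, h3⟩ := rig L L' rS rT rS' rT' cX cY
  have k1 := closed_chain hl x.1 h1 ⟨x.2, hx, rfl⟩
  have k2 := closed_swap hl x.1 k1
  have k3 := closed_chain hl (x.1.1, x.1.2.2, x.1.2.1) h2 k2
  rcases h3 with h3 | h3
  · obtain ⟨t, m, ht⟩ := closed_swap hl (x.1.1, x.1.2.2, x.1.2.1) k3
    apply hno _ m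
    simp only
    simp only at ht
    rw [ht]
    exact h3.swap
  · obtain ⟨t, m, ht⟩ := k3
    apply hno _ m
    simp only
    rw [ht]
    exact h3

/-- every group in the class has a code -/
theorem codeFor_exists (P : Pres) (hP : IsTreeLattice P.Grp) :
    ∃ x : Code, InBox x.1 x.2 ∧ CodeFor P x := by
  obtain ⟨V, W, _, _, S, T, L⟩ := subd hP
  obtain ⟨V, W, _, _, S, T, L, rS, rT⟩ := red_exists L
  obtain ⟨nP, nA, nB, X, hX⟩ := quot_exists L
  obtain ⟨t, h1, h2⟩ := dec_surj (nP, nA, nB) X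
  refine ⟨((nP, nA, nB), t), h1, ?_, ?_⟩
  · simp only
    rw [h2]
    exact good_of_lat L rS rT hX
  · simp only
    rw [h2]
    exact ⟨V, W, _, _, S, T, L.hS.tree, L.hT.tree, hX⟩

theorem hasCov_cstep {G : Type} [Group G] {x y : Code} (h : CStep x y)
    (hx : HasCov G (dec x.1 x.2)) : HasCov G (dec y.1 y.2) := by
  obtain ⟨s, t⟩ := x
  obtain ⟨s', t'⟩ := y
  rcases h with ⟨h1, h2⟩ | ⟨h1, h2⟩
  · simp only at h1 h2 hx ⊢
    subst h1
    exact hasCov_hsl hx h2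
  · simp only at h1 h2 hx ⊢
    subst h1
    simp only
    rw [h2]
    exact hasCov_swap hx

/-- the box of all codes with sizes `s` or swapped -/
theorem box_finite (s : ℕ × ℕ × ℕ) : {t : ℕ × ℕ × ℕ × ℕ × ℕ × ℕ | InBox s t}.Finite := by
  have h : {t : ℕ × ℕ × ℕ × ℕ × ℕ × ℕ | InBox s t} ⊆
      ((Set.Iio (bd s)) ×ˢ (Set.Iio (bd s)) ×ˢ (Set.Iio (bd s)) ×ˢ (Set.Iio (bd s)) ×ˢ
        (Set.Iio (bd s)) ×ˢ (Set.Iio (bd s))) := by
    rintro ⟨a, b, c, d, e, f⟩ ⟨h1, h2, h3, h4, h5, h6⟩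
    simp only [Set.mem_prod, Set.mem_Iio]
    exact ⟨h1, h2, h3, h4, h5, h6⟩
  refine Set.Finite.subset ?_ h
  have hf := Set.finite_Iio (bd s)
  exact hf.prod (hf.prod (hf.prod (hf.prod (hf.prod hf))))

theorem noCert_complete (P Q : Pres) (hP : IsTreeLattice P.Grp) (hQ : IsTreeLattice Q.Grp)
    (h : ¬ Nonempty (P.Grp ≃* Q.Grp)) : NoCert P Q := by
  classical
  obtain ⟨x, bx, cx⟩ := codeFor_exists P hP
  obtain ⟨y, _, cy⟩ := codeFor_exists Q hQ
  set s := x.1 with hs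
  set s' : ℕ × ℕ × ℕ := (s.1, s.2.2, s.2.1) with hs'
  -- the set of all reachable codes
  let Z : Set Code := {z | (z.1 = s ∨ z.1 = s') ∧ InBox z.1 z.2 ∧ HasCov P.Grp (dec z.1 z.2)}
  have hZ : Z.Finite := by
    have h1 : Z ⊆ ({s, s'} : Set (ℕ × ℕ × ℕ)) ×ˢ
        ({t | InBox s t} ∪ {t | InBox s' t}) := by
      rintro ⟨z, t⟩ ⟨hz, hb, -⟩
      simp only at hz hb
      rcases hz with rfl | rfl
      · exact ⟨Or.inl rfl, Or.inl hb⟩
      · exact ⟨Or.inr rfl, Or.inr hb⟩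
    refine Set.Finite.subset ?_ h1
    exact (Set.toFinite _).prod ((box_finite s).union (box_finite s'))
  refine ⟨(x, y, hZ.toFinset.toList), cx, cy, ?_, ?_, ?_⟩
  · intro a ha b hb hab
    simp only [Finset.mem_toList, Set.Finite.mem_toFinset] at ha ⊢
    obtain ⟨h1, h2, h3⟩ := ha
    refine ⟨?_, hb, hasCov_cstep hab h3⟩
    rcases hab with ⟨h4, -⟩ | ⟨h4, -⟩
    · rw [h4]; exact h1
    · rcases h1 with h1 | h1
      · right; rw [h4, h1]
      · left; rw [h4, h1]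
  · simp only [Finset.mem_toList, Set.Finite.mem_toFinset]
    exact ⟨Or.inl rfl, bx, cx.2⟩
  · intro z hz hiso
    simp only [Finset.mem_toList, Set.Finite.mem_toFinset] at hz
    have h1 : HasCov P.Grp (dec y.1 y.2) := hasCov_iso hiso hz.2.2
    exact h (hasCov_unique cy.1 h1 cy.2)

end LatIso
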