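import Pool.Agent.Lib.MP_32d917_al.TTL

/-!
# Cochains on a product of trees
-/

set_option autoImplicit false

namespace LatIso

section DG

variable {P A B : Type} {X : Dat P A B} {V W : Type} {S : SimpleGraph V} {T : SimpleGraph W}

/-- exactness: a cochain on a product of trees satisfying the square relations is a coboundary -/
theorem dg_pot {Γ : Type} [Group Γ] (hS : S.IsTree) (hT : T.IsTree) (L : LP X S T)
    (ca : A → Γ) (cb : B → Γ) (hia : ∀ a, ca a * ca (X.iA a) = 1) (hib : ∀ b, cb b * cb (X.iB b) = 1)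
    (hsq : ∀ a b, X.oA a = X.oB b → ca a * cb (X.tl a b) = cb b * ca (X.tr a b))
    (v0 : V) (w0 : W) : ∃ F : V → W → Γ, F v0 w0 = 1 ∧
      (∀ v v' w, S.Adj v v' → F v' w = F v w * ca (L.al v v' w)) ∧
      (∀ v w w', T.Adj w w' → F v w' = F v w * cb (L.be v w w')) := by
  obtain ⟨f, hf0, -, hf⟩ := ttl hS (fun (_ : V) (_ : Γ) => True)
    (fun v v' y => y * ca (L.al v v' w0)) (fun _ _ _ _ _ => trivial)
    (fun v v' y h _ => by
      show y * ca (L.al v v' w0) * ca (L.al v' v w0) = y
      rw [L.ial v v' w0 h, mul_assoc, hia, mul_one]) v0 (1 : Γ) trivial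
  have hg := fun v : V => ttl hT (fun (_ : W) (_ : Γ) => True)
    (fun w w' y => y * cb (L.be v w w')) (fun _ _ _ _ _ => trivial)
    (fun w w' y h _ => by
      show y * cb (L.be v w w') * cb (L.be v w' w) = y
      rw [L.ibe v w w' h, mul_assoc, hib, mul_one]) w0 (f v) trivial
  choose F hF0 _ hF using hg
  refine ⟨F, by rw [hF0, hf0], ?_, fun v w w' h => hF v w w' h⟩
  intro v v' w h
  have key : F v' = fun w => F v w * ca (L.al v v' w) := by
    refine ttl_uniq hT.connected (fun w w' y => y * cb (L.be v' w w')) _ _ (hF v') ?_ w0 ?_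
    · intro w w' hw
      show F v w' * ca (L.al v v' w') = F v w * ca (L.al v v' w) * cb (L.be v' w w')
      have e1 := L.tr v v' w w' h hw
      have e2 := L.tl v v' w w' h hw
      have e3 := hsq (L.al v v' w) (L.be v w w') (by rw [L.oal v v' w h, L.obe v w w' hw])
      rw [e1, e2] at e3
      rw [hF v w w' hw, mul_assoc, mul_assoc, e3]
    · show F v' w0 = F v w0 * ca (L.al v v' w0)
      rw [hF0, hF0, hf v v' h]
  exact congrFun key w

end DG

end LatIso
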