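import Pool.Agent.Lib.MP_32d917_al.Defs

/-!
# Uniqueness of the quotient data, transport along isomorphisms, swap
-/

set_option autoImplicit false

namespace LatIso

section QISO

theorem qiso_equiv {α A A' : Type} (p : α → A) (p' : α → A') (h : Function.Surjective p)
    (h' : Function.Surjective p') (hk : ∀ x y, p x = p y ↔ p' x = p' y) :
    ∃ e : A ≃ A', ∀ x, e (p x) = p' x := by
  classical
  have hs := Function.surjInv_eq h
  have hs' := Function.surjInv_eq h'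
  refine ⟨⟨fun a => p' (Function.surjInv h a), fun a => p (Function.surjInv h' a), ?_, ?_⟩, ?_⟩
  · intro a
    have : p (Function.surjInv h' (p' (Function.surjInv h a))) = p (Function.surjInv h a) := by
      rw [hk]; exact hs' _
    simpa [hs] using this
  · intro a
    have : p' (Function.surjInv h (p (Function.surjInv h' a))) = p' (Function.surjInv h' a) := by
      rw [← hk]; exact hs _
    simpa [hs'] using this
  · intro x
    show p' (Function.surjInv h (p x)) = p' x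
    rw [← hk]; exact hs _

variable {G V W : Type} [Group G] [MulAction G V] [MulAction G W]
  {S : SimpleGraph V} {T : SimpleGraph W} {P A B P' A' B' : Type} {X : Dat P A B}
  {Y : Dat P' A' B'}

theorem qiso_exA {L : LP X S T} (hL : Cov G L) (a : A) :
    ∃ v v' w, S.Adj v v' ∧ L.al v v' w = a := by
  obtain ⟨v, w, hq⟩ := hL.onto (X.oA a)
  obtain ⟨v', hv, ha⟩ := L.sur_al v w a hq.symm
  exact ⟨v, v', w, hv, ha⟩

theorem qiso_exB {L : LP X S T} (hL : Cov G L) (b : B) :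
    ∃ v w w', T.Adj w w' ∧ L.be v w w' = b := by
  obtain ⟨v, w, hq⟩ := hL.onto (X.oB b)
  obtain ⟨w', hw, hb⟩ := L.sur_be v w b hq.symm
  exact ⟨v, w, w', hw, hb⟩

theorem qiso_exAB {L : LP X S T} (hL : Cov G L) (a : A) (b : B) (h : X.oA a = X.oB b) :
    ∃ v v' w w', S.Adj v v' ∧ T.Adj w w' ∧ L.al v v' w = a ∧ L.be v w w' = b := by
  obtain ⟨v, w, hq⟩ := hL.onto (X.oA a)
  obtain ⟨v', hv, ha⟩ := L.sur_al v w a hq.symm
  obtain ⟨w', hw, hb⟩ := L.sur_be v w b (hq.trans h).symm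
  exact ⟨v, v', w, w', hv, hw, ha, hb⟩

theorem qiso_kerP {L : LP X S T} (hL : Cov G L) (v w v' w') :
    L.p v w = L.p v' w' ↔ ∃ g : G, g • v = v' ∧ g • w = w' := by
  constructor
  · exact hL.trans v w v' w'
  · rintro ⟨g, rfl, rfl⟩
    exact (hL.gp g v w).symm

theorem qiso_kerA {L : LP X S T} (hL : Cov G L) (v v' w u u' x) (h : S.Adj v v')
    (h' : S.Adj u u') :
    L.al v v' w = L.al u u' x ↔ ∃ g : G, g • v = u ∧ g • v' = u' ∧ g • w = x := by
  constructor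
  · intro e
    have hp : L.p v w = L.p u x := by
      rw [← L.oal v v' w h, ← L.oal u u' x h', e]
    obtain ⟨g, hg, hg'⟩ := hL.trans v w u x hp
    refine ⟨g, hg, ?_, hg'⟩
    have h1 : S.Adj u (g • v') := by rw [← hg]; exact hL.adjS g _ _ h
    refine L.inj_al u (g • v') u' x h1 h' ?_
    rw [← e, ← hL.gal g v v' w h, hg, hg']
  · rintro ⟨g, rfl, rfl, rfl⟩
    exact (hL.gal g v v' w h).symm

theorem qiso_kerB {L : LP X S T} (hL : Cov G L) (v w w' u x x') (h : T.Adj w w')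
    (h' : T.Adj x x') :
    L.be v w w' = L.be u x x' ↔ ∃ g : G, g • v = u ∧ g • w = x ∧ g • w' = x' := by
  constructor
  · intro e
    have hp : L.p v w = L.p u x := by
      rw [← L.obe v w w' h, ← L.obe u x x' h', e]
    obtain ⟨g, hg, hg'⟩ := hL.trans v w u x hp
    refine ⟨g, hg, hg', ?_⟩
    have h1 : T.Adj x (g • w') := by rw [← hg']; exact hL.adjT g _ _ h
    refine L.inj_be u x (g • w') x' h1 h' ?_
    rw [← e, ← hL.gbe g v w w' h, hg, hg']
  · rintro ⟨g, rfl, rfl, rfl⟩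
    exact (hL.gbe g v w w' h).symm

theorem cov_iso (h : IsCov G S T X) (h' : IsCov G S T Y) : Iso X Y := by
  obtain ⟨L, hL⟩ := h
  obtain ⟨M, hM⟩ := h'
  obtain ⟨f, hf⟩ := qiso_equiv (fun t : V × W => L.p t.1 t.2) (fun t : V × W => M.p t.1 t.2)
    (fun q => by obtain ⟨v, w, e⟩ := hL.onto q; exact ⟨(v, w), e⟩)
    (fun q => by obtain ⟨v, w, e⟩ := hM.onto q; exact ⟨(v, w), e⟩)
    (fun t s => by
      show L.p _ _ = L.p _ _ ↔ M.p _ _ = M.p _ _
      rw [qiso_kerP hL, qiso_kerP hM])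
  obtain ⟨g, hg⟩ := qiso_equiv
    (fun t : {t : V × V × W // S.Adj t.1 t.2.1} => L.al t.1.1 t.1.2.1 t.1.2.2)
    (fun t : {t : V × V × W // S.Adj t.1 t.2.1} => M.al t.1.1 t.1.2.1 t.1.2.2)
    (fun a => by
      obtain ⟨v, v', w, e, e'⟩ := qiso_exA hL a
      exact ⟨⟨(v, v', w), e⟩, e'⟩)
    (fun a => by
      obtain ⟨v, v', w, e, e'⟩ := qiso_exA hM a
      exact ⟨⟨(v, v', w), e⟩, e'⟩)
    (fun t s => by
      show L.al _ _ _ = L.al _ _ _ ↔ M.al _ _ _ = M.al _ _ _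
      rw [qiso_kerA hL _ _ _ _ _ _ t.2 s.2, qiso_kerA hM _ _ _ _ _ _ t.2 s.2])
  obtain ⟨k, hk⟩ := qiso_equiv
    (fun t : {t : V × W × W // T.Adj t.2.1 t.2.2} => L.be t.1.1 t.1.2.1 t.1.2.2)
    (fun t : {t : V × W × W // T.Adj t.2.1 t.2.2} => M.be t.1.1 t.1.2.1 t.1.2.2)
    (fun b => by
      obtain ⟨v, w, w', e, e'⟩ := qiso_exB hL b
      exact ⟨⟨(v, w, w'), e⟩, e'⟩)
    (fun b => by
      obtain ⟨v, w, w', e, e'⟩ := qiso_exB hM b
      exact ⟨⟨(v, w, w'), e⟩, e'⟩)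
    (fun t s => by
      show L.be _ _ _ = L.be _ _ _ ↔ M.be _ _ _ = M.be _ _ _
      rw [qiso_kerB hL _ _ _ _ _ _ t.2 s.2, qiso_kerB hM _ _ _ _ _ _ t.2 s.2])
  have hf' : ∀ v w, f (L.p v w) = M.p v w := fun v w => hf (v, w)
  have hg' : ∀ v v' w, S.Adj v v' → g (L.al v v' w) = M.al v v' w :=
    fun v v' w h => hg ⟨(v, v', w), h⟩
  have hk' : ∀ v w w', T.Adj w w' → k (L.be v w w') = M.be v w w' :=
    fun v w w' h => hk ⟨(v, w, w'), h⟩
  refine ⟨f, g, k, ?_, ?_, ?_, ?_, ?_, ?_⟩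
  · intro a
    obtain ⟨v, v', w, h, rfl⟩ := qiso_exA hL a
    rw [hg' _ _ _ h, M.oal _ _ _ h, L.oal _ _ _ h, hf']
  · intro b
    obtain ⟨v, w, w', h, rfl⟩ := qiso_exB hL b
    rw [hk' _ _ _ h, M.obe _ _ _ h, L.obe _ _ _ h, hf']
  · intro a
    obtain ⟨v, v', w, h, rfl⟩ := qiso_exA hL a
    rw [hg' _ _ _ h, ← M.ial _ _ _ h, ← L.ial _ _ _ h, hg' _ _ _ h.symm]
  · intro b
    obtain ⟨v, w, w', h, rfl⟩ := qiso_exB hL b
    rw [hk' _ _ _ h, ← M.ibe _ _ _ h, ← L.ibe _ _ _ h, hk' _ _ _ h.symm]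
  · intro a b hab
    obtain ⟨v, v', w, w', h, h', rfl, rfl⟩ := qiso_exAB hL a b hab
    rw [hg' _ _ _ h, hk' _ _ _ h', L.tr _ _ _ _ h h', M.tr _ _ _ _ h h', hg' _ _ _ h]
  · intro a b hab
    obtain ⟨v, v', w, w', h, h', rfl, rfl⟩ := qiso_exAB hL a b hab
    rw [hg' _ _ _ h, hk' _ _ _ h', L.tl _ _ _ _ h h', M.tl _ _ _ _ h h', hk' _ _ _ h']

theorem iso_cov (h : Iso X Y) (h' : IsCov G S T X) : IsCov G S T Y := by
  obtain ⟨f, g, k, hoA, hoB, hiA, hiB, htr, htl⟩ := h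
  obtain ⟨L, hL⟩ := h'
  have hab : ∀ v v' w w', S.Adj v v' → T.Adj w w' → X.oA (L.al v v' w) = X.oB (L.be v w w') :=
    fun v v' w w' h h' => by rw [L.oal _ _ _ h, L.obe _ _ _ h']
  refine ⟨⟨fun v w => f (L.p v w), fun v v' w => g (L.al v v' w), fun v w w' => k (L.be v w w'),
    ?_, ?_, ?_, ?_, ?_, ?_, ?_, ?_, ?_, ?_⟩, ?_⟩
  · intro v v' w h
    rw [hoA, L.oal _ _ _ h]
  · intro v w w' h
    rw [hoB, L.obe _ _ _ h]
  · intro v v' w h
    rw [hiA, L.ial _ _ _ h]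
  · intro v w w' h
    rw [hiB, L.ibe _ _ _ h]
  · intro v v' w w' h h'
    rw [htr _ _ (hab _ _ _ _ h h'), L.tr _ _ _ _ h h']
  · intro v v' w w' h h'
    rw [htl _ _ (hab _ _ _ _ h h'), L.tl _ _ _ _ h h']
  · intro v x y w h h' e
    exact L.inj_al v x y w h h' (g.injective e)
  · intro v w a e
    obtain ⟨a, rfl⟩ := g.surjective a
    rw [hoA] at e
    obtain ⟨v', h, h'⟩ := L.sur_al v w a (f.injective e)
    exact ⟨v', h, by rw [h']⟩
  · intro v w x y h h' e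
    exact L.inj_be v w x y h h' (k.injective e)
  · intro v w b e
    obtain ⟨b, rfl⟩ := k.surjective b
    rw [hoB] at e
    obtain ⟨w', h, h'⟩ := L.sur_be v w b (f.injective e)
    exact ⟨w', h, by rw [h']⟩
  · refine ⟨hL.adjS, hL.adjT, ?_, ?_, ?_, hL.free, ?_, ?_⟩
    · intro g' v w
      show f _ = f _
      rw [hL.gp]
    · intro g' v v' w h
      show g _ = g _
      rw [hL.gal _ _ _ _ h]
    · intro g' v w w' h
      show k _ = k _
      rw [hL.gbe _ _ _ _ h]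
    · intro v w v' w' e
      exact hL.trans v w v' w' (f.injective e)
    · intro q
      obtain ⟨v, w, e⟩ := hL.onto (f.symm q)
      exact ⟨v, w, by show f (L.p v w) = q; rw [e]; simp⟩

theorem swap_cov (h : IsCov G S T X) : IsCov G T S X.swap := by
  obtain ⟨L, hL⟩ := h
  refine ⟨⟨fun w v => L.p v w, fun w w' v => L.be v w w', fun w v v' => L.al v v' w,
    ?_, ?_, ?_, ?_, ?_, ?_, ?_, ?_, ?_, ?_⟩, ?_⟩
  · intro w w' v h
    exact L.obe v w w' h
  · intro w v v' h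
    exact L.oal v v' w h
  · intro w w' v h
    exact L.ibe v w w' h
  · intro w v v' h
    exact L.ial v v' w h
  · intro w w' v v' h h'
    exact L.tl v v' w w' h' h
  · intro w w' v v' h h'
    exact L.tr v v' w w' h' h
  · intro w x y v h h' e
    exact L.inj_be v w x y h h' e
  · intro w v b e
    exact L.sur_be v w b e
  · intro w v x y h h' e
    exact L.inj_al v x y w h h' e
  · intro w v a e
    exact L.sur_al v w a e
  · refine ⟨hL.adjT, hL.adjS, ?_, ?_, ?_, ?_, ?_, ?_⟩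
    · intro g w v
      exact hL.gp g v w
    · intro g w w' v h
      exact hL.gbe g v w w' h
    · intro g w v v' h
      exact hL.gal g v v' w h
    · intro g w v h h'
      exact hL.free g v w h' h
    · intro w v w' v' e
      obtain ⟨g, h1, h2⟩ := hL.trans v w v' w' e
      exact ⟨g, h2, h1⟩
    · intro q
      obtain ⟨v, w, e⟩ := hL.onto q
      exact ⟨w, v, e⟩

theorem cov_valid (hS : S.Connected) (hT : T.Connected) (h : IsCov G S T X) : Valid X := by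
  obtain ⟨L, hL⟩ := h
  refine ⟨?_, ?_, ?_, ?_, ?_, ?_, ?_, ?_⟩
  · intro a
    obtain ⟨v, v', w, h, rfl⟩ := qiso_exA hL a
    rw [← L.ial _ _ _ h, ← L.ial _ _ _ h.symm]
  · intro b
    obtain ⟨v, w, w', h, rfl⟩ := qiso_exB hL b
    rw [← L.ibe _ _ _ h, ← L.ibe _ _ _ h.symm]
  · intro a b hab
    obtain ⟨v, v', w, w', h, h', rfl, rfl⟩ := qiso_exAB hL a b hab
    rw [L.tr _ _ _ _ h h', L.oal _ _ _ h, ← L.ibe _ _ _ h', L.obe _ _ _ h'.symm]
  · intro a b hab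
    obtain ⟨v, v', w, w', h, h', rfl, rfl⟩ := qiso_exAB hL a b hab
    rw [L.tl _ _ _ _ h h', L.obe _ _ _ h', ← L.ial _ _ _ h, L.oal _ _ _ h.symm]
  · intro a b hab
    obtain ⟨v, v', w, w', h, h', rfl, rfl⟩ := qiso_exAB hL a b hab
    rw [L.tl _ _ _ _ h h', ← L.ial _ _ _ h, L.tr _ _ _ _ h.symm h', L.tr _ _ _ _ h h',
      ← L.ial _ _ _ h]
  · intro a b hab
    obtain ⟨v, v', w, w', h, h', rfl, rfl⟩ := qiso_exAB hL a b hab
    rw [L.tl _ _ _ _ h h', ← L.ial _ _ _ h, L.tl _ _ _ _ h.symm h']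
  · intro a b hab
    obtain ⟨v, v', w, w', h, h', rfl, rfl⟩ := qiso_exAB hL a b hab
    rw [L.tr _ _ _ _ h h', ← L.ibe _ _ _ h', L.tr _ _ _ _ h h'.symm]
  · intro a b hab
    obtain ⟨v, v', w, w', h, h', rfl, rfl⟩ := qiso_exAB hL a b hab
    rw [L.tr _ _ _ _ h h', ← L.ibe _ _ _ h', L.tl _ _ _ _ h h'.symm, L.tl _ _ _ _ h h',
      ← L.ibe _ _ _ h']

end QISO

end LatIso
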