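import Pool.Agent.Lib.MP_32d917_al.SLT
import Pool.Agent.Lib.MP_32d917_al.QISO

/-!
# Slides of data give slides of labelled products
-/

set_option autoImplicit false

namespace LatIso

section DSLA

variable {G V W : Type} [Group G] [MulAction G V] [MulAction G W]
  {S S' : SimpleGraph V} {T : SimpleGraph W} {P A B : Type} {X Y : Dat P A B}

theorem dsla_tri {V : Type} {S : SimpleGraph V} (hS : S.IsTree) {a b v : V} (h : S.Adj a b)
    (h1 : S.Adj v a) (h2 : S.Adj v b) : False := by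
  have e1 : S.dist v a = 1 := SimpleGraph.dist_eq_one_iff_adj.2 h1
  have e2 : S.dist v b = 1 := SimpleGraph.dist_eq_one_iff_adj.2 h2
  have h3 := SimpleGraph.IsTree.dist_eq_dist_add_one_of_adj hS v h
  omega

/-- the edge `a b` comes from the edge `v b` by a slide over `v a` -/
def DTy (L : LP X S T) (C : A → Prop) (π : A → A) (w : W) (a b v : V) : Prop :=
  S.Adj v b ∧ S.Adj v a ∧ C (L.al v b w) ∧ L.al v a w = π (L.al v b w)

theorem dsla_C1 (L : LP X S T) {C : A → Prop} {π : A → A} (hC : HSlW X Y C π) {v x : V}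
    (h : S.Adj v x) {w w' : W} (hw : T.Adj w w') (hc : C (L.al v x w)) : C (L.al v x w') := by
  rw [← L.tr v x w w' h hw]
  refine hC.ctr _ _ ?_ hc
  rw [L.oal _ _ _ h, L.obe _ _ _ hw]

theorem dsla_C (hT : T.Connected) (L : LP X S T) {C : A → Prop} {π : A → A} (hC : HSlW X Y C π)
    {v x : V} (h : S.Adj v x) (w w' : W) (hc : C (L.al v x w)) : C (L.al v x w') := by
  obtain ⟨p⟩ := hT.preconnected w w'
  induction p with
  | nil => exact hc
  | cons hw _ ih => exact ih (dsla_C1 L hC h hw hc)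

theorem dsla_T1 (L : LP X S T) {C : A → Prop} {π : A → A} (hC : HSlW X Y C π) {a b v : V}
    {w w' : W} (hw : T.Adj w w') (h : DTy L C π w a b v) : DTy L C π w' a b v := by
  obtain ⟨h1, h2, h3, h4⟩ := h
  refine ⟨h1, h2, dsla_C1 L hC h1 hw h3, ?_⟩
  have e : X.oA (L.al v b w) = X.oB (L.be v w w') := by rw [L.oal _ _ _ h1, L.obe _ _ _ hw]
  rw [← L.tr v b w w' h1 hw, hC.ptr _ _ e h3, ← h4, L.tr v a w w' h2 hw]

theorem dsla_T (hT : T.Connected) (L : LP X S T) {C : A → Prop} {π : A → A} (hC : HSlW X Y C π)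
    {a b v : V} (w w' : W) (h : DTy L C π w a b v) : DTy L C π w' a b v := by
  obtain ⟨p⟩ := hT.preconnected w w'
  induction p with
  | nil => exact h
  | cons hw _ ih => exact ih (dsla_T1 L hC hw h)

theorem dsla_ne (L : LP X S T) {C : A → Prop} {π : A → A} (hC : HSlW X Y C π)
    {a b v : V} {w : W} (h : DTy L C π w a b v) : a ≠ b := by
  rintro rfl
  obtain ⟨h1, h2, h3, h4⟩ := h
  apply (hC.cpi _ h3).1
  rw [← h4]; exact h3

/-- old edges -/
def DOld (L : LP X S T) (C : A → Prop) (w : W) (a b : V) : Prop :=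
  S.Adj a b ∧ ¬ C (L.al a b w) ∧ ¬ C (L.al b a w)

theorem dsla_adj (L : LP X S T) {C : A → Prop} {π : A → A} (hC : HSlW X Y C π) (w0 : W) (a b : V) :
    (slG L w0 C π).Adj a b ↔ DOld L C w0 a b ∨ (∃ v, DTy L C π w0 a b v) ∨
      (∃ v, DTy L C π w0 b a v) := by
  constructor
  · exact fun h => h.2
  · intro h
    refine ⟨?_, h⟩
    rcases h with h | ⟨v, h⟩ | ⟨v, h⟩
    · exact h.1.ne
    · exact dsla_ne L hC h
    · exact (dsla_ne L hC h).symm

theorem dsla_uniq (hS : S.IsTree) (L : LP X S T) {C : A → Prop} {π : A → A} (hC : HSlW X Y C π)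
    {w : W} {a b v v' : V} (h : DTy L C π w a b v) (h' : DTy L C π w a b v') : v = v' :=
  slt_mid hS (dsla_ne L hC h) h.2.1.symm h.1 h'.2.1.symm h'.1

theorem dsla_excl (hS : S.IsTree) (L : LP X S T) {C : A → Prop} {π : A → A} (hC : HSlW X Y C π)
    {w : W} {a b v v' : V} (h : DTy L C π w a b v) (h' : DTy L C π w b a v') : False := by
  have e : v = v' := slt_mid hS (dsla_ne L hC h) h.2.1.symm h.1 h'.1.symm h'.2.1
  subst e
  obtain ⟨h1, h2, h3, h4⟩ := h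
  apply (hC.cpi _ h3).1
  rw [← h4]
  exact h'.2.2.1

/-- the new labels -/
noncomputable def dslaL (L : LP X S T) (w0 : W) (C : A → Prop) (π : A → A) (a b : V) (w : W) :
    A := by
  classical
  exact if h : ∃ v, DTy L C π w0 a b v then L.al h.choose b w else
    if h : ∃ v, DTy L C π w0 b a v then L.al a h.choose w else L.al a b w

theorem dslaL_2 (hS : S.IsTree) (L : LP X S T) {C : A → Prop} {π : A → A} (hC : HSlW X Y C π)
    {w0 : W} {a b v : V} (h : DTy L C π w0 a b v) (w : W) :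
    dslaL L w0 C π a b w = L.al v b w := by
  have h1 : ∃ v, DTy L C π w0 a b v := ⟨v, h⟩
  unfold dslaL
  rw [dif_pos h1, dsla_uniq hS L hC h1.choose_spec h]

theorem dslaL_3 (hS : S.IsTree) (L : LP X S T) {C : A → Prop} {π : A → A} (hC : HSlW X Y C π)
    {w0 : W} {a b v : V} (h : DTy L C π w0 b a v) (w : W) :
    dslaL L w0 C π a b w = L.al a v w := by
  have h1 : ∃ v, DTy L C π w0 b a v := ⟨v, h⟩
  have h2 : ¬ ∃ v, DTy L C π w0 a b v := fun ⟨v', h'⟩ => dsla_excl hS L hC h' h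
  unfold dslaL
  rw [dif_neg h2, dif_pos h1, dsla_uniq hS L hC h1.choose_spec h]

theorem dslaL_1 (hS : S.IsTree) (L : LP X S T) {C : A → Prop} {π : A → A}
    {w0 : W} {a b : V} (h : DOld L C w0 a b) (w : W) :
    dslaL L w0 C π a b w = L.al a b w := by
  have h1 : ¬ ∃ v, DTy L C π w0 b a v := fun ⟨v', h'⟩ => dsla_tri hS h.1 h'.1 h'.2.1
  have h2 : ¬ ∃ v, DTy L C π w0 a b v := fun ⟨v', h'⟩ => dsla_tri hS h.1 h'.2.1 h'.1
  unfold dslaL
  rw [dif_neg h2, dif_neg h1]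

theorem dsla_tree (hS : S.IsTree) (L : LP X S T) (w0 : W)
    (C : A → Prop) (π : A → A) (hC : HSlW X Y C π) : (slG L w0 C π).IsTree := by
  classical
  have hex : ∀ v x, ∃ u, (S.Adj v x ∧ C (L.al v x w0)) → S.Adj v u ∧
      L.al v u w0 = π (L.al v x w0) := by
    intro v x
    by_cases h : S.Adj v x ∧ C (L.al v x w0)
    · obtain ⟨u, hu⟩ := L.sur_al v w0 (π (L.al v x w0)) (by
        rw [(hC.cpi _ h.2).2.2, L.oal _ _ _ h.1])
      exact ⟨u, fun _ => hu⟩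
    · exact ⟨v, fun h' => absurd h' h⟩
  choose pi hpi using hex
  refine slide_tree hS (fun v x => S.Adj v x ∧ C (L.al v x w0)) pi ?_ ?_
  · rintro v x ⟨h1, h2⟩
    obtain ⟨h3, h4⟩ := hpi v x ⟨h1, h2⟩
    refine ⟨h1, h3, ?_, ?_, ?_⟩
    · rintro ⟨_, h6⟩
      rw [L.ial _ _ _ h1] at h6
      exact hC.cinv _ h2 h6
    · rintro ⟨_, h6⟩
      rw [h4] at h6
      exact (hC.cpi _ h2).1 h6
    · rintro ⟨_, h6⟩
      rw [L.ial _ _ _ h3, h4] at h6
      exact (hC.cpi _ h2).2.1 h6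
  · intro a b
    rw [dsla_adj L hC]
    have key : ∀ a b, (∃ v, DTy L C π w0 a b v) ↔
        (∃ v, (S.Adj v b ∧ C (L.al v b w0)) ∧ pi v b = a) := by
      intro a b
      constructor
      · rintro ⟨v, h1, h2, h3, h4⟩
        refine ⟨v, ⟨h1, h3⟩, ?_⟩
        obtain ⟨h5, h6⟩ := hpi v b ⟨h1, h3⟩
        exact L.inj_al v _ _ w0 h5 h2 (h6.trans h4.symm)
      · rintro ⟨v, ⟨h1, h3⟩, rfl⟩
        obtain ⟨h5, h6⟩ := hpi v b ⟨h1, h3⟩
        exact ⟨v, h1, h5, h3, h6⟩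
    rw [key a b, key b a]
    constructor
    · rintro (h | h | h)
      · exact Or.inl ⟨h.1, fun h' => h.2.1 h'.2, fun h' => h.2.2 h'.2⟩
      · exact Or.inr (Or.inl h)
      · exact Or.inr (Or.inr h)
    · rintro (h | h | h)
      · exact Or.inl ⟨h.1, fun h' => h.2.1 ⟨h.1, h'⟩, fun h' => h.2.2 ⟨h.1.symm, h'⟩⟩
      · exact Or.inr (Or.inl h)
      · exact Or.inr (Or.inr h)

theorem dsla_lp (hS : S.IsTree) (hT : T.IsTree) (L : LP X S T) (hL : Cov G L) (w0 : W)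
    (C : A → Prop) (π : A → A) (hC : HSlW X Y C π) :
    ∃ M : LP Y (slG L w0 C π) T, M.p = L.p ∧ M.al = dslaL L w0 C π ∧ M.be = L.be := by
  have hX : Valid X := cov_valid hS.1 hT.1 ⟨L, hL⟩
  have hCw : ∀ {v x : V}, S.Adj v x → ∀ w w', C (L.al v x w) → C (L.al v x w') :=
    fun h w w' => dsla_C hT.1 L hC h w w'
  have hTw : ∀ {a b v : V} (w : W), DTy L C π w0 a b v → DTy L C π w a b v :=
    fun w h => dsla_T hT.1 L hC w0 w h
  have hTw' : ∀ {a b v : V} (w : W), DTy L C π w a b v → DTy L C π w0 a b v :=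
    fun w h => dsla_T hT.1 L hC w w0 h
  have hOw : ∀ {a b : V} (w : W), DOld L C w0 a b → DOld L C w a b :=
    fun w h => ⟨h.1, fun h' => h.2.1 (hCw h.1 _ _ h'), fun h' => h.2.2 (hCw h.1.symm _ _ h')⟩
  -- auxiliary facts on labels
  have l1 : ∀ {a b : V} (w : W), DOld L C w0 a b → ¬ C (dslaL L w0 C π a b w) ∧
      ¬ C (X.iA (dslaL L w0 C π a b w)) := by
    intro a b w h
    rw [dslaL_1 hS L h, ← L.ial _ _ _ h.1]
    exact (hOw w h).2
  have l2 : ∀ {a b v : V} (w : W), DTy L C π w0 a b v → C (dslaL L w0 C π a b w) := by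
    intro a b v w h
    rw [dslaL_2 hS L hC h]
    exact (hTw w h).2.2.1
  have l3 : ∀ {a b v : V} (w : W), DTy L C π w0 b a v → ¬ C (dslaL L w0 C π a b w) ∧
      C (X.iA (dslaL L w0 C π a b w)) := by
    intro a b v w h
    rw [dslaL_3 hS L hC h, ← L.ial _ _ _ h.1.symm]
    refine ⟨?_, (hTw w h).2.2.1⟩
    rw [L.ial _ _ _ h.1]
    exact hC.cinv _ (hTw w h).2.2.1
  have hoA : ∀ a b w, (slG L w0 C π).Adj a b → Y.oA (dslaL L w0 C π a b w) = L.p a w := by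
    intro a b w hab
    rw [dsla_adj L hC] at hab
    rcases hab with h | ⟨v, h⟩ | ⟨v, h⟩
    · rw [hC.oAN _ (l1 w h).1, dslaL_1 hS L h, L.oal _ _ _ h.1]
    · rw [hC.oAC _ (l2 w h), dslaL_2 hS L hC h, ← (hTw w h).2.2.2, ← L.ial _ _ _ h.2.1,
        L.oal _ _ _ h.2.1.symm]
    · rw [hC.oAN _ (l3 w h).1, dslaL_3 hS L hC h, L.oal _ _ _ h.1.symm]
  have hoB : ∀ v w w', T.Adj w w' → Y.oB (L.be v w w') = L.p v w := by
    intro v w w' h
    rw [hC.oB, L.obe _ _ _ h]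
  have hoo : ∀ a b w w', (slG L w0 C π).Adj a b → T.Adj w w' →
      Y.oA (dslaL L w0 C π a b w) = X.oB (L.be a w w') := by
    intro a b w w' h h'
    rw [hoA a b w h, L.obe _ _ _ h']
  refine ⟨⟨L.p, dslaL L w0 C π, L.be, hoA, hoB, ?_, ?_, ?_, ?_, ?_, ?_, L.inj_be, ?_⟩,
    rfl, rfl, rfl⟩
  · intro a b w hab
    rw [dsla_adj L hC] at hab
    rcases hab with h | ⟨v, h⟩ | ⟨v, h⟩
    · have h' : DOld L C w0 b a := ⟨h.1.symm, h.2.2, h.2.1⟩
      rw [dslaL_1 hS L h, dslaL_1 hS L h', hC.iA, L.ial _ _ _ h.1]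
    · rw [dslaL_2 hS L hC h, dslaL_3 hS L hC h, hC.iA, L.ial _ _ _ h.1]
    · rw [dslaL_2 hS L hC h, dslaL_3 hS L hC h, hC.iA, L.ial _ _ _ h.1.symm]
  · intro v w w' h
    rw [hC.iB, L.ibe _ _ _ h]
  · intro a b w w' hab hw
    have ho := hoo a b w w' hab hw
    rw [dsla_adj L hC] at hab
    rcases hab with h | ⟨v, h⟩ | ⟨v, h⟩
    · rw [hC.trN _ _ (l1 w h).1 ho, dslaL_1 hS L h, dslaL_1 hS L h, L.tr _ _ _ _ h.1 hw]
    · rw [hC.trC _ _ (l2 w h) ho, dslaL_2 hS L hC h, dslaL_2 hS L hC h, ← (hTw w h).2.2.2,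
        ← L.ial _ _ _ h.2.1, L.tl _ _ _ _ h.2.1.symm hw, L.tr _ _ _ _ h.1 hw]
    · rw [hC.trN _ _ (l3 w h).1 ho, dslaL_3 hS L hC h, dslaL_3 hS L hC h,
        L.tr _ _ _ _ h.1.symm hw]
  · intro a b w w' hab hw
    have ho := hoo a b w w' hab hw
    rw [dsla_adj L hC] at hab
    rcases hab with h | ⟨v, h⟩ | ⟨v, h⟩
    · rw [hC.tlN _ _ (l1 w h).1 (l1 w h).2 ho, dslaL_1 hS L h, L.tl _ _ _ _ h.1 hw]
    · rw [hC.tlC _ _ (l2 w h) ho, dslaL_2 hS L hC h, ← (hTw w h).2.2.2,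
        ← L.ial _ _ _ h.2.1, L.tl _ _ _ _ h.2.1.symm hw, L.tl _ _ _ _ h.1 hw]
    · rw [hC.tlI _ _ (l3 w h).2 ho, dslaL_3 hS L hC h, ← L.ial _ _ _ h.1.symm,
        ← (hTw w h).2.2.2, L.tl _ _ _ _ h.1.symm hw, L.tl _ _ _ _ h.2.1 hw]
  · intro v x y w hx hy e
    rw [dsla_adj L hC] at hx hy
    rcases hx with h | ⟨a, h⟩ | ⟨a, h⟩
    · rcases hy with k | ⟨b, k⟩ | ⟨b, k⟩
      · rw [dslaL_1 hS L h, dslaL_1 hS L k] at e
        exact L.inj_al v x y w h.1 k.1 e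
      · exact absurd (l2 w k) (e ▸ (l1 w h).1)
      · exact absurd (l3 w k).2 (e ▸ (l1 w h).2)
    · rcases hy with k | ⟨b, k⟩ | ⟨b, k⟩
      · exact absurd (l2 w h) (e ▸ (l1 w k).1)
      · rw [dslaL_2 hS L hC h, dslaL_2 hS L hC k] at e
        have h5 : L.al v a w = L.al v b w := by
          rw [L.ial _ _ _ h.2.1, L.ial _ _ _ k.2.1, (hTw w h).2.2.2, (hTw w k).2.2.2, e]
        have h6 := L.inj_al v a b w h.2.1.symm k.2.1.symm h5
        subst h6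
        exact L.inj_al a x y w h.1 k.1 e
      · exact absurd (l2 w h) (e ▸ (l3 w k).1)
    · rcases hy with k | ⟨b, k⟩ | ⟨b, k⟩
      · exact absurd (l3 w h).2 (e ▸ (l1 w k).2)
      · exact absurd (l2 w k) (e ▸ (l3 w h).1)
      · rw [dslaL_3 hS L hC h, dslaL_3 hS L hC k] at e
        have h6 := L.inj_al v a b w h.1.symm k.1.symm e
        subst h6
        refine L.inj_al a x y w h.2.1 k.2.1 ?_
        rw [(hTw w h).2.2.2, (hTw w k).2.2.2]
  · intro v w a ha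
    by_cases c1 : C a
    · rw [hC.oAC _ c1] at ha
      obtain ⟨u, h1, h2⟩ := L.sur_al v w _ ha
      have h3 : L.al u v w = π a := by rw [L.ial _ _ _ h1, h2, hX.iA]
      have h4 : L.p u w = X.oA a := by rw [← L.oal _ _ _ h1.symm, h3, (hC.cpi _ c1).2.2]
      obtain ⟨x, h5, h6⟩ := L.sur_al u w a h4.symm
      have h7 : DTy L C π w v x u := ⟨h5, h1.symm, by rw [h6]; exact c1, by rw [h3, h6]⟩
      refine ⟨x, (dsla_adj L hC w0 v x).2 (Or.inr (Or.inl ⟨u, hTw' w h7⟩)), ?_⟩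
      rw [dslaL_2 hS L hC (hTw' w h7), h6]
    · rw [hC.oAN _ c1] at ha
      obtain ⟨u, h1, h2⟩ := L.sur_al v w _ ha
      by_cases c2 : C (X.iA a)
      · have h3 : L.al u v w = X.iA a := by rw [L.ial _ _ _ h1, h2]
        have h4 : X.oA (π (X.iA a)) = L.p u w := by
          rw [(hC.cpi _ c2).2.2, ← h3, L.oal _ _ _ h1.symm]
        obtain ⟨x, h5, h6⟩ := L.sur_al u w _ h4
        have h7 : DTy L C π w x v u := ⟨h1.symm, h5, by rw [h3]; exact c2, by rw [h3, h6]⟩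
        refine ⟨x, (dsla_adj L hC w0 v x).2 (Or.inr (Or.inr ⟨u, hTw' w h7⟩)), ?_⟩
        rw [dslaL_3 hS L hC (hTw' w h7), h2]
      · have h7 : DOld L C w0 v u := by
          refine ⟨h1, fun h' => c1 ?_, fun h' => c2 ?_⟩
          · have := hCw h1 _ w h'
            rwa [h2] at this
          · have := hCw h1.symm _ w h'
            rwa [L.ial _ _ _ h1, h2] at this
        refine ⟨u, (dsla_adj L hC w0 v u).2 (Or.inl h7), ?_⟩
        rw [dslaL_1 hS L h7, h2]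
  · intro v w b hb
    rw [hC.oB] at hb
    exact L.sur_be v w b hb

theorem slG_cov (hS : S.IsTree) (hT : T.IsTree) (L : LP X S T) (hL : Cov G L) (w0 : W)
    (C : A → Prop) (π : A → A) (hC : HSlW X Y C π) :
    (slG L w0 C π).IsTree ∧ IsCov G (slG L w0 C π) T Y := by
  refine ⟨dsla_tree hS L w0 C π hC, ?_⟩
  obtain ⟨M, hp, ha, hb⟩ := dsla_lp hS hT L hL w0 C π hC
  have hgC : ∀ (g : G) {v x : V}, S.Adj v x → (C (L.al (g • v) (g • x) w0) ↔ C (L.al v x w0)) := by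
    intro g v x h
    have h' := hL.adjS g v x h
    rw [← hL.gal g v x w0 h]
    exact ⟨dsla_C hT.1 L hC h' _ _, dsla_C hT.1 L hC h' _ _⟩
  have hgO : ∀ (g : G) {a b : V}, DOld L C w0 a b → DOld L C w0 (g • a) (g • b) := by
    rintro g a b ⟨h1, h2, h3⟩
    exact ⟨hL.adjS g _ _ h1, fun h => h2 ((hgC g h1).1 h), fun h => h3 ((hgC g h1.symm).1 h)⟩
  have hgT : ∀ (g : G) {a b v : V}, DTy L C π w0 a b v → DTy L C π w0 (g • a) (g • b) (g • v) := by
    rintro g a b v ⟨h1, h2, h3, h4⟩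
    apply dsla_T hT.1 L hC (g • w0) w0
    refine ⟨hL.adjS g _ _ h1, hL.adjS g _ _ h2, ?_, ?_⟩
    · rw [hL.gal g _ _ _ h1]; exact h3
    · rw [hL.gal g _ _ _ h1, hL.gal g _ _ _ h2]; exact h4
  refine ⟨M, ?_, hL.adjT, ?_, ?_, ?_, hL.free, ?_, ?_⟩
  · intro g a b hab
    rw [dsla_adj L hC] at hab ⊢
    rcases hab with h | ⟨v, h⟩ | ⟨v, h⟩
    · exact Or.inl (hgO g h)
    · exact Or.inr (Or.inl ⟨_, hgT g h⟩)
    · exact Or.inr (Or.inr ⟨_, hgT g h⟩)
  · intro g v w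
    rw [hp]; exact hL.gp g v w
  · intro g a b w hab
    rw [ha]
    rw [dsla_adj L hC] at hab
    rcases hab with h | ⟨v, h⟩ | ⟨v, h⟩
    · rw [dslaL_1 hS L h, dslaL_1 hS L (hgO g h), hL.gal g _ _ _ h.1]
    · rw [dslaL_2 hS L hC h, dslaL_2 hS L hC (hgT g h), hL.gal g _ _ _ h.1]
    · rw [dslaL_3 hS L hC h, dslaL_3 hS L hC (hgT g h), hL.gal g _ _ _ h.1.symm]
  · intro g v w w' h
    rw [hb]; exact hL.gbe g v w w' h
  · intro v w v' w' e
    rw [hp] at e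
    exact hL.trans v w v' w' e
  · intro q
    rw [hp]
    exact hL.onto q

theorem hasCov_hsl (h : HasCov G X) (hs : HSl X Y) : HasCov G Y := by
  obtain ⟨V, W, i1, i2, S, T, hS, hT, L, hL⟩ := h
  obtain ⟨C, π, hC⟩ := hs
  obtain ⟨w0⟩ := hT.1.nonempty
  obtain ⟨h1, h2⟩ := slG_cov hS hT L hL w0 C π hC
  exact ⟨V, W, i1, i2, slG L w0 C π, T, h1, hT, h2⟩

end DSLA

end LatIso
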