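import Pool.Agent.Lib.MP_32d917_al.DSLA

/-!
# Slides of trees give slides of data
-/

set_option autoImplicit false

namespace LatIso

section DSLB

variable {G V W : Type} [Group G] [MulAction G V] [MulAction G W]
  {S S' : SimpleGraph V} {T : SimpleGraph W} {P A B : Type} {X Y : Dat P A B}

open Classical in
/-- the data after a slide -/
noncomputable def dslbY (X : Dat P A B) (C : A → Prop) (π : A → A) : Dat P A B where
  oA := fun a => if C a then X.oA (X.iA (π a)) else X.oA a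
  oB := X.oB
  iA := X.iA
  iB := X.iB
  tr := fun a b => if C a then X.tr a (X.tl (X.iA (π a)) b) else X.tr a b
  tl := fun a b => if C a then X.tl a (X.tl (X.iA (π a)) b) else
    if C (X.iA a) then X.tl (π (X.iA a)) (X.tl a b) else X.tl a b

/-- (5.6) -/
theorem hsl_of_slide (hS : TA G S) (hT : T.IsTree) (h : IsCov G S T X) (hs : Slide G S S') :
    ∃ Y : Dat P A B, HSl X Y ∧ IsCov G S' T Y := by
  classical
  obtain ⟨L, hL⟩ := h
  obtain ⟨v, x, u, hx, hu, n1, n2, hst, hadj⟩ := hs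
  obtain ⟨w0⟩ := hT.1.nonempty
  set C : A → Prop := fun a => ∃ w, L.al v x w = a with hCdef
  have hex : ∀ a, ∃ b, ∀ w, L.al v x w = a → L.al v u w = b := by
    intro a
    by_cases h : ∃ w, L.al v x w = a
    · obtain ⟨w, rfl⟩ := h
      refine ⟨L.al v u w, ?_⟩
      intro w' e
      obtain ⟨g, g1, g2, g3⟩ := (qiso_kerA hL _ _ _ _ _ _ hx hx).1 e
      have g4 := hst g g1 g2
      exact (qiso_kerA hL _ _ _ _ _ _ hu hu).2 ⟨g, g1, g4, g3⟩
    · exact ⟨a, fun w hw => absurd ⟨w, hw⟩ h⟩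
  choose π hπ using hex
  have hπ' : ∀ w, π (L.al v x w) = L.al v u w := fun w => (hπ _ w rfl).symm
  have hC : HSlW X (dslbY X C π) C π := by
    refine ⟨?_, ?_, ?_, ?_, fun _ => rfl, fun _ => rfl, fun _ => rfl, ?_, ?_, ?_, ?_, ?_, ?_, ?_⟩
    · rintro a b hab ⟨w, rfl⟩
      rw [L.oal _ _ _ hx] at hab
      obtain ⟨w', h1, rfl⟩ := L.sur_be v w b hab.symm
      exact ⟨w', (L.tr _ _ _ _ hx h1).symm⟩
    · rintro a ⟨w, rfl⟩ ⟨w', e⟩
      rw [← L.ial _ _ _ hx] at e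
      obtain ⟨g, g1, g2, g3⟩ := (qiso_kerA hL _ _ _ _ _ _ hx hx.symm).1 e
      exact hS.noinv g v x hx g1 g2
    · rintro a ⟨w, rfl⟩
      rw [hπ']
      refine ⟨?_, ?_, ?_⟩
      · rintro ⟨w', e⟩
        obtain ⟨g, g1, g2, g3⟩ := (qiso_kerA hL _ _ _ _ _ _ hx hu).1 e
        exact n1 g ⟨g1, g2⟩
      · rintro ⟨w', e⟩
        rw [← L.ial _ _ _ hu] at e
        obtain ⟨g, g1, g2, g3⟩ := (qiso_kerA hL _ _ _ _ _ _ hx hu.symm).1 e
        exact n2 g ⟨g1, g2⟩
      · rw [L.oal _ _ _ hx, L.oal _ _ _ hu]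
    · rintro a b hab ⟨w, rfl⟩
      rw [L.oal _ _ _ hx] at hab
      obtain ⟨w', h1, rfl⟩ := L.sur_be v w b hab.symm
      rw [L.tr _ _ _ _ hx h1, hπ', hπ', L.tr _ _ _ _ hu h1]
    · intro a ha
      exact if_pos ha
    · intro a ha
      exact if_neg ha
    · intro a b ha _
      exact if_pos ha
    · intro a b ha _
      exact if_pos ha
    · intro a b ha _
      exact if_neg ha
    · intro a b ha _
      have h2 : ¬ C a := by
        rintro ⟨w, rfl⟩
        obtain ⟨w', e⟩ := ha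
        rw [← L.ial _ _ _ hx] at e
        obtain ⟨g, g1, g2, g3⟩ := (qiso_kerA hL _ _ _ _ _ _ hx hx.symm).1 e
        exact hS.noinv g v x hx g1 g2
      exact (if_neg h2).trans (if_pos ha)
    · intro a b ha hb _
      exact (if_neg ha).trans (if_neg hb)
  refine ⟨dslbY X C π, ⟨C, π, hC⟩, ?_⟩
  have he : S' = slG L w0 C π := by
    have hCC : ∀ a b : V, S.Adj a b → (C (L.al a b w0) ↔ ∃ g : G, g • v = a ∧ g • x = b) := by
      intro a b hab
      constructor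
      · rintro ⟨w, e⟩
        obtain ⟨g, g1, g2, g3⟩ := (qiso_kerA hL _ _ _ _ _ _ hx hab).1 e
        exact ⟨g, g1, g2⟩
      · rintro ⟨g, g1, g2⟩
        refine ⟨g⁻¹ • w0, ?_⟩
        rw [qiso_kerA hL _ _ _ _ _ _ hx hab]
        exact ⟨g, g1, g2, smul_inv_smul g w0⟩
    have key : ∀ a b : V, (∃ z, DTy L C π w0 a b z) ↔ ∃ g : G, g • u = a ∧ g • x = b := by
      intro a b
      constructor
      · rintro ⟨z, h1, h2, h3, h4⟩
        obtain ⟨w, e⟩ := h3
        obtain ⟨g, g1, g2, g3⟩ := (qiso_kerA hL _ _ _ _ _ _ hx h1).1 e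
        refine ⟨g, ?_, g2⟩
        subst g1 g2 g3
        rw [hL.gal g _ _ _ hx, hπ', ← hL.gal g _ _ _ hu] at h4
        exact (L.inj_al _ _ _ _ h2 (hL.adjS g _ _ hu) h4).symm
      · rintro ⟨g, rfl, rfl⟩
        refine ⟨g • v, hL.adjS g _ _ hx, hL.adjS g _ _ hu, ?_, ?_⟩
        · rw [hCC _ _ (hL.adjS g _ _ hx)]
          exact ⟨g, rfl, rfl⟩
        · have e1 : L.al (g • v) (g • x) w0 = L.al v x (g⁻¹ • w0) := by
            conv_lhs => rw [← smul_inv_smul g w0]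
            exact hL.gal g _ _ _ hx
          have e2 : L.al (g • v) (g • u) w0 = L.al v u (g⁻¹ • w0) := by
            conv_lhs => rw [← smul_inv_smul g w0]
            exact hL.gal g _ _ _ hu
          rw [e1, e2, hπ']
    ext a b
    rw [hadj a b, dsla_adj L hC, key a b, key b a]
    constructor
    · rintro (⟨h1, h2⟩ | ⟨g, h | h⟩)
      · refine Or.inl ⟨h1, ?_, ?_⟩
        · rw [hCC a b h1]
          rintro ⟨g, hg⟩
          exact (h2 g).1 hg
        · rw [hCC b a h1.symm]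
          rintro ⟨g, hg⟩
          exact (h2 g).2 hg
      · exact Or.inr (Or.inl ⟨g, h⟩)
      · exact Or.inr (Or.inr ⟨g, h⟩)
    · rintro (⟨h1, h2, h3⟩ | ⟨g, h⟩ | ⟨g, h⟩)
      · refine Or.inl ⟨h1, fun g => ⟨fun hg => h2 ?_, fun hg => h3 ?_⟩⟩
        · rw [hCC a b h1]; exact ⟨g, hg⟩
        · rw [hCC b a h1.symm]; exact ⟨g, hg⟩
      · exact Or.inr ⟨g, Or.inl h⟩
      · exact Or.inr ⟨g, Or.inr h⟩
  rw [he]
  exact (slG_cov hS.tree hT L hL w0 C π hC).2

end DSLB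

end LatIso
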