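import Mathlib

/-!
# Lattices in products of two trees: definitions
-/

set_option autoImplicit false

namespace LatIso

/-! ### Trees -/

/-- `m` lies between `x` and `y` in the graph metric of `S` -/
def Bt {V : Type} (S : SimpleGraph V) (x m y : V) : Prop :=
  S.dist x m + S.dist m y = S.dist x y

/-- convex sets of vertices -/
def Cvx {V : Type} (S : SimpleGraph V) (C : Set V) : Prop :=
  ∀ x ∈ C, ∀ y ∈ C, ∀ m, Bt S x m y → m ∈ C

/-! ### Groups acting on trees without inversions -/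

/-- `G` acts on the tree `S` by automorphisms and without inversions -/
structure TA (G : Type) [Group G] {V : Type} [MulAction G V] (S : SimpleGraph V) : Prop where
  tree : S.IsTree
  adj : ∀ (g : G) (x y : V), S.Adj x y → S.Adj (g • x) (g • y)
  noinv : ∀ (g : G) (x y : V), S.Adj x y → g • x = y → g • y ≠ x

/-- translation length of `g` -/
noncomputable def tl {G : Type} [Group G] {V : Type} [MulAction G V] (S : SimpleGraph V) (g : G) :
    ℕ :=
  sInf (Set.range fun x : V => S.dist x (g • x))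

/-- characteristic set of `g`: the vertices of minimal displacement -/
def CC {G : Type} [Group G] {V : Type} [MulAction G V] (S : SimpleGraph V) (g : G) : Set V :=
  {x | S.dist x (g • x) = tl S g}

/-- The group `G` acts on the trees `S` and `T` as a uniform lattice, freely and without
inversions; both trees are locally finite, without leaves, and not a line. -/
structure Lat (G : Type) [Group G] {V W : Type} [MulAction G V] [MulAction G W]
    (S : SimpleGraph V) (T : SimpleGraph W) : Prop where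
  hS : TA G S
  hT : TA G T
  locS : ∀ v, (S.neighborSet v).Finite
  locT : ∀ w, (T.neighborSet w).Finite
  twoS : ∀ v, ∃ x y, x ≠ y ∧ S.Adj v x ∧ S.Adj v y
  twoT : ∀ w, ∃ x y, x ≠ y ∧ T.Adj w x ∧ T.Adj w y
  threeS : ∃ v x y z, x ≠ y ∧ y ≠ z ∧ x ≠ z ∧ S.Adj v x ∧ S.Adj v y ∧ S.Adj v z
  threeT : ∃ w x y z, x ≠ y ∧ y ≠ z ∧ x ≠ z ∧ T.Adj w x ∧ T.Adj w y ∧ T.Adj w z
  free : ∀ (g : G) (v : V) (w : W), g • v = v → g • w = w → g = 1
  fin : ∃ F : Finset (V × W), ∀ v w, ∃ g : G, (g • v, g • w) ∈ F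

/-- the action of `G` on the tree `S` is reduced: an edge `v x` with `stab v ≤ stab x` is a loop
in the quotient -/
def Red (G : Type) [Group G] {V : Type} [MulAction G V] (S : SimpleGraph V) : Prop :=
  ∀ v x : V, S.Adj v x → (∀ g : G, g • v = v → g • x = x) → ∃ g : G, g • v = x

/-- `stab v ≤ stab x`, for vertices of two different `G`-sets -/
def StabLe (G : Type) [Group G] {V V' : Type} [MulAction G V] [MulAction G V'] (v : V) (x : V') :
    Prop := ∀ g : G, g • v = v → g • x = x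

/-- `S'` is obtained from `S` by sliding the edge `v x` over the edge `v u` -/
def Slide (G : Type) [Group G] {V : Type} [MulAction G V] (S S' : SimpleGraph V) : Prop :=
  ∃ v x u : V, S.Adj v x ∧ S.Adj v u ∧
    (∀ g : G, ¬ (g • v = v ∧ g • x = u)) ∧ (∀ g : G, ¬ (g • v = u ∧ g • x = v)) ∧
    (∀ g : G, g • v = v → g • x = x → g • u = u) ∧
    ∀ a b : V, S'.Adj a b ↔
      (S.Adj a b ∧ ∀ g : G, ¬ (g • v = a ∧ g • x = b) ∧ ¬ (g • v = b ∧ g • x = a)) ∨
      ∃ g : G, (g • u = a ∧ g • x = b) ∨ (g • u = b ∧ g • x = a)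

/-! ### Finite data: complete VH complexes -/

/-- Data of a VH complex: points `P`, horizontal darts `A`, vertical darts `B`. For `a : A`,
`b : B` with the same origin, `tr a b` and `tl a b` are the horizontal and the vertical dart
opposite to `a` and `b` in the square spanned by `a` and `b`. -/
structure Dat (P A B : Type) where
  oA : A → P
  oB : B → P
  iA : A → A
  iB : B → B
  tr : A → B → A
  tl : A → B → B

/-- the data with the two directions exchanged -/
def Dat.swap {P A B : Type} (X : Dat P A B) : Dat P B A where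
  oA := X.oB
  oB := X.oA
  iA := X.iB
  iB := X.iA
  tr := fun b a => X.tl a b
  tl := fun b a => X.tr a b

/-- equality of data up to irrelevant values -/
structure Dat.Eqv {P A B : Type} (X Y : Dat P A B) : Prop where
  oA : ∀ a, X.oA a = Y.oA a
  oB : ∀ b, X.oB b = Y.oB b
  iA : ∀ a, X.iA a = Y.iA a
  iB : ∀ b, X.iB b = Y.iB b
  tr : ∀ a b, X.oA a = X.oB b → X.tr a b = Y.tr a b
  tl : ∀ a b, X.oA a = X.oB b → X.tl a b = Y.tl a b

/-- isomorphism of data -/
def Iso {P A B P' A' B' : Type} (X : Dat P A B) (Y : Dat P' A' B') : Prop :=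
  ∃ (f : P ≃ P') (g : A ≃ A') (h : B ≃ B'),
    (∀ a, Y.oA (g a) = f (X.oA a)) ∧ (∀ b, Y.oB (h b) = f (X.oB b)) ∧
    (∀ a, Y.iA (g a) = g (X.iA a)) ∧ (∀ b, Y.iB (h b) = h (X.iB b)) ∧
    (∀ a b, X.oA a = X.oB b → Y.tr (g a) (h b) = g (X.tr a b)) ∧
    (∀ a b, X.oA a = X.oB b → Y.tl (g a) (h b) = h (X.tl a b))

/-- the axioms of complete VH complexes -/
structure Valid {P A B : Type} (X : Dat P A B) : Prop where
  iA : ∀ a, X.iA (X.iA a) = a
  iB : ∀ b, X.iB (X.iB b) = b
  otr : ∀ a b, X.oA a = X.oB b → X.oA (X.tr a b) = X.oB (X.iB b)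
  otl : ∀ a b, X.oA a = X.oB b → X.oB (X.tl a b) = X.oA (X.iA a)
  tri : ∀ a b, X.oA a = X.oB b → X.tr (X.iA a) (X.tl a b) = X.iA (X.tr a b)
  tli : ∀ a b, X.oA a = X.oB b → X.tl (X.iA a) (X.tl a b) = b
  tri' : ∀ a b, X.oA a = X.oB b → X.tr (X.tr a b) (X.iB b) = a
  tli' : ∀ a b, X.oA a = X.oB b → X.tl (X.tr a b) (X.iB b) = X.iB (X.tl a b)

/-- A product of two trees labelled by the data `X` -/
structure LP {P A B : Type} (X : Dat P A B) {V W : Type} (S : SimpleGraph V) (T : SimpleGraph W)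
    where
  p : V → W → P
  al : V → V → W → A
  be : V → W → W → B
  oal : ∀ v v' w, S.Adj v v' → X.oA (al v v' w) = p v w
  obe : ∀ v w w', T.Adj w w' → X.oB (be v w w') = p v w
  ial : ∀ v v' w, S.Adj v v' → al v' v w = X.iA (al v v' w)
  ibe : ∀ v w w', T.Adj w w' → be v w' w = X.iB (be v w w')
  tr : ∀ v v' w w', S.Adj v v' → T.Adj w w' → X.tr (al v v' w) (be v w w') = al v v' w'
  tl : ∀ v v' w w', S.Adj v v' → T.Adj w w' → X.tl (al v v' w) (be v w w') = be v' w w'
  inj_al : ∀ v x y w, S.Adj v x → S.Adj v y → al v x w = al v y w → x = y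
  sur_al : ∀ v w a, X.oA a = p v w → ∃ v', S.Adj v v' ∧ al v v' w = a
  inj_be : ∀ v w x y, T.Adj w x → T.Adj w y → be v w x = be v w y → x = y
  sur_be : ∀ v w b, X.oB b = p v w → ∃ w', T.Adj w w' ∧ be v w w' = b

/-- `X` is the quotient of the product of trees `S`, `T` by the group `G`, with the labelling `L` -/
structure Cov (G : Type) [Group G] {V W : Type} [MulAction G V] [MulAction G W]
    {S : SimpleGraph V} {T : SimpleGraph W} {P A B : Type} {X : Dat P A B} (L : LP X S T) :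
    Prop where
  adjS : ∀ (g : G) (x y : V), S.Adj x y → S.Adj (g • x) (g • y)
  adjT : ∀ (g : G) (x y : W), T.Adj x y → T.Adj (g • x) (g • y)
  gp : ∀ (g : G) v w, L.p (g • v) (g • w) = L.p v w
  gal : ∀ (g : G) v v' w, S.Adj v v' → L.al (g • v) (g • v') (g • w) = L.al v v' w
  gbe : ∀ (g : G) v w w', T.Adj w w' → L.be (g • v) (g • w) (g • w') = L.be v w w'
  free : ∀ (g : G) (v : V) (w : W), g • v = v → g • w = w → g = 1
  trans : ∀ v w v' w', L.p v w = L.p v' w' → ∃ g : G, g • v = v' ∧ g • w = w'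
  onto : ∀ q : P, ∃ v w, L.p v w = q

/-- `X` is the quotient of the product of trees `S`, `T` by the group `G` -/
def IsCov (G : Type) [Group G] {V W : Type} [MulAction G V] [MulAction G W]
    (S : SimpleGraph V) (T : SimpleGraph W) {P A B : Type} (X : Dat P A B) : Prop :=
  ∃ L : LP X S T, Cov G L

/-- `G` is the fundamental group of the complete VH complex `X` (in the form: `G` acts on a product
of two trees with quotient `X`) -/
def HasCov (G : Type) [Group G] {P A B : Type} (X : Dat P A B) : Prop :=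
  ∃ (V W : Type) (_ : MulAction G V) (_ : MulAction G W) (S : SimpleGraph V)
    (T : SimpleGraph W), S.IsTree ∧ T.IsTree ∧ IsCov G S T X

/-- Slide of horizontal darts: the darts `a` with `C a` are slid over `π a`. -/
structure HSlW {P A B : Type} (X Y : Dat P A B) (C : A → Prop) (π : A → A) : Prop where
  ctr : ∀ a b, X.oA a = X.oB b → C a → C (X.tr a b)
  cinv : ∀ a, C a → ¬ C (X.iA a)
  cpi : ∀ a, C a → ¬ C (π a) ∧ ¬ C (X.iA (π a)) ∧ X.oA (π a) = X.oA a
  ptr : ∀ a b, X.oA a = X.oB b → C a → π (X.tr a b) = X.tr (π a) b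
  oB : ∀ b, Y.oB b = X.oB b
  iB : ∀ b, Y.iB b = X.iB b
  iA : ∀ a, Y.iA a = X.iA a
  oAC : ∀ a, C a → Y.oA a = X.oA (X.iA (π a))
  oAN : ∀ a, ¬ C a → Y.oA a = X.oA a
  trC : ∀ a b, C a → Y.oA a = X.oB b → Y.tr a b = X.tr a (X.tl (X.iA (π a)) b)
  tlC : ∀ a b, C a → Y.oA a = X.oB b → Y.tl a b = X.tl a (X.tl (X.iA (π a)) b)
  trN : ∀ a b, ¬ C a → Y.oA a = X.oB b → Y.tr a b = X.tr a b
  tlI : ∀ a b, C (X.iA a) → Y.oA a = X.oB b → Y.tl a b = X.tl (π (X.iA a)) (X.tl a b)
  tlN : ∀ a b, ¬ C a → ¬ C (X.iA a) → Y.oA a = X.oB b → Y.tl a b = X.tl a b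

/-- `Y` is obtained from `X` by a slide of horizontal darts -/
def HSl {P A B : Type} (X Y : Dat P A B) : Prop := ∃ C π, HSlW X Y C π

/-- A spanning tree of the data, rooted at `p0`: the dart `δ q` ends at `q` and starts at a
point of smaller rank. -/
structure Span {P A B : Type} (X : Dat P A B) (p0 : P) (δ : P → A ⊕ B) (r : P → ℕ) : Prop where
  endA : ∀ q a, q ≠ p0 → δ q = Sum.inl a → X.oA (X.iA a) = q ∧ r (X.oA a) < r q
  endB : ∀ q b, q ≠ p0 → δ q = Sum.inr b → X.oB (X.iB b) = q ∧ r (X.oB b) < r q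

/-- relators of the fundamental group -/
inductive Rel {P A B : Type} (X : Dat P A B) (p0 : P) (δ : P → A ⊕ B) :
    FreeGroup (A ⊕ B) → Prop
  | invA (a : A) : Rel X p0 δ (FreeGroup.of (Sum.inl a) * FreeGroup.of (Sum.inl (X.iA a)))
  | invB (b : B) : Rel X p0 δ (FreeGroup.of (Sum.inr b) * FreeGroup.of (Sum.inr (X.iB b)))
  | sq (a : A) (b : B) (h : X.oA a = X.oB b) : Rel X p0 δ
      (FreeGroup.of (Sum.inl a) * FreeGroup.of (Sum.inr (X.tl a b)) *
        (FreeGroup.of (Sum.inl (X.tr a b)))⁻¹ * (FreeGroup.of (Sum.inr b))⁻¹)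
  | span (q : P) (h : q ≠ p0) : Rel X p0 δ (FreeGroup.of (δ q))

/-- the fundamental group of `X`, with respect to the spanning tree `δ` -/
abbrev Gam {P A B : Type} (X : Dat P A B) (p0 : P) (δ : P → A ⊕ B) : Type :=
  PresentedGroup {r | Rel X p0 δ r}

/-- `a'` is a vertical translate of the horizontal dart `a` -/
inductive VTr {P A B : Type} (X : Dat P A B) (a : A) : A → Prop
  | refl : VTr X a a
  | step (a' : A) (b : B) : VTr X a a' → X.oA a' = X.oB b → VTr X a (X.tr a' b)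

/-- the horizontal half of goodness -/
structure GoodH {P A B : Type} (X : Dat P A B) : Prop where
  two : ∀ q : P, ∃ a a', a ≠ a' ∧ X.oA a = q ∧ X.oA a' = q
  three : ∃ (q : P) (a a' a'' : A), a ≠ a' ∧ a' ≠ a'' ∧ a ≠ a'' ∧ X.oA a = q ∧ X.oA a' = q ∧
    X.oA a'' = q
  orient : ∃ s : A → Bool, (∀ a, s (X.iA a) = !(s a)) ∧
    ∀ a b, X.oA a = X.oB b → s (X.tr a b) = s a
  red : ∀ a, ∃ a', VTr X a a' ∧ (X.oA a' = X.oA (X.iA a) ∨ (a' ≠ a ∧ X.oA a' = X.oA a))

/-- good data: the data of reduced lattices -/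
structure Good {P A B : Type} (X : Dat P A B) : Prop where
  valid : Valid X
  span : ∃ p0 δ r, Span X p0 δ r
  goodH : GoodH X
  goodV : GoodH X.swap

/-! ### Finite presentations -/

/-- finite presentations: number of generators and list of relators -/
abbrev Pres : Type := ℕ × List (List (ℕ × Bool))

/-- the relators; the superfluous generators are killed -/
def Pres.rels (P : Pres) : Set (FreeGroup ℕ) :=
  {r | ∃ w ∈ P.2, r = FreeGroup.mk w} ∪ {r | ∃ i, P.1 ≤ i ∧ r = FreeGroup.of i}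

/-- the group given by a finite presentation -/
abbrev Pres.Grp (P : Pres) : Type := PresentedGroup P.rels

/-! ### The class of groups -/

/-- The group `G` acts on the product of the trees `S` and `T` as a torsion free uniform lattice;
both trees are locally finite, without leaves, and not a line. -/
structure LatT (G : Type) [Group G] {V W : Type} [MulAction G V] [MulAction G W]
    (S : SimpleGraph V) (T : SimpleGraph W) : Prop where
  treeS : S.IsTree
  treeT : T.IsTree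
  adjS : ∀ (g : G) (x y : V), S.Adj x y → S.Adj (g • x) (g • y)
  adjT : ∀ (g : G) (x y : W), T.Adj x y → T.Adj (g • x) (g • y)
  locS : ∀ v, (S.neighborSet v).Finite
  locT : ∀ w, (T.neighborSet w).Finite
  twoS : ∀ v, ∃ x y, x ≠ y ∧ S.Adj v x ∧ S.Adj v y
  twoT : ∀ w, ∃ x y, x ≠ y ∧ T.Adj w x ∧ T.Adj w y
  threeS : ∃ v x y z, x ≠ y ∧ y ≠ z ∧ x ≠ z ∧ S.Adj v x ∧ S.Adj v y ∧ S.Adj v z
  threeT : ∃ w x y z, x ≠ y ∧ y ≠ z ∧ x ≠ z ∧ T.Adj w x ∧ T.Adj w y ∧ T.Adj w z
  free : ∀ (g : G) (v : V) (w : W), g • v = v → g • w = w → g = 1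
  fin : ∃ F : Finset (V × W), ∀ v w, ∃ g : G, (g • v, g • w) ∈ F
  tf : ∀ g : G, g ≠ 1 → ∀ n : ℕ, 0 < n → g ^ n ≠ 1

/-- torsion free uniform lattices in products of two trees -/
def IsTreeLattice (G : Type) [Group G] : Prop :=
  ∃ (V W : Type) (_ : MulAction G V) (_ : MulAction G W) (S : SimpleGraph V)
    (T : SimpleGraph W), LatT G S T

/-- reduced uniform lattices in products of two trees, acting freely and without inversions -/
def IsRedLattice (G : Type) [Group G] : Prop :=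
  ∃ (V W : Type) (_ : MulAction G V) (_ : MulAction G W) (S : SimpleGraph V)
    (T : SimpleGraph W), Lat G S T ∧ Red G S ∧ Red G T

/-! ### Auxiliary definitions: families of edges, potentials -/

/-- the graph given by representatives of the edge orbits -/
def FGr (G : Type) [Group G] {V : Type} [MulAction G V] {n : ℕ} (c : Fin n → V × V) :
    SimpleGraph V where
  Adj a b := a ≠ b ∧ ∃ (i : Fin n) (g : G), (g • (c i).1 = a ∧ g • (c i).2 = b) ∨
    (g • (c i).1 = b ∧ g • (c i).2 = a)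
  symm := by
    constructor
    rintro a b ⟨h, i, g, h1⟩
    exact ⟨h.symm, i, g, h1.symm⟩
  loopless := ⟨fun a h => h.1 rfl⟩

/-- the representatives are in different orbits, also up to reversal -/
def FGood (G : Type) [Group G] {V : Type} [MulAction G V] {n : ℕ} (c : Fin n → V × V) : Prop :=
  TA G (FGr G c) ∧ (∀ i, (c i).1 ≠ (c i).2) ∧
    ∀ i j, i ≠ j → ∀ g : G, ¬ (g • (c i).1 = (c j).1 ∧ g • (c i).2 = (c j).2) ∧
      ¬ (g • (c i).1 = (c j).2 ∧ g • (c i).2 = (c j).1)

/-- first potential -/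
noncomputable def FE {V : Type} (S' : SimpleGraph V) {n : ℕ} (c : Fin n → V × V) : ℕ :=
  ∑ i, S'.dist (c i).1 (c i).2

/-- the rank of the initial half of the `S'`-path from `x` to `y` -/
noncomputable def halfRk {V : Type} (S' : SimpleGraph V) (R : V → V → ℕ) (x y : V) : ℕ := by
  classical
  exact if h : ∃ m, S'.dist x m = (S'.dist x y + 1) / 2 ∧ Bt S' x m y then R x h.choose else 0

/-- second potential -/
noncomputable def FW {V : Type} (S' : SimpleGraph V) (R : V → V → ℕ) {n : ℕ}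
    (c : Fin n → V × V) : ℕ :=
  ∑ i, (halfRk S' R (c i).1 (c i).2 + halfRk S' R (c i).2 (c i).1)

/-- `c` has minimal first potential among all families connected to it by slides -/
def FMin (G : Type) [Group G] {V : Type} [MulAction G V] (S' : SimpleGraph V) {n : ℕ}
    (c : Fin n → V × V) : Prop :=
  ∀ c' : Fin n → V × V, FGood G c' → Relation.ReflTransGen (Slide G) (FGr G c) (FGr G c') →
    FE S' c ≤ FE S' c'

/-! ### Auxiliary definitions: coverings, slides of labelled products -/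

/-- horizontal coverings -/
structure HCv {P A B : Type} (X : Dat P A B) {V : Type} (S : SimpleGraph V) (q : V → P) (al : V → V → A) :
    Prop where
  o : ∀ v v', S.Adj v v' → X.oA (al v v') = q v
  i : ∀ v v', S.Adj v v' → al v' v = X.iA (al v v')
  inj : ∀ v x y, S.Adj v x → S.Adj v y → al v x = al v y → x = y
  sur : ∀ v a, X.oA a = q v → ∃ v', S.Adj v v' ∧ al v v' = a

/-- the graph obtained by sliding the darts with label in `C` over their images by `π` -/
def slG {V W P A B : Type} {S : SimpleGraph V} {T : SimpleGraph W} {X : Dat P A B}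
    (L : LP X S T) (w0 : W) (C : A → Prop) (π : A → A) : SimpleGraph V where
  Adj a b := a ≠ b ∧ ((S.Adj a b ∧ ¬ C (L.al a b w0) ∧ ¬ C (L.al b a w0)) ∨
    (∃ v, S.Adj v b ∧ S.Adj v a ∧ C (L.al v b w0) ∧ L.al v a w0 = π (L.al v b w0)) ∨
    (∃ v, S.Adj v a ∧ S.Adj v b ∧ C (L.al v a w0) ∧ L.al v b w0 = π (L.al v a w0)))
  symm := by
    constructor
    rintro a b ⟨h, h1⟩
    refine ⟨h.symm, ?_⟩
    rcases h1 with h1 | h1 | h1
    · exact Or.inl ⟨h1.1.symm, h1.2.2, h1.2.1⟩
    · exact Or.inr (Or.inr h1)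
    · exact Or.inr (Or.inl h1)
  loopless := ⟨fun a h => h.1 rfl⟩

/-! ### Auxiliary definitions: codes -/

/-- sizes and tables -/
abbrev Code : Type := (ℕ × ℕ × ℕ) × (ℕ × ℕ × ℕ × ℕ × ℕ × ℕ)

/-- digit number `t` of `w` in base `n + 1` -/
def dig (n w t : ℕ) : Fin (n + 1) := ⟨w / (n + 1) ^ t % (n + 1), Nat.mod_lt _ (Nat.succ_pos n)⟩

/-- decoding of tables -/
def dec (s : ℕ × ℕ × ℕ) (t : ℕ × ℕ × ℕ × ℕ × ℕ × ℕ) :
    Dat (Fin (s.1 + 1)) (Fin (s.2.1 + 1)) (Fin (s.2.2 + 1)) where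
  oA := fun a => dig s.1 t.1 a
  oB := fun b => dig s.1 t.2.1 b
  iA := fun a => dig s.2.1 t.2.2.1 a
  iB := fun b => dig s.2.2 t.2.2.2.1 b
  tr := fun a b => dig s.2.1 t.2.2.2.2.1 (a * (s.2.2 + 1) + b)
  tl := fun a b => dig s.2.2 t.2.2.2.2.2 (a * (s.2.2 + 1) + b)

/-- bound for the entries of tables -/
def bd (s : ℕ × ℕ × ℕ) : ℕ := (s.1 + s.2.1 + s.2.2 + 1) ^ ((s.2.1 + 1) * (s.2.2 + 1))

/-- tables below the bound -/
def InBox (s : ℕ × ℕ × ℕ) (t : ℕ × ℕ × ℕ × ℕ × ℕ × ℕ) : Prop :=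
  t.1 < bd s ∧ t.2.1 < bd s ∧ t.2.2.1 < bd s ∧ t.2.2.2.1 < bd s ∧ t.2.2.2.2.1 < bd s ∧
    t.2.2.2.2.2 < bd s

/-- elementary steps between codes -/
def CStep (x y : Code) : Prop :=
  (y.1 = x.1 ∧ HSl (dec x.1 x.2) (dec x.1 y.2)) ∨
    (y.1 = (x.1.1, x.1.2.2, x.1.2.1) ∧ dec (x.1.1, x.1.2.2, x.1.2.1) y.2 = (dec x.1 x.2).swap)

/-- lists of codes closed under elementary steps -/
def Closed (l : List Code) : Prop :=
  ∀ x ∈ l, ∀ y : Code, InBox y.1 y.2 → CStep x y → y ∈ l

/-- decoding of base points and of spanning trees -/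
def decp (s : ℕ × ℕ × ℕ) (p : ℕ) : Fin (s.1 + 1) := ⟨p % (s.1 + 1), Nat.mod_lt _ (Nat.succ_pos _)⟩

/-- decoding of spanning trees -/
def decd (s : ℕ × ℕ × ℕ) (d : ℕ) (q : Fin (s.1 + 1)) : Fin (s.2.1 + 1) ⊕ Fin (s.2.2 + 1) :=
  finSumFinEquiv.symm ⟨d / ((s.2.1 + 1) + (s.2.2 + 1)) ^ (q : ℕ) % ((s.2.1 + 1) + (s.2.2 + 1)),
    Nat.mod_lt _ (by omega)⟩

end LatIso
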