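import Pool.Agent.Lib.MP_32d917_al.Defs

/-!
# Transport on a tree
-/

set_option autoImplicit false

namespace LatIso

section TTL

/-- transport along a walk -/
def ttlTp {V Y : Type} {S : SimpleGraph V} (ph : V → V → Y → Y) :
    {u v : V} → S.Walk u v → Y → Y
  | _, _, .nil, y => y
  | _, _, .cons (u := u) (v := v) _ p, y => ttlTp ph p (ph u v y)

theorem ttl_concat {V Y : Type} {S : SimpleGraph V} (ph : V → V → Y → Y) {u v w : V}
    (p : S.Walk u v) (h : S.Adj v w) (y : Y) :
    ttlTp ph (p.concat h) y = ph v w (ttlTp ph p y) := by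
  induction p generalizing y with
  | nil => rfl
  | cons h' p ih =>
    rw [SimpleGraph.Walk.concat_cons]
    simp only [ttlTp]
    exact ih h _

theorem ttl_Q {V Y : Type} {S : SimpleGraph V} (Q : V → Y → Prop) (ph : V → V → Y → Y)
    (h1 : ∀ v v' y, S.Adj v v' → Q v y → Q v' (ph v v' y)) {u v : V}
    (p : S.Walk u v) (y : Y) (h0 : Q u y) : Q v (ttlTp ph p y) := by
  induction p generalizing y with
  | nil => exact h0
  | cons h' p ih => exact ih _ (h1 _ _ _ h' h0)

/-- (5.1) -/
theorem ttl {V Y : Type} {S : SimpleGraph V} (hS : S.IsTree) (Q : V → Y → Prop)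
    (ph : V → V → Y → Y)
    (h1 : ∀ v v' y, S.Adj v v' → Q v y → Q v' (ph v v' y))
    (h2 : ∀ v v' y, S.Adj v v' → Q v y → ph v' v (ph v v' y) = y)
    (v0 : V) (y0 : Y) (h0 : Q v0 y0) :
    ∃ f : V → Y, f v0 = y0 ∧ (∀ v, Q v (f v)) ∧ ∀ v v', S.Adj v v' → f v' = ph v v' (f v) := by
  classical
  choose P hP hP' using fun v => hS.existsUnique_path v0 v
  have hQ : ∀ v, Q v (ttlTp ph (P v) y0) := fun v => ttl_Q Q ph h1 _ _ h0
  refine ⟨fun v => ttlTp ph (P v) y0, ?_, hQ, ?_⟩
  · have : P v0 = SimpleGraph.Walk.nil := by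
      exact (hP' v0 SimpleGraph.Walk.nil (by simp)).symm
    simp only [this]
    rfl
  · intro v v' hv
    by_cases hm : v' ∈ (P v).support
    · have h3 : P v = (P v').concat hv.symm :=
        hS.isAcyclic.path_concat (hP v') (hP v) hv.symm hm
      have h4 : ttlTp ph (P v) y0 = ph v' v (ttlTp ph (P v') y0) := by
        rw [h3, ttl_concat]
      simp only [h4]
      exact (h2 v' v _ hv.symm (hQ v')).symm
    · have h3 : ((P v).concat hv).IsPath := (hP v).concat hm hv
      have h4 : (P v).concat hv = P v' := hP' v' _ h3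
      simp only [← h4]
      exact ttl_concat _ _ _ _

theorem ttl_uniq {V Y : Type} {S : SimpleGraph V} (hS : S.Connected) (ph : V → V → Y → Y)
    (f g : V → Y) (hf : ∀ v v', S.Adj v v' → f v' = ph v v' (f v))
    (hg : ∀ v v', S.Adj v v' → g v' = ph v v' (g v)) (v0 : V) (h0 : f v0 = g v0) : f = g := by
  funext v
  obtain ⟨p⟩ := hS.preconnected v0 v
  induction p with
  | nil => exact h0
  | cons h' p ih => exact ih (by rw [hf _ _ h', hg _ _ h', h0])

/-- induction along a connected graph -/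
theorem ttl_ind {V : Type} {S : SimpleGraph V} (hS : S.Connected) (Q : V → Prop) (v0 : V)
    (h0 : Q v0) (h1 : ∀ v v', S.Adj v v' → Q v → Q v') (v : V) : Q v := by
  obtain ⟨p⟩ := hS.preconnected v0 v
  induction p with
  | nil => exact h0
  | cons h' p ih => exact ih (h1 _ _ h' h0)

end TTL

end LatIso
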