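import Pool.Agent.Lib.MP_32d917_al.Defs

/-!
# Slides of trees are trees
-/

set_option autoImplicit false

namespace LatIso

/-- two vertices of a tree have at most one common neighbour -/
theorem slt_mid {V : Type} {S : SimpleGraph V} (hS : S.IsTree) {u x v v' : V} (hux : u ≠ x)
    (h1 : S.Adj u v) (h2 : S.Adj v x) (h3 : S.Adj u v') (h4 : S.Adj v' x) : v = v' := by
  classical
  set p : S.Walk u x := SimpleGraph.Walk.cons h1 (SimpleGraph.Walk.cons h2 SimpleGraph.Walk.nil)
    with hp
  set q : S.Walk u x := SimpleGraph.Walk.cons h3 (SimpleGraph.Walk.cons h4 SimpleGraph.Walk.nil)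
    with hq
  have hpp : p.IsPath := by
    rw [hp, SimpleGraph.Walk.cons_isPath_iff, SimpleGraph.Walk.cons_isPath_iff]
    refine ⟨⟨SimpleGraph.Walk.IsPath.nil, ?_⟩, ?_⟩
    · simpa using h2.ne
    · simp only [SimpleGraph.Walk.support_cons, SimpleGraph.Walk.support_nil, List.mem_cons,
        List.not_mem_nil, or_false, not_or]
      exact ⟨h1.ne, hux⟩
  have hqp : q.IsPath := by
    rw [hq, SimpleGraph.Walk.cons_isPath_iff, SimpleGraph.Walk.cons_isPath_iff]
    refine ⟨⟨SimpleGraph.Walk.IsPath.nil, ?_⟩, ?_⟩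
    · simpa using h4.ne
    · simp only [SimpleGraph.Walk.support_cons, SimpleGraph.Walk.support_nil, List.mem_cons,
        List.not_mem_nil, or_false, not_or]
      exact ⟨h3.ne, hux⟩
  have he : p = q := (hS.existsUnique_path u x).unique hpp hqp
  have h5 : p.support = q.support := by rw [he]
  simp only [hp, hq, SimpleGraph.Walk.support_cons, SimpleGraph.Walk.support_nil] at h5
  simpa using h5

/-- (4.1) general form -/
theorem slide_tree {V : Type} {S S' : SimpleGraph V} (hS : S.IsTree) (C : V → V → Prop)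
    (pi : V → V → V)
    (h1 : ∀ v x, C v x → S.Adj v x ∧ S.Adj v (pi v x) ∧ ¬ C x v ∧ ¬ C v (pi v x) ∧
      ¬ C (pi v x) v)
    (h2 : ∀ a b, S'.Adj a b ↔ (S.Adj a b ∧ ¬ C a b ∧ ¬ C b a) ∨
      (∃ v, C v b ∧ pi v b = a) ∨ (∃ v, C v a ∧ pi v a = b)) : S'.IsTree := by
  classical
  -- connectedness
  have hadj : ∀ v x, C v x → S'.Reachable v x := by
    intro v x hvx
    obtain ⟨g1, g2, g3, g4, g5⟩ := h1 v x hvx
    have e1 : S'.Adj v (pi v x) := (h2 _ _).2 (Or.inl ⟨g2, g4, g5⟩)
    have e2 : S'.Adj (pi v x) x := (h2 _ _).2 (Or.inr (Or.inl ⟨v, hvx, rfl⟩))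
    exact e1.reachable.trans e2.reachable
  have hadj2 : ∀ a b, S.Adj a b → S'.Reachable a b := by
    intro a b hab
    by_cases c1 : C a b
    · exact hadj a b c1
    · by_cases c2 : C b a
      · exact (hadj b a c2).symm
      · exact ((h2 a b).2 (Or.inl ⟨hab, c1, c2⟩)).reachable
  have hpre : S'.Preconnected := by
    intro a b
    obtain ⟨p⟩ := hS.connected.preconnected a b
    induction p with
    | nil => exact SimpleGraph.Reachable.refl _
    | cons hh _ ih => exact (hadj2 _ _ hh).trans ih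
  have : Nonempty V := hS.connected.nonempty
  refine ⟨⟨hpre⟩, ?_⟩
  -- new edges are bridges
  have hbr : ∀ v x, C v x → S'.IsBridge s(pi v x, x) := by
    intro v x hvx
    obtain ⟨g1, g2, g3, g4, g5⟩ := h1 v x hvx
    have hne : pi v x ≠ x := by
      intro h
      rw [h] at g4
      exact g4 hvx
    have hb : S.IsBridge s(v, x) :=
      (SimpleGraph.isAcyclic_iff_forall_adj_isBridge.1 hS.isAcyclic) g1
    rw [SimpleGraph.isBridge_iff] at hb ⊢
    set D : V → Prop := fun z => (S.deleteEdges {s(v, x)}).Reachable x z with hD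
    have step : ∀ a b, S.Adj a b → s(a, b) ≠ s(v, x) → D a → D b := by
      intro a b hab hne2 hDa
      have : (S.deleteEdges {s(v, x)}).Adj a b := by
        rw [SimpleGraph.deleteEdges_adj]
        exact ⟨hab, by simpa using hne2⟩
      exact SimpleGraph.Reachable.trans hDa this.reachable
    -- two steps through `v'`
    have two : ∀ v' b, C v' b → s(pi v' b, b) ≠ s(pi v x, x) →
        s(pi v' b, v') ≠ s(v, x) ∧ s(v', b) ≠ s(v, x) := by
      intro v' b hv'b hn
      obtain ⟨k1, k2, k3, k4, k5⟩ := h1 v' b hv'b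
      constructor
      · intro he
        rw [Sym2.eq_iff] at he
        rcases he with ⟨e1, e2⟩ | ⟨e1, e2⟩
        · subst e2
          rw [e1] at k5
          exact k5 hvx
        · subst e2
          rw [e1] at k4
          exact k4 hvx
      · intro he
        rw [Sym2.eq_iff] at he
        rcases he with ⟨e1, e2⟩ | ⟨e1, e2⟩
        · subst e1
          subst e2
          exact hn rfl
        · subst e1
          subst e2
          exact g3 hv'b
    have step' : ∀ a b, (S'.deleteEdges {s(pi v x, x)}).Adj a b → D a → D b := by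
      intro a b hab hDa
      rw [SimpleGraph.deleteEdges_adj] at hab
      obtain ⟨hab, hne2⟩ := hab
      have hne3 : s(a, b) ≠ s(pi v x, x) := by simpa using hne2
      rcases (h2 a b).1 hab with ⟨l1, l2, l3⟩ | ⟨v', l1, l2⟩ | ⟨v', l1, l2⟩
      · refine step a b l1 ?_ hDa
        intro he
        rw [Sym2.eq_iff] at he
        rcases he with ⟨e1, e2⟩ | ⟨e1, e2⟩
        · subst e1
          subst e2
          exact l2 hvx
        · subst e1
          subst e2
          exact l3 hvx
      · subst l2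
        obtain ⟨t1, t2⟩ := two v' b l1 hne3
        obtain ⟨k1, k2, k3, k4, k5⟩ := h1 v' b l1
        exact step _ _ k1 t2 (step _ _ k2.symm t1 hDa)
      · subst l2
        obtain ⟨t1, t2⟩ := two v' a l1 (by rw [Sym2.eq_swap]; exact hne3)
        obtain ⟨k1, k2, k3, k4, k5⟩ := h1 v' a l1
        refine step _ _ k2 (by rw [Sym2.eq_swap]; exact t1) (step _ _ k1.symm ?_ hDa)
        rw [Sym2.eq_swap]
        exact t2
    have hDx : D x := SimpleGraph.Reachable.refl _
    have hDu : ¬ D (pi v x) := by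
      intro hh
      apply hb
      have h3 : D v := by
        refine step _ _ g2.symm ?_ hh
        intro he
        rw [Sym2.eq_iff] at he
        rcases he with ⟨e1, e2⟩ | ⟨e1, e2⟩
        · exact g1.ne e2
        · exact hne e1
      exact h3.symm
    intro hr
    apply hDu
    have hr' := hr.symm
    obtain ⟨p⟩ := hr'
    have key : ∀ (a b : V) (q : (S'.deleteEdges {s(pi v x, x)}).Walk a b), D a → D b := by
      intro a b q
      induction q with
      | nil => exact id
      | cons hh _ ih => exact fun hDa => ih (step' _ _ hh hDa)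
    exact key _ _ p hDx
  intro u c hc
  have hall : ∀ e ∈ c.edges, e ∈ S.edgeSet := by
    intro e he
    have hns := mt (fun hb : S'.IsBridge e => hb.notMem_edges_of_isCycle hc) (by simpa using he)
    have he2 := c.edges_subset_edgeSet he
    induction e with
    | h a b =>
      rw [SimpleGraph.mem_edgeSet] at he2 ⊢
      rcases (h2 a b).1 he2 with ⟨l1, l2, l3⟩ | ⟨v', l1, l2⟩ | ⟨v', l1, l2⟩
      · exact l1
      · subst l2
        exact absurd (hbr v' b l1) hns
      · subst l2
        refine absurd (hbr v' a l1) ?_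
        rw [Sym2.eq_swap]
        exact hns
  exact hS.isAcyclic (c.transfer S hall) (hc.transfer hall)

variable {G : Type} [Group G] {V : Type} [MulAction G V] {S S' : SimpleGraph V}

theorem slide_ta (h : TA G S) (hs : Slide G S S') : TA G S' := by
  classical
  obtain ⟨v, x, u, hvx, hvu, s1, s2, s3, s4⟩ := hs
  set C : V → V → Prop := fun a b => ∃ g : G, g • v = a ∧ g • x = b with hC
  set pi : V → V → V := fun a b => if hh : C a b then hh.choose • u else a with hpi
  have hpi2 : ∀ g : G, pi (g • v) (g • x) = g • u := by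
    intro g
    have hh : C (g • v) (g • x) := ⟨g, rfl, rfl⟩
    have e : pi (g • v) (g • x) = hh.choose • u := by
      simp only [hpi]
      rw [dif_pos hh]
    rw [e]
    obtain ⟨k1, k2⟩ := hh.choose_spec
    set k := hh.choose with hk
    have k3 : (g⁻¹ * k) • v = v := by rw [mul_smul, k1, inv_smul_smul]
    have k4 : (g⁻¹ * k) • x = x := by rw [mul_smul, k2, inv_smul_smul]
    have k5 := s3 _ k3 k4
    rw [mul_smul, inv_smul_eq_iff] at k5
    exact k5
  have hT : S'.IsTree := by
    refine slide_tree h.tree C pi ?_ ?_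
    · rintro a b ⟨g, rfl, rfl⟩
      rw [hpi2]
      refine ⟨h.adj g _ _ hvx, h.adj g _ _ hvu, ?_, ?_, ?_⟩
      · rintro ⟨k, k1, k2⟩
        refine h.noinv (g⁻¹ * k) v x hvx ?_ ?_
        · rw [mul_smul, k1, inv_smul_smul]
        · rw [mul_smul, k2, inv_smul_smul]
      · rintro ⟨k, k1, k2⟩
        refine s1 (g⁻¹ * k) ⟨?_, ?_⟩
        · rw [mul_smul, k1, inv_smul_smul]
        · rw [mul_smul, k2, inv_smul_smul]
      · rintro ⟨k, k1, k2⟩
        refine s2 (g⁻¹ * k) ⟨?_, ?_⟩
        · rw [mul_smul, k1, inv_smul_smul]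
        · rw [mul_smul, k2, inv_smul_smul]
    · intro a b
      rw [s4 a b]
      constructor
      · rintro (⟨h3, h4⟩ | ⟨g, ⟨h3, h4⟩ | ⟨h3, h4⟩⟩)
        · refine Or.inl ⟨h3, ?_, ?_⟩
          · rintro ⟨g, g1, g2⟩
            exact (h4 g).1 ⟨g1, g2⟩
          · rintro ⟨g, g1, g2⟩
            exact (h4 g).2 ⟨g1, g2⟩
        · refine Or.inr (Or.inl ⟨g • v, ⟨g, rfl, h4⟩, ?_⟩)
          rw [← h4, hpi2, h3]
        · refine Or.inr (Or.inr ⟨g • v, ⟨g, rfl, h4⟩, ?_⟩)
          rw [← h4, hpi2, h3]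
      · rintro (⟨h3, h4, h5⟩ | ⟨w, ⟨g, g1, g2⟩, g3⟩ | ⟨w, ⟨g, g1, g2⟩, g3⟩)
        · exact Or.inl ⟨h3, fun g => ⟨fun h6 => h4 ⟨g, h6⟩, fun h6 => h5 ⟨g, h6⟩⟩⟩
        · refine Or.inr ⟨g, Or.inl ⟨?_, g2⟩⟩
          rw [← g3, ← g1, ← g2, hpi2]
        · refine Or.inr ⟨g, Or.inr ⟨?_, g2⟩⟩
          rw [← g3, ← g1, ← g2, hpi2]
  have hux : u ≠ x := by
    intro hh
    exact s1 1 ⟨one_smul _ _, by rw [one_smul, hh]⟩
  refine ⟨hT, ?_, ?_⟩
  · intro g a b hab
    rw [s4] at hab ⊢
    rcases hab with ⟨h3, h4⟩ | ⟨k, h3⟩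
    · refine Or.inl ⟨h.adj g _ _ h3, ?_⟩
      intro k
      obtain ⟨l1, l2⟩ := h4 (g⁻¹ * k)
      refine ⟨fun h6 => l1 ?_, fun h6 => l2 ?_⟩
      · rw [mul_smul, mul_smul, h6.1, h6.2, inv_smul_smul, inv_smul_smul]
        exact ⟨rfl, rfl⟩
      · rw [mul_smul, mul_smul, h6.1, h6.2, inv_smul_smul, inv_smul_smul]
        exact ⟨rfl, rfl⟩
    · refine Or.inr ⟨g * k, ?_⟩
      rcases h3 with ⟨h3, h5⟩ | ⟨h3, h5⟩
      · left
        rw [mul_smul, mul_smul, h3, h5]
        exact ⟨rfl, rfl⟩
      · right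
        rw [mul_smul, mul_smul, h3, h5]
        exact ⟨rfl, rfl⟩
  · intro g a b hab hga hgb
    -- no inversion of the new edge
    have new : ∀ k l : G, l • (k • u) = k • x → l • (k • x) = k • u → False := by
      intro k l h5 h6
      have h7 : S.Adj (k • u) (k • v) := (h.adj k _ _ hvu).symm
      have h8 : S.Adj (k • v) (k • x) := h.adj k _ _ hvx
      have h9 : S.Adj (k • x) (l • k • v) := by
        have := h.adj l _ _ h7
        rwa [h5] at this
      have h10 : S.Adj (l • k • v) (k • u) := by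
        have := h.adj l _ _ h8
        rwa [h6] at this
      have hne : k • u ≠ k • x := fun hh => hux (smul_left_cancel k hh)
      have h11 : k • v = l • k • v := slt_mid h.tree hne h7 h8 h10.symm h9.symm
      refine s1 (k⁻¹ * l * k) ⟨?_, ?_⟩
      · rw [mul_smul, mul_smul, ← h11, inv_smul_smul]
      · rw [mul_smul, mul_smul, h6, inv_smul_smul]
    rw [s4] at hab
    rcases hab with ⟨h3, h4⟩ | ⟨k, ⟨h3, h5⟩ | ⟨h3, h5⟩⟩
    · exact h.noinv g a b h3 hga hgb
    · refine new k g ?_ ?_
      · rw [h3, hga, h5]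
      · rw [h5, hgb, h3]
    · refine new k g ?_ ?_
      · rw [h3, hgb, h5]
      · rw [h5, hga, h3]

end LatIso
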