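import Pool.Agent.Lib.MP_32d917_al.TL1

set_option autoImplicit false

namespace LatIso

section TL2

variable {G : Type} [Group G] {V : Type} [MulAction G V] {S : SimpleGraph V}

theorem bt_symm {x m y : V} (h : Bt S x m y) : Bt S y m x := by
  unfold Bt at *
  rw [SimpleGraph.dist_comm (u := y) (v := m), SimpleGraph.dist_comm (u := m) (v := x),
    SimpleGraph.dist_comm (u := y) (v := x)]
  omega

theorem bt_trans (hS : S.Connected) {x n m y : V} (h1 : Bt S x n m) (h2 : Bt S x m y) :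
    Bt S x n y := by
  unfold Bt at *
  have t1 : S.dist n y ≤ S.dist n m + S.dist m y := hS.dist_triangle
  have t2 : S.dist x y ≤ S.dist x n + S.dist n y := hS.dist_triangle
  omega

/-- two different directions -/
theorem tl2_dir (hS : S.IsTree) {x n w z : V} (ha : S.Adj x n) (hw : Bt S x n w)
    (hz : ¬ Bt S x n z) : Bt S z x w := by
  have h1 : S.dist x n = 1 := SimpleGraph.dist_eq_one_iff_adj.2 ha
  rcases st_bt hS hw z with h2 | h2
  · exact absurd h2 hz
  · unfold Bt at *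
    have c1 : S.dist z n = S.dist n z := SimpleGraph.dist_comm
    have c2 : S.dist z x = S.dist x z := SimpleGraph.dist_comm
    have c3 : S.dist w z = S.dist z w := SimpleGraph.dist_comm
    have c4 : S.dist w n = S.dist n w := SimpleGraph.dist_comm
    rcases st_adj hS ha z with h3 | h3 <;> omega

theorem cc_smul (h : TA G S) (g : G) (x : V) (hx : x ∈ CC S g) : g • x ∈ CC S g := by
  show S.dist (g • x) (g • g • x) = tl S g
  rw [ta_dist h]
  exact hx

theorem cc_inv_smul (h : TA G S) (g : G) (x : V) (hx : x ∈ CC S g) : g⁻¹ • x ∈ CC S g := by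
  rw [← cc_inv h] at hx ⊢
  exact cc_smul h g⁻¹ x hx

/-- (1.4) -/
theorem tl2_disj (h : TA G S) (g k : G) (x y : V) (hx : x ∈ CC S g) (hy : y ∈ CC S k)
    (hpos : 0 < S.dist x y) (hmin : ∀ x' ∈ CC S g, ∀ y' ∈ CC S k, S.dist x y ≤ S.dist x' y') :
    tl S (g * k) = tl S g + tl S k + 2 * S.dist x y := by
  set D := S.dist x y with hD
  have hc := h.tree.connected
  have hx' : S.dist x (g • x) = tl S g := hx
  have hy' : S.dist y (k • y) = tl S k := hy
  -- (a)
  have disp : ∀ k' : G, CC S k' = CC S k → tl S k' = tl S k →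
      S.dist x (k' • x) = tl S k + 2 * D ∧ Bt S x y (k' • x) := by
    intro k' hk1 hk2
    obtain ⟨y', hy1, hy2⟩ := tl_disp h k' x
    have h1 := hmin x hx y' (by rw [← hk1]; exact hy1)
    have hyk : S.dist y (k' • y) = tl S k := by
      have : y ∈ CC S k' := by rw [hk1]; exact hy
      rw [← hk2]; exact this
    have t1 : S.dist x (k' • x) ≤ S.dist x y + S.dist y (k' • x) := hc.dist_triangle
    have t2 : S.dist y (k' • x) ≤ S.dist y (k' • y) + S.dist (k' • y) (k' • x) :=
      hc.dist_triangle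
    have c1 : S.dist (k' • y) (k' • x) = D := by rw [ta_dist h, SimpleGraph.dist_comm]
    refine ⟨by omega, ?_⟩
    unfold Bt
    omega
  obtain ⟨a1, b1⟩ := disp k rfl rfl
  obtain ⟨a2, b2⟩ := disp k⁻¹ (cc_inv h k) (tl_inv h k)
  have hne : x ≠ y := by
    intro h0
    rw [h0, SimpleGraph.dist_self] at hD
    omega
  obtain ⟨n, hn, hn'⟩ := st_next h.tree hne
  have hn1 : S.dist x n = 1 := SimpleGraph.dist_eq_one_iff_adj.2 hn
  have n1 : Bt S x n (k • x) := bt_trans hc hn' b1
  have n2 : Bt S x n (k⁻¹ • x) := bt_trans hc hn' b2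
  have hnC : n ∉ CC S g := by
    intro h0
    have := hmin n h0 y hy
    unfold Bt at hn'
    omega
  -- (e)
  have e0 : Bt S (g⁻¹ • x) x (k • x) := by
    apply tl2_dir h.tree hn n1
    intro h0
    exact hnC (cc_cvx h g x hx _ (cc_inv_smul h g x hx) n h0)
  have hM : S.dist x ((g * k) • x) = tl S g + tl S k + 2 * D := by
    have h1 : S.dist (g⁻¹ • x) x = tl S g := by
      rw [SimpleGraph.dist_comm, tl1_disp_inv h]; exact hx
    have h2 : S.dist (g⁻¹ • x) (k • x) = S.dist x ((g * k) • x) := by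
      rw [← ta_dist h g, smul_inv_smul, mul_smul]
    unfold Bt at e0
    omega
  -- (f)
  have f1 : Bt S x n (k⁻¹ • g⁻¹ • x) := by
    refine bt_trans hc n2 ?_
    have h1 := (ta_bt h k⁻¹ _ _ _).2 e0
    rw [inv_smul_smul] at h1
    exact bt_symm h1
  have f2 : Bt S x (g • x) ((g * k) • x) := by
    have h1 := (ta_bt h g _ _ _).2 e0
    rw [smul_inv_smul, ← mul_smul] at h1
    exact h1
  have f3 : ¬ Bt S x n ((g * k) • x) := by
    intro h0
    by_cases hg : g • x = x
    · have h1 := (ta_bt h g _ _ _).2 n1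
      rw [hg, ← mul_smul] at h1
      have h2 := h.adj g _ _ hn
      rw [hg] at h2
      have h3 := st_uniq h.tree hn h2 h0 h1
      apply hnC
      show S.dist n (g • n) = tl S g
      rw [← h3, SimpleGraph.dist_self, ← hx', hg, SimpleGraph.dist_self]
    · obtain ⟨n', hn2, hn3⟩ := st_next h.tree (Ne.symm hg)
      have h1 : Bt S x n' ((g * k) • x) := bt_trans hc hn3 f2
      have h3 := st_uniq h.tree hn hn2 h0 h1
      rw [← h3] at hn3
      exact hnC (cc_cvx h g x hx _ (cc_smul h g x hx) n hn3)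
  have f4 := tl2_dir h.tree hn f1 f3
  have f5 : S.dist x ((g * k) • (g * k) • x) = 2 * S.dist x ((g * k) • x) := by
    have h1 : k⁻¹ • g⁻¹ • x = (g * k)⁻¹ • x := by rw [mul_inv_rev, mul_smul]
    rw [h1] at f4
    have h2 : S.dist ((g * k) • x) ((g * k)⁻¹ • x) = S.dist x ((g * k) • (g * k) • x) := by
      rw [← ta_dist h (g * k) ((g * k) • x), smul_inv_smul, SimpleGraph.dist_comm]
    have h3 : S.dist x ((g * k)⁻¹ • x) = S.dist x ((g * k) • x) := tl1_disp_inv h _ _
    have h4 : S.dist ((g * k) • x) x = S.dist x ((g * k) • x) := SimpleGraph.dist_comm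
    unfold Bt at f4
    omega
  have f6 := tl_axis h (g * k) x (by omega) f5
  have f7 : S.dist x ((g * k) • x) = tl S (g * k) := f6
  omega

/-- closest pair of the characteristic sets -/
theorem tl2_closest (h : TA G S) (g k : G) (hd : ¬ (CC S g ∩ CC S k).Nonempty) :
    ∃ x ∈ CC S g, ∃ y ∈ CC S k, 0 < S.dist x y ∧
      ∀ x' ∈ CC S g, ∀ y' ∈ CC S k, S.dist x y ≤ S.dist x' y' := by
  obtain ⟨x0, hx0⟩ := cc_nonempty h g
  obtain ⟨y0, hy0⟩ := cc_nonempty h k
  let A : Set ℕ := {n | ∃ x ∈ CC S g, ∃ y ∈ CC S k, S.dist x y = n}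
  have hA : A.Nonempty := ⟨_, x0, hx0, y0, hy0, rfl⟩
  obtain ⟨x, hx, y, hy, hxy⟩ := Nat.sInf_mem hA
  refine ⟨x, hx, y, hy, ?_, ?_⟩
  · apply h.tree.connected.pos_dist_of_ne
    intro h0
    exact hd ⟨x, hx, by rw [h0]; exact hy⟩
  · intro x' hx' y' hy'
    rw [hxy]
    exact Nat.sInf_le ⟨x', hx', y', hy', rfl⟩

/-- (N1) -/
theorem tl_n1 (h : TA G S) (g k : G) (h1 : tl S (g * k) ≤ tl S g + tl S k) :
    (CC S g ∩ CC S k).Nonempty := by
  by_contra hd
  obtain ⟨x, hx, y, hy, hpos, hmin⟩ := tl2_closest h g k hd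
  have := tl2_disj h g k x y hx hy hpos hmin
  omega

/-- (N2) -/
theorem tl_n2 (h : TA G S) (g k : G) :
    tl S (g * k) ≤ max (tl S g + tl S k) (tl S (g * k⁻¹)) := by
  by_cases hd : (CC S g ∩ CC S k).Nonempty
  · obtain ⟨x, hx, hy⟩ := hd
    apply le_max_of_le_left
    have t1 := tl_le h (g * k) x
    have t2 : S.dist x ((g * k) • x) ≤ S.dist x (g • x) + S.dist (g • x) ((g * k) • x) :=
      h.tree.connected.dist_triangle
    have t3 : S.dist (g • x) ((g * k) • x) = S.dist x (k • x) := by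
      rw [mul_smul, ta_dist h]
    have hx' : S.dist x (g • x) = tl S g := hx
    have hy' : S.dist x (k • x) = tl S k := hy
    omega
  · obtain ⟨x, hx, y, hy, hpos, hmin⟩ := tl2_closest h g k hd
    have e1 := tl2_disj h g k x y hx hy hpos hmin
    have e2 := tl2_disj h g k⁻¹ x y hx (by rw [cc_inv h]; exact hy) hpos
      (by rw [cc_inv h]; exact hmin)
    rw [tl_inv h] at e2
    apply le_max_of_le_right
    omega

/-- (1.5) Serre's lemma -/
theorem serre (h : TA G S) (F : Finset G) (h1 : ∀ g ∈ F, tl S g = 0)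
    (h2 : ∀ g ∈ F, ∀ k ∈ F, tl S (g * k) = 0) : ∃ x : V, ∀ g ∈ F, g • x = x := by
  obtain ⟨x, hx⟩ := st_helly h.tree F (fun g => CC S g) (fun g _ => cc_cvx h g)
    (fun g hg k hk => tl_n1 h g k (by rw [h2 g hg k hk]; omega))
  refine ⟨x, fun g hg => ?_⟩
  have h3 : S.dist x (g • x) = tl S g := hx g hg
  rw [h1 g hg] at h3
  exact (h.tree.connected.dist_eq_zero_iff.1 h3).symm

end TL2

end LatIso
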