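import Pool.Agent.Lib.MP_32d917_al.TL1
import Pool.Agent.Lib.MP_32d917_al.TL1B
import Pool.Agent.Lib.MP_32d917_al.TL2

/-!
# White's lemma: extremal elements (2.1)
-/

set_option autoImplicit false

namespace LatIso

section WHITE

variable {G : Type} [Group G] {V U : Type} [MulAction G V] [MulAction G U]
  {S : SimpleGraph V} {R : SimpleGraph U}

/-- balls of a locally finite connected graph are finite -/
theorem white_ball (hc : S.Connected) (loc : ∀ v, (S.neighborSet v).Finite) (v : V) (n : ℕ) :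
    {y | S.dist v y ≤ n}.Finite := by
  induction n with
  | zero =>
    refine (Set.finite_singleton v).subset fun y hy => ?_
    have h0 : S.dist v y = 0 := Nat.le_zero.mp hy
    exact ((hc.dist_eq_zero_iff).mp h0).symm
  | succ n ih =>
    refine (ih.biUnion (t := fun y => {y} ∪ S.neighborSet y) fun y _ =>
      (Set.finite_singleton y).union (loc y)).subset fun y hy => ?_
    rcases Nat.lt_or_ge (S.dist v y) (n + 1) with h | h
    · exact Set.mem_biUnion (x := y) (show S.dist v y ≤ n by omega) (Or.inl rfl)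
    · have h1 : S.dist v y = n + 1 := le_antisymm hy h
      obtain ⟨p, hp⟩ := hc.exists_walk_length_eq_dist v y
      -- the last but one vertex
      have hlen : p.length = n + 1 := hp.trans h1
      have hadj := p.adj_getVert_succ (i := n) (by omega)
      have hend : p.getVert (n + 1) = y := by rw [← hlen]; exact p.getVert_length
      rw [hend] at hadj
      refine Set.mem_biUnion (x := p.getVert n) ?_ (Or.inr hadj)
      show S.dist v (p.getVert n) ≤ n
      refine (SimpleGraph.dist_le (p.take n)).trans ?_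
      rw [SimpleGraph.Walk.take_length]
      exact min_le_left _ _

/-- (2.1) -/
theorem white (h : TA G S) (hR : TA G R)
    (H : Subgroup G) (free : ∀ k ∈ H, ∀ v : V, k • v = v → k = 1)
    (fin : ∃ F : Finset V, ∀ v : V, ∃ k ∈ H, k • v ∈ F)
    (loc : ∀ v, (S.neighborSet v).Finite)
    (h1 : G) (h1H : h1 ∈ H) (h1p : 0 < tl R h1) :
    ∃ h0 ∈ H, 0 < tl R h0 ∧ 0 < tl S h0 ∧ ∀ k ∈ H, tl R k * tl S h0 ≤ tl R h0 * tl S k := by
  classical
  obtain ⟨F, hF⟩ := fin
  have hc : S.Connected := h.tree.connected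
  -- the finite set of oriented edges
  have hE : (⋃ v ∈ F, (fun y => (v, y)) '' S.neighborSet v).Finite :=
    F.finite_toSet.biUnion fun v _ => (loc v).image _
  obtain ⟨E, hEE⟩ : ∃ E : Finset (V × V), (E : Set (V × V)) =
      ⋃ v ∈ F, (fun y => (v, y)) '' S.neighborSet v := ⟨hE.toFinset, hE.coe_toFinset⟩
  have hedge : ∀ x y, S.Adj x y → ∃ k ∈ H, (k • x, k • y) ∈ E := by
    intro x y hxy
    obtain ⟨k, hk, hkF⟩ := hF x
    refine ⟨k, hk, ?_⟩
    rw [← Finset.mem_coe, hEE]
    exact Set.mem_biUnion (x := k • x) hkF ⟨k • y, h.adj k x y hxy, rfl⟩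
  have tl1R : tl R (1 : G) = 0 := by
    rw [tl_eq_zero hR]
    obtain ⟨u⟩ := hR.tree.connected.nonempty
    exact ⟨u, one_smul _ _⟩
  have tlpos : ∀ k ∈ H, k ≠ 1 → 0 < tl S k := by
    intro k hk hk1
    rw [Nat.pos_iff_ne_zero]
    intro h0
    obtain ⟨x, hx⟩ := (tl_eq_zero h k).mp h0
    exact hk1 (free k hk x hx)
  have h1ne : h1 ≠ 1 := by
    rintro rfl
    omega
  set N := max E.card (tl S h1) with hN
  -- finitely many classes of short elements
  have hD : {k : G | k ∈ H ∧ ∃ v ∈ F, S.dist v (k • v) ≤ N}.Finite := by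
    have : {k : G | k ∈ H ∧ ∃ v ∈ F, S.dist v (k • v) ≤ N} ⊆
        ⋃ v ∈ F, {k : G | k ∈ H ∧ S.dist v (k • v) ≤ N} := by
      rintro k ⟨hk, v, hv, hd⟩
      exact Set.mem_biUnion (x := v) hv ⟨hk, hd⟩
    refine (F.finite_toSet.biUnion fun v _ => ?_).subset this
    refine Set.Finite.of_finite_image (f := fun k : G => k • v) ?_ ?_
    · refine (white_ball hc loc v N).subset ?_
      rintro _ ⟨k, ⟨_, hd⟩, rfl⟩
      exact hd
    · rintro k ⟨hk, _⟩ k' ⟨hk', _⟩ hkk
      have hkk' : k • v = k' • v := hkk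
      have : k'⁻¹ * k = 1 := free _ (H.mul_mem (H.inv_mem hk') hk) v (by
        rw [mul_smul, hkk', inv_smul_smul])
      exact (eq_of_inv_mul_eq_one this).symm
  obtain ⟨D, hDD⟩ : ∃ D : Finset G, ∀ k, k ∈ D ↔ (k ∈ H ∧ (∃ v ∈ F, S.dist v (k • v) ≤ N) ∧
      0 < tl S k) := by
    refine ⟨hD.toFinset.filter fun k => 0 < tl S k, fun k => ?_⟩
    rw [Finset.mem_filter, Set.Finite.mem_toFinset]
    constructor
    · rintro ⟨⟨a, b⟩, c⟩; exact ⟨a, b, c⟩
    · rintro ⟨a, b, c⟩; exact ⟨⟨a, b⟩, c⟩
  have hconj : ∀ k ∈ H, k ≠ 1 → tl S k ≤ N → ∃ k' ∈ D, tl S k' = tl S k ∧ tl R k' = tl R k := by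
    intro k hk hk1 hkN
    obtain ⟨x, hx⟩ := cc_nonempty h k
    obtain ⟨c, hcH, hcF⟩ := hF x
    refine ⟨c * k * c⁻¹, ?_, tl_conj h c k, tl_conj hR c k⟩
    rw [hDD]
    refine ⟨H.mul_mem (H.mul_mem hcH hk) (H.inv_mem hcH), ⟨c • x, hcF, ?_⟩, ?_⟩
    · have : (c * k * c⁻¹) • c • x = c • k • x := by
        rw [mul_smul, mul_smul, inv_smul_smul]
      rw [this, ta_dist h]
      have hx' : S.dist x (k • x) = tl S k := hx
      omega
    · rw [tl_conj h]; exact tlpos k hk hk1
  obtain ⟨h1', h1D, e1, e2⟩ := hconj h1 h1H h1ne (le_max_right _ _)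
  obtain ⟨h0, h0D, hmax⟩ := D.exists_max_image (fun k => (tl R k : ℚ) / (tl S k : ℚ)) ⟨h1', h1D⟩
  obtain ⟨h0H, -, h0S⟩ := (hDD h0).mp h0D
  have hmax' : ∀ k ∈ D, tl R k * tl S h0 ≤ tl R h0 * tl S k := by
    intro k hk
    have hkS := ((hDD k).mp hk).2.2
    have h3 := hmax k hk
    have h4 : (0 : ℚ) < (tl S k : ℚ) := by exact_mod_cast hkS
    have h5 : (0 : ℚ) < (tl S h0 : ℚ) := by exact_mod_cast h0S
    rw [div_le_div_iff₀ h4 h5] at h3
    exact_mod_cast h3
  have h0R : 0 < tl R h0 := by
    have h3 := hmax' h1' h1D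
    rw [e1, e2] at h3
    have h4 : 0 < tl R h1 * tl S h0 := Nat.mul_pos h1p h0S
    exact Nat.pos_of_ne_zero fun h5 => by rw [h5] at h3; omega
  refine ⟨h0, h0H, h0R, h0S, ?_⟩
  -- induction on the translation length
  have key : ∀ n : ℕ, ∀ k ∈ H, tl S k = n → tl R k * tl S h0 ≤ tl R h0 * n := by
    intro n
    induction n using Nat.strong_induction_on with
    | _ n ih =>
      intro k hk hkn
      by_cases hk1 : k = 1
      · rw [hk1, tl1R]; omega
      rcases Nat.lt_or_ge N n with hlt | hge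
      · -- long elements
        have hkS : 0 < tl S k := tlpos k hk hk1
        obtain ⟨b, hb1, hb2, -⟩ := tl_line h k hkS
        have hadj : ∀ i : ℕ, S.Adj (b i) (b (i + 1)) := by
          intro i
          rw [← SimpleGraph.dist_eq_one_iff_adj, hb1]
          simp
        choose κ hκH hκE using fun i : ℕ => hedge _ _ (hadj i)
        obtain ⟨i, hi, j, hj, hij, heq⟩ :=
          Finset.exists_ne_map_eq_of_card_lt_of_maps_to (s := Finset.range n) (t := E)
            (f := fun i : ℕ => (κ i • b i, κ i • b (i + 1)))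
            (by rw [Finset.card_range]; exact (le_max_left _ _).trans_lt hlt)
            (fun i _ => hκE i)
        -- wlog i < j
        obtain ⟨i, j, hij, hjn, heq⟩ : ∃ i j : ℕ, i < j ∧ j < n ∧
            (κ i • b i, κ i • b (i + 1)) = (κ j • b j, κ j • b (j + 1)) := by
          rw [Finset.mem_range] at hi hj
          rcases lt_or_gt_of_ne hij with h' | h'
          · exact ⟨i, j, h', hj, heq⟩
          · exact ⟨j, i, h', hi, heq.symm⟩
        obtain ⟨hq1, hq2⟩ := Prod.mk.inj heq
        set c : G := (κ j)⁻¹ * κ i with hcdef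
        have hcH : c ∈ H := H.mul_mem (H.inv_mem (hκH j)) (hκH i)
        have hc1 : c • b i = b j := by rw [hcdef, mul_smul, hq1, inv_smul_smul]
        have hc2 : c • b (i + 1) = b (j + 1) := by rw [hcdef, mul_smul, hq2, inv_smul_smul]
        have hb2' : ∀ i : ℤ, k • b i = b (i + n) := by
          intro i; rw [hb2, hkn]
        set g2 : G := c⁻¹ * k with hg2
        have hg2H : g2 ∈ H := H.mul_mem (H.inv_mem hcH) hk
        have hprod : c * g2 = k := by rw [hg2, mul_inv_cancel_left]
        -- translation lengths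
        have t1 : tl S c ≤ j - i := by
          refine (tl_le h c (b i)).trans ?_
          rw [hc1, hb1]; omega
        have t2 : tl S g2 ≤ n - (j - i) := by
          refine (tl_le h g2 (b i)).trans ?_
          have : S.dist (b i) (g2 • b i) = S.dist (b j) (b (i + n)) := by
            rw [← ta_dist h c (b i), hc1, smul_smul, hprod, hb2']
          rw [this, hb1]; omega
        have t3 : tl S (c * g2⁻¹) ≤ n - 2 := by
          refine (tl_le h _ (b (i + 1))).trans ?_
          have e3 : S.dist (b (i + 1)) ((c * g2⁻¹) • b (i + 1)) =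
              S.dist (c⁻¹ • b (i + 1)) (g2⁻¹ • b (i + 1)) := by
            rw [← ta_dist h c (c⁻¹ • b (i + 1)), smul_inv_smul, smul_smul]
          have e4 : S.dist (c⁻¹ • b (i + 1)) (b i) = j - i - 1 := by
            rw [← ta_dist h c, smul_inv_smul, hc1, hb1]; omega
          have e5 : S.dist (b i) (g2⁻¹ • b (i + 1)) = n - (j - i) - 1 := by
            rw [← ta_dist h g2, smul_inv_smul, ← ta_dist h c, smul_smul, hprod, hc2, hb2', hb1]
            omega
          rw [e3]
          refine (hc.dist_triangle (v := b i)).trans ?_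
          rw [e4, e5]
          omega
        have hn2 := tl_n2 hR c g2
        rw [hprod] at hn2
        have i1 := ih _ (by omega) c hcH rfl
        have i2 := ih _ (by omega) g2 hg2H rfl
        have i3 := ih _ (by omega) (c * g2⁻¹) (H.mul_mem hcH (H.inv_mem hg2H)) rfl
        rcases le_max_iff.mp hn2 with h6 | h6
        · calc tl R k * tl S h0 ≤ (tl R c + tl R g2) * tl S h0 := Nat.mul_le_mul_right _ h6
            _ = tl R c * tl S h0 + tl R g2 * tl S h0 := Nat.add_mul _ _ _
            _ ≤ tl R h0 * tl S c + tl R h0 * tl S g2 := Nat.add_le_add i1 i2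
            _ = tl R h0 * (tl S c + tl S g2) := (Nat.mul_add _ _ _).symm
            _ ≤ tl R h0 * n := Nat.mul_le_mul_left _ (by omega)
        · calc tl R k * tl S h0 ≤ tl R (c * g2⁻¹) * tl S h0 := Nat.mul_le_mul_right _ h6
            _ ≤ tl R h0 * tl S (c * g2⁻¹) := i3
            _ ≤ tl R h0 * n := Nat.mul_le_mul_left _ (by omega)
      · obtain ⟨k', hk'D, e3, e4⟩ := hconj k hk hk1 (by omega)
        have h3 := hmax' k' hk'D
        rw [e3, e4, hkn] at h3
        exact h3
  intro k hk
  exact key _ k hk rfl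

end WHITE

end LatIso
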