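import Pool.Agent.Lib.MP_32d917_al.MIN1

/-!
# Minimal families of edges: ties (4.5)
-/

set_option autoImplicit false

namespace LatIso

section NIEL

variable {G : Type} [Group G] {V W W' : Type} [MulAction G V] [MulAction G W] [MulAction G W']

theorem min2_sum_update {n : ℕ} {E : Type} (F : E → ℕ) (c : Fin n → E) (i : Fin n) (e : E) :
    ∑ j, F (Function.update c i e j) + F (c i) = ∑ j, F (c j) + F e := by
  classical
  rw [← Finset.add_sum_erase _ _ (Finset.mem_univ i),
    ← Finset.add_sum_erase (Finset.univ) (fun j => F (c j)) (Finset.mem_univ i),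
    Function.update_self]
  have : ∑ j ∈ Finset.univ.erase i, F (Function.update c i e j) =
      ∑ j ∈ Finset.univ.erase i, F (c j) := by
    refine Finset.sum_congr rfl fun j hj => ?_
    rw [Function.update_of_ne (Finset.ne_of_mem_erase hj)]
  rw [this]
  omega

theorem min2_fe_update {V : Type} (S' : SimpleGraph V) {n : ℕ} (c : Fin n → V × V) (i : Fin n)
    (e : V × V) : FE S' (Function.update c i e) + S'.dist (c i).1 (c i).2 =
      FE S' c + S'.dist e.1 e.2 :=
  min2_sum_update (fun e : V × V => S'.dist e.1 e.2) c i e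

theorem min2_fw_update {V : Type} (S' : SimpleGraph V) (R : V → V → ℕ) {n : ℕ}
    (c : Fin n → V × V) (i : Fin n) (e : V × V) :
    FW S' R (Function.update c i e) + (halfRk S' R (c i).1 (c i).2 + halfRk S' R (c i).2 (c i).1) =
      FW S' R c + (halfRk S' R e.1 e.2 + halfRk S' R e.2 e.1) :=
  min2_sum_update (fun e : V × V => halfRk S' R e.1 e.2 + halfRk S' R e.2 e.1) c i e

theorem min2_half {V : Type} {S' : SimpleGraph V} (hS : S'.IsTree) (R : V → V → ℕ) {x y m : V}
    (h1 : S'.dist x m = (S'.dist x y + 1) / 2) (h2 : Bt S' x m y) : halfRk S' R x y = R x m := by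
  have h : ∃ m, S'.dist x m = (S'.dist x y + 1) / 2 ∧ Bt S' x m y := ⟨m, h1, h2⟩
  unfold halfRk
  rw [dif_pos h]
  have := h.choose_spec
  rw [st_pt_uniq hS this.2 h2 (this.1.trans h1.symm)]

theorem min2_half_inv {S' : SimpleGraph V} (h : TA G S') (R : V → V → ℕ)
    (hR1 : ∀ (g : G) x m, R (g • x) (g • m) = R x m) (g : G) (x y : V) :
    halfRk S' R (g • x) (g • y) = halfRk S' R x y := by
  obtain ⟨m, hm1, hm2⟩ := st_pt h.tree x y ((S'.dist x y + 1) / 2) (by
    rcases Nat.eq_zero_or_pos (S'.dist x y) with h0 | h0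
    · rw [h0]
    · omega)
  rw [min2_half h.tree R hm1 hm2, min2_half h.tree R (x := g • x) (y := g • y) (m := g • m), hR1]
  · rw [ta_dist h, ta_dist h, hm1]
  · show S'.dist (g • x) (g • m) + S'.dist (g • m) (g • y) = S'.dist (g • x) (g • y)
    rw [ta_dist h, ta_dist h, ta_dist h]; exact hm2

/-- the representative of the orbit of an edge may be chosen -/
theorem min2_repr {S' : SimpleGraph V} (h' : TA G S') (R : V → V → ℕ)
    (hR1 : ∀ (g : G) x m, R (g • x) (g • m) = R x m)
    {n : ℕ} (c : Fin n → V × V) (hc : FGood G c)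
    (v x : V) (hvx : (FGr G c).Adj v x) :
    ∃ i : Fin n, FGood G (Function.update c i (v, x)) ∧
      FGr G (Function.update c i (v, x)) = FGr G c ∧
      FE S' (Function.update c i (v, x)) = FE S' c ∧
      FW S' R (Function.update c i (v, x)) = FW S' R c := by
  obtain ⟨hne, i, g, hg⟩ := hvx
  have hrep := fam_repr c hc i v x ⟨g, hg⟩
  refine ⟨i, hrep.1, hrep.2, ?_, ?_⟩
  · have h1 := min2_fe_update S' c i (v, x)
    have h2 : S'.dist (c i).1 (c i).2 = S'.dist v x := by
      rcases hg with ⟨e1, e2⟩ | ⟨e1, e2⟩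
      · rw [← e1, ← e2, ta_dist h']
      · rw [← e1, ← e2, ta_dist h', SimpleGraph.dist_comm]
    simp only at h1
    omega
  · have h1 := min2_fw_update S' R c i (v, x)
    have h2 : halfRk S' R (c i).1 (c i).2 + halfRk S' R (c i).2 (c i).1 =
        halfRk S' R v x + halfRk S' R x v := by
      rcases hg with ⟨e1, e2⟩ | ⟨e1, e2⟩
      · rw [← e1, ← e2, min2_half_inv h' R hR1, min2_half_inv h' R hR1]
      · rw [← e1, ← e2, min2_half_inv h' R hR1, min2_half_inv h' R hR1, add_comm]
    simp only at h1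
    omega

/-- one half of the comparison -/
theorem min2_key {S S' : SimpleGraph V} {T : SimpleGraph W} {T' : SimpleGraph W'}
    (L : Lat G S T) (L' : Lat G S' T') (R : V → V → ℕ)
    (hR1 : ∀ (g : G) x m, R (g • x) (g • m) = R x m)
    (hR3 : ∀ x m x' m' m₁ m₁', S'.dist x m = S'.dist x' m' → Bt S' x m₁ m → Bt S' x' m₁' m' →
        S'.dist x m₁ = S'.dist x' m₁' → R x m₁ < R x' m₁' → R x m < R x' m')
    {n : ℕ} (c : Fin n → V × V) (hc : FGood G c) (hm : FMin G S' c)
    (hm2 : ∀ c' : Fin n → V × V, FGood G c' →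
      Relation.ReflTransGen (Slide G) (FGr G c) (FGr G c') → FE S' c' = FE S' c →
      FW S' R c ≤ FW S' R c')
    (v w x m : V) (hvw : (FGr G c).Adj v w) (hx : (FGr G c).Adj v x) (hxw : x ≠ w)
    (hd : S'.dist x w = S'.dist v x) (m1 : Bt S' v m w) (m2 : S'.dist v m = S'.dist m w) :
    R v m ≤ R w m := by
  have h' := L'.hS
  have ht := h'.tree
  obtain ⟨-, o2, o3⟩ := min_overlap L L' c hc hm v x w hx hvw hxw
  obtain ⟨o4, -, -⟩ := min_overlap L L' c hc hm v w x hvw hx hxw.symm
  -- the median is m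
  obtain ⟨q, q1, q2, q3⟩ := st_median ht v x w
  have f1 : S'.dist v q + S'.dist q x = S'.dist v x := q1
  have f2 : S'.dist x q + S'.dist q w = S'.dist x w := q2
  have f3 : S'.dist v q + S'.dist q w = S'.dist v w := q3
  have f4 : S'.dist v m + S'.dist m w = S'.dist v w := m1
  have f5 : S'.dist x q = S'.dist q x := SimpleGraph.dist_comm
  have hqm : q = m := st_pt_uniq ht q3 m1 (by omega)
  subst hqm
  have f6 : S'.dist w x = S'.dist x w := SimpleGraph.dist_comm
  have f7 : S'.dist w q = S'.dist q w := SimpleGraph.dist_comm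
  have f8 : S'.dist x v = S'.dist v x := SimpleGraph.dist_comm
  have f9 : S'.dist q v = S'.dist v q := SimpleGraph.dist_comm
  -- the slide
  obtain ⟨i, hg1, hgr, hfe, hfw⟩ := min2_repr h' R hR1 c hc v x hx
  set c1 := Function.update c i (v, x) with hc1
  have hci : c1 i = (v, x) := by rw [hc1, Function.update_self]
  have hend : ∀ a, Bt (FGr G c) v a w → a = v ∨ a = w := by
    intro a ha
    have ha' : (FGr G c).dist v a + (FGr G c).dist a w = (FGr G c).dist v w := ha
    rw [SimpleGraph.dist_eq_one_iff_adj.mpr hvw] at ha'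
    have hcon := hc.1.tree.connected
    rcases Nat.eq_zero_or_pos ((FGr G c).dist v a) with h | h
    · exact Or.inl ((hcon.dist_eq_zero_iff).mp h).symm
    · exact Or.inr ((hcon.dist_eq_zero_iff).mp (by omega))
  have hms := multislide c1 hg1 i w (by
    rw [hci, hgr]
    intro a b hab ha hb g
    have o2' := o2 hd.symm g
    rcases hend a ha with rfl | rfl <;> rcases hend b hb with rfl | rfl
    · exact absurd hab (SimpleGraph.irrefl _)
    · exact o2'
    · exact ⟨fun h => o2'.2 h, fun h => o2'.1 h⟩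
    · exact absurd hab (SimpleGraph.irrefl _)) (by
    rw [hci]
    exact fun g h1 h2 => o3 hd.symm g h1 h2)
  have h3 := min2_fe_update S' c1 i (w, (c1 i).2)
  have h4 := min2_fw_update S' R c1 i (w, (c1 i).2)
  have h5 := hm2 _ hms.1 (by rw [← hgr]; exact hms.2)
  rw [hci] at h3 h4 h5
  simp only at h3 h4 h5
  have h6 := h5 (by omega)
  -- the halves
  obtain ⟨n0, n01, n02⟩ := st_pt ht x q ((S'.dist x v + 1) / 2) (by omega)
  have n03 : S'.dist x n0 + S'.dist n0 q = S'.dist x q := n02
  have hb : ∀ z, Bt S' x q z → Bt S' x n0 z := by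
    intro z hz
    have hz' : S'.dist x q + S'.dist q z = S'.dist x z := hz
    have t1 := ht.connected.dist_triangle (u := n0) (v := q) (w := z)
    have t2 := ht.connected.dist_triangle (u := x) (v := n0) (w := z)
    show S'.dist x n0 + S'.dist n0 z = S'.dist x z
    omega
  have e1 : halfRk S' R x v = R x n0 := min2_half ht R n01 (hb v (by
    show S'.dist x q + S'.dist q v = S'.dist x v
    omega))
  have e2 : halfRk S' R x w = R x n0 := min2_half ht R (by rw [n01]; omega) (hb w (by
    show S'.dist x q + S'.dist q w = S'.dist x w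
    omega))
  have hc2 : ∀ a, Bt S' a q x → S'.dist a q = S'.dist v q → ∃ n1, Bt S' a q n1 ∧ Bt S' a n1 x ∧
      S'.dist a n1 = (S'.dist a x + 1) / 2 := by
    intro a ha hav
    have ha' : S'.dist a q + S'.dist q x = S'.dist a x := ha
    obtain ⟨n1, n11, n12⟩ := st_pt ht a x ((S'.dist a x + 1) / 2) (by omega)
    exact ⟨n1, (st_seg ht ha n12 (by omega)).1, n12, n11⟩
  obtain ⟨n1, n11, n12, n13⟩ := hc2 v q1 rfl
  obtain ⟨n2, n21, n22, n23⟩ := hc2 w (by
    show S'.dist w q + S'.dist q x = S'.dist w x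
    omega) (by omega)
  have e3 : halfRk S' R v x = R v n1 := min2_half ht R n13 n12
  have e4 : halfRk S' R w x = R w n2 := min2_half ht R n23 n22
  by_contra hlt
  push Not at hlt
  have := hR3 w n2 v n1 q q (by omega) n21 n11 (by omega) hlt
  omega

/-- (4.5): `c` is minimal for the lexicographic order of the two potentials -/
theorem min_tie {S S' : SimpleGraph V} {T : SimpleGraph W} {T' : SimpleGraph W'}
    (L : Lat G S T) (L' : Lat G S' T') (R : V → V → ℕ)
    (hR1 : ∀ (g : G) x m, R (g • x) (g • m) = R x m)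
    (hR2 : ∀ x m x' m', R x m = R x' m' → S'.dist x m = S'.dist x' m' →
        ∃ g : G, g • x = x' ∧ g • m = m')
    (hR3 : ∀ x m x' m' m₁ m₁', S'.dist x m = S'.dist x' m' → Bt S' x m₁ m → Bt S' x' m₁' m' →
        S'.dist x m₁ = S'.dist x' m₁' → R x m₁ < R x' m₁' → R x m < R x' m')
    {n : ℕ} (c : Fin n → V × V) (hc : FGood G c) (hm : FMin G S' c)
    (hm2 : ∀ c' : Fin n → V × V, FGood G c' →
      Relation.ReflTransGen (Slide G) (FGr G c) (FGr G c') → FE S' c' = FE S' c →
      FW S' R c ≤ FW S' R c')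
    (v w x y : V) (hvw : (FGr G c).Adj v w) (hx : (FGr G c).Adj v x) (hy : (FGr G c).Adj w y)
    (hxw : x ≠ w) (hyv : y ≠ v) :
    ¬ (S'.dist x w = S'.dist v x ∧ S'.dist v y = S'.dist w y) := by
  rintro ⟨hd1, hd2⟩
  have h' := L'.hS
  have ht := h'.tree
  obtain ⟨m, m1, m2, m3⟩ := st_median ht v x w
  have f1 : S'.dist v m + S'.dist m x = S'.dist v x := m1
  have f2 : S'.dist x m + S'.dist m w = S'.dist x w := m2
  have f3 : S'.dist v m + S'.dist m w = S'.dist v w := m3
  have f4 : S'.dist x m = S'.dist m x := SimpleGraph.dist_comm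
  have f5 : S'.dist w m = S'.dist m w := SimpleGraph.dist_comm
  have f6 : S'.dist m v = S'.dist v m := SimpleGraph.dist_comm
  have f7 : S'.dist w v = S'.dist v w := SimpleGraph.dist_comm
  have f8 : S'.dist y v = S'.dist v y := SimpleGraph.dist_comm
  have k1 := min2_key L L' R hR1 hR3 c hc hm hm2 v w x m hvw hx hxw hd1 m3 (by omega)
  have k2 := min2_key L L' R hR1 hR3 c hc hm hm2 w v y m hvw.symm hy hyv (by omega) (by
    show S'.dist w m + S'.dist m v = S'.dist w v
    omega) (by omega)
  obtain ⟨g, g1, g2⟩ := hR2 v m w m (le_antisymm k1 k2) (by omega)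
  have htl2 : tl (FGr G c) g = 0 := (tl_eq_zero hc.1 g).mpr ⟨m, g2⟩
  obtain ⟨u, -, hu⟩ := tl_disp hc.1 g v
  rw [g1, htl2, SimpleGraph.dist_eq_one_iff_adj.mpr hvw] at hu
  omega

end NIEL

end LatIso
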