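import Pool.Agent.Lib.MP_32d917_al.ST1
import Pool.Agent.Lib.MP_32d917_al.TL1

/-!
# Rank functions (4.5)
-/

set_option autoImplicit false

namespace LatIso

section RANK

variable {G : Type} [Group G] {V : Type} [MulAction G V]

theorem rank_ball {S : SimpleGraph V} (hS : S.IsTree) (loc : ∀ v, (S.neighborSet v).Finite)
    (x : V) (L : ℕ) : {m | S.dist x m = L}.Finite := by
  induction L with
  | zero =>
    refine (Set.finite_singleton x).subset ?_
    intro m hm
    exact ((hS.connected.dist_eq_zero_iff).mp hm).symm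
  | succ L ih =>
    refine (ih.biUnion (fun v _ => loc v)).subset ?_
    intro m hm
    have hm' : S.dist x m = L + 1 := hm
    obtain ⟨p, p1, p2⟩ := st_pt hS x m L (by omega)
    have : S.dist x p + S.dist p m = S.dist x m := p2
    simp only [Set.mem_iUnion]
    exact ⟨p, p1, SimpleGraph.dist_eq_one_iff_adj.mp (by omega)⟩

theorem rank_code {S : SimpleGraph V} (h : TA G S) (loc : ∀ v, (S.neighborSet v).Finite)
    (fin : ∃ F : Finset V, ∀ v : V, ∃ k : G, k • v ∈ F) :
    ∃ (c : V → V → ℕ) (K : ℕ → ℕ), (∀ (g : G) x m, c (g • x) (g • m) = c x m) ∧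
      (∀ x m x' m', c x m = c x' m' → S.dist x m = S.dist x' m' →
        ∃ g : G, g • x = x' ∧ g • m = m') ∧
      ∀ x m, c x m < K (S.dist x m) := by
  obtain ⟨F, hF⟩ := fin
  let mk : V × V → MulAction.orbitRel.Quotient G (V × V) := fun p => Quotient.mk _ p
  have hmk : ∀ p q : V × V, mk p = mk q ↔ ∃ g : G, g • q = p := by
    intro p q
    exact (Quotient.eq (r := MulAction.orbitRel G (V × V))).trans
      (MulAction.orbitRel_apply.trans MulAction.mem_orbit_iff)
  have hD : ∀ L, (mk '' {p : V × V | S.dist p.1 p.2 = L}).Finite := by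
    intro L
    have hfin : (⋃ v ∈ F, (fun m : V => ((v, m) : V × V)) '' {m | S.dist v m = L}).Finite :=
      (F.finite_toSet).biUnion fun v _ => (rank_ball h.tree loc v L).image _
    refine (hfin.image mk).subset ?_
    rintro q ⟨⟨x, m⟩, hp, rfl⟩
    obtain ⟨k, hk⟩ := hF x
    refine ⟨(k • x, k • m), ?_, ?_⟩
    · simp only [Set.mem_iUnion]
      refine ⟨k • x, hk, k • m, ?_, rfl⟩
      show S.dist (k • x) (k • m) = L
      rw [ta_dist h]; exact hp
    · exact (hmk _ _).mpr ⟨k, rfl⟩
  have hf : ∀ L, ∃ f : MulAction.orbitRel.Quotient G (V × V) → ℕ,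
      Set.InjOn f (mk '' {p : V × V | S.dist p.1 p.2 = L}) ∧
      ∃ K, ∀ q ∈ mk '' {p : V × V | S.dist p.1 p.2 = L}, f q < K := by
    intro L
    obtain ⟨f, hf⟩ := Set.countable_iff_exists_injOn.mp (hD L).countable
    obtain ⟨K, hK⟩ := ((hD L).image f).bddAbove
    exact ⟨f, hf, K + 1, fun q hq => Nat.lt_succ_of_le (hK ⟨q, hq, rfl⟩)⟩
  choose f hf1 K hK using hf
  refine ⟨fun x m => f (S.dist x m) (mk (x, m)), K, ?_, ?_, ?_⟩
  · intro g x m
    simp only
    rw [ta_dist h]
    congr 1
    exact (hmk _ _).mpr ⟨g, rfl⟩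
  · intro x m x' m' he hd
    simp only at he
    rw [← hd] at he
    have := hf1 _ ⟨(x, m), rfl, rfl⟩ ⟨(x', m'), hd.symm, rfl⟩ he
    obtain ⟨g, hg⟩ := (hmk _ _).mp this.symm
    rw [Prod.smul_mk, Prod.mk.injEq] at hg
    exact ⟨g, hg.1, hg.2⟩
  · intro x m
    exact hK _ _ ⟨(x, m), rfl, rfl⟩

/-- (4.5) rank functions -/
theorem rank_exists {S : SimpleGraph V} (h : TA G S) (loc : ∀ v, (S.neighborSet v).Finite)
    (fin : ∃ F : Finset V, ∀ v : V, ∃ k : G, k • v ∈ F) :
    ∃ R : V → V → ℕ, (∀ (g : G) x m, R (g • x) (g • m) = R x m) ∧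
      (∀ x m x' m', R x m = R x' m' → S.dist x m = S.dist x' m' →
        ∃ g : G, g • x = x' ∧ g • m = m') ∧
      ∀ x m x' m' m₁ m₁', S.dist x m = S.dist x' m' → Bt S x m₁ m → Bt S x' m₁' m' →
        S.dist x m₁ = S.dist x' m₁' → R x m₁ < R x' m₁' → R x m < R x' m' := by
  obtain ⟨c, K, c1, c2, c3⟩ := rank_code h loc fin
  have ht := h.tree
  have hpr : ∀ x m, ∃ p, S.dist x p = S.dist x m - 1 ∧ Bt S x p m := fun x m =>
    st_pt ht x m _ (Nat.sub_le _ _)
  choose pr pr1 pr2 using hpr
  have prg : ∀ (g : G) x m, pr (g • x) (g • m) = g • pr x m := by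
    intro g x m
    refine st_pt_uniq ht (pr2 _ _) ?_ ?_
    · show S.dist (g • x) (g • pr x m) + S.dist (g • pr x m) (g • m) = S.dist (g • x) (g • m)
      rw [ta_dist h, ta_dist h, ta_dist h]; exact pr2 x m
    · rw [pr1, ta_dist h, ta_dist h, pr1]
  let r : ℕ → V → V → ℕ := fun n => Nat.rec (fun x m => c x m)
    (fun n f x m => K (n + 1) * f x (pr x m) + c x m) n
  have r0 : ∀ x m, r 0 x m = c x m := fun _ _ => rfl
  have rs : ∀ n x m, r (n + 1) x m = K (n + 1) * r n x (pr x m) + c x m := fun _ _ _ => rfl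
  have rg : ∀ n (g : G) x m, r n (g • x) (g • m) = r n x m := by
    intro n
    induction n with
    | zero => intro g x m; rw [r0, r0, c1]
    | succ n ih => intro g x m; rw [rs, rs, prg, ih, c1]
  refine ⟨fun x m => r (S.dist x m) x m, ?_, ?_, ?_⟩
  · intro g x m
    simp only
    rw [ta_dist h, rg]
  · intro x m x' m' he hd
    simp only at he
    rw [← hd] at he
    refine c2 x m x' m' ?_ hd
    rcases hn : S.dist x m with _ | n
    · rw [hn, r0, r0] at he; exact he
    · rw [hn, rs, rs] at he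
      have k1 := c3 x m
      have k2 := c3 x' m'
      rw [← hd] at k2
      rw [hn] at k1 k2
      have := congrArg (fun t => t % K (n + 1)) he
      simpa [Nat.mul_add_mod, Nat.mod_eq_of_lt k1, Nat.mod_eq_of_lt k2] using this
  · -- monotonicity
    have key : ∀ n x m x' m' m₁ m₁', S.dist x m = n → S.dist x' m' = n → Bt S x m₁ m →
        Bt S x' m₁' m' → S.dist x m₁ = S.dist x' m₁' →
        r (S.dist x m₁) x m₁ < r (S.dist x' m₁') x' m₁' → r n x m < r n x' m' := by
      intro n
      induction n with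
      | zero =>
        intro x m x' m' m₁ m₁' h1 h2 b1 b2 hd hlt
        have b1' : S.dist x m₁ + S.dist m₁ m = S.dist x m := b1
        have b2' : S.dist x' m₁' + S.dist m₁' m' = S.dist x' m' := b2
        have e1 : m₁ = m := (ht.connected.dist_eq_zero_iff).mp (by omega)
        have e2 : m₁' = m' := (ht.connected.dist_eq_zero_iff).mp (by omega)
        subst e1; subst e2
        rw [h1, h2] at hlt
        exact hlt
      | succ n ih =>
        intro x m x' m' m₁ m₁' h1 h2 b1 b2 hd hlt
        have b1' : S.dist x m₁ + S.dist m₁ m = S.dist x m := b1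
        have b2' : S.dist x' m₁' + S.dist m₁' m' = S.dist x' m' := b2
        by_cases hm : m₁ = m
        · have e2 : m₁' = m' := (ht.connected.dist_eq_zero_iff).mp (by
            rw [hm] at hd; omega)
          subst hm; subst e2
          rw [h1, h2] at hlt
          exact hlt
        · have hpos := ht.connected.pos_dist_of_ne hm
          have p1 := pr1 x m
          have p2 := pr1 x' m'
          have i1 := ih x (pr x m) x' (pr x' m') m₁ m₁' (by omega) (by omega)
            (st_seg ht b1 (pr2 x m) (by omega)).1 (st_seg ht b2 (pr2 x' m') (by omega)).1 hd hlt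
          rw [rs, rs]
          have k1 := c3 x m
          rw [h1] at k1
          calc K (n + 1) * r n x (pr x m) + c x m
              < K (n + 1) * r n x (pr x m) + K (n + 1) := by omega
            _ = K (n + 1) * (r n x (pr x m) + 1) := by ring
            _ ≤ K (n + 1) * r n x' (pr x' m') := Nat.mul_le_mul_left _ i1
            _ ≤ _ := Nat.le_add_right _ _
    intro x m x' m' m₁ m₁' hd b1 b2 hd1 hlt
    simp only at hlt ⊢
    have := key _ x m x' m' m₁ m₁' rfl hd.symm b1 b2 hd1 hlt
    rwa [← hd]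

end RANK

end LatIso
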