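import Pool.Agent.Lib.MP_32d917_al.ST2
import Pool.Agent.Lib.MP_32d917_al.RANK
import Pool.Agent.Lib.MP_32d917_al.MIN2

/-!
# Theorem N
-/

set_option autoImplicit false

namespace LatIso

section NIEL

variable {G : Type} [Group G] {V W W' : Type} [MulAction G V] [MulAction G W] [MulAction G W']

/-- (4.6) -/
theorem niel_tight {S S' : SimpleGraph V} {T : SimpleGraph W} {T' : SimpleGraph W'}
    (L : Lat G S T) (L' : Lat G S' T') (R : V → V → ℕ)
    (hR1 : ∀ (g : G) x m, R (g • x) (g • m) = R x m)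
    (hR2 : ∀ x m x' m', R x m = R x' m' → S'.dist x m = S'.dist x' m' →
        ∃ g : G, g • x = x' ∧ g • m = m')
    (hR3 : ∀ x m x' m' m₁ m₁', S'.dist x m = S'.dist x' m' → Bt S' x m₁ m → Bt S' x' m₁' m' →
        S'.dist x m₁ = S'.dist x' m₁' → R x m₁ < R x' m₁' → R x m < R x' m')
    {n : ℕ} (c : Fin n → V × V) (hc : FGood G c) (hm : FMin G S' c)
    (hm2 : ∀ c' : Fin n → V × V, FGood G c' →
      Relation.ReflTransGen (Slide G) (FGr G c) (FGr G c') → FE S' c' = FE S' c →
      FW S' R c ≤ FW S' R c') (a b : V) :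
    (FGr G c).dist a b ≤ S'.dist a b := by
  have ht := hc.1.tree
  have ht' := L'.hS.tree
  have hx : ∀ i, ∃ m, i ≤ (FGr G c).dist a b → ((FGr G c).dist a m = i ∧ Bt (FGr G c) a m b) := by
    intro i
    by_cases hi : i ≤ (FGr G c).dist a b
    · obtain ⟨m, h1, h2⟩ := st_pt ht a b i hi
      exact ⟨m, fun _ => ⟨h1, h2⟩⟩
    · exact ⟨a, fun h => absurd h hi⟩
  choose x hx using hx
  have hx0 : x 0 = a := ((ht.connected.dist_eq_zero_iff).mp (hx 0 (Nat.zero_le _)).1).symm
  have hxn : x ((FGr G c).dist a b) = b := by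
    have h1 := hx _ le_rfl
    have h2 : (FGr G c).dist a (x ((FGr G c).dist a b)) +
      (FGr G c).dist (x ((FGr G c).dist a b)) b = (FGr G c).dist a b := h1.2
    exact (ht.connected.dist_eq_zero_iff).mp (by omega)
  have hd : ∀ i j, i ≤ j → j ≤ (FGr G c).dist a b → (FGr G c).dist (x i) (x j) = j - i := by
    intro i j hij hj
    have h1 := hx i (hij.trans hj)
    have h2 := hx j hj
    have h3 : (FGr G c).dist a (x i) + (FGr G c).dist (x i) (x j) = (FGr G c).dist a (x j) :=
      (st_seg ht h1.2 h2.2 (by omega)).1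
    omega
  have hadj : ∀ i, i + 1 ≤ (FGr G c).dist a b → (FGr G c).Adj (x i) (x (i + 1)) := by
    intro i hi
    refine SimpleGraph.dist_eq_one_iff_adj.mp ?_
    rw [hd i (i + 1) (by omega) hi]; omega
  have hne2 : ∀ i, i + 2 ≤ (FGr G c).dist a b → x i ≠ x (i + 2) := by
    intro i hi he
    have := hd i (i + 2) (by omega) hi
    rw [← he, SimpleGraph.dist_self] at this
    omega
  have hpar : ∀ i, Even (S'.dist (x i) (x (i + 1)) + S'.dist (x (i + 1)) (x (i + 2)) +
      S'.dist (x i) (x (i + 2))) := fun i => st_parity ht' _ _ _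
  have htri : ∀ i, S'.dist (x i) (x (i + 2)) ≤ S'.dist (x i) (x (i + 1)) +
      S'.dist (x (i + 1)) (x (i + 2)) := fun i => ht'.connected.dist_triangle
  have hov : ∀ i, i + 1 < (FGr G c).dist a b →
      S'.dist (x i) (x (i + 1)) ≤ S'.dist (x i) (x (i + 2)) ∧
      S'.dist (x (i + 1)) (x (i + 2)) ≤ S'.dist (x i) (x (i + 2)) := by
    intro i hi
    have a1 := hadj i (by omega)
    have a2 := hadj (i + 1) (by omega)
    have h1 := (min_overlap L L' c hc hm (x (i + 1)) (x i) (x (i + 2)) a1.symm a2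
      (hne2 i (by omega))).1
    have h2 := (min_overlap L L' c hc hm (x (i + 1)) (x (i + 2)) (x i) a2 a1.symm
      (hne2 i (by omega)).symm).1
    rw [SimpleGraph.dist_comm (u := x (i + 1)) (v := x i)] at h1
    rw [SimpleGraph.dist_comm (u := x (i + 2)) (v := x i)] at h2
    exact ⟨h1, h2⟩
  have hpos : ∀ i, i < (FGr G c).dist a b → 0 < S'.dist (x i) (x (i + 1)) := by
    intro i hi
    exact ht'.connected.pos_dist_of_ne (hadj i (by omega)).ne
  have key := st_tight ht' ((FGr G c).dist a b) x (fun i => S'.dist (x i) (x (i + 1)))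
    (fun i => (S'.dist (x i) (x (i + 1)) + S'.dist (x (i + 1)) (x (i + 2)) -
      S'.dist (x i) (x (i + 2))) / 2) (fun i _ => rfl) (fun i hi => hpos i hi) ?_ ?_ ?_ ?_
  · rw [hx0, hxn] at key; exact key
  · intro i hi
    have h1 := hpar i
    have h2 := htri i
    rw [Nat.even_iff] at h1
    rw [show i + 1 + 1 = i + 2 from rfl]
    omega
  · intro i hi
    have h1 := hpar i
    have h2 := htri i
    have h3 := hov i hi
    have h4 := hpos i (by omega)
    rw [Nat.even_iff] at h1
    omega
  · intro i hi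
    have h1 := hpar i
    have h2 := htri i
    have h3 := hov i hi
    have h4 := hpos (i + 1) (by omega)
    rw [Nat.even_iff] at h1
    rw [show i + 1 + 1 = i + 2 from rfl] at h4 ⊢
    omega
  · intro i hi
    have h1 := hpar i
    have h2 := htri i
    have h3 := hov i (by omega)
    have h1' := hpar (i + 1)
    have h2' := htri (i + 1)
    have h3' := hov (i + 1) (by omega)
    have h4 := hpos (i + 1) (by omega)
    have a1 := hadj i (by omega)
    have a2 := hadj (i + 1) (by omega)
    have a3 := hadj (i + 2) (by omega)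
    have htie := min_tie L L' R hR1 hR2 hR3 c hc hm hm2 (x (i + 1)) (x (i + 2)) (x i) (x (i + 3))
      a2 a1.symm a3 (hne2 i (by omega)) (hne2 (i + 1) (by omega)).symm
    rw [Nat.even_iff] at h1 h1'
    rw [SimpleGraph.dist_comm (u := x (i + 1)) (v := x i)] at htie
    rw [show i + 1 + 1 = i + 2 from rfl, show i + 1 + 2 = i + 3 from rfl] at *
    omega

/-- Theorem N -/
theorem niel {S S' : SimpleGraph V} {T : SimpleGraph W} {T' : SimpleGraph W'}
    (L : Lat G S T) (L' : Lat G S' T') : Relation.ReflTransGen (Slide G) S S' := by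
  classical
  obtain ⟨R, hR1, hR2, hR3⟩ := rank_exists L'.hS L'.locS (lat_finS L')
  obtain ⟨n, c0, hc0, hS⟩ := fam_exists L
  -- minimal families
  have hex : ∃ e, ∃ c : Fin n → V × V, FGood G c ∧
      Relation.ReflTransGen (Slide G) S (FGr G c) ∧ FE S' c = e :=
    ⟨_, c0, hc0, by rw [hS], rfl⟩
  have hex2 : ∃ f, ∃ c : Fin n → V × V, FGood G c ∧
      Relation.ReflTransGen (Slide G) S (FGr G c) ∧ FE S' c = Nat.find hex ∧ FW S' R c = f := by
    obtain ⟨c, h1, h2, h3⟩ := Nat.find_spec hex
    exact ⟨_, c, h1, h2, h3, rfl⟩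
  obtain ⟨c, hc, hr, he, hf⟩ := Nat.find_spec hex2
  have hm : FMin G S' c := by
    intro c' hc' hr'
    rw [he]
    exact Nat.find_min' hex ⟨c', hc', hr.trans hr', rfl⟩
  have hm2 : ∀ c' : Fin n → V × V, FGood G c' →
      Relation.ReflTransGen (Slide G) (FGr G c) (FGr G c') → FE S' c' = FE S' c →
      FW S' R c ≤ FW S' R c' := by
    intro c' hc' hr' he'
    rw [hf]
    exact Nat.find_min' hex2 ⟨c', hc', hr.trans hr', by rw [he', he], rfl⟩
  have htight := niel_tight L L' R hR1 hR2 hR3 c hc hm hm2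
  have hle : S' ≤ FGr G c := by
    intro a b hab
    have h1 := htight a b
    rw [SimpleGraph.dist_eq_one_iff_adj.mpr hab] at h1
    have h2 := hc.1.tree.connected.pos_dist_of_ne hab.ne
    exact SimpleGraph.dist_eq_one_iff_adj.mp (by omega)
  have heq : S' = FGr G c :=
    le_antisymm hle ((SimpleGraph.isTree_iff_minimal_connected.mp hc.1.tree).2
      L'.hS.tree.connected hle)
  rw [heq]
  exact hr

end NIEL

end LatIso
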