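import Pool.Agent.Lib.MP_32d917_al.Defs

/-!
# The universal cover of a graph: reduced edge paths
-/

set_option autoImplicit false

namespace LatIso

section UC

variable {P A : Type} (o : A → P) (i : A → A) (p0 : P)

/-- end point of a path; the last dart comes first -/
def UCend : List A → P
  | [] => p0
  | a :: _ => o (i a)

/-- reduced paths starting at `p0`; the last dart comes first -/
def UCok : List A → Prop
  | [] => True
  | a :: l => o a = UCend o i p0 l ∧ (∀ b l', l = b :: l' → a ≠ i b) ∧ UCok l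

/-- vertices of the universal cover -/
def UCV : Type := {l : List A // UCok o i p0 l}

/-- the universal cover -/
def UCG : SimpleGraph (UCV o i p0) where
  Adj x y := (∃ a, x.1 = a :: y.1) ∨ (∃ a, y.1 = a :: x.1)
  symm := by
    constructor
    rintro x y (h | h)
    · exact Or.inr h
    · exact Or.inl h
  loopless := by
    constructor
    rintro x (⟨a, h⟩ | ⟨a, h⟩)
    · have := congrArg List.length h
      simp at this
    · have := congrArg List.length h
      simp at this

theorem UC_adj (x y : UCV o i p0) :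
    (UCG o i p0).Adj x y ↔ (∃ a, x.1 = a :: y.1) ∨ (∃ a, y.1 = a :: x.1) := Iff.rfl

theorem UC_conn : (UCG o i p0).Connected := by
  have key : ∀ (l : List A) (h : UCok o i p0 l),
      (UCG o i p0).Reachable ⟨l, h⟩ ⟨[], trivial⟩ := by
    intro l
    induction l with
    | nil => intro h; exact SimpleGraph.Reachable.refl _
    | cons a l ih =>
      intro h
      have h' : UCok o i p0 l := h.2.2
      refine SimpleGraph.Reachable.trans (v := ⟨l, h'⟩) ?_ (ih h')
      apply SimpleGraph.Adj.reachable
      exact Or.inl ⟨a, rfl⟩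
  have : Nonempty (UCV o i p0) := ⟨⟨[], trivial⟩⟩
  refine SimpleGraph.Connected.mk ?_
  intro x y
  exact (key x.1 x.2).trans (key y.1 y.2).symm

theorem UC_bridge (x y : UCV o i p0) (a : A) (h : x.1 = a :: y.1) :
    ¬ ((UCG o i p0).deleteEdges {s(x, y)}).Reachable x y := by
  intro hr
  have key : ∀ z w : UCV o i p0, ((UCG o i p0).deleteEdges {s(x, y)}).Adj z w →
      x.1 <:+ z.1 → x.1 <:+ w.1 := by
    intro z w hzw hz
    rw [SimpleGraph.deleteEdges_adj] at hzw
    obtain ⟨h1, h2⟩ := hzw
    rcases h1 with ⟨b, hb⟩ | ⟨b, hb⟩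
    · rw [hb, List.suffix_cons_iff] at hz
      rcases hz with hz | hz
      · exfalso
        apply h2
        have hz1 : x = z := Subtype.ext (by rw [hz, hb])
        have hz2 : w = y := Subtype.ext (by
          rw [h] at hz
          exact (List.cons.inj hz).2.symm)
        subst hz1
        subst hz2
        exact Set.mem_singleton _
      · exact hz
    · rw [hb]
      exact hz.trans (List.suffix_cons _ _)
  have key2 : ∀ z w : UCV o i p0, ((UCG o i p0).deleteEdges {s(x, y)}).Reachable z w →
      x.1 <:+ z.1 → x.1 <:+ w.1 := by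
    rintro z w ⟨p⟩
    induction p with
    | nil => exact fun h => h
    | cons hadj _ ih => exact fun h => ih (key _ _ hadj h)
  have h3 := key2 x y hr (List.suffix_refl _)
  have := h3.length_le
  rw [h] at this
  simp at this

theorem UC_tree : (UCG o i p0).IsTree := by
  refine ⟨UC_conn o i p0, ?_⟩
  rw [SimpleGraph.isAcyclic_iff_forall_adj_isBridge]
  intro x y hxy
  rw [SimpleGraph.isBridge_iff]
  rcases hxy with ⟨a, h⟩ | ⟨a, h⟩
  · exact UC_bridge o i p0 x y a h
  · intro hr
    apply UC_bridge o i p0 y x a h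
    rw [Sym2.eq_swap]
    exact hr.symm

/-- label of a dart -/
noncomputable def UCal (d : A) (x y : UCV o i p0) : A :=
  if x.1.length < y.1.length then y.1.headD d else i (x.1.headD d)

theorem UCal_up (d : A) (x y : UCV o i p0) (a : A) (h : y.1 = a :: x.1) :
    UCal o i p0 d x y = a := by
  unfold UCal
  rw [h]
  simp

theorem UCal_down (d : A) (x y : UCV o i p0) (a : A) (h : x.1 = a :: y.1) :
    UCal o i p0 d x y = i a := by
  unfold UCal
  rw [h]
  simp

/-- the tree of reduced paths of the graph `(P, A, o, i)` starting at `p0` -/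
theorem uc_exists {P A : Type} [Nonempty A] (o : A → P) (i : A → A) (hi : ∀ a, i (i a) = a)
    (p0 : P) :
    ∃ (V : Type) (S : SimpleGraph V) (v0 : V) (q : V → P) (al : V → V → A), S.IsTree ∧
      q v0 = p0 ∧ (∀ v v', S.Adj v v' → o (al v v') = q v) ∧
      (∀ v v', S.Adj v v' → al v' v = i (al v v')) ∧
      (∀ v x y, S.Adj v x → S.Adj v y → al v x = al v y → x = y) ∧
      (∀ v a, o a = q v → ∃ v', S.Adj v v' ∧ al v v' = a) := by
  classical
  obtain ⟨d⟩ := ‹Nonempty A›
  refine ⟨UCV o i p0, UCG o i p0, ⟨[], trivial⟩, fun v => UCend o i p0 v.1, UCal o i p0 d,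
    UC_tree o i p0, rfl, ?_, ?_, ?_, ?_⟩
  · rintro v v' (⟨a, h⟩ | ⟨a, h⟩)
    · rw [UCal_down o i p0 d v v' a h]
      show o (i a) = UCend o i p0 v.1
      rw [h]
      rfl
    · rw [UCal_up o i p0 d v v' a h]
      have := v'.2
      rw [h] at this
      exact this.1
  · rintro v v' (⟨a, h⟩ | ⟨a, h⟩)
    · rw [UCal_down o i p0 d v v' a h, UCal_up o i p0 d v' v a h, hi]
    · rw [UCal_down o i p0 d v' v a h, UCal_up o i p0 d v v' a h]
  · rintro v x y (⟨a, h⟩ | ⟨a, h⟩) (⟨b, h'⟩ | ⟨b, h'⟩) hal
    · apply Subtype.ext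
      rw [h] at h'
      exact (List.cons.inj h').2
    · exfalso
      rw [UCal_down o i p0 d v x a h, UCal_up o i p0 d v y b h'] at hal
      have := y.2
      rw [h'] at this
      exact this.2.1 a x.1 h hal.symm
    · exfalso
      rw [UCal_up o i p0 d v x a h, UCal_down o i p0 d v y b h'] at hal
      have := x.2
      rw [h] at this
      exact this.2.1 b y.1 h' hal
    · rw [UCal_up o i p0 d v x a h, UCal_up o i p0 d v y b h'] at hal
      apply Subtype.ext
      rw [h, h', hal]
  · intro v a ha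
    by_cases hc : ∃ b l, v.1 = b :: l ∧ a = i b
    · obtain ⟨b, l, hv, hab⟩ := hc
      have hv2 := v.2
      rw [hv] at hv2
      refine ⟨⟨l, hv2.2.2⟩, Or.inl ⟨b, hv⟩, ?_⟩
      rw [UCal_down o i p0 d v ⟨l, hv2.2.2⟩ b hv, hab]
    · push Not at hc
      have hok : UCok o i p0 (a :: v.1) := ⟨ha, fun b l' hb => hc b l' hb, v.2⟩
      refine ⟨⟨a :: v.1, hok⟩, Or.inr ⟨a, rfl⟩, ?_⟩
      rw [UCal_up o i p0 d v ⟨a :: v.1, hok⟩ a rfl]

end UC

end LatIso
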