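import Pool.Agent.Lib.MP_32d917_al.Defs

/-!
# Families of representatives of the edge orbits
-/

set_option autoImplicit false

namespace LatIso

variable {G : Type} [Group G] {V W : Type} [MulAction G V] [MulAction G W]

theorem fam_ne {S : SimpleGraph V} {T : SimpleGraph W} (L : Lat G S T) :
    ∃ (n : ℕ) (c : Fin n → V × V), FGood G c ∧ FGr G c = S := by
  classical
  -- finitely many orbits of vertices
  obtain ⟨F0, hF0⟩ := L.fin
  have hW : Nonempty W := L.hT.tree.connected.nonempty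
  obtain ⟨w0⟩ := hW
  set F : Finset V := F0.image Prod.fst with hF
  have hFv : ∀ v : V, ∃ g : G, g • v ∈ F := by
    intro v
    obtain ⟨g, hg⟩ := hF0 v w0
    exact ⟨g, Finset.mem_image.2 ⟨_, hg, rfl⟩⟩
  -- the edges starting in `F`
  have hE0 : {e : V × V | e.1 ∈ F ∧ S.Adj e.1 e.2}.Finite := by
    have : {e : V × V | e.1 ∈ F ∧ S.Adj e.1 e.2} ⊆
        ⋃ v ∈ (F : Set V), (fun x => (v, x)) '' S.neighborSet v := by
      rintro ⟨a, b⟩ ⟨h1, h2⟩
      simp only [Set.mem_iUnion]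
      exact ⟨a, h1, b, h2, rfl⟩
    refine Set.Finite.subset ?_ this
    exact Set.Finite.biUnion F.finite_toSet fun v _ => (L.locS v).image _
  let E : Type := {e : V × V // S.Adj e.1 e.2}
  let r : Setoid E :=
    { r := fun e f => ∃ g : G, (g • e.1.1 = f.1.1 ∧ g • e.1.2 = f.1.2) ∨
        (g • e.1.1 = f.1.2 ∧ g • e.1.2 = f.1.1)
      iseqv := by
        refine ⟨?_, ?_, ?_⟩
        · intro e
          exact ⟨1, Or.inl ⟨one_smul _ _, one_smul _ _⟩⟩
        · rintro e f ⟨g, ⟨h1, h2⟩ | ⟨h1, h2⟩⟩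
          · exact ⟨g⁻¹, Or.inl ⟨by rw [← h1, inv_smul_smul], by rw [← h2, inv_smul_smul]⟩⟩
          · exact ⟨g⁻¹, Or.inr ⟨by rw [← h2, inv_smul_smul], by rw [← h1, inv_smul_smul]⟩⟩
        · rintro e f k ⟨g, ⟨h1, h2⟩ | ⟨h1, h2⟩⟩ ⟨g', ⟨h3, h4⟩ | ⟨h3, h4⟩⟩
          · exact ⟨g' * g, Or.inl ⟨by rw [mul_smul, h1, h3], by rw [mul_smul, h2, h4]⟩⟩
          · exact ⟨g' * g, Or.inr ⟨by rw [mul_smul, h1, h3], by rw [mul_smul, h2, h4]⟩⟩
          · exact ⟨g' * g, Or.inr ⟨by rw [mul_smul, h1, h4], by rw [mul_smul, h2, h3]⟩⟩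
          · exact ⟨g' * g, Or.inl ⟨by rw [mul_smul, h1, h4], by rw [mul_smul, h2, h3]⟩⟩ }
  have hfin : Finite (Quotient r) := by
    have : Finite {e : V × V | e.1 ∈ F ∧ S.Adj e.1 e.2} := hE0
    refine Finite.of_surjective
      (fun e : {e : V × V | e.1 ∈ F ∧ S.Adj e.1 e.2} => (Quotient.mk r ⟨e.1, e.2.2⟩)) ?_
    intro q
    induction q using Quotient.inductionOn with
    | h e =>
      obtain ⟨g, hg⟩ := hFv e.1.1
      refine ⟨⟨(g • e.1.1, g • e.1.2), hg, L.hS.adj g _ _ e.2⟩, ?_⟩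
      apply Quotient.sound
      refine ⟨g⁻¹, Or.inl ⟨?_, ?_⟩⟩
      · exact inv_smul_smul _ _
      · exact inv_smul_smul _ _
  obtain ⟨n, ⟨φ⟩⟩ := Finite.exists_equiv_fin (Quotient r)
  set c : Fin n → V × V := fun i => (Quotient.out (φ.symm i)).1 with hc
  have hcadj : ∀ i, S.Adj (c i).1 (c i).2 := fun i => (Quotient.out (φ.symm i)).2
  have hS : FGr G c = S := by
    ext a b
    constructor
    · rintro ⟨hne, i, g, ⟨h1, h2⟩ | ⟨h1, h2⟩⟩
      · rw [← h1, ← h2]
        exact L.hS.adj g _ _ (hcadj i)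
      · rw [← h1, ← h2]
        exact (L.hS.adj g _ _ (hcadj i)).symm
    · intro hab
      refine ⟨hab.ne, ?_⟩
      set e : E := ⟨(a, b), hab⟩ with he
      refine ⟨φ (Quotient.mk r e), ?_⟩
      have h1 : r.r (Quotient.out (φ.symm (φ (Quotient.mk r e)))) e := by
        rw [Equiv.symm_apply_apply]
        exact Quotient.mk_out (s := r) e
      exact h1
  refine ⟨n, c, ⟨?_, ?_, ?_⟩, hS⟩
  · rw [hS]
    exact L.hS
  · exact fun i => (hcadj i).ne
  · intro i j hij g
    have key : ¬ r.r (Quotient.out (φ.symm i)) (Quotient.out (φ.symm j)) := by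
      intro h
      apply hij
      have h2 : (Quotient.mk r (Quotient.out (φ.symm i))) =
          (Quotient.mk r (Quotient.out (φ.symm j))) := Quotient.sound h
      rw [Quotient.out_eq, Quotient.out_eq] at h2
      exact φ.symm.injective h2
    constructor
    · intro h
      exact key ⟨g, Or.inl h⟩
    · intro h
      exact key ⟨g, Or.inr h⟩

theorem fam_exists {S : SimpleGraph V} {T : SimpleGraph W} (L : Lat G S T) :
    ∃ (n : ℕ) (c : Fin n → V × V), FGood G c ∧ FGr G c = S := fam_ne L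

/-- replacing a representative by another one -/
theorem fam_repr {n : ℕ} (c : Fin n → V × V) (hc : FGood G c) (i : Fin n) (a b : V)
    (h : ∃ g : G, (g • (c i).1 = a ∧ g • (c i).2 = b) ∨ (g • (c i).1 = b ∧ g • (c i).2 = a)) :
    FGood G (Function.update c i (a, b)) ∧ FGr G (Function.update c i (a, b)) = FGr G c := by
  classical
  obtain ⟨k, hk⟩ := h
  set d := Function.update c i (a, b) with hd
  have hdi : d i = (a, b) := by rw [hd, Function.update_self]
  have hdj : ∀ j, j ≠ i → d j = c j := fun j hj => by rw [hd, Function.update_of_ne hj]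
  -- orbits of `d j` and `c j`
  have ex : ∀ j x y, (∃ g : G, (g • (d j).1 = x ∧ g • (d j).2 = y) ∨
      (g • (d j).1 = y ∧ g • (d j).2 = x)) ↔
      (∃ g : G, (g • (c j).1 = x ∧ g • (c j).2 = y) ∨
      (g • (c j).1 = y ∧ g • (c j).2 = x)) := by
    intro j x y
    by_cases hj : j = i
    · subst hj
      rw [hdi]
      constructor
      · rintro ⟨g, hg⟩
        refine ⟨g * k, ?_⟩
        rw [mul_smul, mul_smul]
        rcases hk with ⟨k1, k2⟩ | ⟨k1, k2⟩
        · rw [k1, k2]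
          exact hg
        · rw [k1, k2]
          exact hg.symm.imp And.symm And.symm
      · rintro ⟨g, hg⟩
        refine ⟨g * k⁻¹, ?_⟩
        rw [mul_smul, mul_smul]
        rcases hk with ⟨k1, k2⟩ | ⟨k1, k2⟩
        · rw [← k1, ← k2, inv_smul_smul, inv_smul_smul]
          exact hg
        · rw [← k1, ← k2, inv_smul_smul, inv_smul_smul]
          exact hg.symm.imp And.symm And.symm
    · rw [hdj j hj]
  have hgr : FGr G d = FGr G c := by
    ext x y
    constructor
    · rintro ⟨h1, j, h2⟩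
      exact ⟨h1, j, (ex j x y).1 h2⟩
    · rintro ⟨h1, j, h2⟩
      exact ⟨h1, j, (ex j x y).2 h2⟩
  refine ⟨⟨?_, ?_, ?_⟩, hgr⟩
  · rw [hgr]
    exact hc.1
  · intro j
    by_cases hj : j = i
    · subst hj
      rw [hdi]
      have h3 := hc.2.1 j
      rcases hk with ⟨k1, k2⟩ | ⟨k1, k2⟩
      · rw [← k1, ← k2]
        exact fun h => h3 (smul_left_cancel k h)
      · rw [← k1, ← k2]
        exact fun h => h3 (smul_left_cancel k h).symm
    · rw [hdj j hj]
      exact hc.2.1 j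
  · -- disjoint orbits
    have sym : ∀ j l : Fin n, (∃ g : G, (g • (d j).1 = (d l).1 ∧ g • (d j).2 = (d l).2) ∨
      (g • (d j).1 = (d l).2 ∧ g • (d j).2 = (d l).1)) → j = l := by
      intro j l hjl
      by_contra hne
      -- go from `d j` to `c j`
      have h1 := (ex j (d l).1 (d l).2).1 hjl
      -- reverse
      have h2 : ∃ g : G, (g • (d l).1 = (c j).1 ∧ g • (d l).2 = (c j).2) ∨
          (g • (d l).1 = (c j).2 ∧ g • (d l).2 = (c j).1) := by
        obtain ⟨g, ⟨g1, g2⟩ | ⟨g1, g2⟩⟩ := h1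
        · exact ⟨g⁻¹, Or.inl ⟨by rw [← g1, inv_smul_smul], by rw [← g2, inv_smul_smul]⟩⟩
        · exact ⟨g⁻¹, Or.inr ⟨by rw [← g2, inv_smul_smul], by rw [← g1, inv_smul_smul]⟩⟩
      obtain ⟨g, hg⟩ := (ex l (c j).1 (c j).2).1 h2
      have h4 := hc.2.2 l j (fun hh => hne hh.symm) g
      exact hg.elim h4.1 h4.2
    intro j l hjl g
    exact ⟨fun h => hjl (sym j l ⟨g, Or.inl h⟩), fun h => hjl (sym j l ⟨g, Or.inr h⟩)⟩

end LatIso
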