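import Pool.Agent.Lib.MP_32d917_al.NDefs

/-!
# Proper actions on forests (products of trees whose factors may be permuted): definitions
-/

set_option autoImplicit false

namespace LatF

open LatIso LatN

/-! ### Proper actions on products, factor by factor -/

/-- The group `G` acts on the trees `S i` without inversions, properly and with finitely many
orbits on the product; the trees are locally finite, without leaves, and not a line. -/
structure PLat (G : Type) [Group G] {ι : Type} {V : ι → Type} [∀ i, MulAction G (V i)]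
    (S : ∀ i, SimpleGraph (V i)) : Prop where
  ta : ∀ i, TA G (S i)
  loc : ∀ i v, ((S i).neighborSet v).Finite
  leafless : ∀ i, Leafless (S i)
  prop : ∀ x : ∀ i, V i, {g : G | ∀ i, g • x i = x i}.Finite
  fin : ∃ F : Finset (∀ i, V i), ∀ x : ∀ i, V i, ∃ g : G, (fun i => g • x i) ∈ F

/-! ### Forests -/

/-- the fibre of `κ` over `i` -/
abbrev Fib {V ι : Type} (κ : V → ι) (i : ι) : Type := {v : V // κ v = i}

/-- the part of the graph `S` over `i` -/
def comp {V ι : Type} (κ : V → ι) (S : SimpleGraph V) (i : ι) : SimpleGraph (Fib κ i) :=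
  S.comap Subtype.val

/-- `S` is a forest whose components are the fibres of `κ` -/
structure Forest {V ι : Type} (κ : V → ι) (S : SimpleGraph V) : Prop where
  tree : ∀ i, (comp κ S i).IsTree
  kap : ∀ x y, S.Adj x y → κ x = κ y

/-- `G` acts on the forest, `κ` is equivariant -/
structure FAct (G : Type) [Group G] {V ι : Type} [MulAction G V] [MulAction G ι] (κ : V → ι)
    (S : SimpleGraph V) : Prop where
  kap : ∀ (g : G) v, κ (g • v) = g • κ v
  adj : ∀ (g : G) x y, S.Adj x y → S.Adj (g • x) (g • y)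

/-- `κ` is equivariant -/
def KEq (G : Type) [Group G] {V ι : Type} [MulAction G V] [MulAction G ι] (κ : V → ι) : Prop :=
  ∀ (g : G) v, κ (g • v) = g • κ v

/-- the stabilizer of a component acts on the component -/
instance fibAct {G : Type} [Group G] {V ι : Type} [MulAction G V] [MulAction G ι] {κ : V → ι}
    [h : Fact (KEq G κ)] (i : ι) : MulAction (MulAction.stabilizer G i) (Fib κ i) where
  smul g v := ⟨(g : G) • v.1, by rw [h.out, v.2]; exact g.2⟩
  one_smul v := Subtype.ext (one_smul G v.1)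
  mul_smul a b v := Subtype.ext (mul_smul (a : G) (b : G) v.1)

/-- a subgroup fixing all components acts on every component -/
instance fibActK {G : Type} [Group G] {V ι : Type} [MulAction G V] [MulAction G ι] {κ : V → ι}
    [h : Fact (KEq G κ)] (H : Subgroup G) [hH : Fact (∀ g ∈ H, ∀ i : ι, g • i = i)] (i : ι) :
    MulAction H (Fib κ i) where
  smul g v := ⟨(g : G) • v.1, by rw [h.out, v.2]; exact hH.out g g.2 i⟩
  one_smul v := Subtype.ext (one_smul G v.1)
  mul_smul a b v := Subtype.ext (mul_smul (a : G) (b : G) v.1)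

/-- `g` maps the point `x` of the product of the components to the point `y` -/
def Mv {G : Type} [Group G] {V ι : Type} [MulAction G V] [MulAction G ι] {κ : V → ι} (g : G)
    (x y : ∀ i, Fib κ i) : Prop := ∀ i, g • (x i).1 = (y (g • i)).1

/-- `G` acts on the forest `S`, possibly permuting the components, without inversions, properly and
with finitely many orbits on the product of the components, which are locally finite. -/
structure FLat0 (G : Type) [Group G] {V ι : Type} [MulAction G V] [MulAction G ι] (κ : V → ι)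
    (S : SimpleGraph V) : Prop where
  forest : Forest κ S
  act : FAct G κ S
  noinv : ∀ (g : G) x y, S.Adj x y → g • x = y → g • y ≠ x
  loc : ∀ v, (S.neighborSet v).Finite
  prop : ∀ x : ∀ i, Fib κ i, {g : G | Mv g x x}.Finite
  fin : ∃ F : Finset (∀ i, Fib κ i), ∀ x, ∃ g : G, ∃ y ∈ F, Mv g x y

/-- the components are without leaves and not a line -/
structure FLat (G : Type) [Group G] {V ι : Type} [MulAction G V] [MulAction G ι] (κ : V → ι)
    (S : SimpleGraph V) : Prop where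
  b : FLat0 G κ S
  leafless : ∀ i, Leafless (comp κ S i)

/-! ### Data: partial groupoids of frames -/

/-- Data: objects `P`, arrows `A` with origin, target, units, inverses; an arrow is moving (`mv`) or
stationary; it moves in the direction `ty a` (labels at the origin); the direction `k` at the origin
is the direction `pm a k` at the target. `ml s a` is the product of the stationary arrow `s` and the
arrow `a`; `sq a b c d` says that the product of `a` and `b` is the product of `c` and `d`, where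
`a`, `b` move in different directions and `c`, `d` as well, in the other order. -/
structure FD (ι P A : Type) where
  o : A → P
  t : A → P
  e : P → A
  i : A → A
  mv : A → Prop
  ty : A → ι
  pm : A → ι → ι
  ml : A → A → A
  sq : A → A → A → A → Prop

/-- the product of the arrow `a` and the stationary arrow `s` -/
def FD.mr {ι P A : Type} (X : FD ι P A) (a s : A) : A := X.i (X.ml (X.i s) (X.i a))

/-- `s` is a stationary arrow ending at the origin of `a` -/
def FD.lc {ι P A : Type} (X : FD ι P A) (s a : A) : Prop := ¬ X.mv s ∧ X.t s = X.o a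

/-- `s` is a stationary arrow starting at the target of `a` -/
def FD.rc {ι P A : Type} (X : FD ι P A) (a s : A) : Prop := ¬ X.mv s ∧ X.o s = X.t a

/-- `a` and `b` go from the same frame to frames over the same point -/
def FD.eqv {ι P A : Type} (X : FD ι P A) (a b : A) : Prop := ∃ s, X.rc a s ∧ b = X.mr a s

/-- the types of the arrows of a square -/
structure SqT {ι P A : Type} (X : FD ι P A) (a b c d : A) : Prop where
  ma : X.mv a
  mb : X.mv b
  mc : X.mv c
  md : X.mv d
  oac : X.o a = X.o c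
  tab : X.t a = X.o b
  tcd : X.t c = X.o d
  tbd : X.t b = X.t d
  ne : X.ty a ≠ X.ty c
  tyb : X.ty b = X.pm a (X.ty c)
  tyd : X.ty d = X.pm c (X.ty a)

/-- the axioms -/
structure Valid0 {ι P A : Type} (X : FD ι P A) : Prop where
  oe : ∀ p, X.o (X.e p) = p
  te : ∀ p, X.t (X.e p) = p
  me : ∀ p, ¬ X.mv (X.e p)
  pe : ∀ p k, X.pm (X.e p) k = k
  oi : ∀ a, X.o (X.i a) = X.t a
  ti : ∀ a, X.t (X.i a) = X.o a
  ii : ∀ a, X.i (X.i a) = a
  mi : ∀ a, X.mv (X.i a) ↔ X.mv a
  tyi : ∀ a, X.mv a → X.ty (X.i a) = X.pm a (X.ty a)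
  pi : ∀ a k, X.pm (X.i a) (X.pm a k) = k
  mlo : ∀ s a, X.lc s a → X.o (X.ml s a) = X.o s
  mlt : ∀ s a, X.lc s a → X.t (X.ml s a) = X.t a
  mlm : ∀ s a, X.lc s a → (X.mv (X.ml s a) ↔ X.mv a)
  mly : ∀ s a, X.lc s a → X.mv a → X.pm s (X.ty (X.ml s a)) = X.ty a
  mlp : ∀ s a k, X.lc s a → X.pm (X.ml s a) k = X.pm a (X.pm s k)
  mle : ∀ a, X.ml (X.e (X.o a)) a = a
  mla : ∀ s s' a, X.lc s s' → X.lc s' a → X.ml s (X.ml s' a) = X.ml (X.ml s s') a
  mli : ∀ s, ¬ X.mv s → X.ml s (X.i s) = X.e (X.o s)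
  mlr : ∀ s a s', X.lc s a → X.rc a s' → X.ml s (X.mr a s') = X.mr (X.ml s a) s'
  mrs : ∀ s s', ¬ X.mv s → X.rc s s' → X.mr s s' = X.ml s s'
  mlf : ∀ s a, X.lc s a → X.ml s a = a → s = X.e (X.o a)
  sqT : ∀ a b c d, X.sq a b c d → SqT X a b c d
  sqp : ∀ a b c d, X.sq a b c d → ∀ k, X.pm b (X.pm a k) = X.pm d (X.pm c k)
  sqs : ∀ a b c d, X.sq a b c d → X.sq c d a b
  sqr : ∀ a b c d, X.sq a b c d → X.sq (X.i a) c b (X.i d)
  sql : ∀ a b c d s, X.sq a b c d → X.lc s a → X.sq (X.ml s a) b (X.ml s c) d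
  sqm : ∀ a b c d s, X.sq a b c d → X.rc a s → X.sq (X.mr a s) (X.ml (X.i s) b) c d
  sqe : ∀ a b, X.mv a → X.mv b → X.t a = X.o b → X.ty b ≠ X.pm a (X.ty a) → ∃ c d, X.sq a b c d
  squ : ∀ a b c d c' d', X.sq a b c d → X.sq a b c' d' →
    ∃ s, X.rc c s ∧ c' = X.mr c s ∧ d' = X.ml (X.i s) d
  cube : ∀ a b b₁ a₁ c c₁ a₂ c' c₁' a₃ b', X.sq a b₁ b a₁ → X.sq a c₁ c a₂ →
    X.sq a₁ c₁' c' a₃ → X.sq b c' c b' → ∃ b₁', X.sq b₁ c₁' c₁ b₁' ∧ X.sq a₂ b₁' b' a₃

/-- the axioms; stationary arrows are loops -/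
structure Valid {ι P A : Type} (X : FD ι P A) : Prop where
  v0 : Valid0 X
  loop : ∀ a, ¬ X.mv a → X.t a = X.o a

/-- isomorphism of data; the labels of the directions at the objects are permuted by `σ` -/
def Iso {ι P A ι' P' A' : Type} (X : FD ι P A) (Y : FD ι' P' A') : Prop :=
  ∃ (f : P ≃ P') (g : A ≃ A') (σ : P → (ι ≃ ι')),
    (∀ a, Y.o (g a) = f (X.o a)) ∧ (∀ a, Y.t (g a) = f (X.t a)) ∧
    (∀ p, Y.e (f p) = g (X.e p)) ∧ (∀ a, Y.i (g a) = g (X.i a)) ∧
    (∀ a, Y.mv (g a) ↔ X.mv a) ∧ (∀ a, X.mv a → Y.ty (g a) = σ (X.o a) (X.ty a)) ∧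
    (∀ a k, Y.pm (g a) (σ (X.o a) k) = σ (X.t a) (X.pm a k)) ∧
    (∀ s a, X.lc s a → Y.ml (g s) (g a) = g (X.ml s a)) ∧
    (∀ a b c d, Y.sq (g a) (g b) (g c) (g d) ↔ X.sq a b c d)

/-! ### Framed products of trees -/

/-- `y` is obtained from `x` by one step in the tree `S i` -/
def Stp {ι' : Type} {V : ι' → Type} (S : ∀ i, SimpleGraph (V i)) (i : ι') (x y : ∀ i, V i) :
    Prop := (S i).Adj (x i) (y i) ∧ ∀ j, j ≠ i → y j = x j

/-- A product of trees with frames `F`, labelled by the data `X`: `pt` is the point of a frame,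
`lam` translates the labels of the directions at the frame, `p` is the object of a frame, `act f a`
is the frame at the end of the arrow `a` starting at `f` (if `X.o a = p f`). -/
structure LF {ι P A : Type} (X : FD ι P A) {ι' : Type} {V : ι' → Type}
    (S : ∀ i, SimpleGraph (V i)) (F : Type) where
  pt : F → ∀ i, V i
  lam : F → ι → ι'
  p : F → P
  act : F → A → F
  bij : ∀ f, Function.Bijective (lam f)
  onto : ∀ x, ∃ f, pt f = x
  act_p : ∀ f a, X.o a = p f → p (act f a) = X.t a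
  act_lam : ∀ f a, X.o a = p f → ∀ k, lam (act f a) (X.pm a k) = lam f k
  act_e : ∀ f, act f (X.e (p f)) = f
  act_i : ∀ f a, X.o a = p f → act (act f a) (X.i a) = f
  act_ml : ∀ f s a, X.o s = p f → X.lc s a → act f (X.ml s a) = act (act f s) a
  act_sq : ∀ f a b c d, X.o a = p f → X.sq a b c d → act (act f a) b = act (act f c) d
  sq_of : ∀ f a b c d, X.o a = p f → SqT X a b c d → act (act f a) b = act (act f c) d →
    X.sq a b c d
  st : ∀ f a, X.o a = p f → ¬ X.mv a → pt (act f a) = pt f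
  mo : ∀ f a, X.o a = p f → X.mv a → Stp S (lam f (X.ty a)) (pt f) (pt (act f a))
  sur : ∀ f f', (pt f' = pt f ∨ ∃ i, Stp S i (pt f) (pt f')) → ∃ a, X.o a = p f ∧ act f a = f'
  inj : ∀ f a b, X.o a = p f → X.o b = p f → act f a = act f b → a = b

/-- `X` is the quotient of the framed forest by the group `G` -/
structure Cov (G : Type) [Group G] {ι P A : Type} {X : FD ι P A} {V ι' : Type} [MulAction G V]
    [MulAction G ι'] {κ : V → ι'} {S : SimpleGraph V} {F : Type} [MulAction G F]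
    (L : LF X (comp κ S) F) : Prop where
  gp : ∀ (g : G) (f : F), L.p (g • f) = L.p f
  gact : ∀ (g : G) (f : F) (a : A), X.o a = L.p f → L.act (g • f) a = g • L.act f a
  gpt : ∀ (g : G) (f : F) (i : ι'), (L.pt (g • f) (g • i)).1 = g • (L.pt f i).1
  glam : ∀ (g : G) (f : F) (k : ι), L.lam (g • f) k = g • L.lam f k
  free : ∀ (g : G) (f : F), g • f = f → g = 1
  trans : ∀ f f' : F, L.p f = L.p f' → ∃ g : G, g • f = f'
  onto : ∀ q : P, ∃ f : F, L.p f = q

/-- `X` is the quotient of the forest `S` by the group `G` -/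
def IsCov (G : Type) [Group G] {ι P A : Type} {V ι' : Type} [MulAction G V] [MulAction G ι']
    (κ : V → ι') (S : SimpleGraph V) (X : FD ι P A) : Prop :=
  Forest κ S ∧ FAct G κ S ∧ Valid X ∧
    ∃ (F : Type) (_ : MulAction G F) (L : LF X (comp κ S) F), Cov G L

/-- `G` acts on a forest with quotient `X` -/
def HasCov (G : Type) [Group G] {ι P A : Type} (X : FD ι P A) : Prop :=
  ∃ (V ι' : Type) (_ : MulAction G V) (_ : MulAction G ι') (κ : V → ι') (S : SimpleGraph V),
    IsCov G κ S X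

/-- a free `G`-set of frames over the points of a forest, with labels -/
structure Frm (G : Type) [Group G] {V ι' : Type} [MulAction G V] [MulAction G ι'] (κ : V → ι')
    (ι P F : Type) [MulAction G F] where
  pt : F → ∀ i, Fib κ i
  lam : F → ι → ι'
  p : F → P
  bij : ∀ f, Function.Bijective (lam f)
  onto : ∀ x, ∃ f, pt f = x
  gp : ∀ (g : G) (f : F), p (g • f) = p f
  gpt : ∀ (g : G) (f : F) (i : ι'), (pt (g • f) (g • i)).1 = g • (pt f i).1
  glam : ∀ (g : G) (f : F) (k : ι), lam (g • f) k = g • lam f k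
  free : ∀ (g : G) (f : F), g • f = f → g = 1
  trans : ∀ f f' : F, p f = p f' → ∃ g : G, g • f = f'
  ponto : ∀ q : P, ∃ f : F, p f = q
  same : ∀ f f' : F, pt f = pt f' → p f = p f'

/-- the action of words -/
def actW {ι P A : Type} {X : FD ι P A} {ι' : Type} {V : ι' → Type} {S : ∀ i, SimpleGraph (V i)}
    {F : Type} (L : LF X S F) (f : F) (w : List A) : F := w.foldl L.act f

/-- paths -/
def IsPath {ι P A : Type} (X : FD ι P A) : P → List A → Prop
  | _, [] => True
  | p, a :: w => X.o a = p ∧ IsPath X (X.t a) w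

/-- the oriented edge moved by the arrow `a` at the frame `f` -/
def mvE {ι P A : Type} {X : FD ι P A} {V ι' F : Type} {κ : V → ι'} {S : SimpleGraph V}
    (L : LF X (comp κ S) F) (f : F) (a : A) : V × V :=
  ((L.pt f (L.lam f (X.ty a))).1, (L.pt (L.act f a) (L.lam f (X.ty a))).1)

/-- the slide of the arrow `a` over the arrow `b` is the slide of `S` to `S'` -/
def SlAt (G : Type) [Group G] {ι P A : Type} {X : FD ι P A} {V ι' F : Type} [MulAction G V]
    {κ : V → ι'} {S : SimpleGraph V} (L : LF X (comp κ S) F) (S' : SimpleGraph V) (a b : A) :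
    Prop :=
  ∃ f : F, X.o a = L.p f ∧ ∀ c d : V, S'.Adj c d ↔
    (S.Adj c d ∧ ∀ g : G, ¬ (g • (mvE L f a).1 = c ∧ g • (mvE L f a).2 = d) ∧
      ¬ (g • (mvE L f a).1 = d ∧ g • (mvE L f a).2 = c)) ∨
    ∃ g : G, (g • (mvE L f b).2 = c ∧ g • (mvE L f a).2 = d) ∨
      (g • (mvE L f b).2 = d ∧ g • (mvE L f a).2 = c)

/-! ### Fundamental groups -/

/-- relators of the universal group -/
inductive Rel0 {ι P A : Type} (X : FD ι P A) : FreeGroup A → Prop
  | one (p : P) : Rel0 X (FreeGroup.of (X.e p))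
  | inv (a : A) : Rel0 X (FreeGroup.of a * FreeGroup.of (X.i a))
  | ml (s a : A) (h : X.lc s a) : Rel0 X
      (FreeGroup.of s * FreeGroup.of a * (FreeGroup.of (X.ml s a))⁻¹)
  | sq (a b c d : A) (h : X.sq a b c d) : Rel0 X
      (FreeGroup.of a * FreeGroup.of b * (FreeGroup.of d)⁻¹ * (FreeGroup.of c)⁻¹)

/-- the universal group -/
abbrev UG {ι P A : Type} (X : FD ι P A) : Type := PresentedGroup {r | Rel0 X r}

/-- the generators of the universal group -/
def ug {ι P A : Type} (X : FD ι P A) (a : A) : UG X := PresentedGroup.of a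

/-- A spanning tree of the data, rooted at `p0` -/
def Span {ι P A : Type} (X : FD ι P A) (p0 : P) (δ : P → A) (r : P → ℕ) : Prop :=
  ∀ q, q ≠ p0 → X.t (δ q) = q ∧ r (X.o (δ q)) < r q

/-- relators of the fundamental group -/
inductive Rel {ι P A : Type} (X : FD ι P A) (p0 : P) (δ : P → A) : FreeGroup A → Prop
  | base (r : FreeGroup A) (h : Rel0 X r) : Rel X p0 δ r
  | span (q : P) (h : q ≠ p0) : Rel X p0 δ (FreeGroup.of (δ q))

/-- the fundamental group of `X`, with respect to the spanning tree `δ` -/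
abbrev Gam {ι P A : Type} (X : FD ι P A) (p0 : P) (δ : P → A) : Type :=
  PresentedGroup {r | Rel X p0 δ r}

/-! ### Parallel arrows, good data -/

/-- `a'` moves the same oriented edge as `a` (up to `G`) -/
inductive Par {ι P A : Type} (X : FD ι P A) (a : A) : A → Prop
  | refl : Par X a a
  | ml (a' s : A) : Par X a a' → X.lc s a' → Par X a (X.ml s a')
  | mr (a' s : A) : Par X a a' → X.rc a' s → Par X a (X.mr a' s)
  | sq (a' b c d : A) : Par X a a' → X.sq a' b c d → Par X a d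

/-- `a'`, `b'` move the same pair of oriented edges with the same origin as `a`, `b` -/
inductive Par2 {ι P A : Type} (X : FD ι P A) (a b : A) : A → A → Prop
  | refl : Par2 X a b a b
  | ml (a' b' s : A) : Par2 X a b a' b' → X.lc s a' → Par2 X a b (X.ml s a') (X.ml s b')
  | mr1 (a' b' s : A) : Par2 X a b a' b' → X.rc a' s → Par2 X a b (X.mr a' s) b'
  | mr2 (a' b' s : A) : Par2 X a b a' b' → X.rc b' s → Par2 X a b a' (X.mr b' s)
  | sq (a' b' c c₁ c₂ d₁ d₂ : A) : Par2 X a b a' b' → X.sq a' c₁ c d₁ → X.sq b' c₂ c d₂ →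
      Par2 X a b d₁ d₂

/-- the direction `k'` at `q'` is the direction `k` at `q` (up to `G`) -/
inductive Lab {ι P A : Type} (X : FD ι P A) (q : P) (k : ι) : P → ι → Prop
  | refl : Lab X q k q k
  | step (a : A) (k' : ι) : Lab X q k (X.o a) k' → Lab X q k (X.t a) (X.pm a k')

/-- a moving arrow at `q` in the direction `k` -/
def FD.dir {ι P A : Type} (X : FD ι P A) (q : P) (k : ι) (a : A) : Prop :=
  X.o a = q ∧ X.mv a ∧ X.ty a = k

/-- good data: the data of reduced actions -/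
structure Good {ι P A : Type} (X : FD ι P A) : Prop where
  valid : Valid X
  span : ∃ p0 δ r, Span X p0 δ r
  two : ∀ q k, ∃ a a', X.dir q k a ∧ X.dir q k a' ∧ ¬ X.eqv a a'
  three : ∀ q k, ∃ q' k' a a' a'', Lab X q k q' k' ∧ X.dir q' k' a ∧ X.dir q' k' a' ∧
    X.dir q' k' a'' ∧ ¬ X.eqv a a' ∧ ¬ X.eqv a' a'' ∧ ¬ X.eqv a a''
  orient : ∃ s : A → Bool, (∀ a, X.mv a → s (X.i a) = !(s a)) ∧
    (∀ σ a, X.lc σ a → s (X.ml σ a) = s a) ∧ ∀ a b c d, X.sq a b c d → s d = s a
  red : ∀ a, X.mv a → (∃ a' c', Par X a a' ∧ Par X (X.i a) c' ∧ X.o a' = X.o c' ∧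
      X.ty a' = X.ty c') ∨
    ∃ a', Par X a a' ∧ X.o a' = X.o a ∧ X.ty a' = X.ty a ∧ ¬ X.eqv a a'

/-! ### Slides of data -/

/-- the arrow `a` can be slid over the arrow `b` -/
structure Legal {ι P A : Type} (X : FD ι P A) (a b : A) : Prop where
  ma : X.mv a
  mb : X.mv b
  o : X.o a = X.o b
  ty : X.ty a = X.ty b
  n1 : ¬ Par X a b
  n2 : ¬ Par X a (X.i b)
  uniq : ∀ b', Par2 X a b a b' → X.eqv b b'

/-- `Y` is the result of sliding `a` over `b`: the arrow `m` of `Y` is the product of the arrows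
`φ₁ m`, `φ₂ m` of `X` -/
structure Res {ι P A A' : Type} (X : FD ι P A) (Y : FD ι P A') (a b : A) (φ₁ φ₂ : A' → A) :
    Prop where
  valid : Valid Y
  o₁ : ∀ m, X.o (φ₁ m) = Y.o m
  o₂ : ∀ m, X.o (φ₂ m) = X.t (φ₁ m)
  t₂ : ∀ m, X.t (φ₂ m) = Y.t m
  pm : ∀ m k, Y.pm m k = X.pm (φ₂ m) (X.pm (φ₁ m) k)
  mv : ∀ m, Y.mv m ↔ X.mv (φ₁ m)
  ty : ∀ m, Y.mv m → Y.ty m = X.ty (φ₁ m)
  kind : ∀ m, (¬ Par X a (φ₁ m) ∧ ¬ Par X a (X.i (φ₁ m)) ∧ φ₂ m = X.e (X.t (φ₁ m))) ∨
    Par2 X a b (φ₂ m) (X.i (φ₁ m)) ∨ Par2 X a b (X.i (φ₁ m)) (φ₂ m)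
  old : ∀ c, ¬ Par X a c → ¬ Par X a (X.i c) → ∃ m, φ₁ m = c ∧ φ₂ m = X.e (X.t c)
  new : ∀ a' b', Par2 X a b a' b' → ∃ m s, X.lc s a' ∧ φ₁ m = X.i (X.ml s b') ∧
    φ₂ m = X.ml s a'
  inj₀ : ∀ m m', φ₁ m = φ₁ m' → φ₂ m = φ₂ m' → m = m'
  inj₁ : ∀ m m' s, Par2 X a b (φ₂ m) (X.i (φ₁ m)) → X.lc s (φ₂ m) →
    φ₁ m' = X.i (X.ml s (X.i (φ₁ m))) → φ₂ m' = X.ml s (φ₂ m) → m = m'
  hom : ∃ h : UG Y →* UG X, ∀ m, h (ug Y m) = ug X (φ₁ m) * ug X (φ₂ m)

/-! ### Auxiliary definitions: one frame over every point -/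

/-- coverings in the direction `k` -/
structure FH {ι P A : Type} (X : FD ι P A) (k : ι) {V : Type} (S : SimpleGraph V) (q : V → P)
    (al : V → V → A) : Prop where
  mv : ∀ v v', S.Adj v v' → X.mv (al v v')
  ty : ∀ v v', S.Adj v v' → X.ty (al v v') = k
  o : ∀ v v', S.Adj v v' → X.o (al v v') = q v
  t : ∀ v v', S.Adj v v' → X.t (al v v') = q v'
  inv : ∀ v v', S.Adj v v' → al v' v = X.i (al v v')
  inj : ∀ v x y, S.Adj v x → S.Adj v y → X.eqv (al v x) (al v y) → x = y
  sur : ∀ v a, X.dir (q v) k a → ∃ v', S.Adj v v' ∧ X.eqv (al v v') a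

/-- the labels `al'` are obtained from the labels `al` by transport along the arrows `β` -/
structure Conn {ι P A : Type} (X : FD ι P A) {V : Type} (S : SimpleGraph V)
    (q : V → P) (al : V → V → A) (q' : V → P) (al' : V → V → A) (β : V → A) : Prop where
  o : ∀ v, X.o (β v) = q v
  t : ∀ v, X.t (β v) = q' v
  sq : ∀ v v', S.Adj v v' → X.sq (al v v') (β v') (β v) (al' v v')

/-- a product of trees with one frame over every point -/
structure GLab {ι P A : Type} [DecidableEq ι] (X : FD ι P A) {V : ι → Type}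
    (S : ∀ i, SimpleGraph (V i)) where
  p : (∀ i, V i) → P
  al : (∀ i, V i) → (i : ι) → V i → A
  dir : ∀ x i y, (S i).Adj (x i) y → X.dir (p x) i (al x i y)
  t : ∀ x i y, (S i).Adj (x i) y → X.t (al x i y) = p (Function.update x i y)
  inv : ∀ x i y, (S i).Adj (x i) y → al (Function.update x i y) i (x i) = X.i (al x i y)
  inj : ∀ x i y z, (S i).Adj (x i) y → (S i).Adj (x i) z → X.eqv (al x i y) (al x i z) → y = z
  sur : ∀ x i a, X.dir (p x) i a → ∃ y, (S i).Adj (x i) y ∧ X.eqv (al x i y) a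
  sq : ∀ x i y j z, i ≠ j → (S i).Adj (x i) y → (S j).Adj (x j) z →
    X.sq (al x i y) (al (Function.update x i y) j z) (al x j z) (al (Function.update x j z) i y)

/-- labels on the points which agree with `x0` outside `J`, together with labelled axes in the
directions outside `J` -/
structure GJ {ι P A : Type} [DecidableEq ι] (X : FD ι P A) {V : ι → Type}
    (S : ∀ i, SimpleGraph (V i)) (x0 : ∀ i, V i) (J : Finset ι) (p : (∀ i, V i) → P)
    (al : (∀ i, V i) → (i : ι) → V i → A) (q : (∀ i, V i) → (k : ι) → V k → P)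
    (ax : (∀ i, V i) → (k : ι) → V k → V k → A) : Prop where
  dir : ∀ x, (∀ i, i ∉ J → x i = x0 i) → ∀ i ∈ J, ∀ y, (S i).Adj (x i) y →
    X.dir (p x) i (al x i y)
  t : ∀ x, (∀ i, i ∉ J → x i = x0 i) → ∀ i ∈ J, ∀ y, (S i).Adj (x i) y →
    X.t (al x i y) = p (Function.update x i y)
  inv : ∀ x, (∀ i, i ∉ J → x i = x0 i) → ∀ i ∈ J, ∀ y, (S i).Adj (x i) y →
    al (Function.update x i y) i (x i) = X.i (al x i y)
  inj : ∀ x, (∀ i, i ∉ J → x i = x0 i) → ∀ i ∈ J, ∀ y z, (S i).Adj (x i) y →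
    (S i).Adj (x i) z → X.eqv (al x i y) (al x i z) → y = z
  sur : ∀ x, (∀ i, i ∉ J → x i = x0 i) → ∀ i ∈ J, ∀ a, X.dir (p x) i a →
    ∃ y, (S i).Adj (x i) y ∧ X.eqv (al x i y) a
  sq : ∀ x, (∀ i, i ∉ J → x i = x0 i) → ∀ i ∈ J, ∀ j ∈ J, ∀ y z, i ≠ j → (S i).Adj (x i) y →
    (S j).Adj (x j) z →
    X.sq (al x i y) (al (Function.update x i y) j z) (al x j z) (al (Function.update x j z) i y)
  axis : ∀ x, (∀ i, i ∉ J → x i = x0 i) → ∀ k, k ∉ J → FH X k (S k) (q x k) (ax x k) ∧
    q x k (x0 k) = p x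
  conn : ∀ x, (∀ i, i ∉ J → x i = x0 i) → ∀ k, k ∉ J → ∀ i ∈ J, ∀ y, (S i).Adj (x i) y →
    ∃ β, Conn X (S k) (q x k) (ax x k) (q (Function.update x i y) k)
      (ax (Function.update x i y) k) β ∧ β (x0 k) = al x i y

/-- the data with trivial label changes covering `X` -/
noncomputable def unf {ι P A : Type} (X : FD ι P A) : FD ι (P × Equiv.Perm ι) (A × Equiv.Perm ι) := by
  classical
  exact
    { o := fun a => (X.o a.1, a.2)
      t := fun a => (X.t a.1, if h : Function.Bijective (X.pm a.1) then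
        a.2 * (Equiv.ofBijective _ h)⁻¹ else a.2)
      e := fun p => (X.e p.1, p.2)
      i := fun a => (X.i a.1, if h : Function.Bijective (X.pm a.1) then
        a.2 * (Equiv.ofBijective _ h)⁻¹ else a.2)
      mv := fun a => X.mv a.1
      ty := fun a => a.2 (X.ty a.1)
      pm := fun _ k => k
      ml := fun s a => (X.ml s.1 a.1, s.2)
      sq := fun a b c d => X.sq a.1 b.1 c.1 d.1 ∧ a.2 = c.2 ∧
        (∀ k, b.2 (X.pm a.1 k) = a.2 k) ∧ (∀ k, d.2 (X.pm c.1 k) = c.2 k) }

/-! ### The class of groups -/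

/-- `T` contains exactly one vertex of every component of the graph `S` -/
def IsPoint {V : Type} (S : SimpleGraph V) (T : Set V) : Prop :=
  ∀ v, ∃! x, x ∈ T ∧ S.Reachable v x

/-- `G` acts on the forest `S` with finitely many components; all components are locally finite,
without leaves, and not a line; the action on the product of the components is proper and has
finitely many orbits. -/
structure FAction (G : Type) [Group G] {V : Type} [MulAction G V] (S : SimpleGraph V) : Prop where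
  adj : ∀ (g : G) (x y : V), S.Adj x y → S.Adj (g • x) (g • y)
  acyc : S.IsAcyclic
  comps : Finite S.ConnectedComponent
  nonempty : Nonempty V
  loc : ∀ v, (S.neighborSet v).Finite
  two : ∀ v, ∃ x y, x ≠ y ∧ S.Adj v x ∧ S.Adj v y
  three : ∀ v, ∃ w x y z, S.Reachable v w ∧ x ≠ y ∧ y ≠ z ∧ x ≠ z ∧ S.Adj w x ∧ S.Adj w y ∧
    S.Adj w z
  prop : ∀ T : Set V, IsPoint S T → {g : G | (fun x => g • x) '' T = T}.Finite
  fin : ∃ Φ : Set (Set V), Φ.Finite ∧ ∀ T : Set V, IsPoint S T → ∃ g : G,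
    (fun x => g • x) '' T ∈ Φ

/-- groups acting properly and cocompactly on a finite product of trees -/
def IsForestLattice (G : Type) [Group G] : Prop :=
  ∃ (V : Type) (_ : MulAction G V) (S : SimpleGraph V), FAction G S

/-- reduced actions without inversions -/
def IsRedForest (G : Type) [Group G] : Prop :=
  ∃ (n : ℕ) (V : Type) (_ : MulAction G V) (_ : MulAction G (Fin (n + 1)))
    (κ : V → Fin (n + 1)) (S : SimpleGraph V), FLat G κ S ∧ Red G S

/-! ### Codes -/

/-- sizes and one table -/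
abbrev Code : Type := (ℕ × ℕ × ℕ) × ℕ

/-- the base of the number system of the table -/
def bse (s : ℕ × ℕ × ℕ) : ℕ := s.1 + s.2.1 + s.2.2 + 2

/-- digit number `j` -/
def dg (s : ℕ × ℕ × ℕ) (w j : ℕ) : ℕ := w / bse s ^ j % bse s

/-- position of the entry `a b c d` of the field number `k` -/
def idx (s : ℕ × ℕ × ℕ) (k a b c d : ℕ) : ℕ :=
  9 * (((a * bse s + b) * bse s + c) * bse s + d) + k

/-- entry `a b c d` of the field number `k` -/
def ent (x : Code) (k a b c d : ℕ) : ℕ := dg x.1 x.2 (idx x.1 k a b c d)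

/-- a number as an element of `Fin (n + 1)` -/
def fm (n k : ℕ) : Fin (n + 1) := ⟨k % (n + 1), Nat.mod_lt _ (Nat.succ_pos n)⟩

/-- decoding -/
def dec (x : Code) : FD (Fin (x.1.1 + 1)) (Fin (x.1.2.1 + 1)) (Fin (x.1.2.2 + 1)) where
  o := fun a => fm x.1.2.1 (ent x 0 a 0 0 0)
  t := fun a => fm x.1.2.1 (ent x 1 a 0 0 0)
  e := fun p => fm x.1.2.2 (ent x 2 p 0 0 0)
  i := fun a => fm x.1.2.2 (ent x 3 a 0 0 0)
  mv := fun a => ent x 4 a 0 0 0 = 1
  ty := fun a => fm x.1.1 (ent x 5 a 0 0 0)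
  pm := fun a k => fm x.1.1 (ent x 6 a k 0 0)
  ml := fun a b => fm x.1.2.2 (ent x 7 a b 0 0)
  sq := fun a b c d => ent x 8 a b c d = 1

/-- the codes of bounded size -/
def InBox (x : Code) : Prop := x.2 < bse x.1 ^ (9 * bse x.1 ^ 4)

/-- the slide of `a` over `b` has the result `((x.1.1, x.1.2.1, m), w)` -/
def CRes (x : Code) (m w : ℕ) (a b : Fin (x.1.2.2 + 1)) : Prop :=
  ∃ φ₁ φ₂ : Fin (m + 1) → Fin (x.1.2.2 + 1),
    Res (dec x) (dec ((x.1.1, x.1.2.1, m), w)) a b φ₁ φ₂

/-- lists of codes closed under slides -/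
def Closed (l : List Code) : Prop :=
  ∀ x ∈ l, ∀ a b : Fin (x.1.2.2 + 1), Legal (dec x) a b →
    ∃ m w, ((x.1.1, x.1.2.1, m), w) ∈ l ∧ CRes x m w a b

end LatF
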