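import Pool.Agent.Lib.MP_32d917_al.Cert

set_option autoImplicit false

namespace LatIso

theorem par_search {α : Type} [Primcodable α] {Y N : α → Prop} (hY : REPred Y) (hN : REPred N) :
    ∃ f : α →. Bool, Partrec f ∧ (∀ x, Y x ∨ N x → (f x).Dom) ∧ (∀ x, true ∈ f x → Y x) ∧
      ∀ x, false ∈ f x → N x := by
  have h1 : Partrec (fun x => (Part.assert (Y x) fun _ => Part.some ()).map fun _ => true) :=
    Partrec.map hY (Computable.const true).to₂
  have h2 : Partrec (fun x => (Part.assert (N x) fun _ => Part.some ()).map fun _ => false) :=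
    Partrec.map hN (Computable.const false).to₂
  obtain ⟨k, hk, hk'⟩ := Partrec.merge' h1 h2
  refine ⟨k, hk, ?_, ?_, ?_⟩
  · intro x hx
    rw [(hk' x).2]
    rcases hx with hx | hx
    · left; exact ⟨hx, trivial⟩
    · right; exact ⟨hx, trivial⟩
  · intro x hx
    rcases (hk' x).1 _ hx with h | h
    · simp only [Part.mem_map_iff, Part.mem_assert_iff] at h
      obtain ⟨_, ⟨h, -⟩, -⟩ := h
      exact h
    · simp only [Part.mem_map_iff] at h
      obtain ⟨_, _, h⟩ := h
      simp at h
  · intro x hx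
    rcases (hk' x).1 _ hx with h | h
    · simp only [Part.mem_map_iff] at h
      obtain ⟨_, _, h⟩ := h
      simp at h
    · simp only [Part.mem_map_iff, Part.mem_assert_iff] at h
      obtain ⟨_, ⟨h, -⟩, -⟩ := h
      exact h

/-- The isomorphism problem is solvable for torsion free uniform lattices in products of two
trees. -/
theorem final : ∃ f : Pres × Pres →. Bool, Partrec f ∧ ∀ P Q : Pres,
    IsTreeLattice P.Grp → IsTreeLattice Q.Grp →
      ∃ b ∈ f (P, Q), (b = true ↔ Nonempty (P.Grp ≃* Q.Grp)) := by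
  obtain ⟨f, hf, h1, h2, h3⟩ := par_search iso_re noCert_re
  refine ⟨f, hf, fun P Q hP hQ => ?_⟩
  have g2 : true ∈ f (P, Q) → Nonempty (P.Grp ≃* Q.Grp) := fun h => h2 (P, Q) h
  have g3 : false ∈ f (P, Q) → NoCert P Q := fun h => h3 (P, Q) h
  have hd : (f (P, Q)).Dom := by
    apply h1
    by_cases h : Nonempty (P.Grp ≃* Q.Grp)
    · exact Or.inl h
    · exact Or.inr (noCert_complete P Q hP hQ h)
  refine ⟨(f (P, Q)).get hd, Part.get_mem hd, ?_⟩
  have hm := Part.get_mem hd
  rcases hb : (f (P, Q)).get hd with _ | _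
  · rw [hb] at hm
    have h4 := noCert_sound P Q (g3 hm)
    exact ⟨fun h => by simp at h, fun h => absurd h h4⟩
  · rw [hb] at hm
    exact ⟨fun _ => g2 hm, fun _ => rfl⟩

end LatIso
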