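import Pool.Agent.Lib.MP_32d917_al.SLT

/-!
# Multi-slides
-/

set_option autoImplicit false

namespace LatIso

/-- points of a path of a tree lie between its ends -/
theorem msl_bt {V : Type} {S : SimpleGraph V} (hS : S.IsTree) {x y : V} (p : S.Walk x y)
    (hp : p.IsPath) (m : V) (hm : m ∈ p.support) : Bt S x m y := by
  classical
  have hlen : ∀ (a b : V) (q : S.Walk a b), q.IsPath → q.length = S.dist a b := by
    intro a b q hq
    obtain ⟨q', hq'⟩ := hS.connected.exists_walk_length_eq_dist a b
    have h1 := q'.isPath_of_length_eq_dist hq'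
    rw [(hS.existsUnique_path a b).unique hq h1, hq']
  unfold Bt
  rw [← hlen x m (p.takeUntil m hm) (hp.takeUntil hm), ← hlen m y (p.dropUntil m hm)
    (hp.dropUntil hm), ← hlen x y p hp]
  rw [← SimpleGraph.Walk.length_append, SimpleGraph.Walk.take_spec]

variable {G : Type} [Group G] {V : Type} [MulAction G V]

/-- one slide of a family -/
theorem msl_step {n : ℕ} (c : Fin n → V × V) (hc : FGood G c) (i : Fin n) (u : V)
    (hu : (FGr G c).Adj (c i).1 u)
    (s1 : ∀ g : G, ¬ (g • (c i).1 = (c i).1 ∧ g • (c i).2 = u))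
    (s2 : ∀ g : G, ¬ (g • (c i).1 = u ∧ g • (c i).2 = (c i).1))
    (s3 : ∀ g : G, g • (c i).1 = (c i).1 → g • (c i).2 = (c i).2 → g • u = u) :
    FGood G (Function.update c i (u, (c i).2)) ∧
      Slide G (FGr G c) (FGr G (Function.update c i (u, (c i).2))) ∧
      (∀ a b, (FGr G c).Adj a b → (∀ g : G, ¬ (g • (c i).1 = a ∧ g • (c i).2 = b) ∧
        ¬ (g • (c i).1 = b ∧ g • (c i).2 = a)) →
          (FGr G (Function.update c i (u, (c i).2))).Adj a b) ∧
      (∀ a b, (FGr G c).Adj a b → ∀ g : G, ¬ (g • u = a ∧ g • (c i).2 = b) ∧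
        ¬ (g • u = b ∧ g • (c i).2 = a)) := by
  classical
  obtain ⟨hT, hne, hd⟩ := hc
  set v := (c i).1 with hv
  set x := (c i).2 with hx
  set d := Function.update c i (u, x) with hdd
  have hdi : d i = (u, x) := by rw [hdd, Function.update_self]
  have hdj : ∀ j, j ≠ i → d j = c j := fun j hj => by rw [hdd, Function.update_of_ne hj]
  have hcadj : ∀ j, (FGr G c).Adj (c j).1 (c j).2 := by
    intro j
    exact ⟨hne j, j, 1, Or.inl ⟨one_smul _ _, one_smul _ _⟩⟩
  have hvx : (FGr G c).Adj v x := hcadj i
  have hux : u ≠ x := by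
    intro hh
    exact s1 1 ⟨one_smul _ _, by rw [one_smul, hh]⟩
  -- `u` and `x` are not adjacent
  have hnadj : ¬ (FGr G c).Adj u x := by
    intro hh
    have h1 := hT.tree.dist_eq_dist_add_one_of_adj v hh
    rw [SimpleGraph.dist_eq_one_iff_adj.2 hu, SimpleGraph.dist_eq_one_iff_adj.2 hvx] at h1
    omega
  have hnadj2 : ∀ a b, (FGr G c).Adj a b → ∀ g : G, ¬ (g • u = a ∧ g • x = b) ∧
        ¬ (g • u = b ∧ g • x = a) := by
    intro a b hab g
    constructor
    · rintro ⟨rfl, rfl⟩
      apply hnadj
      have := hT.adj g⁻¹ _ _ hab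
      rwa [inv_smul_smul, inv_smul_smul] at this
    · rintro ⟨rfl, rfl⟩
      apply hnadj
      have := hT.adj g⁻¹ _ _ hab
      rw [inv_smul_smul, inv_smul_smul] at this
      exact this.symm
  have hadj : ∀ a b, (FGr G d).Adj a b ↔
      ((FGr G c).Adj a b ∧ ∀ g : G, ¬ (g • v = a ∧ g • x = b) ∧ ¬ (g • v = b ∧ g • x = a)) ∨
      ∃ g : G, (g • u = a ∧ g • x = b) ∨ (g • u = b ∧ g • x = a) := by
    intro a b
    constructor
    · rintro ⟨hab, j, g, hg⟩
      by_cases hj : j = i
      · subst hj
        rw [hdi] at hg
        exact Or.inr ⟨g, hg⟩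
      · rw [hdj j hj] at hg
        left
        refine ⟨⟨hab, j, g, hg⟩, ?_⟩
        have key : ∀ k : G, ¬ ((k • v = a ∧ k • x = b) ∨ (k • v = b ∧ k • x = a)) := by
          intro k hk
          have h5 := hd i j (fun hh => hj hh.symm) (g⁻¹ * k)
          rw [← hv, ← hx] at h5
          rcases hg with ⟨g1, g2⟩ | ⟨g1, g2⟩
          · rcases hk with ⟨k1, k2⟩ | ⟨k1, k2⟩
            · apply h5.1
              rw [mul_smul, mul_smul, k1, k2, ← g1, ← g2, inv_smul_smul, inv_smul_smul]
              exact ⟨rfl, rfl⟩
            · apply h5.2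
              rw [mul_smul, mul_smul, k1, k2, ← g1, ← g2, inv_smul_smul, inv_smul_smul]
              exact ⟨rfl, rfl⟩
          · rcases hk with ⟨k1, k2⟩ | ⟨k1, k2⟩
            · apply h5.2
              rw [mul_smul, mul_smul, k1, k2, ← g1, ← g2, inv_smul_smul, inv_smul_smul]
              exact ⟨rfl, rfl⟩
            · apply h5.1
              rw [mul_smul, mul_smul, k1, k2, ← g1, ← g2, inv_smul_smul, inv_smul_smul]
              exact ⟨rfl, rfl⟩
        exact fun k => ⟨fun h => key k (Or.inl h), fun h => key k (Or.inr h)⟩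
    · rintro (⟨⟨hab, j, g, hg⟩, h2⟩ | ⟨g, hg⟩)
      · refine ⟨hab, j, g, ?_⟩
        by_cases hj : j = i
        · subst hj
          exfalso
          exact hg.elim (h2 g).1 (h2 g).2
        · rw [hdj j hj]
          exact hg
      · refine ⟨?_, i, g, ?_⟩
        · rcases hg with ⟨g1, g2⟩ | ⟨g1, g2⟩
          · rw [← g1, ← g2]
            exact fun h => hux (smul_left_cancel g h)
          · rw [← g1, ← g2]
            exact fun h => hux (smul_left_cancel g h).symm
        · rw [hdi]
          exact hg
  have hsl : Slide G (FGr G c) (FGr G d) := ⟨v, x, u, hvx, hu, s1, s2, s3, hadj⟩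
  refine ⟨⟨slide_ta hT hsl, ?_, ?_⟩, hsl, ?_, hnadj2⟩
  · intro j
    by_cases hj : j = i
    · subst hj
      rw [hdi]
      exact hux
    · rw [hdj j hj]
      exact hne j
  · intro j l hjl g
    by_cases hj : j = i
    · subst hj
      rw [hdi, hdj l (fun hh => hjl hh.symm)]
      exact ⟨(hnadj2 _ _ (hcadj l) g).1, (hnadj2 _ _ (hcadj l) g).2⟩
    · by_cases hl : l = i
      · subst hl
        rw [hdi, hdj j hj]
        have h6 := hnadj2 _ _ (hcadj j) g⁻¹
        constructor
        · rintro ⟨g1, g2⟩
          apply h6.1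
          simp only at g1 g2
          rw [← g1, ← g2, inv_smul_smul, inv_smul_smul]
          exact ⟨rfl, rfl⟩
        · rintro ⟨g1, g2⟩
          apply h6.2
          simp only at g1 g2
          rw [← g1, ← g2, inv_smul_smul, inv_smul_smul]
          exact ⟨rfl, rfl⟩
      · rw [hdj j hj, hdj l hl]
        exact hd j l hjl g
  · intro a b hab h2
    exact (hadj a b).2 (Or.inl ⟨hab, h2⟩)

theorem msl_walk {n : ℕ} (i : Fin n) (z x : V) (m : ℕ) : ∀ (c : Fin n → V × V), FGood G c →
    (c i).2 = x → ∀ (p : (FGr G c).Walk (c i).1 z), p.IsPath → p.length = m →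
    (∀ a b : V, s(a, b) ∈ p.edges → ∀ g : G, ¬ (g • (c i).1 = a ∧ g • x = b) ∧
      ¬ (g • (c i).1 = b ∧ g • x = a)) →
    (∀ g : G, g • (c i).1 = (c i).1 → g • x = x → g • z = z) →
    FGood G (Function.update c i (z, x)) ∧
      Relation.ReflTransGen (Slide G) (FGr G c) (FGr G (Function.update c i (z, x))) := by
  classical
  induction m with
  | zero =>
    intro c hc hx p hp hl h1 h2
    have hz : (c i).1 = z := SimpleGraph.Walk.eq_of_length_eq_zero hl
    have : Function.update c i (z, x) = c := by
      rw [← hz, ← hx]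
      exact Function.update_eq_self i c
    rw [this]
    exact ⟨hc, Relation.ReflTransGen.refl⟩
  | succ m ih =>
    intro c hc hx p hp hl h1 h2
    cases p with
    | nil => simp at hl
    | @cons _ u _ hu q =>
      rw [SimpleGraph.Walk.cons_isPath_iff] at hp
      simp only [SimpleGraph.Walk.length_cons, Nat.add_right_cancel_iff] at hl
      have hT := hc.1
      have he : s((c i).1, u) ∈ (SimpleGraph.Walk.cons hu q).edges := by simp
      have h3 := fun g => h1 _ _ he g
      have s1 : ∀ g : G, ¬ (g • (c i).1 = (c i).1 ∧ g • (c i).2 = u) := by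
        intro g
        rw [hx]
        exact (h3 g).1
      have s2 : ∀ g : G, ¬ (g • (c i).1 = u ∧ g • (c i).2 = (c i).1) := by
        intro g
        rw [hx]
        exact (h3 g).2
      have s3 : ∀ g : G, g • (c i).1 = (c i).1 → g • (c i).2 = (c i).2 → g • u = u := by
        intro g g1 g2
        rw [hx] at g2
        have g3 := h2 g g1 g2
        -- the image of the path under `g`
        let φ : (FGr G c) →g (FGr G c) := ⟨fun y => g • y, fun {a b} hab => hT.adj g a b hab⟩
        have hφ : Function.Injective φ := fun a b hab => smul_left_cancel g hab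
        set p0 := SimpleGraph.Walk.cons hu q with hp0
        have hpath : p0.IsPath := by
          rw [hp0, SimpleGraph.Walk.cons_isPath_iff]
          exact hp
        have hpm : (p0.map φ).IsPath := hpath.map hφ
        have e1 : φ (c i).1 = (c i).1 := g1
        have e2 : φ z = z := g3
        have hpc : ((p0.map φ).copy e1 e2).IsPath := by
          rw [SimpleGraph.Walk.isPath_copy]
          exact hpm
        have e3 : (p0.map φ).copy e1 e2 = p0 := (hT.tree.existsUnique_path _ _).unique hpc hpath
        have e4 : ((p0.map φ).copy e1 e2).support = p0.support := by rw [e3]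
        rw [SimpleGraph.Walk.support_copy, SimpleGraph.Walk.support_map, hp0] at e4
        simp only [SimpleGraph.Walk.support_cons, List.map_cons, List.cons.injEq] at e4
        have e5 := e4.2
        have e6 : q.support = u :: q.support.tail := (SimpleGraph.Walk.cons_tail_support q).symm
        rw [e6] at e5
        simp only [List.map_cons, List.cons.injEq] at e5
        exact e5.1
      obtain ⟨t1, t2, t3, t4⟩ := msl_step c hc i u hu s1 s2 s3
      rw [hx] at t1 t2 t3 t4 s1 s2 s3
      set d := Function.update c i (u, x) with hd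
      have hdi : d i = (u, x) := by rw [hd, Function.update_self]
      have hd1 : (d i).1 = u := by rw [hdi]
      have hd2 : (d i).2 = x := by rw [hdi]
      -- transfer of `q`
      have hq1 : ∀ e ∈ q.edges, e ∈ (FGr G d).edgeSet := by
        intro e
        induction e with
        | h a b =>
          intro hab
          have hab2 := q.edges_subset_edgeSet hab
          rw [SimpleGraph.mem_edgeSet] at hab2 ⊢
          refine t3 a b hab2 ?_
          intro g
          refine h1 a b ?_ g
          simp [hab]
      set q' := (q.transfer (FGr G d) hq1).copy hd1.symm rfl with hq'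
      have r1 : q'.IsPath := by
        rw [hq', SimpleGraph.Walk.isPath_copy]
        exact hp.1.transfer hq1
      have r2 : q'.length = m := by
        rw [hq', SimpleGraph.Walk.length_copy, SimpleGraph.Walk.length_transfer]
        exact hl
      have r3 : ∀ a b : V, s(a, b) ∈ q'.edges → ∀ g : G, ¬ (g • (d i).1 = a ∧ g • x = b) ∧
          ¬ (g • (d i).1 = b ∧ g • x = a) := by
        intro a b hab g
        rw [hq', SimpleGraph.Walk.edges_copy, SimpleGraph.Walk.edges_transfer] at hab
        have hab2 := q.edges_subset_edgeSet hab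
        rw [SimpleGraph.mem_edgeSet] at hab2
        rw [hd1]
        exact t4 a b hab2 g
      have r4 : ∀ g : G, g • (d i).1 = (d i).1 → g • x = x → g • z = z := by
        intro g g1 g2
        rw [hd1] at g1
        refine h2 g ?_ g2
        -- `v` is the common neighbour of `u` and `x`
        have hvx : (FGr G c).Adj (c i).1 x := by
          rw [← hx]
          exact ⟨hc.2.1 i, i, 1, Or.inl ⟨one_smul _ _, one_smul _ _⟩⟩
        have hux : u ≠ x := by
          intro hh
          exact s1 1 ⟨one_smul _ _, by rw [one_smul, hh]⟩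
        have k1 : (FGr G c).Adj u (g • (c i).1) := by
          have := hT.adj g _ _ hu
          rw [g1] at this
          exact this.symm
        have k2 : (FGr G c).Adj (g • (c i).1) x := by
          have := hT.adj g _ _ hvx
          rwa [g2] at this
        exact slt_mid hT.tree hux k1 k2 hu.symm hvx
      obtain ⟨w1, w2⟩ := ih d t1 hd2 q' r1 r2 r3 r4
      have hupd : Function.update d i (z, x) = Function.update c i (z, x) := by
        rw [hd, Function.update_idem]
      rw [hupd] at w1 w2
      exact ⟨w1, Relation.ReflTransGen.head t2 w2⟩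

/-- (4.2) multi-slide: the edge `c i = (v, x)` is replaced by `(z, x)` -/
theorem multislide {n : ℕ} (c : Fin n → V × V) (hc : FGood G c) (i : Fin n) (z : V)
    (h1 : ∀ a b : V, (FGr G c).Adj a b → Bt (FGr G c) (c i).1 a z → Bt (FGr G c) (c i).1 b z →
      ∀ g : G, ¬ (g • (c i).1 = a ∧ g • (c i).2 = b) ∧ ¬ (g • (c i).1 = b ∧ g • (c i).2 = a))
    (h2 : ∀ g : G, g • (c i).1 = (c i).1 → g • (c i).2 = (c i).2 → g • z = z) :
    FGood G (Function.update c i (z, (c i).2)) ∧
      Relation.ReflTransGen (Slide G) (FGr G c)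
        (FGr G (Function.update c i (z, (c i).2))) := by
  classical
  have hT := hc.1.tree
  obtain ⟨p, hp, -⟩ := hT.existsUnique_path (c i).1 z
  refine msl_walk i z (c i).2 p.length c hc rfl p hp rfl ?_ h2
  intro a b hab
  have ha : a ∈ p.support := SimpleGraph.Walk.fst_mem_support_of_mem_edges p hab
  have hb : b ∈ p.support := SimpleGraph.Walk.snd_mem_support_of_mem_edges p hab
  have hadj := p.edges_subset_edgeSet hab
  rw [SimpleGraph.mem_edgeSet] at hadj
  exact h1 a b hadj (msl_bt hT p hp a ha) (msl_bt hT p hp b hb)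

end LatIso
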