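import Pool.Agent.Lib.MP_32d917_al.ST1
import Pool.Agent.Lib.MP_32d917_al.TL1
import Pool.Agent.Lib.MP_32d917_al.LATB2
import Pool.Agent.Lib.MP_32d917_al.FAM
import Pool.Agent.Lib.MP_32d917_al.MSL

/-!
# Minimal families of edges: stabilizers and overlaps (4.3), (4.4)
-/

set_option autoImplicit false

namespace LatIso

section NIEL

variable {G : Type} [Group G] {V W W' : Type} [MulAction G V] [MulAction G W] [MulAction G W']

theorem min1_fe_update {V : Type} (S' : SimpleGraph V) {n : ℕ} (c : Fin n → V × V) (i : Fin n)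
    (e : V × V) : FE S' (Function.update c i e) + S'.dist (c i).1 (c i).2 =
      FE S' c + S'.dist e.1 e.2 := by
  classical
  unfold FE
  rw [← Finset.add_sum_erase _ _ (Finset.mem_univ i),
    ← Finset.add_sum_erase (Finset.univ) (fun j => S'.dist (c j).1 (c j).2) (Finset.mem_univ i),
    Function.update_self]
  have : ∑ j ∈ Finset.univ.erase i, S'.dist (Function.update c i e j).1
      (Function.update c i e j).2 = ∑ j ∈ Finset.univ.erase i, S'.dist (c j).1 (c j).2 := by
    refine Finset.sum_congr rfl fun j hj => ?_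
    rw [Function.update_of_ne (Finset.ne_of_mem_erase hj)]
  rw [this]
  omega

/-- an automorphism fixing the ends of a segment fixes its points -/
theorem min1_fix {S : SimpleGraph V} (h : TA G S) (g : G) {x m y : V} (hx : g • x = x)
    (hy : g • y = y) (hm : Bt S x m y) : g • m = m := by
  have e1 : S.dist x (g • m) = S.dist x m := by
    conv_lhs => rw [← hx]
    exact ta_dist h g _ _
  have e2 : S.dist (g • m) y = S.dist m y := by
    conv_lhs => rw [← hy]
    exact ta_dist h g _ _
  refine st_pt_uniq h.tree ?_ hm e1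
  show S.dist x (g • m) + S.dist (g • m) y = S.dist x y
  rw [e1, e2]; exact hm

/-- the representative of the orbit of an edge may be chosen -/
theorem min1_repr {S' : SimpleGraph V} (h' : TA G S') {n : ℕ} (c : Fin n → V × V) (hc : FGood G c)
    (v x : V) (hvx : (FGr G c).Adj v x) :
    ∃ i : Fin n, FGood G (Function.update c i (v, x)) ∧
      FGr G (Function.update c i (v, x)) = FGr G c ∧
      FE S' (Function.update c i (v, x)) = FE S' c := by
  obtain ⟨hne, i, g, hg⟩ := hvx
  have hrep := fam_repr c hc i v x ⟨g, hg⟩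
  refine ⟨i, hrep.1, hrep.2, ?_⟩
  have h1 := min1_fe_update S' c i (v, x)
  have h2 : S'.dist (c i).1 (c i).2 = S'.dist v x := by
    rcases hg with ⟨e1, e2⟩ | ⟨e1, e2⟩
    · rw [← e1, ← e2, ta_dist h']
    · rw [← e1, ← e2, ta_dist h', SimpleGraph.dist_comm]
  simp only at h1
  omega

/-- a multi-slide does not decrease the potential of a minimal family -/
theorem min1_slide {S' : SimpleGraph V} (h' : TA G S') {n : ℕ} (c : Fin n → V × V)
    (hc : FGood G c) (hm : FMin G S' c) (v x z : V) (hvx : (FGr G c).Adj v x)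
    (h1 : ∀ a b : V, (FGr G c).Adj a b → Bt (FGr G c) v a z → Bt (FGr G c) v b z →
      ∀ g : G, ¬ (g • v = a ∧ g • x = b) ∧ ¬ (g • v = b ∧ g • x = a))
    (h2 : ∀ g : G, g • v = v → g • x = x → g • z = z) : S'.dist v x ≤ S'.dist z x := by
  obtain ⟨i, hg1, hgr, hfe⟩ := min1_repr h' c hc v x hvx
  set c1 := Function.update c i (v, x) with hc1
  have hci : c1 i = (v, x) := by rw [hc1, Function.update_self]
  have hms := multislide c1 hg1 i z (by
    rw [hci, hgr]; exact h1) (by rw [hci]; exact h2)
  have hle := hm _ hms.1 (by rw [← hgr]; exact hms.2)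
  have h3 := min1_fe_update S' c1 i (z, (c1 i).2)
  rw [hci] at h3
  rw [hci] at hle
  simp only at h3 hle
  omega

/-- (4.3) -/
theorem min_stab {S S' : SimpleGraph V} {T : SimpleGraph W} {T' : SimpleGraph W'}
    (L : Lat G S T) (L' : Lat G S' T')
    {n : ℕ} (c : Fin n → V × V) (hc : FGood G c) (hm : FMin G S' c)
    (v x z : V) (hvx : (FGr G c).Adj v x) (hz : Bt S' v z x) (hzv : z ≠ v) :
    ∀ g : G, g • v = v → g • z = z → g • x = x := by
  intro g hgv hgz
  have hfix : ∀ k : G, k • v = v → k • x = x → k • z = z := fun k h1 h2 =>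
    min1_fix L'.hS k h1 h2 hz
  by_cases hcase : ∀ a b : V, (FGr G c).Adj a b → Bt (FGr G c) v a z → Bt (FGr G c) v b z →
      ∀ g : G, ¬ (g • v = a ∧ g • x = b) ∧ ¬ (g • v = b ∧ g • x = a)
  · exfalso
    have h1 := min1_slide L'.hS c hc hm v x z hvx hcase hfix
    have h2 : S'.dist v z + S'.dist z x = S'.dist v x := hz
    have h3 : 0 < S'.dist v z := L'.hS.tree.connected.pos_dist_of_ne hzv.symm
    omega
  · push Not at hcase
    obtain ⟨a, b, hab, ha, hb, g0, hg0⟩ := hcase
    -- elements fixing v and z fix the translate of the edge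
    have hsub : ∀ k : G, k • v = v → k • z = z → k • g0 • v = g0 • v ∧ k • g0 • x = g0 • x := by
      intro k h1 h2
      have ka := min1_fix hc.1 k h1 h2 ha
      have kb := min1_fix hc.1 k h1 h2 hb
      by_cases h : g0 • v = a ∧ g0 • x = b
      · rw [h.1, h.2]; exact ⟨ka, kb⟩
      · have h' : g0 • v = b ∧ g0 • x = a := hg0 (fun e1 e2 => h ⟨e1, e2⟩)
        rw [h'.1, h'.2]; exact ⟨kb, ka⟩
    have hci := cinv L v x g0 (fun k h1 h2 => hsub k h1 (hfix k h1 h2))
    obtain ⟨e1, e2⟩ := hsub g hgv hgz
    exact (hci g e1 e2).2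

/-- (4.4) -/
theorem min_overlap {S S' : SimpleGraph V} {T : SimpleGraph W} {T' : SimpleGraph W'}
    (L : Lat G S T) (L' : Lat G S' T')
    {n : ℕ} (c : Fin n → V × V) (hc : FGood G c) (hm : FMin G S' c)
    (v x y : V) (hx : (FGr G c).Adj v x) (hy : (FGr G c).Adj v y) (hxy : x ≠ y) :
    S'.dist v x ≤ S'.dist x y ∧
    (S'.dist v x = S'.dist x y → ∀ g : G, ¬ (g • v = v ∧ g • x = y) ∧ ¬ (g • v = y ∧ g • x = v)) ∧
    (S'.dist v x = S'.dist x y → ∀ g : G, g • v = v → g • x = x → g • y = y) := by
  have h' := L'.hS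
  obtain ⟨m, m1, m2, m3⟩ := st_median h'.tree v x y
  -- m1 : Bt v m x, m2 : Bt x m y, m3 : Bt v m y
  have d1 : S'.dist v m + S'.dist m x = S'.dist v x := m1
  have d2 : S'.dist x m + S'.dist m y = S'.dist x y := m2
  have d3 : S'.dist v m + S'.dist m y = S'.dist v y := m3
  have dc : S'.dist x m = S'.dist m x := SimpleGraph.dist_comm
  by_cases hmv : m = v
  · subst hmv
    have h0 : 0 < S'.dist m y := h'.tree.connected.pos_dist_of_ne hy.ne
    refine ⟨by omega, fun h => ?_, fun h => ?_⟩
    · omega
    · omega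
  -- the stabilizers agree
  have sx := min_stab L L' c hc hm v x m hx m1 hmv
  have sy := min_stab L L' c hc hm v y m hy m3 hmv
  have hC : ∀ g : G, g • v = v → g • x = x → g • y = y := fun g h1 h2 =>
    sy g h1 (min1_fix h' g h1 h2 m1)
  -- no element of the stabilizer of v maps x to y
  have hi : ∀ g : G, ¬ (g • v = v ∧ g • x = y) := by
    rintro g ⟨h1, h2⟩
    have e0 : S'.dist v (g • m) = S'.dist v m := by
      conv_lhs => rw [← h1]
      exact ta_dist h' g _ _
    have e1 : S'.dist (g • m) y = S'.dist m x := by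
      rw [← h2]; exact ta_dist h' g _ _
    have e2 : S'.dist v y = S'.dist v x := by
      conv_lhs => rw [← h2, ← h1]
      exact ta_dist h' g _ _
    have e3 : g • m = m := by
      refine st_pt_uniq h'.tree (y := y) ?_ m3 e0
      show S'.dist v (g • m) + S'.dist (g • m) y = S'.dist v y
      omega
    exact hxy ((sx g h1 e3).symm.trans h2)
  -- edges in the same orbit up to reversal
  have hii : ∀ g : G, g • v = y → g • x = v → S'.dist v x < S'.dist x y := by
    intro g h1 h2
    by_contra hlt
    push Not at hlt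
    have hgg : g • g • x = y := by rw [h2, h1]
    have hg2 : (g ^ 2) • x = y := by rw [pow_two, mul_smul, hgg]
    have hx1 : S'.dist x (g • x) = S'.dist v x := by rw [h2, SimpleGraph.dist_comm]
    -- g is elliptic on S'
    have htl : tl S' g = 0 := by
      by_contra hne
      have hpos : 0 < tl S' g := Nat.pos_of_ne_zero hne
      obtain ⟨w2, hw2, e2⟩ := tl_disp h' (g ^ 2) x
      rw [cc_pow h' g hpos 2 (by norm_num)] at hw2
      have e3 : S'.dist x (g • x) ≤ S'.dist x w2 + S'.dist w2 (g • w2) +
          S'.dist (g • w2) (g • x) := by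
        refine (h'.tree.connected.dist_triangle (v := g • w2)).trans ?_
        exact Nat.add_le_add_right (h'.tree.connected.dist_triangle (v := w2)) _
      rw [ta_dist h'] at e3
      have e4 : S'.dist w2 (g • w2) = tl S' g := hw2
      have e5 : S'.dist w2 x = S'.dist x w2 := SimpleGraph.dist_comm
      rw [tl_pow h', hg2] at e2
      omega
    obtain ⟨u, hu⟩ := (tl_eq_zero h' g).mp htl
    have htl2 : tl (FGr G c) g = 0 := (tl_eq_zero hc.1 g).mpr ⟨u, hu⟩
    obtain ⟨w, -, hw⟩ := tl_disp hc.1 g x
    rw [h2, htl2, SimpleGraph.dist_eq_one_iff_adj.mpr hx.symm] at hw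
    omega
  by_cases hrev : ∃ g : G, g • v = y ∧ g • x = v
  · obtain ⟨g, h1, h2⟩ := hrev
    have := hii g h1 h2
    exact ⟨this.le, fun h => by omega, fun h => by omega⟩
  push Not at hrev
  refine ⟨?_, fun _ g => ⟨hi g, fun h => hrev g h.1 h.2⟩, fun _ => hC⟩
  -- slide the edge over the edge v y
  have hvy : (FGr G c).dist v y = 1 := SimpleGraph.dist_eq_one_iff_adj.mpr hy
  have hend : ∀ a, Bt (FGr G c) v a y → a = v ∨ a = y := by
    intro a ha
    have ha' : (FGr G c).dist v a + (FGr G c).dist a y = (FGr G c).dist v y := ha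
    rw [hvy] at ha'
    have hcon := hc.1.tree.connected
    rcases Nat.eq_zero_or_pos ((FGr G c).dist v a) with h | h
    · exact Or.inl ((hcon.dist_eq_zero_iff).mp h).symm
    · exact Or.inr ((hcon.dist_eq_zero_iff).mp (by omega))
  have := min1_slide h' c hc hm v x y hx (by
    intro a b hab ha hb g
    rcases hend a ha with rfl | rfl <;> rcases hend b hb with rfl | rfl
    · exact absurd hab (SimpleGraph.irrefl _)
    · exact ⟨hi g, fun h => hrev g h.1 h.2⟩
    · exact ⟨fun h => hrev g h.1 h.2, hi g⟩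
    · exact absurd hab (SimpleGraph.irrefl _)) hC
  rwa [SimpleGraph.dist_comm (u := y)] at this

end NIEL

end LatIso
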