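import Pool.Agent.Lib.MP_32d917_al.Defs

/-!
# Lattices in products of finitely many trees: definitions
-/

set_option autoImplicit false

namespace LatN

open LatIso

/-! ### One tree -/

/-- What we need to know about the action of a lattice on one of the trees: locally finite, finitely
many orbits, no inversions, and the stabilizers of pairs of vertices are not conjugate to proper
subgroups of themselves. -/
structure TLat (G : Type) [Group G] {V : Type} [MulAction G V] (S : SimpleGraph V) : Prop where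
  ta : TA G S
  loc : ∀ v, (S.neighborSet v).Finite
  fin : ∃ F : Finset V, ∀ v, ∃ g : G, g • v ∈ F
  cinv : ∀ (v x : V) (g : G),
    (∀ k : G, k • v = v → k • x = x → k • g • v = g • v ∧ k • g • x = g • x) →
    ∀ k : G, k • g • v = g • v → k • g • x = g • x → k • v = v ∧ k • x = x

/-- every vertex has at least two neighbours, some vertex has at least three -/
structure Leafless {V : Type} (S : SimpleGraph V) : Prop where
  two : ∀ v, ∃ x y, x ≠ y ∧ S.Adj v x ∧ S.Adj v y
  three : ∃ v x y z, x ≠ y ∧ y ≠ z ∧ x ≠ z ∧ S.Adj v x ∧ S.Adj v y ∧ S.Adj v z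

/-! ### Products of trees -/

/-- The group `G` acts on the trees `S i` as a uniform lattice, freely on the product and without
inversions; the trees are locally finite, without leaves, and not a line. -/
structure NLat (G : Type) [Group G] {ι : Type} {V : ι → Type} [∀ i, MulAction G (V i)]
    (S : ∀ i, SimpleGraph (V i)) : Prop where
  ta : ∀ i, TA G (S i)
  loc : ∀ i v, ((S i).neighborSet v).Finite
  leafless : ∀ i, Leafless (S i)
  free : ∀ (g : G) (x : ∀ i, V i), (∀ i, g • x i = x i) → g = 1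
  fin : ∃ F : Finset (∀ i, V i), ∀ x : ∀ i, V i, ∃ g : G, (fun i => g • x i) ∈ F

/-- the pointwise stabilizer of all coordinates of `x` but the `i`-th one -/
def stabOff (G : Type) [Group G] {ι : Type} {V : ι → Type} [∀ i, MulAction G (V i)]
    (x : ∀ i, V i) (i : ι) : Subgroup G where
  carrier := {g | ∀ j, j ≠ i → g • x j = x j}
  mul_mem' := by
    intro a b ha hb j hj
    rw [mul_smul, hb j hj, ha j hj]
  one_mem' := fun j _ => one_smul _ _
  inv_mem' := by
    intro a ha j hj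
    rw [inv_smul_eq_iff, ha j hj]

/-! ### Data -/

/-- Data of a complete complex of dimension `ι`: points `P`, darts `A` of types in `ι`. For darts
`a`, `b` of different types with the same origin, `tr a b` is the dart opposite to `a` in the square
spanned by `a` and `b`; it starts at the end of `b`. -/
structure Dat (ι P A : Type) where
  ty : A → ι
  o : A → P
  i : A → A
  tr : A → A → A

/-- isomorphism of data -/
def Iso {ι P A ι' P' A' : Type} (X : Dat ι P A) (Y : Dat ι' P' A') : Prop :=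
  ∃ (e : ι ≃ ι') (f : P ≃ P') (g : A ≃ A'),
    (∀ a, Y.ty (g a) = e (X.ty a)) ∧ (∀ a, Y.o (g a) = f (X.o a)) ∧
    (∀ a, Y.i (g a) = g (X.i a)) ∧
    (∀ a b, X.o a = X.o b → X.ty a ≠ X.ty b → Y.tr (g a) (g b) = g (X.tr a b))

/-- the axioms -/
structure Valid {ι P A : Type} (X : Dat ι P A) : Prop where
  ii : ∀ a, X.i (X.i a) = a
  tyi : ∀ a, X.ty (X.i a) = X.ty a
  tyt : ∀ a b, X.o a = X.o b → X.ty a ≠ X.ty b → X.ty (X.tr a b) = X.ty a
  ot : ∀ a b, X.o a = X.o b → X.ty a ≠ X.ty b → X.o (X.tr a b) = X.o (X.i b)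
  ti : ∀ a b, X.o a = X.o b → X.ty a ≠ X.ty b → X.tr (X.i a) (X.tr b a) = X.i (X.tr a b)
  tt : ∀ a b, X.o a = X.o b → X.ty a ≠ X.ty b → X.tr (X.tr a b) (X.i b) = a
  cube : ∀ a b c, X.o a = X.o b → X.o a = X.o c → X.ty a ≠ X.ty b → X.ty a ≠ X.ty c →
    X.ty b ≠ X.ty c → X.tr (X.tr a b) (X.tr c b) = X.tr (X.tr a c) (X.tr b c)

/-- A product of trees labelled by the data `X` -/
structure LP {ι P A : Type} [DecidableEq ι] (X : Dat ι P A) {V : ι → Type}
    (S : ∀ i, SimpleGraph (V i)) where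
  p : (∀ i, V i) → P
  al : (∀ i, V i) → (i : ι) → V i → A
  ty : ∀ x i y, (S i).Adj (x i) y → X.ty (al x i y) = i
  o : ∀ x i y, (S i).Adj (x i) y → X.o (al x i y) = p x
  inv : ∀ x i y, (S i).Adj (x i) y → al (Function.update x i y) i (x i) = X.i (al x i y)
  tr : ∀ x i y j z, i ≠ j → (S i).Adj (x i) y → (S j).Adj (x j) z →
    X.tr (al x i y) (al x j z) = al (Function.update x j z) i y
  inj : ∀ x i y z, (S i).Adj (x i) y → (S i).Adj (x i) z → al x i y = al x i z → y = z
  sur : ∀ x i a, X.o a = p x → X.ty a = i → ∃ y, (S i).Adj (x i) y ∧ al x i y = a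

/-- `X` is the quotient of the product of the trees by the group `G`, with the labelling `L` -/
structure Cov (G : Type) [Group G] {ι P A : Type} [DecidableEq ι] {X : Dat ι P A} {V : ι → Type}
    [∀ i, MulAction G (V i)] {S : ∀ i, SimpleGraph (V i)} (L : LP X S) : Prop where
  adj : ∀ (g : G) i (x y : V i), (S i).Adj x y → (S i).Adj (g • x) (g • y)
  gp : ∀ (g : G) x, L.p (fun j => g • x j) = L.p x
  gal : ∀ (g : G) x i y, (S i).Adj (x i) y → L.al (fun j => g • x j) i (g • y) = L.al x i y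
  free : ∀ (g : G) (x : ∀ i, V i), (∀ i, g • x i = x i) → g = 1
  trans : ∀ x y, L.p x = L.p y → ∃ g : G, (fun j => g • x j) = y
  onto : ∀ q : P, ∃ x, L.p x = q

/-- `X` is the quotient of the product of the trees by the group `G` -/
def IsCov (G : Type) [Group G] {ι P A : Type} [DecidableEq ι] {V : ι → Type}
    [∀ i, MulAction G (V i)] (S : ∀ i, SimpleGraph (V i)) (X : Dat ι P A) : Prop :=
  ∃ L : LP X S, Cov G L

/-- `G` acts on a product of trees with quotient `X` -/
def HasCov (G : Type) [Group G] {ι P A : Type} [DecidableEq ι] (X : Dat ι P A) : Prop :=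
  ∃ (V : ι → Type) (_ : ∀ i, MulAction G (V i)) (S : ∀ i, SimpleGraph (V i)),
    (∀ i, (S i).IsTree) ∧ IsCov G S X

/-- Slide of darts: the darts `a` of type `k` with `C a` are slid over `π a`. -/
structure HSlW {ι P A : Type} (X Y : Dat ι P A) (k : ι) (C : A → Prop) (π : A → A) : Prop where
  cty : ∀ a, C a → X.ty a = k
  ctr : ∀ a b, X.o a = X.o b → X.ty b ≠ k → C a → C (X.tr a b)
  cinv : ∀ a, C a → ¬ C (X.i a)
  cpi : ∀ a, C a → ¬ C (π a) ∧ ¬ C (X.i (π a)) ∧ X.o (π a) = X.o a ∧ X.ty (π a) = k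
  ptr : ∀ a b, X.o a = X.o b → X.ty b ≠ k → C a → π (X.tr a b) = X.tr (π a) b
  yty : ∀ a, Y.ty a = X.ty a
  yi : ∀ a, Y.i a = X.i a
  oC : ∀ a, C a → Y.o a = X.o (X.i (π a))
  oN : ∀ a, ¬ C a → Y.o a = X.o a
  trC : ∀ a b, C a → X.ty b ≠ k → Y.o a = X.o b → Y.tr a b = X.tr a (X.tr b (X.i (π a)))
  tlC : ∀ a b, C a → X.ty b ≠ k → Y.o a = X.o b → Y.tr b a = X.tr (X.tr b (X.i (π a))) a
  trN : ∀ a b, X.ty a = k → ¬ C a → X.ty b ≠ k → Y.o a = X.o b → Y.tr a b = X.tr a b
  tlI : ∀ a b, C (X.i a) → X.ty b ≠ k → Y.o a = X.o b →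
    Y.tr b a = X.tr (X.tr b a) (π (X.i a))
  tlN : ∀ a b, X.ty a = k → ¬ C a → ¬ C (X.i a) → X.ty b ≠ k → Y.o a = X.o b →
    Y.tr b a = X.tr b a
  tN : ∀ a b, X.ty a ≠ k → X.ty b ≠ k → X.ty a ≠ X.ty b → X.o a = X.o b → Y.tr a b = X.tr a b

/-- `Y` is obtained from `X` by a slide -/
def HSl {ι P A : Type} (X Y : Dat ι P A) : Prop := ∃ k C π, HSlW X Y k C π

/-- A spanning tree of the data, rooted at `p0` -/
def Span {ι P A : Type} (X : Dat ι P A) (p0 : P) (δ : P → A) (r : P → ℕ) : Prop :=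
  ∀ q, q ≠ p0 → X.o (X.i (δ q)) = q ∧ r (X.o (δ q)) < r q

/-- relators of the fundamental group -/
inductive Rel {ι P A : Type} (X : Dat ι P A) (p0 : P) (δ : P → A) : FreeGroup A → Prop
  | inv (a : A) : Rel X p0 δ (FreeGroup.of a * FreeGroup.of (X.i a))
  | sq (a b : A) (h : X.o a = X.o b) (hab : X.ty a ≠ X.ty b) : Rel X p0 δ
      (FreeGroup.of a * FreeGroup.of (X.tr b a) * (FreeGroup.of (X.tr a b))⁻¹ *
        (FreeGroup.of b)⁻¹)
  | span (q : P) (h : q ≠ p0) : Rel X p0 δ (FreeGroup.of (δ q))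

/-- the fundamental group of `X`, with respect to the spanning tree `δ` -/
abbrev Gam {ι P A : Type} (X : Dat ι P A) (p0 : P) (δ : P → A) : Type :=
  PresentedGroup {r | Rel X p0 δ r}

/-- `a'` is a translate of the dart `a` in the directions different from its own -/
inductive VTr {ι P A : Type} (X : Dat ι P A) (a : A) : A → Prop
  | refl : VTr X a a
  | step (a' b : A) : VTr X a a' → X.o a' = X.o b → X.ty b ≠ X.ty a → VTr X a (X.tr a' b)

/-- good data: the data of reduced lattices -/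
structure Good {ι P A : Type} (X : Dat ι P A) : Prop where
  valid : Valid X
  span : ∃ p0 δ r, Span X p0 δ r
  two : ∀ (k : ι) (q : P), ∃ a a', a ≠ a' ∧ X.o a = q ∧ X.o a' = q ∧ X.ty a = k ∧ X.ty a' = k
  three : ∀ k : ι, ∃ (q : P) (a a' a'' : A), a ≠ a' ∧ a' ≠ a'' ∧ a ≠ a'' ∧ X.o a = q ∧
    X.o a' = q ∧ X.o a'' = q ∧ X.ty a = k ∧ X.ty a' = k ∧ X.ty a'' = k
  orient : ∃ s : A → Bool, (∀ a, s (X.i a) = !(s a)) ∧
    ∀ a b, X.o a = X.o b → X.ty a ≠ X.ty b → s (X.tr a b) = s a
  red : ∀ a, ∃ a', VTr X a a' ∧ (X.o a' = X.o (X.i a) ∨ (a' ≠ a ∧ X.o a' = X.o a))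

/-! ### Auxiliary definitions -/

/-- coverings in direction `k` -/
structure HCv {ι P A : Type} (X : Dat ι P A) (k : ι) {V : Type} (S : SimpleGraph V) (q : V → P)
    (al : V → V → A) : Prop where
  ty : ∀ v v', S.Adj v v' → X.ty (al v v') = k
  o : ∀ v v', S.Adj v v' → X.o (al v v') = q v
  i : ∀ v v', S.Adj v v' → al v' v = X.i (al v v')
  inj : ∀ v x y, S.Adj v x → S.Adj v y → al v x = al v y → x = y
  sur : ∀ v a, X.o a = q v → X.ty a = k → ∃ v', S.Adj v v' ∧ al v v' = a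

/-- the graph obtained by sliding the edges of direction `k` with label in `C` over their images
by `π`; the labels are read at the point `x0` with the `k`-th coordinate changed -/
def slG {ι P A : Type} [DecidableEq ι] {X : Dat ι P A} {V : ι → Type}
    {S : ∀ i, SimpleGraph (V i)} (L : LP X S) (x0 : ∀ i, V i) (k : ι) (C : A → Prop)
    (π : A → A) : SimpleGraph (V k) where
  Adj a b := a ≠ b ∧
    (((S k).Adj a b ∧ ¬ C (L.al (Function.update x0 k a) k b) ∧
        ¬ C (L.al (Function.update x0 k b) k a)) ∨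
    (∃ v, (S k).Adj v b ∧ (S k).Adj v a ∧ C (L.al (Function.update x0 k v) k b) ∧
      L.al (Function.update x0 k v) k a = π (L.al (Function.update x0 k v) k b)) ∨
    (∃ v, (S k).Adj v a ∧ (S k).Adj v b ∧ C (L.al (Function.update x0 k v) k a) ∧
      L.al (Function.update x0 k v) k b = π (L.al (Function.update x0 k v) k a)))
  symm := by
    constructor
    rintro a b ⟨h, h1⟩
    refine ⟨h.symm, ?_⟩
    rcases h1 with h1 | h1 | h1
    · exact Or.inl ⟨h1.1.symm, h1.2.2, h1.2.1⟩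
    · exact Or.inr (Or.inr h1)
    · exact Or.inr (Or.inl h1)
  loopless := ⟨fun a h => h.1 rfl⟩

/-! ### Codes -/

/-- sizes and tables -/
abbrev Code : Type := (ℕ × ℕ × ℕ) × (ℕ × ℕ × ℕ × ℕ)

/-- decoding of tables; the sizes are those of `ι`, `P`, `A` -/
def dec (s : ℕ × ℕ × ℕ) (t : ℕ × ℕ × ℕ × ℕ) :
    Dat (Fin (s.1 + 1)) (Fin (s.2.1 + 1)) (Fin (s.2.2 + 1)) where
  ty := fun a => dig s.1 t.1 a
  o := fun a => dig s.2.1 t.2.1 a
  i := fun a => dig s.2.2 t.2.2.1 a
  tr := fun a b => dig s.2.2 t.2.2.2 (a * (s.2.2 + 1) + b)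

/-- bound for the entries of tables -/
def bd (s : ℕ × ℕ × ℕ) : ℕ := (s.1 + s.2.1 + s.2.2 + 1) ^ ((s.2.2 + 1) * (s.2.2 + 1))

/-- tables below the bound -/
def InBox (s : ℕ × ℕ × ℕ) (t : ℕ × ℕ × ℕ × ℕ) : Prop :=
  t.1 < bd s ∧ t.2.1 < bd s ∧ t.2.2.1 < bd s ∧ t.2.2.2 < bd s

/-- elementary steps between codes -/
def CStep (x y : Code) : Prop := y.1 = x.1 ∧ HSl (dec x.1 x.2) (dec x.1 y.2)

/-- lists of codes closed under elementary steps -/
def Closed (l : List Code) : Prop :=
  ∀ x ∈ l, ∀ y : Code, InBox y.1 y.2 → CStep x y → y ∈ l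

/-- decoding of base points -/
def decp (s : ℕ × ℕ × ℕ) (p : ℕ) : Fin (s.2.1 + 1) := ⟨p % (s.2.1 + 1), Nat.mod_lt _ (Nat.succ_pos _)⟩

/-- decoding of spanning trees -/
def decd (s : ℕ × ℕ × ℕ) (d : ℕ) (q : Fin (s.2.1 + 1)) : Fin (s.2.2 + 1) := dig s.2.2 d q

/-! ### The class of groups -/

/-- The group `G` acts on the product of the trees `S i` as a torsion free uniform lattice; the
trees are locally finite, without leaves, and not a line. -/
structure NLatT (G : Type) [Group G] {ι : Type} {V : ι → Type} [∀ i, MulAction G (V i)]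
    (S : ∀ i, SimpleGraph (V i)) : Prop where
  tree : ∀ i, (S i).IsTree
  adj : ∀ (g : G) i (x y : V i), (S i).Adj x y → (S i).Adj (g • x) (g • y)
  loc : ∀ i v, ((S i).neighborSet v).Finite
  leafless : ∀ i, Leafless (S i)
  free : ∀ (g : G) (x : ∀ i, V i), (∀ i, g • x i = x i) → g = 1
  fin : ∃ F : Finset (∀ i, V i), ∀ x : ∀ i, V i, ∃ g : G, (fun i => g • x i) ∈ F
  tf : ∀ g : G, g ≠ 1 → ∀ n : ℕ, 0 < n → g ^ n ≠ 1

/-- torsion free uniform lattices in products of `n + 1` trees, for some `n` -/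
def IsTreeLattice (G : Type) [Group G] : Prop :=
  ∃ (n : ℕ) (V : Fin (n + 1) → Type) (_ : ∀ i, MulAction G (V i))
    (S : ∀ i, SimpleGraph (V i)), NLatT G S

/-- reduced uniform lattices in products of trees, acting freely and without inversions -/
def IsRedLattice (G : Type) [Group G] : Prop :=
  ∃ (n : ℕ) (V : Fin (n + 1) → Type) (_ : ∀ i, MulAction G (V i))
    (S : ∀ i, SimpleGraph (V i)), NLat G S ∧ ∀ i, Red G (S i)

end LatN
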