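import Pool.Agent.Lib.MP_32d917_al.Defs
import Pool.Agent.Lib.MP_32d917_al.RE

/-!
# Triviality of words in finite presentations is r.e.
-/

set_option autoImplicit false

namespace LatIso

/-- words -/
abbrev PW : Type := List (ℕ × Bool)

/-- terms of a certificate: conjugating word, relator, number of a superfluous generator, sign -/
abbrev PT : Type := PW × PW × ℕ × Bool

/-- the word of a term -/
def ptw (t : PT) : PW :=
  t.1 ++ ((if t.2.2.2 = true then t.2.1 else FreeGroup.invRev t.2.1) ++ FreeGroup.invRev t.1)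

/-- admissible terms -/
def ptOK (P : Pres) (t : PT) : Prop :=
  t.2.1 ∈ P.2 ∨ (P.1 ≤ t.2.2.1 ∧ t.2.1 = [(t.2.2.1, true)])

/-- the word of a certificate -/
def pcw (c : List PT) : PW := c.flatMap ptw

theorem pres1_mk_ptw (t : PT) : FreeGroup.mk (ptw t) =
    FreeGroup.mk t.1 * (if t.2.2.2 = true then FreeGroup.mk t.2.1 else (FreeGroup.mk t.2.1)⁻¹) *
      (FreeGroup.mk t.1)⁻¹ := by
  unfold ptw
  rw [← FreeGroup.mul_mk, ← FreeGroup.mul_mk, ← FreeGroup.inv_mk (L := t.1)]
  by_cases h : t.2.2.2 = true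
  · rw [if_pos h, if_pos h, mul_assoc]
  · rw [if_neg h, if_neg h, ← FreeGroup.inv_mk, mul_assoc]

theorem pres1_mk_pcw_cons (t : PT) (c : List PT) : FreeGroup.mk (pcw (t :: c)) =
    FreeGroup.mk (ptw t) * FreeGroup.mk (pcw c) := by
  unfold pcw
  rw [List.flatMap_cons, FreeGroup.mul_mk]

theorem pres1_rel {P : Pres} {t : PT} (h : ptOK P t) : FreeGroup.mk t.2.1 ∈ P.rels := by
  rcases h with h | h
  · exact Or.inl ⟨_, h, rfl⟩
  · refine Or.inr ⟨t.2.2.1, h.1, ?_⟩
    rw [h.2]
    rfl

theorem pres1_sound {P : Pres} (c : List PT) (h : ∀ t ∈ c, ptOK P t) :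
    FreeGroup.mk (pcw c) ∈ Subgroup.normalClosure P.rels := by
  induction c with
  | nil =>
    have : FreeGroup.mk (pcw []) = 1 := rfl
    rw [this]
    exact one_mem _
  | cons t c ih =>
    rw [pres1_mk_pcw_cons]
    refine mul_mem ?_ (ih fun s hs => h s (List.mem_cons_of_mem _ hs))
    rw [pres1_mk_ptw]
    refine Subgroup.normalClosure_normal.conj_mem _ ?_ _
    have h1 : FreeGroup.mk t.2.1 ∈ Subgroup.normalClosure P.rels :=
      Subgroup.subset_normalClosure (pres1_rel (h t List.mem_cons_self))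
    split_ifs
    · exact h1
    · exact inv_mem h1

/-- elements with a certificate -/
def pcs (P : Pres) : Set (FreeGroup ℕ) :=
  {x | ∃ c : List PT, (∀ t ∈ c, ptOK P t) ∧ x = FreeGroup.mk (pcw c)}

theorem pres1_one (P : Pres) : (1 : FreeGroup ℕ) ∈ pcs P := ⟨[], by simp, rfl⟩

theorem pres1_mul {P : Pres} {x y : FreeGroup ℕ} (hx : x ∈ pcs P) (hy : y ∈ pcs P) :
    x * y ∈ pcs P := by
  obtain ⟨c, hc, rfl⟩ := hx
  obtain ⟨d, hd, rfl⟩ := hy
  refine ⟨c ++ d, ?_, ?_⟩
  · intro t ht
    rcases List.mem_append.1 ht with h | h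
    · exact hc t h
    · exact hd t h
  · unfold pcw
    rw [List.flatMap_append, FreeGroup.mul_mk]

theorem pres1_inv {P : Pres} {x : FreeGroup ℕ} (hx : x ∈ pcs P) : x⁻¹ ∈ pcs P := by
  obtain ⟨c, hc, rfl⟩ := hx
  induction c with
  | nil => exact pres1_one P
  | cons t c ih =>
    rw [pres1_mk_pcw_cons, mul_inv_rev]
    refine pres1_mul (ih fun s hs => hc s (List.mem_cons_of_mem _ hs)) ?_
    refine ⟨[(t.1, t.2.1, t.2.2.1, !t.2.2.2)], ?_, ?_⟩
    · intro s hs
      rw [List.mem_singleton] at hs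
      subst hs
      exact hc t List.mem_cons_self
    · have h1 : pcw [(t.1, t.2.1, t.2.2.1, !t.2.2.2)] = ptw (t.1, t.2.1, t.2.2.1, !t.2.2.2) := by
        unfold pcw
        simp
      rw [h1, pres1_mk_ptw, pres1_mk_ptw]
      cases t.2.2.2 <;> simp

theorem pres1_conj {P : Pres} {x : FreeGroup ℕ} (hx : x ∈ pcs P) (g : FreeGroup ℕ) :
    g * x * g⁻¹ ∈ pcs P := by
  obtain ⟨c, hc, rfl⟩ := hx
  induction c with
  | nil =>
    have : FreeGroup.mk (pcw []) = 1 := rfl
    rw [this]
    simpa using pres1_one P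
  | cons t c ih =>
    have h2 : g * FreeGroup.mk (pcw (t :: c)) * g⁻¹ =
        (g * FreeGroup.mk (ptw t) * g⁻¹) * (g * FreeGroup.mk (pcw c) * g⁻¹) := by
      rw [pres1_mk_pcw_cons]
      group
    rw [h2]
    refine pres1_mul ?_ (ih fun s hs => hc s (List.mem_cons_of_mem _ hs))
    refine ⟨[(g.toWord ++ t.1, t.2.1, t.2.2.1, t.2.2.2)], ?_, ?_⟩
    · intro s hs
      rw [List.mem_singleton] at hs
      subst hs
      exact hc t List.mem_cons_self
    · have h1 : pcw [(g.toWord ++ t.1, t.2.1, t.2.2.1, t.2.2.2)] =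
          ptw (g.toWord ++ t.1, t.2.1, t.2.2.1, t.2.2.2) := by
        unfold pcw
        simp
      rw [h1, pres1_mk_ptw, pres1_mk_ptw]
      simp only
      rw [← FreeGroup.mul_mk, FreeGroup.mk_toWord]
      group

theorem pres1_complete (P : Pres) {x : FreeGroup ℕ} (hx : x ∈ Subgroup.normalClosure P.rels) :
    x ∈ pcs P := by
  let N : Subgroup (FreeGroup ℕ) :=
    { carrier := pcs P
      mul_mem' := fun h1 h2 => pres1_mul h1 h2
      one_mem' := pres1_one P
      inv_mem' := fun h => pres1_inv h }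
  have hN : N.Normal := ⟨fun x hx g => pres1_conj hx g⟩
  have h1 : P.rels ⊆ N := by
    intro r hr
    rcases hr with ⟨w, hw, rfl⟩ | ⟨i, hi, rfl⟩
    · refine ⟨[([], w, 0, true)], ?_, ?_⟩
      · intro s hs
        rw [List.mem_singleton] at hs
        subst hs
        exact Or.inl hw
      · unfold pcw ptw
        simp
    · refine ⟨[([], [(i, true)], i, true)], ?_, ?_⟩
      · intro s hs
        rw [List.mem_singleton] at hs
        subst hs
        exact Or.inr ⟨hi, rfl⟩
      · unfold pcw ptw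
        simp [FreeGroup.of]
  exact (Subgroup.normalClosure_le_normal h1) hx

/-! ### primitive recursiveness -/

section prim

variable {γ : Type} [Primcodable γ]

theorem pres1_invRev_p {f : γ → PW} (hf : Primrec f) :
    Primrec (fun x => FreeGroup.invRev (f x)) := by
  unfold FreeGroup.invRev
  refine Primrec.list_reverse.comp (Primrec.list_map hf ?_)
  exact Primrec.pair (Primrec.fst.comp Primrec.snd) (Primrec.not.comp (Primrec.snd.comp Primrec.snd))

theorem pres1_reduce_p : Primrec (fun w : PW => FreeGroup.reduce w) := by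
  classical
  have h1 : Primrec₂ (fun (_ : PW) (x : (ℕ × Bool) × PW) =>
      (List.casesOn x.2 [x.1] fun hd tl =>
        if x.1.1 = hd.1 ∧ x.1.2 = not hd.2 then tl else x.1 :: hd :: tl : PW)) := by
    refine Primrec.list_casesOn (f := fun x : PW × ((ℕ × Bool) × PW) => x.2.2)
      (g := fun x => [x.2.1])
      (h := fun x y => if x.2.1.1 = y.1.1 ∧ x.2.1.2 = not y.1.2 then y.2
        else x.2.1 :: y.1 :: y.2) (Primrec.snd.comp Primrec.snd)
      (Primrec.list_cons.comp (Primrec.fst.comp Primrec.snd) (Primrec.const [])) ?_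
    -- y : (PW × ((ℕ × Bool) × PW)) × ((ℕ × Bool) × PW)
    have ex : Primrec (fun y : (PW × ((ℕ × Bool) × PW)) × ((ℕ × Bool) × PW) => y.1.2.1) :=
      Primrec.fst.comp (Primrec.snd.comp Primrec.fst)
    have eh : Primrec (fun y : (PW × ((ℕ × Bool) × PW)) × ((ℕ × Bool) × PW) => y.2.1) :=
      Primrec.fst.comp Primrec.snd
    have et : Primrec (fun y : (PW × ((ℕ × Bool) × PW)) × ((ℕ × Bool) × PW) => y.2.2) :=
      Primrec.snd.comp Primrec.snd
    have hc : PrimrecPred (fun y : (PW × ((ℕ × Bool) × PW)) × ((ℕ × Bool) × PW) =>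
        y.1.2.1.1 = y.2.1.1 ∧ y.1.2.1.2 = not y.2.1.2) :=
      PrimrecPred.and (Primrec.eq.comp (Primrec.fst.comp ex) (Primrec.fst.comp eh))
        (Primrec.eq.comp (Primrec.snd.comp ex) (Primrec.not.comp (Primrec.snd.comp eh)))
    exact Primrec.ite hc et (Primrec.list_cons.comp ex (Primrec.list_cons.comp eh et))
  refine (Primrec.list_foldr (Primrec.id) (Primrec.const ([] : PW)) h1).of_eq ?_
  intro w
  induction w with
  | nil => rfl
  | cons x w ih =>
    rw [FreeGroup.reduce.cons]
    simp only [id] at ih ⊢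
    rw [List.foldr_cons, ih]

theorem pres1_ptw_p : Primrec ptw := by
  unfold ptw
  refine Primrec.list_append.comp Primrec.fst ?_
  refine Primrec.list_append.comp ?_ (pres1_invRev_p Primrec.fst)
  refine Primrec.ite ?_ (Primrec.fst.comp Primrec.snd)
    (pres1_invRev_p (Primrec.fst.comp Primrec.snd))
  exact Primrec.eq.comp (Primrec.snd.comp (Primrec.snd.comp Primrec.snd)) (Primrec.const true)

theorem pres1_pcw_p : Primrec pcw := by
  unfold pcw
  exact Primrec.list_flatMap Primrec.id (pres1_ptw_p.comp Primrec.snd)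

theorem pres1_ptOK_p : PrimrecRel (fun (t : PT) (P : Pres) => ptOK P t) := by
  unfold ptOK
  have hr : Primrec (fun y : PT × Pres => y.1.2.1) := Primrec.fst.comp (Primrec.snd.comp Primrec.fst)
  have hi : Primrec (fun y : PT × Pres => y.1.2.2.1) :=
    Primrec.fst.comp (Primrec.snd.comp (Primrec.snd.comp Primrec.fst))
  refine PrimrecPred.or ?_ (PrimrecPred.and ?_ ?_)
  · have h1 : PrimrecRel (fun (a : PW) (b : PW) => a = b) := Primrec.eq
    refine PrimrecPred.of_eq ((h1.exists_mem_list).comp (Primrec.snd.comp Primrec.snd) hr) ?_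
    intro y
    constructor
    · rintro ⟨a, ha, rfl⟩
      exact ha
    · intro h
      exact ⟨_, h, rfl⟩
  · exact Primrec.nat_le.comp (Primrec.fst.comp Primrec.snd) hi
  · exact Primrec.eq.comp hr (Primrec.list_cons.comp (Primrec.pair hi (Primrec.const true))
      (Primrec.const []))

end prim

/-- certificates of triviality -/
def TCert (x : Pres × PW) (c : List PT) : Prop :=
  (∀ t ∈ c, ptOK x.1 t) ∧ FreeGroup.reduce x.2 = FreeGroup.reduce (pcw c)

theorem pres1_cert_p : PrimrecRel TCert := by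
  unfold TCert
  refine PrimrecPred.and ?_ ?_
  · exact (pres1_ptOK_p.forall_mem_list).comp Primrec.snd (Primrec.fst.comp Primrec.fst)
  · exact Primrec.eq.comp (pres1_reduce_p.comp (Primrec.snd.comp Primrec.fst))
      (pres1_reduce_p.comp (pres1_pcw_p.comp Primrec.snd))

theorem triv_re : REPred (fun x : Pres × List (ℕ × Bool) =>
    (PresentedGroup.mk x.1.rels (FreeGroup.mk x.2) : x.1.Grp) = 1) := by
  have h1 : REPred (fun x : (Pres × PW) × List PT => TCert x.1 x.2) := re_of_prim pres1_cert_p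
  refine (re_exists h1).of_eq ?_
  intro x
  rw [PresentedGroup.mk_eq_one_iff]
  constructor
  · rintro ⟨c, hc, h⟩
    rw [FreeGroup.reduce.exact h]
    exact pres1_sound c hc
  · intro h
    obtain ⟨c, hc, h2⟩ := pres1_complete x.1 h
    exact ⟨c, hc, FreeGroup.reduce.sound h2⟩

end LatIso
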