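import Pool.Agent.Lib.MP_32d917_al.QISO

/-!
# Transport of coverings and lattices along equivariant bijections (module QTR)
-/

set_option autoImplicit false

namespace LatIso

section QTR

variable {G V W : Type} [Group G] [MulAction G V] [MulAction G W]
  {S : SimpleGraph V} {T : SimpleGraph W} {P A B P' A' B' : Type} {X : Dat P A B}
  {Y : Dat P' A' B'}

/-- transport along equivariant bijections -/
theorem cov_transport {G' V' W' : Type} [Group G'] [MulAction G' V'] [MulAction G' W']
    (e : G' ≃* G) (f : V' ≃ V) (g : W' ≃ W) (hf : ∀ (k : G') (v : V'), f (k • v) = e k • f v)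
    (hg : ∀ (k : G') (w : W'), g (k • w) = e k • g w) (h : IsCov G S T X) :
    IsCov G' (S.comap f) (T.comap g) X := by
  obtain ⟨L, hL⟩ := h
  refine ⟨{ p := fun v w => L.p (f v) (g w)
            al := fun v v' w => L.al (f v) (f v') (g w)
            be := fun v w w' => L.be (f v) (g w) (g w')
            oal := fun v v' w h => L.oal _ _ _ h
            obe := fun v w w' h => L.obe _ _ _ h
            ial := fun v v' w h => L.ial _ _ _ h
            ibe := fun v w w' h => L.ibe _ _ _ h
            tr := fun v v' w w' h h' => L.tr _ _ _ _ h h'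
            tl := fun v v' w w' h h' => L.tl _ _ _ _ h h'
            inj_al := fun v x y w h h' e' => f.injective (L.inj_al _ _ _ _ h h' e')
            sur_al := ?_
            inj_be := fun v w x y h h' e' => g.injective (L.inj_be _ _ _ _ h h' e')
            sur_be := ?_ }, ?_⟩
  · intro v w a ha
    obtain ⟨v', h1, h2⟩ := L.sur_al (f v) (g w) a ha
    refine ⟨f.symm v', ?_, ?_⟩
    · simpa using h1
    · simpa using h2
  · intro v w b hb
    obtain ⟨w', h1, h2⟩ := L.sur_be (f v) (g w) b hb
    refine ⟨g.symm w', ?_, ?_⟩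
    · simpa using h1
    · simpa using h2
  · refine { adjS := ?_, adjT := ?_, gp := ?_, gal := ?_, gbe := ?_, free := ?_, trans := ?_,
             onto := ?_ }
    · intro k x y hxy
      have h1 : S.Adj (f x) (f y) := hxy
      change S.Adj (f (k • x)) (f (k • y))
      rw [hf, hf]
      exact hL.adjS _ _ _ h1
    · intro k x y hxy
      have h1 : T.Adj (g x) (g y) := hxy
      change T.Adj (g (k • x)) (g (k • y))
      rw [hg, hg]
      exact hL.adjT _ _ _ h1
    · intro k v w
      change L.p (f (k • v)) (g (k • w)) = L.p (f v) (g w)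
      rw [hf, hg]
      exact hL.gp _ _ _
    · intro k v v' w h1
      change L.al (f (k • v)) (f (k • v')) (g (k • w)) = L.al (f v) (f v') (g w)
      rw [hf, hf, hg]
      exact hL.gal _ _ _ _ h1
    · intro k v w w' h1
      change L.be (f (k • v)) (g (k • w)) (g (k • w')) = L.be (f v) (g w) (g w')
      rw [hf, hg, hg]
      exact hL.gbe _ _ _ _ h1
    · intro k v w h1 h2
      have h3 : e k • f v = f v := by rw [← hf, h1]
      have h4 : e k • g w = g w := by rw [← hg, h2]
      have h5 := hL.free _ _ _ h3 h4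
      exact e.injective (h5.trans (map_one e).symm)
    · intro v w v' w' h1
      obtain ⟨k, h2, h3⟩ := hL.trans _ _ _ _ h1
      refine ⟨e.symm k, f.injective ?_, g.injective ?_⟩
      · rw [hf, MulEquiv.apply_symm_apply, h2]
      · rw [hg, MulEquiv.apply_symm_apply, h3]
    · intro q
      obtain ⟨v, w, h1⟩ := hL.onto q
      refine ⟨f.symm v, g.symm w, ?_⟩
      change L.p (f (f.symm v)) (g (g.symm w)) = q
      rw [Equiv.apply_symm_apply, Equiv.apply_symm_apply, h1]

theorem qtr_ta {V' : Type} [MulAction G V'] (f : V' ≃ V)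
    (hf : ∀ (k : G) (v : V'), f (k • v) = k • f v) (h : TA G S) : TA G (S.comap f) where
  tree := (SimpleGraph.Iso.isTree_iff (SimpleGraph.Iso.comap f S)).2 h.tree
  adj := by
    intro k x y hxy
    have h1 : S.Adj (f x) (f y) := hxy
    change S.Adj (f (k • x)) (f (k • y))
    rw [hf, hf]
    exact h.adj _ _ _ h1
  noinv := by
    intro k x y hxy h1 h2
    refine h.noinv k (f x) (f y) hxy ?_ ?_
    · rw [← hf, h1]
    · rw [← hf, h2]

theorem qtr_loc {V' : Type} (f : V' ≃ V) (h : ∀ v, (S.neighborSet v).Finite) :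
    ∀ v, ((S.comap f).neighborSet v).Finite := by
  intro v
  refine Set.Finite.of_injOn (f := f) (t := S.neighborSet (f v)) ?_ f.injective.injOn (h (f v))
  intro x hx
  exact hx

theorem qtr_two {V' : Type} (f : V' ≃ V) (h : ∀ v, ∃ x y, x ≠ y ∧ S.Adj v x ∧ S.Adj v y) :
    ∀ v, ∃ x y, x ≠ y ∧ (S.comap f).Adj v x ∧ (S.comap f).Adj v y := by
  intro v
  obtain ⟨x, y, h1, h2, h3⟩ := h (f v)
  refine ⟨f.symm x, f.symm y, fun e => h1 (f.symm.injective e), ?_, ?_⟩
  · simpa using h2
  · simpa using h3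

theorem qtr_three {V' : Type} (f : V' ≃ V)
    (h : ∃ v x y z, x ≠ y ∧ y ≠ z ∧ x ≠ z ∧ S.Adj v x ∧ S.Adj v y ∧ S.Adj v z) :
    ∃ v x y z, x ≠ y ∧ y ≠ z ∧ x ≠ z ∧ (S.comap f).Adj v x ∧ (S.comap f).Adj v y ∧
      (S.comap f).Adj v z := by
  obtain ⟨v, x, y, z, h1, h2, h3, h4, h5, h6⟩ := h
  refine ⟨f.symm v, f.symm x, f.symm y, f.symm z, fun e => h1 (f.symm.injective e),
    fun e => h2 (f.symm.injective e), fun e => h3 (f.symm.injective e), ?_, ?_, ?_⟩
  · simpa using h4
  · simpa using h5
  · simpa using h6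

theorem lat_transport {V' W' : Type} [MulAction G V'] [MulAction G W'] (f : V' ≃ V) (g : W' ≃ W)
    (hf : ∀ (k : G) (v : V'), f (k • v) = k • f v) (hg : ∀ (k : G) (w : W'), g (k • w) = k • g w)
    (h : Lat G S T) : Lat G (S.comap f) (T.comap g) := by
  refine { hS := qtr_ta f hf h.hS, hT := qtr_ta g hg h.hT, locS := qtr_loc f h.locS,
           locT := qtr_loc g h.locT, twoS := qtr_two f h.twoS, twoT := qtr_two g h.twoT,
           threeS := qtr_three f h.threeS, threeT := qtr_three g h.threeT, free := ?_, fin := ?_ }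
  · intro k v w h1 h2
    refine h.free k (f v) (g w) ?_ ?_
    · rw [← hf, h1]
    · rw [← hg, h2]
  · classical
    obtain ⟨F, hF⟩ := h.fin
    refine ⟨F.image (fun x => (f.symm x.1, g.symm x.2)), ?_⟩
    intro v w
    obtain ⟨k, hk⟩ := hF (f v) (g w)
    refine ⟨k, ?_⟩
    rw [Finset.mem_image]
    refine ⟨_, hk, ?_⟩
    simp only [← hf, ← hg, Equiv.symm_apply_apply]

theorem hasCov_transport {G' : Type} [Group G'] (e : G' ≃* G) (h : HasCov G X) : HasCov G' X := by
  obtain ⟨V, W, i1, i2, S, T, hS, hT, h⟩ := h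
  let j1 : MulAction G' V := MulAction.compHom V e.toMonoidHom
  let j2 : MulAction G' W := MulAction.compHom W e.toMonoidHom
  refine ⟨V, W, j1, j2, S, T, hS, hT, ?_⟩
  have := cov_transport (S := S) (T := T) e (Equiv.refl V) (Equiv.refl W) (fun k v => rfl)
    (fun k w => rfl) h
  exact this

theorem hasCov_swap (h : HasCov G X) : HasCov G X.swap := by
  obtain ⟨V, W, i1, i2, S, T, hS, hT, h⟩ := h
  exact ⟨W, V, i2, i1, T, S, hT, hS, swap_cov h⟩

theorem hasCov_iso (e : Iso X Y) (h : HasCov G X) : HasCov G Y := by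
  obtain ⟨V, W, i1, i2, S, T, hS, hT, h⟩ := h
  exact ⟨V, W, i1, i2, S, T, hS, hT, iso_cov e h⟩

end QTR

end LatIso
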