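import Pool.Agent.Lib.MP_32d917_al.NIEL
import Pool.Agent.Lib.MP_32d917_al.SLT
import Pool.Agent.Lib.MP_32d917_al.DSLB
import Pool.Agent.Lib.MP_32d917_al.QTR
import Pool.Agent.Lib.MP_32d917_al.QISO
import Pool.Agent.Lib.MP_32d917_al.LATB1
import Pool.Agent.Lib.MP_32d917_al.COMM

/-!
# Rigidity: two reduced actions as a lattice on products of two trees differ by slides
-/

set_option autoImplicit false

namespace LatIso

variable {G V W V' W' : Type} [Group G] [MulAction G V] [MulAction G W] [MulAction G V']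
  [MulAction G W'] {S : SimpleGraph V} {T : SimpleGraph W} {S' : SimpleGraph V'}
  {T' : SimpleGraph W'} {P A B P' A' B' : Type} {X : Dat P A B} {X' : Dat P' A' B'}

theorem chain_hsl {S₁ : SimpleGraph V} (hS : TA G S) (hT : T.IsTree) (h : IsCov G S T X)
    (hs : Relation.ReflTransGen (Slide G) S S₁) :
    ∃ X1 : Dat P A B, Relation.ReflTransGen HSl X X1 ∧ IsCov G S₁ T X1 ∧ TA G S₁ := by
  induction hs with
  | refl => exact ⟨X, .refl, h, hS⟩
  | tail _ hs ih =>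
    obtain ⟨X1, h1, h2, h3⟩ := ih
    obtain ⟨Y, h4, h5⟩ := hsl_of_slide h3 hT h2 hs
    exact ⟨Y, h1.tail h4, h5, slide_ta h3 hs⟩

theorem rig_aux {S₁ : SimpleGraph V} {T₁ : SimpleGraph W} (L : Lat G S T) (L₁ : Lat G S₁ T₁)
    (h : IsCov G S T X) :
    ∃ (X1 : Dat P A B) (X2 : Dat P B A), Relation.ReflTransGen HSl X X1 ∧
      Relation.ReflTransGen HSl X1.swap X2 ∧ IsCov G T₁ S₁ X2 := by
  obtain ⟨X1, h1, h2, h3⟩ := chain_hsl L.hS L.hT.tree h (niel L L₁)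
  obtain ⟨X2, h4, h5, _⟩ := chain_hsl L.hT L₁.hS.tree (swap_cov h2) (niel L.symm L₁.symm)
  exact ⟨X1, X2, h1, h4, h5⟩

theorem rig (L : Lat G S T) (L' : Lat G S' T') (hS : Red G S) (hT : Red G T) (hS' : Red G S')
    (hT' : Red G T') (h : IsCov G S T X) (h' : IsCov G S' T' X') :
    ∃ (X1 : Dat P A B) (X2 : Dat P B A), Relation.ReflTransGen HSl X X1 ∧
      Relation.ReflTransGen HSl X1.swap X2 ∧ (Iso X2 X'.swap ∨ Iso X2 X') := by
  rcases comm L L' with ⟨c1, c2, c3, c4⟩ | ⟨c1, c2, c3, c4⟩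
  · obtain ⟨φ, hφ⟩ := vset L L' hS hS' c1 c3
    obtain ⟨ψ, hψ⟩ := vset L.symm L'.symm hT hT' c2 c4
    have L₁ : Lat G (S'.comap φ) (T'.comap ψ) := lat_transport φ ψ hφ hψ L'
    have h₁ : IsCov G (S'.comap φ) (T'.comap ψ) X' :=
      cov_transport (MulEquiv.refl G) φ ψ hφ hψ h'
    obtain ⟨X1, X2, h1, h2, h3⟩ := rig_aux L L₁ h
    exact ⟨X1, X2, h1, h2, Or.inl (cov_iso h3 (swap_cov h₁))⟩
  · obtain ⟨φ, hφ⟩ := vset L L'.symm hS hT' c1 c4
    obtain ⟨ψ, hψ⟩ := vset L.symm L' hT hS' c2 c3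
    have L₁ : Lat G (T'.comap φ) (S'.comap ψ) := lat_transport φ ψ hφ hψ L'.symm
    have h₁ : IsCov G (T'.comap φ) (S'.comap ψ) X'.swap :=
      cov_transport (MulEquiv.refl G) φ ψ hφ hψ (swap_cov h')
    obtain ⟨X1, X2, h1, h2, h3⟩ := rig_aux L L₁ h
    exact ⟨X1, X2, h1, h2, Or.inr (cov_iso h3 (swap_cov h₁))⟩

end LatIso
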