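import Pool.Agent.Lib.MP_32d917_al.TTL

/-!
# Uniqueness of labelled products
-/

set_option autoImplicit false

namespace LatIso

section UNIQ

variable {P A B : Type} {X : Dat P A B} {V W V' W' : Type} {S : SimpleGraph V}
  {T : SimpleGraph W} {S' : SimpleGraph V'} {T' : SimpleGraph W'}

/-- Horizontal comparison map at one pair of base rows -/
theorem uniq_h (hS : S.IsTree) (L : LP X S T) (L' : LP X S' T')
    (v : V) (w : W) (v' : V') (w' : W') (h : L.p v w = L'.p v' w') :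
    ∃ f : V → V', f v = v' ∧ (∀ x, L'.p (f x) w' = L.p x w) ∧
      ∀ x y, S.Adj x y → S'.Adj (f x) (f y) ∧ L'.al (f x) (f y) w' = L.al x y w := by
  classical
  have ex : ∀ x x' (y : V'), S.Adj x x' → L'.p y w' = L.p x w →
      ∃ y', S'.Adj y y' ∧ L'.al y y' w' = L.al x x' w := by
    intro x x' y hxx hy
    exact L'.sur_al y w' _ (by rw [L.oal x x' w hxx, hy])
  have pe : ∀ x x' (y y' : V'), S.Adj x x' → S'.Adj y y' → L'.al y y' w' = L.al x x' w →
      L'.p y' w' = L.p x' w := by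
    intro x x' y y' hxx hyy he
    rw [← L'.oal y' y w' hyy.symm, ← L.oal x' x w hxx.symm, L'.ial y y' w' hyy,
      L.ial x x' w hxx, he]
  let ph : V → V → V' → V' := fun x x' y =>
    if hh : ∃ y', S'.Adj y y' ∧ L'.al y y' w' = L.al x x' w then hh.choose else y
  have phs : ∀ x x' (y : V'), S.Adj x x' → L'.p y w' = L.p x w →
      S'.Adj y (ph x x' y) ∧ L'.al y (ph x x' y) w' = L.al x x' w := by
    intro x x' y hxx hy
    have hh := ex x x' y hxx hy
    have : ph x x' y = hh.choose := by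
      simp only [ph, dif_pos hh]
    rw [this]
    exact hh.choose_spec
  obtain ⟨f, hf0, hf1, hf2⟩ := ttl hS (fun x (y : V') => L'.p y w' = L.p x w) ph
    (fun x x' y hxx hy => pe x x' y _ hxx (phs x x' y hxx hy).1 (phs x x' y hxx hy).2)
    (fun x x' y hxx hy => by
      obtain ⟨h1, h2⟩ := phs x x' y hxx hy
      have h3 := pe x x' y _ hxx h1 h2
      obtain ⟨h4, h5⟩ := phs x' x _ hxx.symm h3
      refine (L'.inj_al _ _ _ w' h4 h1.symm ?_)
      rw [h5, L'.ial _ _ w' h1, h2, L.ial x x' w hxx]) v v' h.symm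
  refine ⟨f, hf0, hf1, ?_⟩
  intro x y hxy
  rw [hf2 x y hxy]
  exact phs x y (f x) hxy (hf1 x)

/-- propagation of the horizontal labels -/
theorem uniq_al (hT : T.IsTree) (L : LP X S T) (L' : LP X S' T') (f : V → V') (g : W → W')
    (w : W) (x x' : V) (hxx : S.Adj x x') (hxx' : S'.Adj (f x) (f x'))
    (h0 : L'.al (f x) (f x') (g w) = L.al x x' w)
    (hb : ∀ y y', T.Adj y y' → T'.Adj (g y) (g y') ∧ L'.be (f x) (g y) (g y') = L.be x y y')
    (y : W) : L'.al (f x) (f x') (g y) = L.al x x' y := by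
  refine ttl_ind hT.connected (fun y => L'.al (f x) (f x') (g y) = L.al x x' y) w h0 ?_ y
  intro y y' hy hi
  obtain ⟨h1, h2⟩ := hb y y' hy
  rw [← L'.tr (f x) (f x') (g y) (g y') hxx' h1, hi, h2, L.tr x x' y y' hxx hy]

/-- all labels are preserved -/
theorem uniq_all (hS : S.IsTree) (hT : T.IsTree) (L : LP X S T) (L' : LP X S' T') (f : V → V')
    (g : W → W') (v : V) (w : W)
    (hf : ∀ x y, S.Adj x y → S'.Adj (f x) (f y) ∧ L'.al (f x) (f y) (g w) = L.al x y w)
    (hg : ∀ x y, T.Adj x y → T'.Adj (g x) (g y) ∧ L'.be (f v) (g x) (g y) = L.be v x y) :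
    (∀ x x' y, S.Adj x x' → L'.al (f x) (f x') (g y) = L.al x x' y) ∧
      (∀ x y y', T.Adj y y' → L'.be (f x) (g y) (g y') = L.be x y y') := by
  have hB : ∀ x, ∀ y y', T.Adj y y' → T'.Adj (g y) (g y') ∧
      L'.be (f x) (g y) (g y') = L.be x y y' := by
    intro x
    refine ttl_ind hS.connected (fun x => ∀ y y', T.Adj y y' → T'.Adj (g y) (g y') ∧
      L'.be (f x) (g y) (g y') = L.be x y y') v hg ?_ x
    intro x x' hxx hi y y' hy
    obtain ⟨h1, h2⟩ := hi y y' hy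
    refine ⟨h1, ?_⟩
    have h3 := uniq_al hT L L' f g w x x' hxx (hf x x' hxx).1 (hf x x' hxx).2 hi y
    rw [← L'.tl (f x) (f x') (g y) (g y') (hf x x' hxx).1 h1, h3, h2, L.tl x x' y y' hxx hy]
  refine ⟨?_, fun x y y' hy => (hB x y y' hy).2⟩
  intro x x' y hxx
  exact uniq_al hT L L' f g w x x' hxx (hf x x' hxx).1 (hf x x' hxx).2 (hB x) y

/-- the labels of points are preserved -/
theorem uniq_p (hS : S.IsTree) (hT : T.IsTree) (L : LP X S T) (L' : LP X S' T')
    (f : V → V') (g : W → W') (v : V) (w : W) (h0 : L'.p (f v) (g w) = L.p v w)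
    (hf : ∀ x y, S.Adj x y → S'.Adj (f x) (f y)) (hg : ∀ x y, T.Adj x y → T'.Adj (g x) (g y))
    (h1 : ∀ x x' y, S.Adj x x' → L'.al (f x) (f x') (g y) = L.al x x' y)
    (h2 : ∀ x y y', T.Adj y y' → L'.be (f x) (g y) (g y') = L.be x y y') (x : V) (y : W) :
    L'.p (f x) (g y) = L.p x y := by
  have hx : L'.p (f x) (g w) = L.p x w := by
    refine ttl_ind hS.connected (fun x => L'.p (f x) (g w) = L.p x w) v h0 ?_ x
    intro x x' hxx _
    rw [← L'.oal (f x') (f x) (g w) (hf _ _ hxx.symm), ← L.oal x' x w hxx.symm, h1 _ _ _ hxx.symm]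
  refine ttl_ind hT.connected (fun y => L'.p (f x) (g y) = L.p x y) w hx ?_ y
  intro y y' hy _
  rw [← L'.obe (f x) (g y') (g y) (hg _ _ hy.symm), ← L.obe x y' y hy.symm, h2 _ _ _ hy.symm]

/-- the labelled product with the directions exchanged -/
def LP.swp (L : LP X S T) : LP X.swap T S where
  p := fun w v => L.p v w
  al := fun w w' v => L.be v w w'
  be := fun w v v' => L.al v v' w
  oal := fun w w' v h => L.obe v w w' h
  obe := fun w v v' h => L.oal v v' w h
  ial := fun w w' v h => L.ibe v w w' h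
  ibe := fun w v v' h => L.ial v v' w h
  tr := fun w w' v v' h h' => L.tl v v' w w' h' h
  tl := fun w w' v v' h h' => L.tr v v' w w' h' h
  inj_al := fun w x y v h h' => L.inj_be v w x y h h'
  sur_al := fun w v b h => L.sur_be v w b h
  inj_be := fun w v x y h h' => L.inj_al v x y w h h'
  sur_be := fun w v a h => L.sur_al v w a h

theorem Valid.swp (h : Valid X) : Valid X.swap where
  iA := h.iB
  iB := h.iA
  otr := fun b a hab => h.otl a b hab.symm
  otl := fun b a hab => h.otr a b hab.symm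
  tri := fun b a hab => h.tli' a b hab.symm
  tli := fun b a hab => h.tri' a b hab.symm
  tri' := fun b a hab => h.tli a b hab.symm
  tli' := fun b a hab => h.tri a b hab.symm

theorem lp_rigid (hS : S.Connected) (hT : T.Connected) (L : LP X S T) (f : V → V) (g : W → W)
    (hf : ∀ x y, S.Adj x y → S.Adj (f x) (f y)) (hg : ∀ x y, T.Adj x y → T.Adj (g x) (g y))
    (h1 : ∀ x x' y, S.Adj x x' → L.al (f x) (f x') (g y) = L.al x x' y)
    (h2 : ∀ x y y', T.Adj y y' → L.be (f x) (g y) (g y') = L.be x y y')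
    (v : V) (w : W) (hv : f v = v) (hw : g w = w) : (∀ x, f x = x) ∧ ∀ y, g y = y := by
  constructor
  · intro x
    refine ttl_ind hS (fun x => f x = x) v hv ?_ x
    intro x x' hxx hi
    have e1 := h1 x x' w hxx
    have e2 := hf x x' hxx
    rw [hi, hw] at e1
    rw [hi] at e2
    exact L.inj_al x _ _ w e2 hxx e1
  · intro y
    refine ttl_ind hT (fun y => g y = y) w hw ?_ y
    intro y y' hyy hi
    have e1 := h2 v y y' hyy
    have e2 := hg y y' hyy
    rw [hi, hv] at e1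
    rw [hi] at e2
    exact L.inj_be v y _ _ e2 hyy e1

/-- one half of (5.3) -/
theorem uniq_half (hS : S.IsTree) (hT : T.IsTree)
    (L : LP X S T) (L' : LP X S' T') (v : V) (w : W) (v' : V') (w' : W')
    (h : L.p v w = L'.p v' w') :
    ∃ (f : V → V') (g : W → W'), f v = v' ∧ g w = w' ∧
      (∀ x y, S.Adj x y → S'.Adj (f x) (f y)) ∧ (∀ x y, T.Adj x y → T'.Adj (g x) (g y)) ∧
      (∀ x y, L'.p (f x) (g y) = L.p x y) ∧
      (∀ x x' y, S.Adj x x' → L'.al (f x) (f x') (g y) = L.al x x' y) ∧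
      (∀ x y y', T.Adj y y' → L'.be (f x) (g y) (g y') = L.be x y y') := by
  obtain ⟨f, hf0, -, hf2⟩ := uniq_h hS L L' v w v' w' h
  obtain ⟨g, hg0, -, hg2⟩ := uniq_h hT L.swp L'.swp w v w' v' h
  have hf3 : ∀ x y, S.Adj x y → S'.Adj (f x) (f y) ∧ L'.al (f x) (f y) (g w) = L.al x y w := by
    intro x y hxy
    rw [hg0]
    exact hf2 x y hxy
  have hg3 : ∀ x y, T.Adj x y → T'.Adj (g x) (g y) ∧ L'.be (f v) (g x) (g y) = L.be v x y := by
    intro x y hxy
    rw [hf0]
    exact hg2 x y hxy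
  obtain ⟨h1, h2⟩ := uniq_all hS hT L L' f g v w hf3 hg3
  refine ⟨f, g, hf0, hg0, fun x y hxy => (hf3 x y hxy).1, fun x y hxy => (hg3 x y hxy).1, ?_,
    h1, h2⟩
  exact uniq_p hS hT L L' f g v w (by rw [hf0, hg0, h]) (fun x y hxy => (hf3 x y hxy).1)
    (fun x y hxy => (hg3 x y hxy).1) h1 h2

/-- (5.3) -/
theorem lp_uniq (hX : Valid X) (hS : S.IsTree) (hT : T.IsTree) (hS' : S'.IsTree) (hT' : T'.IsTree)
    (L : LP X S T) (L' : LP X S' T') (v : V) (w : W) (v' : V') (w' : W')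
    (h : L.p v w = L'.p v' w') :
    ∃ (f : V ≃ V') (g : W ≃ W'), f v = v' ∧ g w = w' ∧
      (∀ x y, S.Adj x y ↔ S'.Adj (f x) (f y)) ∧ (∀ x y, T.Adj x y ↔ T'.Adj (g x) (g y)) ∧
      (∀ x y, L'.p (f x) (g y) = L.p x y) ∧
      (∀ x x' y, S.Adj x x' → L'.al (f x) (f x') (g y) = L.al x x' y) ∧
      (∀ x y y', T.Adj y y' → L'.be (f x) (g y) (g y') = L.be x y y') := by
  obtain ⟨f, g, hf0, hg0, hf, hg, hp, hal, hbe⟩ := uniq_half hS hT L L' v w v' w' h
  obtain ⟨f', g', hf0', hg0', hf', hg', hp', hal', hbe'⟩ :=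
    uniq_half hS' hT' L' L v' w' v w h.symm
  obtain ⟨r1, r2⟩ := lp_rigid hS.connected hT.connected L (fun x => f' (f x)) (fun y => g' (g y))
    (fun x y hxy => hf' _ _ (hf _ _ hxy)) (fun x y hxy => hg' _ _ (hg _ _ hxy))
    (fun x x' y hxx => by rw [hal' _ _ _ (hf _ _ hxx), hal _ _ _ hxx])
    (fun x y y' hyy => by rw [hbe' _ _ _ (hg _ _ hyy), hbe _ _ _ hyy]) v w
    (by rw [hf0, hf0']) (by rw [hg0, hg0'])
  obtain ⟨r3, r4⟩ := lp_rigid hS'.connected hT'.connected L' (fun x => f (f' x))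
    (fun y => g (g' y))
    (fun x y hxy => hf _ _ (hf' _ _ hxy)) (fun x y hxy => hg _ _ (hg' _ _ hxy))
    (fun x x' y hxx => by rw [hal _ _ _ (hf' _ _ hxx), hal' _ _ _ hxx])
    (fun x y y' hyy => by rw [hbe _ _ _ (hg' _ _ hyy), hbe' _ _ _ hyy]) v' w'
    (by rw [hf0', hf0]) (by rw [hg0', hg0])
  refine ⟨⟨f, f', r1, r3⟩, ⟨g, g', r2, r4⟩, hf0, hg0, ?_, ?_, hp, hal, hbe⟩
  · intro x y
    refine ⟨hf x y, fun hxy => ?_⟩
    have := hf' _ _ hxy
    simp only [Equiv.coe_fn_mk] at this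
    rwa [r1, r1] at this
  · intro x y
    refine ⟨hg x y, fun hxy => ?_⟩
    have := hg' _ _ hxy
    simp only [Equiv.coe_fn_mk] at this
    rwa [r2, r2] at this

end UNIQ

end LatIso
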